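import Pool.Agent.Work.PNT70.PNT

/-!
# Sums of `log p / p`
-/

open Filter Topology Chebyshev ArithmeticFunction

namespace Pool.Agent.Work.MP_b29d7f_nt

/-- Mertens' upper bound, crude form -/
theorem mertens_upper (n : ℕ) (hn : 1 ≤ n) :
    ∑ p ∈ n.primesLE, Real.log p / p ≤ Real.log n + Real.log 4 := by
  classical
  have hnpos : (0 : ℝ) < n := by exact_mod_cast hn
  have hdvd : ∏ p ∈ n.primesLE, p ^ (n / p) ∣ n.factorial := by
    refine Finset.prod_dvd_of_isRelPrime ?_ ?_
    · intro p hp q hq hpq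
      rw [Function.onFun, ← Nat.coprime_iff_isRelPrime]
      apply Nat.Coprime.pow
      exact (Nat.coprime_primes (Nat.prime_of_mem_primesLE hp) (Nat.prime_of_mem_primesLE hq)).mpr hpq
    · intro p hp
      have hpp := Nat.prime_of_mem_primesLE hp
      rw [Nat.Prime.pow_dvd_factorial_iff hpp (b := Nat.log p n + 2) (by omega)]
      calc n / p = n / p ^ 1 := by rw [pow_one]
        _ ≤ _ := Finset.single_le_sum (f := fun i => n / p ^ i) (fun _ _ => Nat.zero_le _)
            (Finset.mem_Ico.mpr ⟨le_rfl, by omega⟩)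
  have hle := Nat.le_of_dvd (Nat.factorial_pos n) hdvd
  have hfac : Real.log (n.factorial : ℝ) ≤ n * Real.log n := by
    have h1 : (n.factorial : ℝ) ≤ (n : ℝ) ^ n := by exact_mod_cast Nat.factorial_le_pow n
    calc Real.log (n.factorial : ℝ) ≤ Real.log ((n : ℝ) ^ n) :=
          Real.log_le_log (by exact_mod_cast Nat.factorial_pos n) h1
      _ = _ := by rw [Real.log_pow]
  have hprod : ∑ p ∈ n.primesLE, ((n / p : ℕ) : ℝ) * Real.log p ≤ n * Real.log n := by
    have h1 : ((∏ p ∈ n.primesLE, p ^ (n / p) : ℕ) : ℝ) ≤ (n.factorial : ℝ) := by exact_mod_cast hle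
    have h2 : Real.log ((∏ p ∈ n.primesLE, p ^ (n / p) : ℕ) : ℝ) =
        ∑ p ∈ n.primesLE, ((n / p : ℕ) : ℝ) * Real.log p := by
      push_cast
      rw [Real.log_prod]
      · refine Finset.sum_congr rfl fun p _ => ?_
        rw [Real.log_pow]
      · intro p hp
        have := (Nat.prime_of_mem_primesLE hp).pos
        positivity
    rw [← h2]
    refine (Real.log_le_log ?_ h1).trans hfac
    have : 0 < ∏ p ∈ n.primesLE, p ^ (n / p) := by
      refine Finset.prod_pos fun p hp => ?_
      exact pow_pos (Nat.prime_of_mem_primesLE hp).pos _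
    exact_mod_cast this
  have htheta : ∑ p ∈ n.primesLE, Real.log p ≤ Real.log 4 * n := by
    rw [← theta_eq_sum_primesLE_log]
    exact theta_le_log4_mul_x (Nat.cast_nonneg n)
  have hmain : (n : ℝ) * ∑ p ∈ n.primesLE, Real.log p / p ≤ n * (Real.log n + Real.log 4) := by
    calc (n : ℝ) * ∑ p ∈ n.primesLE, Real.log p / p
        = ∑ p ∈ n.primesLE, ((n : ℝ) / p) * Real.log p := by
          rw [Finset.mul_sum]
          refine Finset.sum_congr rfl fun p _ => ?_
          ring
      _ ≤ ∑ p ∈ n.primesLE, (((n / p : ℕ) : ℝ) * Real.log p + Real.log p) := by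
          refine Finset.sum_le_sum fun p hp => ?_
          have hpp := Nat.prime_of_mem_primesLE hp
          have hppos : (0 : ℝ) < p := by exact_mod_cast hpp.pos
          have hlog : 0 ≤ Real.log p := Real.log_nonneg (by exact_mod_cast hpp.one_lt.le)
          have h1 : (n : ℝ) / p ≤ ((n / p : ℕ) : ℝ) + 1 := by
            rw [div_le_iff₀ hppos]
            have h2 : n < (n / p + 1) * p := by
              have := Nat.div_add_mod n p
              have := Nat.mod_lt n hpp.pos
              nlinarith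
            have h3 : (n : ℝ) < (((n / p : ℕ) : ℝ) + 1) * p := by exact_mod_cast h2
            exact h3.le
          nlinarith
      _ = (∑ p ∈ n.primesLE, ((n / p : ℕ) : ℝ) * Real.log p) + ∑ p ∈ n.primesLE, Real.log p :=
          Finset.sum_add_distrib
      _ ≤ n * Real.log n + Real.log 4 * n := add_le_add hprod htheta
      _ = _ := by ring
  exact le_of_mul_le_mul_left hmain hnpos

/-- primes `≤ n` in the class `a` -/
noncomputable def primesIn {q : ℕ} (a : ZMod q) (n : ℕ) : Finset ℕ := by
  classical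
  exact n.primesLE.filter fun p : ℕ => (p : ZMod q) = a

open scoped Classical in
theorem mem_primesIn {q : ℕ} (a : ZMod q) (n p : ℕ) :
    p ∈ primesIn a n ↔ (p ≤ n ∧ p.Prime) ∧ (p : ZMod q) = a := by
  unfold primesIn
  rw [Finset.mem_filter, Nat.mem_primesLE]

theorem theta_class_tendsto {q : ℕ} [NeZero q] {a : ZMod q} (ha : IsUnit a) :
    Tendsto (fun n : ℕ => (∑ p ∈ primesIn a n, Real.log p) / n) atTop
      (𝓝 ((q.totient : ℝ)⁻¹)) := by
  classical
  have h1 := (Pool.Agent.Work.PNT70.pnt_ap ha).comp tendsto_natCast_atTop_atTop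
  have h2 : Tendsto (fun n : ℕ => (ψ (n : ℝ) - θ (n : ℝ)) / n) atTop (𝓝 0) := by
    obtain ⟨C, hC⟩ := psi_sub_theta_le_mul_sqrt
    have h3 : Tendsto (fun n : ℕ => C * (1 / √(n : ℝ))) atTop (𝓝 (C * 0)) := by
      refine Tendsto.const_mul _ ?_
      have h4 : Tendsto (fun n : ℕ => √(n : ℝ)) atTop atTop :=
        Real.tendsto_sqrt_atTop.comp tendsto_natCast_atTop_atTop
      refine h4.inv_tendsto_atTop.congr fun n => ?_
      simp
    rw [mul_zero] at h3
    refine squeeze_zero' ?_ ?_ h3
    · filter_upwards with n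
      exact div_nonneg (sub_nonneg.mpr (theta_le_psi _)) (Nat.cast_nonneg n)
    · filter_upwards [eventually_gt_atTop 0] with n hn
      have hnpos : (0 : ℝ) < n := by exact_mod_cast hn
      have hs : √(n : ℝ) * √(n : ℝ) = n := Real.mul_self_sqrt hnpos.le
      have hspos : 0 < √(n : ℝ) := Real.sqrt_pos.mpr hnpos
      rw [div_le_iff₀ hnpos]
      have h5 : C * (1 / √(n : ℝ)) * n = C * √(n : ℝ) := by
        field_simp
        rw [sq, hs]
      rw [h5]
      exact hC _
  have h3 : Tendsto (fun n : ℕ => ((∑ k ∈ Finset.Icc 1 ⌊(n : ℝ)⌋₊, vonMangoldt.residueClass a k) -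
      ∑ p ∈ primesIn a n, Real.log p) / n) atTop (𝓝 0) := by
    refine squeeze_zero ?_ ?_ h2
    · intro n
      refine div_nonneg (sub_nonneg.mpr ?_) (Nat.cast_nonneg n)
      rw [Nat.floor_natCast]
      have h4 : ∑ p ∈ primesIn a n, Real.log p = ∑ p ∈ primesIn a n, vonMangoldt.residueClass a p := by
        refine Finset.sum_congr rfl fun p hp => ?_
        rw [mem_primesIn] at hp
        simp only [vonMangoldt.residueClass, Set.indicator_apply, Set.mem_ofPred_eq]
        rw [if_pos hp.2, vonMangoldt_apply_prime hp.1.2]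
      rw [h4]
      refine Finset.sum_le_sum_of_subset_of_nonneg ?_ fun k _ _ => vonMangoldt.residueClass_nonneg a k
      intro p hp
      rw [mem_primesIn] at hp
      rw [Finset.mem_Icc]
      exact ⟨hp.1.2.one_le, hp.1.1⟩
    · intro n
      refine div_le_div_of_nonneg_right ?_ (Nat.cast_nonneg n)
      rw [Nat.floor_natCast, psi_sub_theta_eq_sum_not_prime, Nat.floor_natCast]
      have h4 : ∑ k ∈ Finset.Icc 1 n, vonMangoldt.residueClass a k =
          ∑ k ∈ Finset.Icc 1 n with k.Prime, vonMangoldt.residueClass a k +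
          ∑ k ∈ Finset.Icc 1 n with ¬ k.Prime, vonMangoldt.residueClass a k :=
        (Finset.sum_filter_add_sum_filter_not _ _ _).symm
      have h5 : ∑ k ∈ Finset.Icc 1 n with k.Prime, vonMangoldt.residueClass a k =
          ∑ p ∈ primesIn a n, Real.log p := by
        have h6 : primesIn a n = ((Finset.Icc 1 n).filter Nat.Prime).filter
            fun p : ℕ => (p : ZMod q) = a := by
          ext p
          rw [mem_primesIn, Finset.mem_filter, Finset.mem_filter, Finset.mem_Icc]
          constructor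
          · rintro ⟨⟨h1, h2⟩, h3⟩; exact ⟨⟨⟨h2.one_le, h1⟩, h2⟩, h3⟩
          · rintro ⟨⟨⟨_, h1⟩, h2⟩, h3⟩; exact ⟨⟨h1, h2⟩, h3⟩
        rw [h6, Finset.sum_filter (p := fun p : ℕ => (p : ZMod q) = a)]
        refine Finset.sum_congr rfl fun p hp => ?_
        rw [Finset.mem_filter] at hp
        simp only [vonMangoldt.residueClass, Set.indicator_apply, Set.mem_ofPred_eq]
        rw [vonMangoldt_apply_prime hp.2]
      rw [h4, h5, add_sub_cancel_left]
      have h7 : Finset.Icc 1 n = Finset.Ioc 0 n := by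
        ext k; rw [Finset.mem_Icc, Finset.mem_Ioc]; omega
      rw [h7]
      exact Finset.sum_le_sum fun k _ => vonMangoldt.residueClass_le a k
  have h4 := h1.sub h3
  rw [sub_zero] at h4
  refine h4.congr ?_
  intro n
  simp only [Function.comp]
  ring

/-- **lower bound for primes in a class** -/
theorem mertens_lower {q : ℕ} [NeZero q] {a : ZMod q} (ha : IsUnit a) :
    ∃ c C : ℝ, 0 < c ∧ ∀ n : ℕ, 1 ≤ n → c * Real.log n - C ≤ ∑ p ∈ primesIn a n, Real.log p / p := by
  classical
  set κ : ℝ := (q.totient : ℝ)⁻¹ with hκ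
  have hκpos : 0 < κ := by
    rw [hκ]
    have : 0 < q.totient := Nat.totient_pos.mpr (NeZero.pos q)
    positivity
  have ht := theta_class_tendsto ha
  have ht2 : Tendsto (fun n : ℕ => (∑ p ∈ primesIn a (2 * n), Real.log p) / ((2 * n : ℕ) : ℝ)) atTop
      (𝓝 κ) := by
    have h : Tendsto (fun n : ℕ => 2 * n) atTop atTop :=
      tendsto_id.const_mul_atTop' (by norm_num)
    exact ht.comp h
  have hdiff : Tendsto (fun n : ℕ => 2 * ((∑ p ∈ primesIn a (2 * n), Real.log p) / ((2 * n : ℕ) : ℝ))
      - (∑ p ∈ primesIn a n, Real.log p) / n) atTop (𝓝 (2 * κ - κ)) := (ht2.const_mul 2).sub ht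
  have hev : ∀ᶠ n : ℕ in atTop, κ / 2 < 2 * ((∑ p ∈ primesIn a (2 * n), Real.log p) /
      ((2 * n : ℕ) : ℝ)) - (∑ p ∈ primesIn a n, Real.log p) / n :=
    hdiff.eventually (lt_mem_nhds (by linarith))
  obtain ⟨n₀, hn₀⟩ := eventually_atTop.mp hev
  set F : ℕ → ℝ := fun n => ∑ p ∈ primesIn a n, Real.log p / p with hF
  have hmono : Monotone F := by
    intro m n hmn
    refine Finset.sum_le_sum_of_subset_of_nonneg ?_ ?_
    · intro p hp
      rw [mem_primesIn] at hp ⊢
      exact ⟨⟨hp.1.1.trans hmn, hp.1.2⟩, hp.2⟩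
    · intro p hp _
      rw [mem_primesIn] at hp
      exact div_nonneg (Real.log_nonneg (by exact_mod_cast hp.1.2.one_lt.le)) (Nat.cast_nonneg _)
  have hF0 : ∀ n, 0 ≤ F n := by
    intro n
    refine Finset.sum_nonneg fun p hp => ?_
    rw [mem_primesIn] at hp
    exact div_nonneg (Real.log_nonneg (by exact_mod_cast hp.1.2.one_lt.le)) (Nat.cast_nonneg _)
  have hstep : ∀ n : ℕ, n₀ ≤ n → 0 < n → F n + κ / 4 ≤ F (2 * n) := by
    intro n hn hnpos
    have hnr : (0 : ℝ) < n := by exact_mod_cast hnpos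
    have hsub : primesIn a n ⊆ primesIn a (2 * n) := by
      intro p hp
      rw [mem_primesIn] at hp ⊢
      exact ⟨⟨by omega, hp.1.2⟩, hp.2⟩
    have h1 := hn₀ n hn
    have h2 : 2 * ((∑ p ∈ primesIn a (2 * n), Real.log p) / ((2 * n : ℕ) : ℝ)) -
        (∑ p ∈ primesIn a n, Real.log p) / n =
        (∑ p ∈ primesIn a (2 * n) \ primesIn a n, Real.log p) / n := by
      rw [← Finset.sum_sdiff hsub]
      push_cast
      field_simp
      ring
    rw [h2, lt_div_iff₀ hnr] at h1
    have h3 : F (2 * n) = (∑ p ∈ primesIn a (2 * n) \ primesIn a n, Real.log p / p) + F n := by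
      rw [hF]
      exact (Finset.sum_sdiff hsub).symm
    have h4 : (∑ p ∈ primesIn a (2 * n) \ primesIn a n, Real.log p) / (2 * n) ≤
        ∑ p ∈ primesIn a (2 * n) \ primesIn a n, Real.log p / p := by
      rw [Finset.sum_div]
      refine Finset.sum_le_sum fun p hp => ?_
      rw [Finset.mem_sdiff, mem_primesIn] at hp
      have hpp := hp.1.1.2
      have hppos : (0 : ℝ) < p := by exact_mod_cast hpp.pos
      have hple : (p : ℝ) ≤ 2 * n := by exact_mod_cast hp.1.1.1
      exact div_le_div_of_nonneg_left (Real.log_nonneg (by exact_mod_cast hpp.one_lt.le)) hppos hple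
    have h5 : κ / 4 ≤ (∑ p ∈ primesIn a (2 * n) \ primesIn a n, Real.log p) / (2 * n) := by
      rw [le_div_iff₀ (by positivity)]
      linarith
    linarith
  -- dyadic iteration
  set m₀ := n₀ + 1 with hm₀
  have hpow : ∀ j : ℕ, j * (κ / 4) ≤ F (2 ^ j * m₀) := by
    intro j
    induction j with
    | zero => simpa using hF0 _
    | succ j ih =>
      have h1 := hstep (2 ^ j * m₀) (by
        have : 1 ≤ 2 ^ j := Nat.one_le_two_pow
        nlinarith) (by positivity)
      rw [show 2 ^ (j + 1) * m₀ = 2 * (2 ^ j * m₀) by rw [pow_succ]; ring]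
      push_cast
      linarith
  refine ⟨κ / (4 * Real.log 2), κ / 4 * (1 + Real.log m₀ / Real.log 2), ?_, ?_⟩
  · have := Real.log_pos (show (1 : ℝ) < 2 by norm_num)
    positivity
  · intro n hn
    have hlog2 : 0 < Real.log 2 := Real.log_pos (by norm_num)
    have hnr : (0 : ℝ) < n := by exact_mod_cast hn
    by_cases hlt : n < m₀
    · have h1 : Real.log n ≤ Real.log m₀ := Real.log_le_log hnr (by exact_mod_cast hlt.le)
      have h2 := hF0 n
      have h3 : κ / (4 * Real.log 2) * Real.log n ≤ κ / (4 * Real.log 2) * Real.log m₀ :=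
        mul_le_mul_of_nonneg_left h1 (by positivity)
      have h4 : κ / 4 * (1 + Real.log m₀ / Real.log 2) =
          κ / 4 + κ / (4 * Real.log 2) * Real.log m₀ := by
        field_simp
      change _ ≤ F n
      linarith
    · push Not at hlt
      have hm₀pos : 0 < m₀ := by omega
      set j := Nat.log 2 (n / m₀) with hj
      have hdiv : n / m₀ ≠ 0 := by
        have := Nat.div_pos hlt hm₀pos
        omega
      have h1 : 2 ^ j ≤ n / m₀ := Nat.pow_log_le_self 2 hdiv
      have h2 : 2 ^ j * m₀ ≤ n := (Nat.mul_le_mul_right _ h1).trans (Nat.div_mul_le_self n m₀)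
      have h3 : n / m₀ < 2 ^ (j + 1) := Nat.lt_pow_succ_log_self (by norm_num) _
      have h4 : n < 2 ^ (j + 1) * m₀ := by
        rw [Nat.div_lt_iff_lt_mul hm₀pos] at h3
        exact h3
      have h5 : Real.log n ≤ (j + 1) * Real.log 2 + Real.log m₀ := by
        have hm₀r : (0 : ℝ) < m₀ := by exact_mod_cast hm₀pos
        have h6 : (n : ℝ) ≤ 2 ^ (j + 1) * m₀ := by exact_mod_cast h4.le
        calc Real.log n ≤ Real.log (2 ^ (j + 1) * m₀) := Real.log_le_log hnr h6
          _ = _ := by
            rw [Real.log_mul (by positivity) (by positivity), Real.log_pow]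
            push_cast; ring
      have h6 := hpow j
      have h7 := hmono h2
      change _ ≤ F n
      have h8 : κ / (4 * Real.log 2) * Real.log n ≤
          κ / (4 * Real.log 2) * ((j + 1) * Real.log 2 + Real.log m₀) :=
        mul_le_mul_of_nonneg_left h5 (by positivity)
      have h9 : κ / (4 * Real.log 2) * ((j + 1) * Real.log 2 + Real.log m₀) =
          j * (κ / 4) + κ / 4 * (1 + Real.log m₀ / Real.log 2) := by
        field_simp
        ring
      linarith

end Pool.Agent.Work.MP_b29d7f_nt
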