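import Mathlib

/-!
# The archimedean lower bound
-/

open Polynomial

namespace Pool.Agent.Work.MP_b29d7f_nt

/-- the product of `m` distinct nonzero integers is at least `m! / 2 ^ m` -/
theorem prod_natAbs_ge (m : ℕ) : ∀ G : Finset ℤ, G.card = m → (∀ n ∈ G, n ≠ 0) →
    (m.factorial : ℝ) ≤ 2 ^ m * ∏ n ∈ G, |(n : ℝ)| := by
  induction m with
  | zero =>
    intro G hG _
    rw [Finset.card_eq_zero] at hG
    subst hG
    simp
  | succ m ih =>
    intro G hG h0
    have hne : G.Nonempty := by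
      rw [← Finset.card_pos, hG]; omega
    obtain ⟨n₀, hn₀, hmax⟩ := G.exists_max_image (fun n : ℤ => n.natAbs) hne
    have hsub : G ⊆ ((Finset.Icc (-(n₀.natAbs : ℤ)) n₀.natAbs).erase 0) := by
      intro n hn
      rw [Finset.mem_erase, Finset.mem_Icc]
      have := hmax n hn
      refine ⟨h0 n hn, by omega, by omega⟩
    have hcard := Finset.card_le_card hsub
    rw [Finset.card_erase_of_mem (by simp), Int.card_Icc, hG] at hcard
    have h1 : m + 1 ≤ 2 * n₀.natAbs := by omega
    have h2 := ih (G.erase n₀) (by rw [Finset.card_erase_of_mem hn₀, hG]; omega)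
      (fun n hn => h0 n (Finset.mem_of_mem_erase hn))
    rw [← Finset.mul_prod_erase G _ hn₀]
    have h3 : ((m + 1 : ℕ) : ℝ) ≤ 2 * |(n₀ : ℝ)| := by
      have h4 : ((n₀.natAbs : ℕ) : ℝ) = |(n₀ : ℝ)| := by
        rw [Nat.cast_natAbs]; push_cast; rfl
      rw [← h4]
      exact_mod_cast h1
    calc ((m + 1).factorial : ℝ) = ((m + 1 : ℕ) : ℝ) * (m.factorial : ℝ) := by
          rw [Nat.factorial_succ]; push_cast; ring
      _ ≤ (2 * |(n₀ : ℝ)|) * (2 ^ m * ∏ n ∈ G.erase n₀, |(n : ℝ)|) :=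
          mul_le_mul h3 h2 (by positivity) (by positivity)
      _ = _ := by ring

/-- the product of the distances of `m` distinct integers to a real number from which they all
stay at distance at least `1 / 2` -/
theorem prod_dist_ge (G : Finset ℤ) (r : ℝ) (hG : ∀ n ∈ G, 1 / 2 ≤ |(n : ℝ) - r|) :
    ((G.card - 1).factorial : ℝ) ≤ 4 ^ G.card * ∏ n ∈ G, |(n : ℝ) - r| := by
  classical
  set r₀ : ℤ := round r with hr₀
  have hr : |r - r₀| ≤ 1 / 2 := abs_sub_round r
  -- distances
  have h1 : ∀ n ∈ G, n ≠ r₀ → |((n - r₀ : ℤ) : ℝ)| ≤ 2 * |(n : ℝ) - r| := by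
    intro n hn hne
    have h2 : |((n - r₀ : ℤ) : ℝ)| ≤ |(n : ℝ) - r| + |r - r₀| := by
      have : ((n - r₀ : ℤ) : ℝ) = ((n : ℝ) - r) + (r - r₀) := by push_cast; ring
      rw [this]
      exact abs_add_le _ _
    have h3 := hG n hn
    linarith
  set G' := (G.erase r₀).image fun n => n - r₀ with hG'
  have hinj : Set.InjOn (fun n : ℤ => n - r₀) (G.erase r₀ : Finset ℤ) := by
    intro a _ b _ h
    have : a - r₀ = b - r₀ := h
    omega
  have hcard' : G'.card = (G.erase r₀).card := by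
    rw [hG', Finset.card_image_of_injOn hinj]
  have h0' : ∀ n ∈ G', n ≠ 0 := by
    intro n hn
    rw [hG', Finset.mem_image] at hn
    obtain ⟨a, ha, rfl⟩ := hn
    rw [Finset.mem_erase] at ha
    intro h
    exact ha.1 (by omega)
  have h2 := prod_natAbs_ge G'.card G' rfl h0'
  have h3 : ∏ n ∈ G', |(n : ℝ)| = ∏ n ∈ G.erase r₀, |((n - r₀ : ℤ) : ℝ)| := by
    rw [hG', Finset.prod_image hinj]
  have h4 : ∏ n ∈ G.erase r₀, |((n - r₀ : ℤ) : ℝ)| ≤
      2 ^ (G.erase r₀).card * ∏ n ∈ G.erase r₀, |(n : ℝ) - r| := by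
    rw [← Finset.prod_const, ← Finset.prod_mul_distrib]
    refine Finset.prod_le_prod (fun _ _ => abs_nonneg _) fun n hn => ?_
    rw [Finset.mem_erase] at hn
    exact h1 n hn.2 hn.1
  rw [h3, hcard'] at h2
  have hP : 0 ≤ ∏ n ∈ G.erase r₀, |(n : ℝ) - r| := Finset.prod_nonneg fun _ _ => abs_nonneg _
  have h5 : ((G.erase r₀).card.factorial : ℝ) ≤
      4 ^ (G.erase r₀).card * ∏ n ∈ G.erase r₀, |(n : ℝ) - r| := by
    calc ((G.erase r₀).card.factorial : ℝ) ≤ 2 ^ (G.erase r₀).card *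
          ∏ n ∈ G.erase r₀, |((n - r₀ : ℤ) : ℝ)| := h2
      _ ≤ 2 ^ (G.erase r₀).card * (2 ^ (G.erase r₀).card * ∏ n ∈ G.erase r₀, |(n : ℝ) - r|) :=
          mul_le_mul_of_nonneg_left h4 (by positivity)
      _ = _ := by rw [← mul_assoc, ← mul_pow]; norm_num
  by_cases hmem : r₀ ∈ G
  · rw [← Finset.mul_prod_erase G _ hmem]
    rw [Finset.card_erase_of_mem hmem] at h5
    have h6 := hG r₀ hmem
    have hpos : 0 < G.card := Finset.card_pos.mpr ⟨_, hmem⟩
    have h7 : (4 : ℝ) ^ G.card = 4 ^ (G.card - 1) * 4 := by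
      rw [← pow_succ, Nat.sub_add_cancel hpos]
    rw [h7]
    calc ((G.card - 1).factorial : ℝ) ≤ 4 ^ (G.card - 1) * ∏ n ∈ G.erase r₀, |(n : ℝ) - r| := h5
      _ = (4 ^ (G.card - 1) * ∏ n ∈ G.erase r₀, |(n : ℝ) - r|) * 1 := by ring
      _ ≤ (4 ^ (G.card - 1) * ∏ n ∈ G.erase r₀, |(n : ℝ) - r|) * (4 * |(r₀ : ℝ) - r|) :=
          mul_le_mul_of_nonneg_left (by linarith) (by positivity)
      _ = _ := by ring
  · rw [Finset.erase_eq_of_notMem hmem] at h5
    refine le_trans ?_ h5
    exact_mod_cast Nat.factorial_le (Nat.sub_le _ _)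

/-- **lower bound for products of values of a polynomial** -/
theorem prod_values_ge (f : ℤ[X]) (y : ℤ) (A : Finset ℤ) (hA : ∀ n ∈ A, f.eval n ≠ y)
    (hd : 0 < f.natDegree) (hcard : f.natDegree ≤ A.card) :
    (((A.card - f.natDegree - 1).factorial : ℝ) / 4 ^ (A.card - f.natDegree)) ^ f.natDegree ≤
      ∏ n ∈ A, |((f.eval n - y : ℤ) : ℝ)| := by
  classical
  set d := f.natDegree with hdd
  set g : ℂ[X] := (f - C y).map (Int.castRingHom ℂ) with hg
  have hgd : g.natDegree = d := by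
    rw [hg, natDegree_map_eq_of_injective (Int.castRingHom ℂ).injective_int, natDegree_sub_C]
  have hg0 : g ≠ 0 := by
    intro h
    rw [h, natDegree_zero] at hgd
    omega
  have hgeval : ∀ n : ℤ, g.eval (n : ℂ) = ((f.eval n - y : ℤ) : ℂ) := by
    intro n
    rw [hg, Polynomial.eval_intCast_map]
    simp
  have hsplit : g.Splits := IsAlgClosed.splits g
  have hroots : Multiset.card g.roots = d := by
    rw [← hgd]
    exact hsplit.natDegree_eq_card_roots.symm
  have hlc : 1 ≤ ‖g.leadingCoeff‖ := by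
    have h1 : g.leadingCoeff = (((f - C y).leadingCoeff : ℤ) : ℂ) := by
      rw [hg, leadingCoeff_map_of_injective (Int.castRingHom ℂ).injective_int]
      rfl
    rw [h1]
    have h2 : (f - C y).leadingCoeff ≠ 0 := by
      rw [Ne, leadingCoeff_eq_zero]
      intro h
      apply hg0
      rw [hg, h, Polynomial.map_zero]
    rw [Complex.norm_intCast]
    exact_mod_cast Int.one_le_abs h2
  have hnorm : ∀ n : ℤ, (g.roots.map fun ρ => |(n : ℝ) - ρ.re|).prod ≤
      |((f.eval n - y : ℤ) : ℝ)| := by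
    intro n
    have h1 : |((f.eval n - y : ℤ) : ℝ)| = ‖g.eval (n : ℂ)‖ := by
      rw [hgeval, Complex.norm_intCast]
    have h2 : g.eval (n : ℂ) = g.leadingCoeff * (g.roots.map fun ρ => (n : ℂ) - ρ).prod :=
      hsplit.eval_eq_prod_roots _
    rw [h1, h2, norm_mul]
    have h3 : ‖(g.roots.map fun ρ => (n : ℂ) - ρ).prod‖ =
        (g.roots.map fun ρ => ‖(n : ℂ) - ρ‖).prod := by
      have := map_multiset_prod (normHom : ℂ →*₀ ℝ) (g.roots.map fun ρ => (n : ℂ) - ρ)
      rw [Multiset.map_map] at this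
      exact this
    have h4 : (g.roots.map fun ρ => |(n : ℝ) - ρ.re|).prod ≤
        (g.roots.map fun ρ => ‖(n : ℂ) - ρ‖).prod := by
      refine Multiset.prod_map_le_prod_map₀ _ _ (fun _ _ => abs_nonneg _) fun ρ _ => ?_
      have := Complex.abs_re_le_norm ((n : ℂ) - ρ)
      simpa using this
    rw [h3]
    have h5 : 0 ≤ (g.roots.map fun ρ => ‖(n : ℂ) - ρ‖).prod := by
      refine Multiset.prod_nonneg ?_
      intro a ha
      rw [Multiset.mem_map] at ha
      obtain ⟨ρ, _, rfl⟩ := ha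
      exact norm_nonneg _
    nlinarith
  -- bad arguments
  set Bad : Finset ℤ := g.roots.toFinset.biUnion fun ρ => A.filter fun n => |(n : ℝ) - ρ.re| < 1 / 2
    with hBad
  have hBadA : Bad ⊆ A := by
    intro n hn
    rw [hBad, Finset.mem_biUnion] at hn
    obtain ⟨ρ, _, hn⟩ := hn
    exact (Finset.mem_filter.mp hn).1
  have hBadcard : Bad.card ≤ d := by
    rw [hBad]
    refine Finset.card_biUnion_le.trans ?_
    calc ∑ ρ ∈ g.roots.toFinset, (A.filter fun n : ℤ => |(n : ℝ) - ρ.re| < 1 / 2).card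
        ≤ ∑ ρ ∈ g.roots.toFinset, 1 := by
          refine Finset.sum_le_sum fun ρ _ => ?_
          rw [Finset.card_le_one]
          intro a ha b hb
          rw [Finset.mem_filter] at ha hb
          have h1 : |((a - b : ℤ) : ℝ)| < 1 := by
            have : ((a - b : ℤ) : ℝ) = ((a : ℝ) - ρ.re) - ((b : ℝ) - ρ.re) := by push_cast; ring
            rw [this]
            refine (abs_sub _ _).trans_lt ?_
            linarith [ha.2, hb.2]
          have h2 : |a - b| < 1 := by exact_mod_cast h1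
          have h3 := Int.abs_lt_one_iff.mp h2
          omega
      _ = g.roots.toFinset.card := by simp
      _ ≤ Multiset.card g.roots := Multiset.toFinset_card_le _
      _ = d := hroots
  obtain ⟨B, hB1, hB2, hB3⟩ : ∃ B, Bad ⊆ B ∧ B ⊆ A ∧ B.card = d :=
    Finset.exists_subsuperset_card_eq hBadA hBadcard hcard
  have hGcard : (A \ B).card = A.card - d := by
    rw [Finset.card_sdiff_of_subset hB2, hB3]
  rw [← Finset.prod_sdiff hB2]
  have hone : (1 : ℝ) ≤ ∏ n ∈ B, |((f.eval n - y : ℤ) : ℝ)| := by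
    calc (1 : ℝ) = ∏ n ∈ B, (1 : ℝ) := by simp
      _ ≤ _ := by
        refine Finset.prod_le_prod (fun _ _ => zero_le_one) ?_
        intro n hn
        have : f.eval n - y ≠ 0 := sub_ne_zero.mpr (hA n (hB2 hn))
        exact_mod_cast Int.one_le_abs this
  have hgood : (((A.card - d - 1).factorial : ℝ) / 4 ^ (A.card - d)) ^ d ≤
      ∏ n ∈ A \ B, |((f.eval n - y : ℤ) : ℝ)| := by
    calc (((A.card - d - 1).factorial : ℝ) / 4 ^ (A.card - d)) ^ d
        = (g.roots.map fun _ => ((A.card - d - 1).factorial : ℝ) / 4 ^ (A.card - d)).prod := by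
          rw [Multiset.map_const', Multiset.prod_replicate, hroots]
      _ ≤ (g.roots.map fun ρ => ∏ n ∈ A \ B, |(n : ℝ) - ρ.re|).prod := by
          refine Multiset.prod_map_le_prod_map₀ _ _ (fun _ _ => by positivity) fun ρ hρ => ?_
          have h1 := prod_dist_ge (A \ B) ρ.re ?_
          · rw [hGcard] at h1
            rw [div_le_iff₀ (by positivity), mul_comm]
            exact h1
          · intro n hn
            rw [Finset.mem_sdiff] at hn
            by_contra hlt
            push Not at hlt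
            apply hn.2
            apply hB1
            rw [hBad, Finset.mem_biUnion]
            exact ⟨ρ, Multiset.mem_toFinset.mpr hρ, Finset.mem_filter.mpr ⟨hn.1, hlt⟩⟩
      _ = ∏ n ∈ A \ B, (g.roots.map fun ρ => |(n : ℝ) - ρ.re|).prod := by
          exact Multiset.prod_map_prod_map _ _
      _ ≤ ∏ n ∈ A \ B, |((f.eval n - y : ℤ) : ℝ)| := by
          refine Finset.prod_le_prod (fun n _ => ?_) fun n _ => hnorm n
          refine Multiset.prod_nonneg ?_
          intro a ha
          rw [Multiset.mem_map] at ha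
          obtain ⟨ρ, _, rfl⟩ := ha
          exact abs_nonneg _
  have hP : 0 ≤ ∏ n ∈ A \ B, |((f.eval n - y : ℤ) : ℝ)| := Finset.prod_nonneg fun _ _ => abs_nonneg _
  calc _ ≤ ∏ n ∈ A \ B, |((f.eval n - y : ℤ) : ℝ)| := hgood
    _ = (∏ n ∈ A \ B, |((f.eval n - y : ℤ) : ℝ)|) * 1 := (mul_one _).symm
    _ ≤ _ := mul_le_mul_of_nonneg_left hone hP

end Pool.Agent.Work.MP_b29d7f_nt
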