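import Pool.Agent.Work.MP_b29d7f_nt.Good
import Pool.Agent.Work.MP_b29d7f_nt.Arch
import Pool.Agent.Work.MP_b29d7f_nt.Primes

/-!
# Sets of values of polynomials of degree at least three
-/

open Polynomial

namespace Pool.Agent.Work.MP_b29d7f_nt

theorem sum_log_div_sq_bound : ∃ M : ℝ, 0 ≤ M ∧ ∀ s : Finset ℕ,
    ∑ p ∈ s, Real.log p / (p : ℝ) ^ 2 ≤ M := by
  have hsum : Summable fun n : ℕ => 2 * (1 / (n : ℝ) ^ (3 / 2 : ℝ)) :=
    (Real.summable_one_div_nat_rpow.mpr (by norm_num)).mul_left 2
  refine ⟨∑' n : ℕ, 2 * (1 / (n : ℝ) ^ (3 / 2 : ℝ)), tsum_nonneg fun n => by positivity, ?_⟩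
  intro s
  refine le_trans ?_ (hsum.sum_le_tsum s fun n _ => by positivity)
  refine Finset.sum_le_sum fun n _ => ?_
  rcases Nat.eq_zero_or_pos n with rfl | hn
  · simp
  · have hnr : (0 : ℝ) < n := by exact_mod_cast hn
    have h1 := Real.log_le_rpow_div hnr.le (show (0 : ℝ) < 1 / 2 by norm_num)
    rw [div_le_iff₀ (by positivity)]
    have h2 : (n : ℝ) ^ 2 = (n : ℝ) ^ (3 / 2 : ℝ) * (n : ℝ) ^ (1 / 2 : ℝ) := by
      rw [← Real.rpow_add hnr, ← Real.rpow_natCast]
      norm_num
    rw [h2]
    have h3 : 0 < (n : ℝ) ^ (3 / 2 : ℝ) := by positivity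
    calc Real.log n ≤ (n : ℝ) ^ (1 / 2 : ℝ) / (1 / 2) := h1
      _ = _ := by field_simp

/-- log of a natural number in terms of its factorization, over a larger set of primes -/
theorem log_eq_sum (n : ℤ) (hn : n ≠ 0) (s : Finset ℕ) (hs : ∀ p ∈ s, p.Prime)
    (hsub : ∀ p : ℕ, p.Prime → multiplicity (p : ℤ) n ≠ 0 → p ∈ s) :
    Real.log |(n : ℝ)| = ∑ p ∈ s, (multiplicity (p : ℤ) n : ℝ) * Real.log p := by
  have h1 : |(n : ℝ)| = ((n.natAbs : ℕ) : ℝ) := by
    rw [Nat.cast_natAbs]; push_cast; rfl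
  have hn' : n.natAbs ≠ 0 := Int.natAbs_ne_zero.mpr hn
  have hmult : ∀ p : ℕ, p.Prime → multiplicity (p : ℤ) n = n.natAbs.factorization p := by
    intro p hp
    have h2 : multiplicity (p : ℤ) n = multiplicity p n.natAbs := by
      rw [← Int.natAbs_natCast p]
      conv_rhs => rw [Int.natAbs_natCast]
      exact Int.multiplicity_natAbs p n ▸ rfl
    rw [h2, Nat.multiplicity_eq_factorization hp hn']
  rw [h1]
  conv_lhs => rw [← Nat.prod_factorization_pow_eq_self hn']
  rw [Finsupp.prod, Nat.support_factorization]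
  push_cast
  rw [Real.log_prod]
  · rw [← Finset.sum_subset (s₁ := n.natAbs.primeFactors) (s₂ := s)]
    · refine Finset.sum_congr rfl fun p hp => ?_
      rw [hmult p (Nat.prime_of_mem_primeFactors hp), Real.log_pow]
    · intro p hp
      have hpp := Nat.prime_of_mem_primeFactors hp
      refine hsub p hpp ?_
      rw [hmult p hpp]
      exact (hpp.factorization_pos_of_dvd hn' (Nat.dvd_of_mem_primeFactors hp)).ne'
    · intro p hp hnp
      have h3 : n.natAbs.factorization p = 0 := by
        rw [← Nat.support_factorization, Finsupp.notMem_support_iff] at hnp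
        exact hnp
      rw [hmult p (hs p hp), h3]
      simp
  · intro p hp
    have := (Nat.prime_of_mem_primeFactors hp).pos
    positivity

/-- **upper bound** for the products, in terms of `k` -/
theorem upper_bound (f : ℤ[X]) (hd : 3 ≤ f.natDegree) {T S : Set ℤ} (hT : Ample T)
    (hTS : ∀ t ∈ T, f.eval t ∈ S) {a : ℕ → ℤ} (ha : ∀ p : ℕ, p.Prime → IsPOrdering S p a) :
    ∃ c C : ℝ, 0 < c ∧ ∀ k : ℕ, 1 ≤ k →
      Real.log |((V a k (a k) : ℤ) : ℝ)| ≤
        k * (f.natDegree * Real.log k - c * Real.log k + C) := by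
  classical
  obtain ⟨C₀, hC₀⟩ := hT
  set d := f.natDegree with hdd
  have hSinf : S.Infinite := by
    obtain ⟨m, c, hm⟩ := (hC₀ 2 Nat.prime_two).2
    obtain ⟨m', c', h⟩ := exists_Full_image f (by omega) Nat.prime_two hTS m c hm
    exact infinite_of_Full Nat.prime_two h
  -- ball bound for every prime
  have hball : ∀ p : ℕ, p.Prime → ∃ b : ℕ, ∀ k, wp p a k ≤ k * b := by
    intro p hp
    obtain ⟨m, c, hm⟩ := (hC₀ p hp).2
    obtain ⟨m', c', h⟩ := exists_Full_image f (by omega) hp hTS m c hm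
    exact ⟨m' + 1, fun k => wp_ball hSinf hp (ha p hp) k m' c' h⟩
  choose! b hb using hball
  -- constants
  set B := d + C₀ with hB
  set P₀ := 2 * (1 + d * B) + d + f.leadingCoeff.natAbs with hP₀
  set K : ℝ := 4 * d * (2 + d * B) with hK
  have hKnn : 0 ≤ K := by positivity
  obtain ⟨M, hM0, hM⟩ := sum_log_div_sq_bound
  have hdne : NeZero d := ⟨by omega⟩
  obtain ⟨c, C₂, hc, hlow⟩ := mertens_lower (q := d) (a := (-1 : ZMod d)) isUnit_one.neg
  set C₁ : ℝ := ∑ p ∈ P₀.primesLE, (b p : ℝ) * Real.log p with hC₁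
  have hlognn : ∀ n : ℕ, 0 ≤ Real.log n := fun n => Real.log_natCast_nonneg n
  set C₃ : ℝ := ∑ p ∈ P₀.primesLE, Real.log p / p with hC₃
  set X₁ := d * (1 + B) + P₀ with hX₁
  refine ⟨c, C₁ + d * (Real.log X₁ + Real.log 4) + C₂ + C₃ + K * M, hc, ?_⟩
  intro k hk
  have hkr : (1 : ℝ) ≤ k := by exact_mod_cast hk
  -- good primes
  have hgood : ∀ p : ℕ, p.Prime → P₀ < p →
      (wp p a k ≠ 0 → p ≤ d * (k + B)) ∧
      (wp p a k : ℝ) ≤ k * (d / p + K / (p : ℝ) ^ 2) ∧
      (((p : ℕ) : ZMod d) = -1 → (wp p a k : ℝ) ≤ k * ((d - 1) / p + K / (p : ℝ) ^ 2)) := by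
    intro p hp hpP
    obtain ⟨E, hEc, hE⟩ := (hC₀ p hp).1
    have hdp : d < p := by omega
    have hlp : f.leadingCoeff.natAbs < p := by omega
    obtain ⟨R, hR, hRd, hRd'⟩ := good_classes f (by omega) hTS C₀ hp E hEc hE hdp hlp
    have hw := wp_avg hSinf hp (ha p hp) k R hR
    refine ⟨?_, ?_, ?_⟩
    · intro hne
      have h1 : R.card ≤ k := by
        by_contra hlt
        push Not at hlt
        apply hne
        refine wp_eq_zero hSinf hp (ha p hp) k R ?_ hlt
        intro c hc
        obtain ⟨s, hs, hsd⟩ := hR c hc ((c.val : ℕ) : ℤ) (by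
          have : NeZero p := ⟨hp.ne_zero⟩
          push_cast; exact ZMod.natCast_zmod_val c) 1
        refine ⟨s, hs, ?_⟩
        rw [pow_one, ← ZMod.intCast_zmod_eq_zero_iff_dvd] at hsd
        push_cast at hsd
        have : NeZero p := ⟨hp.ne_zero⟩
        rw [ZMod.natCast_zmod_val, sub_eq_zero] at hsd
        exact hsd
      exact hRd.trans (Nat.mul_le_mul_left _ (by omega))
    · have h1 := w_bound (D := d) (B := B) hp.two_le hw ((Nat.sub_le _ _).trans hRd) (by omega)
        (by omega)
      exact h1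
    · intro hpm
      have hnd : ¬ d ∣ p - 1 := by
        intro h1
        have h2 : (((p : ℕ) : ZMod d)) = 1 := by
          have h3 : ((p - 1 : ℕ) : ZMod d) = 0 := (ZMod.natCast_eq_zero_iff _ _).mpr h1
          rw [Nat.cast_sub hp.one_le] at h3
          rw [sub_eq_zero] at h3
          simpa using h3
        rw [h2] at hpm
        have h4 : ((2 : ℕ) : ZMod d) = 0 := by
          have : (1 : ZMod d) + 1 = 0 := by
            nth_rewrite 1 [hpm]
            ring
          push_cast
          rw [← this]; norm_num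
        rw [ZMod.natCast_eq_zero_iff] at h4
        have := Nat.le_of_dvd (by norm_num) h4
        omega
      have h1 := w_bound (D := d - 1) (B := B) hp.two_le hw (hRd' hnd) (by
        have h2 : (d - 1) * B ≤ d * B := Nat.mul_le_mul_right _ (Nat.sub_le _ _)
        omega) (by omega)
      refine h1.trans ?_
      have hppos : (0 : ℝ) < p := by exact_mod_cast hp.pos
      have hcast : ((d - 1 : ℕ) : ℝ) = (d : ℝ) - 1 := by
        rw [Nat.cast_sub (by omega)]; simp
      rw [hcast]
      have hd1 : (0 : ℝ) ≤ (d : ℝ) - 1 := by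
        have : (3 : ℝ) ≤ d := by exact_mod_cast hd
        linarith
      have hBr : (0 : ℝ) ≤ B := Nat.cast_nonneg B
      have h2 : 4 * ((d : ℝ) - 1) * (2 + ((d : ℝ) - 1) * B) ≤ K := by
        rw [hK]
        have h3 : ((d : ℝ) - 1) * B ≤ d * B := by nlinarith
        have h4 : 4 * ((d : ℝ) - 1) ≤ 4 * d := by linarith
        exact mul_le_mul h4 (by linarith) (by positivity) (by positivity)
      have h3 : 4 * ((d : ℝ) - 1) * (2 + ((d : ℝ) - 1) * B) / (p : ℝ) ^ 2 ≤ K / (p : ℝ) ^ 2 :=
        div_le_div_of_nonneg_right h2 (by positivity)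
      exact mul_le_mul_of_nonneg_left (by linarith) (by positivity)
  -- the set of primes
  set X := d * (k + B) + P₀ with hX
  have hP₀X : P₀ ≤ X := by omega
  have hXX₁ : X ≤ k * X₁ := by
    have e1 : k * X₁ = k * d + k * (d * B) + k * P₀ := by rw [hX₁]; ring
    have e2 : X = k * d + d * B + P₀ := by rw [hX]; ring
    have e3 : d * B ≤ k * (d * B) := Nat.le_mul_of_pos_left _ hk
    have e4 : P₀ ≤ k * P₀ := Nat.le_mul_of_pos_left _ hk
    omega
  have hkX : k ≤ X := by
    have : k ≤ d * (k + B) := by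
      calc k ≤ k + B := Nat.le_add_right _ _
        _ ≤ d * (k + B) := Nat.le_mul_of_pos_left _ (by omega)
    omega
  have hX1 : 1 ≤ X := hk.trans hkX
  have hlogsum := log_eq_sum (V a k (a k)) (V_ne_zero hSinf Nat.prime_two (ha 2 Nat.prime_two) k)
    X.primesLE (fun p hp => Nat.prime_of_mem_primesLE hp) (by
      intro p hp hne
      rw [Nat.mem_primesLE]
      refine ⟨?_, hp⟩
      by_cases hle : p ≤ P₀
      · omega
      · push Not at hle
        have := (hgood p hp hle).1 hne
        omega)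
  rw [hlogsum]
  change ∑ p ∈ X.primesLE, (wp p a k : ℝ) * Real.log p ≤ _
  have hsub : P₀.primesLE ⊆ X.primesLE := by
    intro p hp
    rw [Nat.mem_primesLE] at hp ⊢
    exact ⟨hp.1.trans hP₀X, hp.2⟩
  rw [← Finset.sum_sdiff hsub]
  -- small primes
  have hsmall : ∑ p ∈ P₀.primesLE, (wp p a k : ℝ) * Real.log p ≤ k * C₁ := by
    rw [hC₁, Finset.mul_sum]
    refine Finset.sum_le_sum fun p hp => ?_
    have h1 := hb p (Nat.prime_of_mem_primesLE hp) k
    have h2 : (wp p a k : ℝ) ≤ k * b p := by exact_mod_cast h1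
    calc (wp p a k : ℝ) * Real.log p ≤ (k * b p) * Real.log p :=
          mul_le_mul_of_nonneg_right h2 (hlognn p)
      _ = _ := by ring
  -- large primes
  have hlarge : ∑ p ∈ X.primesLE \ P₀.primesLE, (wp p a k : ℝ) * Real.log p ≤
      k * (d * (∑ p ∈ X.primesLE \ P₀.primesLE, Real.log p / p) -
        (∑ p ∈ (X.primesLE \ P₀.primesLE).filter (fun p : ℕ => (p : ZMod d) = -1), Real.log p / p)
        + K * ∑ p ∈ X.primesLE \ P₀.primesLE, Real.log p / (p : ℝ) ^ 2) := by
    rw [Finset.sum_filter, Finset.mul_sum, Finset.mul_sum, ← Finset.sum_sub_distrib,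
      ← Finset.sum_add_distrib, Finset.mul_sum]
    refine Finset.sum_le_sum fun p hp => ?_
    rw [Finset.mem_sdiff, Nat.mem_primesLE, Nat.mem_primesLE] at hp
    have hpp := hp.1.2
    have hpP : P₀ < p := by
      by_contra hle
      push Not at hle
      exact hp.2 ⟨hle, hpp⟩
    obtain ⟨_, h2, h3⟩ := hgood p hpp hpP
    by_cases hpm : (p : ZMod d) = -1
    · rw [if_pos hpm]
      calc (wp p a k : ℝ) * Real.log p ≤ (k * (((d : ℝ) - 1) / p + K / (p : ℝ) ^ 2)) * Real.log p :=
            mul_le_mul_of_nonneg_right (h3 hpm) (hlognn p)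
        _ = _ := by ring
    · rw [if_neg hpm]
      calc (wp p a k : ℝ) * Real.log p ≤ (k * ((d : ℝ) / p + K / (p : ℝ) ^ 2)) * Real.log p :=
            mul_le_mul_of_nonneg_right h2 (hlognn p)
        _ = _ := by ring
  have hA : ∑ p ∈ X.primesLE \ P₀.primesLE, Real.log p / p ≤ Real.log X + Real.log 4 := by
    refine le_trans ?_ (mertens_upper X hX1)
    refine Finset.sum_le_sum_of_subset_of_nonneg Finset.sdiff_subset fun p _ _ => ?_
    exact div_nonneg (hlognn p) (Nat.cast_nonneg p)
  have hBsum : c * Real.log X - C₂ - C₃ ≤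
      ∑ p ∈ (X.primesLE \ P₀.primesLE).filter (fun p : ℕ => (p : ZMod d) = -1), Real.log p / p := by
    have h1 := hlow X hX1
    have h2 : ∑ p ∈ primesIn (-1 : ZMod d) X, Real.log p / p ≤
        ∑ p ∈ (X.primesLE \ P₀.primesLE).filter (fun p : ℕ => (p : ZMod d) = -1), Real.log p / p
        + C₃ := by
      rw [hC₃]
      calc ∑ p ∈ primesIn (-1 : ZMod d) X, Real.log p / p
          ≤ ∑ p ∈ ((X.primesLE \ P₀.primesLE).filter (fun p : ℕ => (p : ZMod d) = -1)) ∪
              P₀.primesLE, Real.log p / p := by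
            refine Finset.sum_le_sum_of_subset_of_nonneg ?_ fun p _ _ =>
              div_nonneg (hlognn p) (Nat.cast_nonneg p)
            intro p hp
            rw [mem_primesIn] at hp
            rw [Finset.mem_union, Finset.mem_filter, Finset.mem_sdiff, Nat.mem_primesLE]
            by_cases h : p ∈ P₀.primesLE
            · right; exact h
            · left; exact ⟨⟨hp.1, h⟩, hp.2⟩
        _ ≤ _ := by
            rw [Finset.sum_union]
            rw [Finset.disjoint_left]
            intro p hp hp'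
            rw [Finset.mem_filter, Finset.mem_sdiff] at hp
            exact hp.1.2 hp'
    linarith
  have hMs := hM (X.primesLE \ P₀.primesLE)
  have hlogX : Real.log X ≤ Real.log k + Real.log X₁ := by
    have h1 : (X : ℝ) ≤ k * X₁ := by exact_mod_cast hXX₁
    have hX₁pos : (0 : ℝ) < X₁ := by
      have : 0 < X₁ := by rw [hX₁]; positivity
      exact_mod_cast this
    rw [← Real.log_mul (by linarith) hX₁pos.ne']
    exact Real.log_le_log (by exact_mod_cast hX1) h1
  have hlogkX : Real.log k ≤ Real.log X :=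
    Real.log_le_log (by linarith) (by exact_mod_cast hkX)
  have hdr : (0 : ℝ) ≤ d := Nat.cast_nonneg d
  have hin : d * (∑ p ∈ X.primesLE \ P₀.primesLE, Real.log p / p) -
        (∑ p ∈ (X.primesLE \ P₀.primesLE).filter (fun p : ℕ => (p : ZMod d) = -1), Real.log p / p)
        + K * ∑ p ∈ X.primesLE \ P₀.primesLE, Real.log p / (p : ℝ) ^ 2 ≤
      d * Real.log k - c * Real.log k + (d * (Real.log X₁ + Real.log 4) + C₂ + C₃ + K * M) := by
    have e1 : d * (∑ p ∈ X.primesLE \ P₀.primesLE, Real.log p / p) ≤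
        d * (Real.log k + Real.log X₁ + Real.log 4) :=
      mul_le_mul_of_nonneg_left (by linarith) hdr
    have e2 : c * Real.log k ≤ c * Real.log X := mul_le_mul_of_nonneg_left hlogkX hc.le
    have e3 : K * ∑ p ∈ X.primesLE \ P₀.primesLE, Real.log p / (p : ℝ) ^ 2 ≤ K * M :=
      mul_le_mul_of_nonneg_left hMs hKnn
    linarith
  have hfin := mul_le_mul_of_nonneg_left hin (show (0 : ℝ) ≤ k by linarith)
  calc _ ≤ _ := add_le_add hlarge hsmall
    _ ≤ k * (d * Real.log k - c * Real.log k +
          (d * (Real.log X₁ + Real.log 4) + C₂ + C₃ + K * M)) + k * C₁ := add_le_add hfin le_rfl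
    _ = _ := by ring

theorem log_factorial_ge (m : ℕ) : m * Real.log m - m ≤ Real.log (m.factorial : ℝ) := by
  rcases Nat.eq_zero_or_pos m with rfl | hm
  · simp
  · have hmr : (0 : ℝ) < m := by exact_mod_cast hm
    have h1 := Real.pow_div_factorial_le_exp (m : ℝ) hmr.le m
    have hf : (0 : ℝ) < (m.factorial : ℝ) := by exact_mod_cast Nat.factorial_pos m
    have h2 := Real.log_le_log (by positivity) h1
    rw [Real.log_exp, Real.log_div (by positivity) hf.ne', Real.log_pow] at h2
    linarith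

/-- **lower bound** -/
theorem lower_bound (f : ℤ[X]) (hd : 0 < f.natDegree) {S : Set ℤ} (hS : S.Infinite)
    (hSf : ∀ s ∈ S, ∃ n : ℤ, f.eval n = s) {a : ℕ → ℤ} (ha : ∀ p : ℕ, p.Prime → IsPOrdering S p a)
    (m : ℕ) :
    f.natDegree * (m * Real.log m - m - (m + 1) * Real.log 4) ≤
      Real.log |((V a (m + f.natDegree + 1) (a (m + f.natDegree + 1)) : ℤ) : ℝ)| := by
  classical
  set d := f.natDegree with hdd
  set k := m + d + 1 with hk
  have h2 := ha 2 Nat.prime_two
  have hV := V_ne_zero hS Nat.prime_two h2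
  have hinj : Function.Injective a := by
    have haux : ∀ i j, i < j → a i ≠ a j := by
      intro i j hij h
      apply hV j
      unfold V
      rw [Finset.prod_eq_zero_iff]
      exact ⟨i, Finset.mem_range.mpr hij, by rw [h, sub_self]⟩
    intro i j hij
    rcases lt_trichotomy i j with h | h | h
    · exact absurd hij (haux i j h)
    · exact h
    · exact absurd hij.symm (haux j i h)
  choose n hn using fun i => hSf (a i) (h2.1 i)
  have hninj : Function.Injective n := by
    intro i j hij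
    apply hinj
    rw [← hn i, ← hn j, hij]
  set A := (Finset.range k).image n with hA
  have hAcard : A.card = k := by
    rw [hA, Finset.card_image_of_injective _ hninj, Finset.card_range]
  have hAne : ∀ x ∈ A, f.eval x ≠ a k := by
    intro x hx
    rw [hA, Finset.mem_image] at hx
    obtain ⟨i, hi, rfl⟩ := hx
    rw [hn i]
    intro h
    have := hinj h
    rw [Finset.mem_range] at hi
    omega
  have h3 := prod_values_ge f (a k) A hAne hd (by rw [hAcard]; omega)
  have h4 : ∏ x ∈ A, |((f.eval x - a k : ℤ) : ℝ)| = |((V a k (a k) : ℤ) : ℝ)| := by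
    rw [hA, Finset.prod_image (fun i _ j _ h => hninj h)]
    unfold V
    push_cast
    rw [Finset.abs_prod]
    refine Finset.prod_congr rfl fun i _ => ?_
    rw [hn i, abs_sub_comm]
  rw [h4, hAcard, show k - d - 1 = m by omega, show k - d = m + 1 by omega] at h3
  have hf : (0 : ℝ) < (m.factorial : ℝ) := by exact_mod_cast Nat.factorial_pos m
  have h5 := Real.log_le_log (by positivity) h3
  rw [Real.log_pow, Real.log_div hf.ne' (by positivity), Real.log_pow] at h5
  refine le_trans ?_ h5
  have h6 := log_factorial_ge m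
  have hdr : (0 : ℝ) ≤ d := Nat.cast_nonneg d
  refine mul_le_mul_of_nonneg_left ?_ hdr
  push_cast
  linarith

/-- **Main theorem over `ℤ[X]`.** -/
theorem main_int (f : ℤ[X]) (hd : 3 ≤ f.natDegree) {T S : Set ℤ} (hT : Ample T)
    (hTS : ∀ t ∈ T, f.eval t ∈ S) (hSf : ∀ s ∈ S, ∃ n : ℤ, f.eval n = s) :
    ¬ HasSimultaneousOrdering S := by
  rintro ⟨a, ha⟩
  have hSinf : S.Infinite := by
    obtain ⟨C₀, hC₀⟩ := hT
    obtain ⟨m, c, hm⟩ := (hC₀ 2 Nat.prime_two).2
    obtain ⟨m', c', h⟩ := exists_Full_image f (by omega) Nat.prime_two hTS m c hm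
    exact infinite_of_Full Nat.prime_two h
  obtain ⟨c, C, hc, hup⟩ := upper_bound f hd hT hTS ha
  have hlow := fun m => lower_bound f (by omega) hSinf hSf ha m
  set d := f.natDegree with hdd
  have hdr : (3 : ℝ) ≤ d := by exact_mod_cast hd
  -- the resulting inequality
  have hkey : ∀ m : ℕ, 1 ≤ m → c * Real.log m ≤
      (d + 1) * d + (d + 2) * (d * Real.log (d + 2) + |C|) + d + 2 * d * Real.log 4 := by
    intro m hm
    have hmr : (1 : ℝ) ≤ m := by exact_mod_cast hm
    have h1 := hlow m
    have h2 := hup (m + d + 1) (by omega)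
    have hlogm : 0 ≤ Real.log m := Real.log_nonneg hmr
    have hlogmm : Real.log m ≤ m := (Real.log_le_sub_one_of_pos (by linarith)).trans (by linarith)
    have hlogk : Real.log ((m + d + 1 : ℕ) : ℝ) ≤ Real.log m + Real.log (d + 2) := by
      rw [← Real.log_mul (by linarith) (by linarith)]
      refine Real.log_le_log (by positivity) ?_
      push_cast
      nlinarith
    have hlogk' : Real.log m ≤ Real.log ((m + d + 1 : ℕ) : ℝ) := by
      refine Real.log_le_log (by linarith) ?_
      push_cast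
      linarith
    have hlog4 : 0 ≤ Real.log 4 := Real.log_nonneg (by norm_num)
    have hlogd : 0 ≤ Real.log ((d : ℝ) + 2) := Real.log_nonneg (by linarith)
    have h3 : d * (m * Real.log m - m - (m + 1) * Real.log 4) ≤
        ((m + d + 1 : ℕ) : ℝ) * (d * Real.log m - c * Real.log m +
          (d * Real.log (d + 2) + |C|)) := by
      refine (h1.trans h2).trans (mul_le_mul_of_nonneg_left ?_ (Nat.cast_nonneg _))
      have e1 := mul_le_mul_of_nonneg_left hlogk (show (0 : ℝ) ≤ d by linarith)
      have e2 := mul_le_mul_of_nonneg_left hlogk' hc.le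
      have e3 := le_abs_self C
      linarith
    push_cast at h3
    set L := Real.log (m : ℝ) with hL
    set G := (d : ℝ) * Real.log (d + 2) + |C| with hG
    have hG0 : 0 ≤ G := by positivity
    -- c m L ≤ (d+1) d L + (m+d+1) G + d m + d (m+1) log 4
    have h4 : c * m * L ≤ (d + 1) * d * L + (m + d + 1) * G + d * m + d * (m + 1) * Real.log 4 := by
      have h5 : (0 : ℝ) ≤ (d + 1) * (c * L) := by positivity
      nlinarith
    have h6 : m * (c * L) ≤ m * ((d + 1) * d + (d + 2) * G + d + 2 * d * Real.log 4) := by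
      have e1 : ((d : ℝ) + 1) * d * L ≤ (d + 1) * d * m :=
        mul_le_mul_of_nonneg_left hlogmm (by positivity)
      have e2 : ((m : ℝ) + d + 1) * G ≤ (m * (d + 2)) * G :=
        mul_le_mul_of_nonneg_right (by nlinarith) hG0
      have e3 : d * ((m : ℝ) + 1) * Real.log 4 ≤ (2 * d * m) * Real.log 4 :=
        mul_le_mul_of_nonneg_right (by nlinarith) hlog4
      nlinarith
    exact le_of_mul_le_mul_left h6 (by linarith)
  have htend : Filter.Tendsto (fun m : ℕ => c * Real.log m) Filter.atTop Filter.atTop :=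
    (Real.tendsto_log_atTop.comp tendsto_natCast_atTop_atTop).const_mul_atTop hc
  obtain ⟨m, hm1, hm2⟩ := ((htend.eventually_gt_atTop
    ((d + 1) * d + (d + 2) * (d * Real.log (d + 2) + |C|) + d + 2 * d * Real.log 4)).and
    (Filter.eventually_ge_atTop 1)).exists
  exact absurd (hkey m hm2) (not_le.mpr hm1)

end Pool.Agent.Work.MP_b29d7f_nt
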