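import Pool.Agent.Work.MP_b29d7f_nt.Defs

/-!
# Upper bounds for the valuations of a `p`-ordering
-/

namespace Pool.Agent.Work.MP_b29d7f_nt

/-- `V_k(x) = ∏_{i<k} (x - a i)` -/
def V (a : ℕ → ℤ) (k : ℕ) (x : ℤ) : ℤ := ∏ i ∈ Finset.range k, (x - a i)

/-- `S` is `p`-adically dense in the residue class of `c` modulo `p ^ m` -/
def Full (S : Set ℤ) (p m : ℕ) (c : ℤ) : Prop :=
  ∀ y : ℤ, (p : ℤ) ^ m ∣ y - c → ∀ N : ℕ, ∃ s ∈ S, (p : ℤ) ^ N ∣ s - y

theorem V_ne_zero {S : Set ℤ} (hS : S.Infinite) {p : ℕ} (hp : p.Prime) {a : ℕ → ℤ}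
    (ha : IsPOrdering S p a) (k : ℕ) : V a k (a k) ≠ 0 := by
  classical
  obtain ⟨s, hs, hns⟩ : ∃ s ∈ S, s ∉ (Finset.range k).image a := by
    by_contra hcon
    push Not at hcon
    exact hS ((Finset.finite_toSet ((Finset.range k).image a)).subset
      (fun s hs => by exact_mod_cast hcon s hs))
  have hV : V a k s ≠ 0 := by
    unfold V
    rw [Finset.prod_ne_zero_iff]
    intro i hi h
    apply hns
    rw [Finset.mem_image]
    exact ⟨i, hi, by linarith⟩
  intro h0
  have h := ha.2 k s hs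
  change emultiplicity (p : ℤ) (V a k (a k)) ≤ emultiplicity (p : ℤ) (V a k s) at h
  rw [h0, emultiplicity_zero, top_le_iff, emultiplicity_eq_top] at h
  apply h
  rw [Int.finiteMultiplicity_iff]
  refine ⟨?_, hV⟩
  simp only [Int.natAbs_natCast]
  exact hp.ne_one

/-- Truncated valuation. -/
def tv (p N : ℕ) (x : ℤ) : ℕ := ((Finset.Icc 1 N).filter fun j => (p : ℤ) ^ j ∣ x).card

open scoped Classical in
theorem tv_eq (p N : ℕ) (x : ℤ) :
    tv p N x = ((Finset.Icc 1 N).filter fun j => (p : ℤ) ^ j ∣ x).card := rfl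

/-- if `x` and `y` agree modulo `p ^ N`, and `p ^ w` divides the product of the `x - a i`, then
the truncated valuations of `y - a i` sum to at least `w`, for `w ≤ N`. -/
theorem sum_tv_ge {p : ℕ} (hp : p.Prime) (a : ℕ → ℤ) (k : ℕ) (x y : ℤ) (N w : ℕ) (hw : w ≤ N)
    (hxy : (p : ℤ) ^ N ∣ x - y) (hdvd : (p : ℤ) ^ w ∣ V a k x) :
    w ≤ ∑ i ∈ Finset.range k, tv p N (y - a i) := by
  classical
  have hpz : Prime (p : ℤ) := Nat.prime_iff_prime_int.mp hp
  have hcongr : ∀ i j, j ≤ N → ((p : ℤ) ^ j ∣ y - a i ↔ (p : ℤ) ^ j ∣ x - a i) := by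
    intro i j hj
    have h1 : (p : ℤ) ^ j ∣ x - y := (pow_dvd_pow _ hj).trans hxy
    constructor
    · intro h
      have := dvd_add h1 h
      simpa using this
    · intro h
      have := dvd_sub h h1
      simpa using this
  by_cases hbig : ∃ i ∈ Finset.range k, (p : ℤ) ^ N ∣ x - a i
  · obtain ⟨i, hi, hdi⟩ := hbig
    have h1 : tv p N (y - a i) = N := by
      unfold tv
      rw [Finset.filter_true_of_mem, Nat.card_Icc]
      · omega
      · intro j hj
        rw [Finset.mem_Icc] at hj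
        rw [hcongr i j hj.2]
        exact (pow_dvd_pow _ hj.2).trans hdi
    have h2 : tv p N (y - a i) ≤ ∑ i ∈ Finset.range k, tv p N (y - a i) :=
      Finset.single_le_sum (f := fun i => tv p N (y - a i)) (fun _ _ => Nat.zero_le _) hi
    omega
  · push Not at hbig
    -- all valuations are below N
    have hne : ∀ i ∈ Finset.range k, x - a i ≠ 0 := by
      intro i hi h0
      apply hbig i hi
      rw [h0]; exact dvd_zero _
    have hVne : V a k x ≠ 0 := by
      unfold V; rw [Finset.prod_ne_zero_iff]; exact hne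
    have htv : ∀ i ∈ Finset.range k, tv p N (y - a i) = multiplicity (p : ℤ) (x - a i) := by
      intro i hi
      have hfin : FiniteMultiplicity (p : ℤ) (x - a i) := by
        rw [Int.finiteMultiplicity_iff]
        exact ⟨by simpa using hp.ne_one, hne i hi⟩
      have hlt : multiplicity (p : ℤ) (x - a i) < N := by
        rw [← hfin.pow_dvd_iff_le_multiplicity.not.trans not_le]
        exact hbig i hi
      unfold tv
      have : ((Finset.Icc 1 N).filter fun j => (p : ℤ) ^ j ∣ y - a i) =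
          Finset.Icc 1 (multiplicity (p : ℤ) (x - a i)) := by
        ext j
        rw [Finset.mem_filter, Finset.mem_Icc, Finset.mem_Icc]
        constructor
        · rintro ⟨⟨h1, h2⟩, h3⟩
          rw [hcongr i j h2, hfin.pow_dvd_iff_le_multiplicity] at h3
          exact ⟨h1, h3⟩
        · rintro ⟨h1, h2⟩
          have h3 : j ≤ N := by omega
          refine ⟨⟨h1, h3⟩, ?_⟩
          rw [hcongr i j h3, hfin.pow_dvd_iff_le_multiplicity]
          exact h2
      rw [this, Nat.card_Icc]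
      omega
    rw [Finset.sum_congr rfl htv]
    have hfinV : FiniteMultiplicity (p : ℤ) (V a k x) := by
      rw [Int.finiteMultiplicity_iff]
      exact ⟨by simpa using hp.ne_one, hVne⟩
    have h1 : w ≤ multiplicity (p : ℤ) (V a k x) := by
      rwa [← hfinV.pow_dvd_iff_le_multiplicity]
    have h2 : multiplicity (p : ℤ) (V a k x) =
        ∑ i ∈ Finset.range k, multiplicity (p : ℤ) (x - a i) := by
      have h3 : ((multiplicity (p : ℤ) (V a k x) : ℕ) : ℕ∞) =
          ((∑ i ∈ Finset.range k, multiplicity (p : ℤ) (x - a i) : ℕ) : ℕ∞) := by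
        rw [← hfinV.emultiplicity_eq_multiplicity]
        unfold V
        rw [Finset.emultiplicity_prod hpz]
        push_cast
        refine Finset.sum_congr rfl fun i hi => ?_
        have hfin : FiniteMultiplicity (p : ℤ) (x - a i) := by
          rw [Int.finiteMultiplicity_iff]
          exact ⟨by simpa using hp.ne_one, hne i hi⟩
        exact hfin.emultiplicity_eq_multiplicity
      exact_mod_cast h3
    omega

/-- `w_p(k)`: the exponent of `p` in `V_k(a_k)`. -/
noncomputable def wp (p : ℕ) (a : ℕ → ℤ) (k : ℕ) : ℕ := multiplicity (p : ℤ) (V a k (a k))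

theorem pow_wp_dvd {S : Set ℤ} (hS : S.Infinite) {p : ℕ} (hp : p.Prime) {a : ℕ → ℤ}
    (ha : IsPOrdering S p a) (k : ℕ) (s : ℤ) (hs : s ∈ S) :
    (p : ℤ) ^ wp p a k ∣ V a k s := by
  have hne := V_ne_zero hS hp ha k
  have hfin : FiniteMultiplicity (p : ℤ) (V a k (a k)) := by
    rw [Int.finiteMultiplicity_iff]
    exact ⟨by simpa using hp.ne_one, hne⟩
  have h := ha.2 k s hs
  change emultiplicity (p : ℤ) (V a k (a k)) ≤ emultiplicity (p : ℤ) (V a k s) at h
  rw [hfin.emultiplicity_eq_multiplicity] at h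
  exact pow_dvd_of_le_emultiplicity h

/-- If `p` has more than `k` classes in which `S` is dense then `w_p(k) = 0`. -/
theorem wp_eq_zero {S : Set ℤ} (hS : S.Infinite) {p : ℕ} (hp : p.Prime) {a : ℕ → ℤ}
    (ha : IsPOrdering S p a) (k : ℕ) (R : Finset (ZMod p))
    (hR : ∀ c ∈ R, ∃ s ∈ S, (s : ZMod p) = c) (hk : k < R.card) : wp p a k = 0 := by
  classical
  have hpz : Prime (p : ℤ) := Nat.prime_iff_prime_int.mp hp
  obtain ⟨c, hc, hnc⟩ : ∃ c ∈ R, c ∉ (Finset.range k).image fun i => (a i : ZMod p) := by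
    by_contra hcon
    push Not at hcon
    have h1 := Finset.card_le_card (show R ⊆ _ from hcon)
    have h2 := Finset.card_image_le (s := Finset.range k) (f := fun i => (a i : ZMod p))
    rw [Finset.card_range] at h2
    omega
  obtain ⟨s, hs, hsc⟩ := hR c hc
  by_contra h0
  have h1 := pow_wp_dvd hS hp ha k s hs
  have h2 : (p : ℤ) ∣ V a k s := (dvd_pow_self _ h0).trans h1
  unfold V at h2
  obtain ⟨i, hi, hd⟩ := (Prime.dvd_finsetProd_iff hpz _).mp h2
  apply hnc
  rw [Finset.mem_image]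
  refine ⟨i, hi, ?_⟩
  rw [← hsc, eq_comm, ← sub_eq_zero]
  have h3 : ((s - a i : ℤ) : ZMod p) = 0 := (ZMod.intCast_zmod_eq_zero_iff_dvd _ _).mpr hd
  push_cast at h3
  exact h3

end Pool.Agent.Work.MP_b29d7f_nt
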