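import Pool.Agent.Work.MP_b29d7f_nt.Main

/-!
# Rational polynomials, and examples of ample sets
-/

open Polynomial

namespace Pool.Agent.Work.MP_b29d7f_nt

theorem scale {S : Set ℤ} (D : ℤ) (h : HasSimultaneousOrdering S) :
    HasSimultaneousOrdering ((fun s => D * s) '' S) := by
  obtain ⟨a, ha⟩ := h
  refine ⟨fun k => D * a k, fun p hp => ⟨fun k => ⟨a k, (ha p hp).1 k, rfl⟩, ?_⟩⟩
  rintro k _ ⟨s, hs, rfl⟩
  have hpz : Prime (p : ℤ) := Nat.prime_iff_prime_int.mp hp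
  have hfac : ∀ x : ℤ, ∏ i ∈ Finset.range k, (D * x - D * a i) =
      D ^ k * ∏ i ∈ Finset.range k, (x - a i) := by
    intro x
    rw [← Finset.card_range k]
    conv_rhs => rw [← Finset.prod_const, Finset.card_range, ← Finset.prod_mul_distrib]
    rw [Finset.card_range]
    refine Finset.prod_congr rfl fun i _ => ?_
    ring
  simp only
  rw [hfac, hfac, emultiplicity_mul hpz, emultiplicity_mul hpz]
  exact add_le_add le_rfl ((ha p hp).2 k s hs)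

theorem main_rat (f : ℚ[X]) (hd : 3 ≤ f.natDegree) {T S : Set ℤ} (hT : Ample T)
    (hTS : ∀ t ∈ T, ∃ s ∈ S, (s : ℚ) = f.eval (t : ℚ))
    (hSf : ∀ s ∈ S, ∃ n : ℤ, (s : ℚ) = f.eval (n : ℚ)) :
    ¬ HasSimultaneousOrdering S := by
  intro h
  obtain ⟨D, hDmem, hb⟩ := IsLocalization.integerNormalization_spec (nonZeroDivisors ℤ) f
  set F : ℤ[X] := IsLocalization.integerNormalization (nonZeroDivisors ℤ) f with hF
  have hD0 : D ≠ 0 := nonZeroDivisors.ne_zero hDmem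
  have hmap : F.map (algebraMap ℤ ℚ) = C (D : ℚ) * f := by
    rw [hb, zsmul_eq_mul]
    simp
  have hdeg : F.natDegree = f.natDegree := by
    have h1 := congrArg natDegree hmap
    rw [natDegree_map_eq_of_injective (algebraMap ℤ ℚ).injective_int,
      natDegree_C_mul (by exact_mod_cast hD0)] at h1
    exact h1
  have heval : ∀ n : ℤ, ((F.eval n : ℤ) : ℚ) = D * f.eval (n : ℚ) := by
    intro n
    have h1 := congrArg (fun q => q.eval (n : ℚ)) hmap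
    simp only [eval_mul, eval_C] at h1
    rw [← h1, Polynomial.eval_intCast_map]
    simp
  refine main_int F (by omega) hT (S := (fun s => D * s) '' S) ?_ ?_ (scale D h)
  · intro t ht
    obtain ⟨s, hs, hst⟩ := hTS t ht
    refine ⟨s, hs, ?_⟩
    have h1 := heval t
    rw [← hst] at h1
    have h2 : F.eval t = D * s := by exact_mod_cast h1
    exact h2.symm
  · rintro _ ⟨s, hs, rfl⟩
    obtain ⟨n, hn⟩ := hSf s hs
    refine ⟨n, ?_⟩
    have h1 := heval n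
    rw [← hn] at h1
    exact_mod_cast h1

theorem Ample.mono {T T' : Set ℤ} (h : Ample T) (hTT : T ⊆ T') : Ample T' := by
  obtain ⟨C₀, hC₀⟩ := h
  refine ⟨C₀, fun p hp => ?_⟩
  obtain ⟨⟨E, hE1, hE2⟩, m, c, hm⟩ := hC₀ p hp
  refine ⟨⟨E, hE1, fun y hy N => ?_⟩, m, c, fun y hy N => ?_⟩
  · obtain ⟨t, ht, h⟩ := hE2 y hy N
    exact ⟨t, hTT ht, h⟩
  · obtain ⟨t, ht, h⟩ := hm y hy N
    exact ⟨t, hTT ht, h⟩

theorem ap_dense (a b : ℤ) (ha : a ≠ 0) {p : ℕ} (hp : p.Prime) (y : ℤ)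
    (hy : (p : ℤ) ^ multiplicity (p : ℤ) a ∣ y - b) (N : ℕ) :
    ∃ m : ℕ, (p : ℤ) ^ N ∣ a * m + b - y := by
  have hpz : Prime (p : ℤ) := Nat.prime_iff_prime_int.mp hp
  have hfin : FiniteMultiplicity (p : ℤ) a := by
    rw [Int.finiteMultiplicity_iff]
    exact ⟨by simpa using hp.ne_one, ha⟩
  obtain ⟨a', ha', hna'⟩ := hfin.exists_eq_pow_mul_and_not_dvd
  obtain ⟨q, hq⟩ := hy
  have hcop : IsCoprime ((p : ℤ) ^ N) a' :=
    ((Prime.coprime_iff_not_dvd hpz).mpr hna').pow_left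
  obtain ⟨α, β, hαβ⟩ := hcop
  -- α p^N + β a' = 1; want a' m ≡ q: m ≡ β q mod p^N
  have hppos : (0 : ℤ) < (p : ℤ) ^ N := pow_pos (by exact_mod_cast hp.pos) N
  set m : ℕ := ((β * q) % (p : ℤ) ^ N).toNat with hm
  have hm0 : 0 ≤ (β * q) % (p : ℤ) ^ N := Int.emod_nonneg _ hppos.ne'
  have hmc : ((m : ℕ) : ℤ) = (β * q) % (p : ℤ) ^ N := Int.toNat_of_nonneg hm0
  refine ⟨m, ?_⟩
  have h1 : (p : ℤ) ^ N ∣ (m : ℤ) - β * q := by
    rw [hmc]
    exact (Int.mod_modEq (β * q) ((p : ℤ) ^ N)).symm.dvd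
  obtain ⟨r, hr⟩ := h1
  refine ⟨(p : ℤ) ^ multiplicity (p : ℤ) a * (a' * r - α * q), ?_⟩
  have hmr : (m : ℤ) = β * q + (p : ℤ) ^ N * r := by linarith
  rw [hmr]
  set P := (p : ℤ) ^ multiplicity (p : ℤ) a with hP
  have hyb : y = b + P * q := by linarith
  rw [hyb]
  linear_combination (β * q + (p : ℤ) ^ N * r) * ha' + P * q * hαβ

theorem ample_ap (a b : ℤ) (ha : a ≠ 0) : Ample {n : ℤ | ∃ m : ℕ, n = a * m + b} := by
  classical
  refine ⟨a.natAbs, fun p hp => ⟨?_, multiplicity (p : ℤ) a, b, fun y hy N => ?_⟩⟩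
  · have : Fact p.Prime := ⟨hp⟩
    by_cases hpa : (p : ℤ) ∣ a
    · refine ⟨Finset.univ, ?_, fun y hy => absurd (Finset.mem_univ _) hy⟩
      rw [Finset.card_univ, ZMod.card]
      have h1 := Int.natAbs_dvd_natAbs.mpr hpa
      rw [Int.natAbs_natCast] at h1
      exact Nat.le_of_dvd (Int.natAbs_pos.mpr ha) h1
    · refine ⟨∅, by simp, fun y _ N => ?_⟩
      have h0 : multiplicity (p : ℤ) a = 0 := multiplicity_eq_zero.mpr hpa
      obtain ⟨m, hm⟩ := ap_dense a b ha hp y (by rw [h0, pow_zero]; exact one_dvd _) N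
      exact ⟨_, ⟨m, rfl⟩, hm⟩
  · obtain ⟨m, hm⟩ := ap_dense a b ha hp y hy N
    exact ⟨_, ⟨m, rfl⟩, hm⟩

theorem primes_dense {p : ℕ} (hp : p.Prime) (y : ℤ) (hy : ¬ (p : ℤ) ∣ y) (N : ℕ) :
    ∃ t ∈ {n : ℤ | ∃ q : ℕ, q.Prime ∧ n = q}, (p : ℤ) ^ N ∣ t - y := by
  have hpz : Prime (p : ℤ) := Nat.prime_iff_prime_int.mp hp
  have hne : NeZero (p ^ N) := ⟨pow_ne_zero N hp.ne_zero⟩
  have hunit : IsUnit ((y : ℤ) : ZMod (p ^ N)) := by
    rw [ZMod.coe_int_isUnit_iff_isCoprime]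
    push_cast
    exact ((Prime.coprime_iff_not_dvd hpz).mpr hy).pow_left
  obtain ⟨q, _, hq, hqy⟩ := Nat.forall_exists_prime_gt_and_eq_mod hunit 0
  refine ⟨q, ⟨q, hq, rfl⟩, ?_⟩
  have h1 : (((q : ℤ) - y : ℤ) : ZMod (p ^ N)) = 0 := by
    push_cast
    rw [hqy, sub_self]
  have h2 := (ZMod.intCast_zmod_eq_zero_iff_dvd _ _).mp h1
  exact_mod_cast h2

theorem ample_primes : Ample {n : ℤ | ∃ q : ℕ, q.Prime ∧ n = q} := by
  classical
  refine ⟨1, fun p hp => ⟨⟨{0}, by simp, fun y hy N => ?_⟩, 1, 1, fun y hy N => ?_⟩⟩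
  · refine primes_dense hp y ?_ N
    intro h
    apply hy
    rw [Finset.mem_singleton]
    exact (ZMod.intCast_zmod_eq_zero_iff_dvd _ _).mpr h
  · refine primes_dense hp y ?_ N
    intro h
    rw [pow_one] at hy
    have h1 := dvd_sub h hy
    rw [sub_sub_cancel] at h1
    have h2 := Int.natAbs_dvd_natAbs.mpr h1
    simp only [Int.natAbs_natCast, Int.natAbs_one, Nat.dvd_one] at h2
    exact hp.ne_one h2

end Pool.Agent.Work.MP_b29d7f_nt
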