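import Pool.Agent.Work.MP_b29d7f_nt.Conclude
import Pool.Agent.Work.MP_b29d7f_nt.Final

/-!
# Criteria for thickness
-/

open Filter Topology

namespace Pool.Agent.Work.MP_b29d7f_nt

/-- positive measure implies linear growth -/
theorem linGrowth_of_mu_pos {S : Set ℤ} {p : ℕ} (hp : p.Prime) (hmu : 0 < mu S p) :
    LinGrowth S p := by
  classical
  have hpr : (2 : ℝ) ≤ p := by exact_mod_cast hp.two_le
  have hp1 : (0 : ℝ) < p - 1 := by linarith
  obtain ⟨B, hB⟩ := exists_nat_gt ((mu S p * (p - 1))⁻¹)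
  refine ⟨B, fun k b => ?_⟩
  set J := B * k + 1 with hJ
  set Y := Yset S p J with hY
  have hνmu : mu S p * (p : ℝ) ^ J ≤ Y.card := by
    have := mu_le S p J
    rw [le_div_iff₀ (by positivity)] at this
    exact this
  have hYpos : (0 : ℝ) < Y.card := lt_of_lt_of_le (by positivity) hνmu
  -- average
  have hsum : ∑ y ∈ Y, ∑ i ∈ Finset.range k, tv p J ((y : ℤ) - b i) ≤ Y.card * (B * k) := by
    have h1 : ∑ y ∈ Y, ∑ i ∈ Finset.range k, tv p J ((y : ℤ) - b i) =
        ∑ i ∈ Finset.range k, ∑ j ∈ Finset.Icc 1 J,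
          (Y.filter fun y : ℕ => (p : ℤ) ^ j ∣ (y : ℤ) - b i).card := by
      rw [Finset.sum_comm]
      refine Finset.sum_congr rfl fun i _ => ?_
      unfold tv
      simp_rw [Finset.card_filter]
      rw [Finset.sum_comm]
    have h2 : ((∑ i ∈ Finset.range k, ∑ j ∈ Finset.Icc 1 J,
          (Y.filter fun y : ℕ => (p : ℤ) ^ j ∣ (y : ℤ) - b i).card : ℕ) : ℝ) ≤
        Y.card * (B * k) := by
      push_cast
      calc ∑ i ∈ Finset.range k, ∑ j ∈ Finset.Icc 1 J,
          ((Y.filter fun y : ℕ => (p : ℤ) ^ j ∣ (y : ℤ) - b i).card : ℝ)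
          ≤ ∑ i ∈ Finset.range k, ((p : ℝ) ^ J * ((p : ℝ) ^ 0 * (p - 1))⁻¹) := by
            refine Finset.sum_le_sum fun i _ => ?_
            calc ∑ j ∈ Finset.Icc 1 J,
                ((Y.filter fun y : ℕ => (p : ℤ) ^ j ∣ (y : ℤ) - b i).card : ℝ)
                ≤ ∑ j ∈ Finset.Ioc 0 J, (p : ℝ) ^ J * ((p : ℝ) ^ j)⁻¹ := by
                  have hIcc : Finset.Icc 1 J = Finset.Ioc 0 J := by
                    ext j; rw [Finset.mem_Icc, Finset.mem_Ioc]; omega
                  rw [hIcc]
                  refine Finset.sum_le_sum fun j hj => ?_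
                  rw [Finset.mem_Ioc] at hj
                  have h3 : ((Y.filter fun y : ℕ => (p : ℤ) ^ j ∣ (y : ℤ) - b i).card : ℝ) ≤
                      ((p ^ (J - j) : ℕ) : ℝ) := by
                    exact_mod_cast card_ball_le S hp J j hj.2 (b i)
                  refine h3.trans (le_of_eq ?_)
                  push_cast
                  rw [pow_sub₀ _ (by linarith) hj.2]
              _ = (p : ℝ) ^ J * ∑ j ∈ Finset.Ioc 0 J, ((p : ℝ) ^ j)⁻¹ := by rw [Finset.mul_sum]
              _ ≤ _ := mul_le_mul_of_nonneg_left (sum_pow_inv_le p 0 J hp.two_le) (by positivity)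
        _ = k * ((p : ℝ) ^ J * ((p : ℝ) ^ 0 * (p - 1))⁻¹) := by
            rw [Finset.sum_const, Finset.card_range, nsmul_eq_mul]
        _ ≤ k * (Y.card * B) := by
            refine mul_le_mul_of_nonneg_left ?_ (Nat.cast_nonneg k)
            calc (p : ℝ) ^ J * ((p : ℝ) ^ 0 * (p - 1))⁻¹ =
                  (mu S p * (p : ℝ) ^ J) * (mu S p * (p - 1))⁻¹ := by
                  rw [pow_zero, one_mul]; field_simp
              _ ≤ Y.card * B := by
                  refine mul_le_mul hνmu hB.le (by positivity) (Nat.cast_nonneg _)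
        _ = _ := by ring
    rw [h1]
    exact_mod_cast h2
  obtain ⟨y, hy, hyle⟩ : ∃ y ∈ Y, ∑ i ∈ Finset.range k, tv p J ((y : ℤ) - b i) ≤ B * k := by
    by_contra hcon
    push Not at hcon
    have hYne : Y.Nonempty := Finset.card_pos.mp (by exact_mod_cast hYpos)
    have h3 : ∑ y ∈ Y, (B * k) < ∑ y ∈ Y, ∑ i ∈ Finset.range k, tv p J ((y : ℤ) - b i) :=
      Finset.sum_lt_sum_of_nonempty hYne hcon
    rw [Finset.sum_const, smul_eq_mul] at h3
    omega
  rw [hY, mem_Yset] at hy
  obtain ⟨_, s, hs, hsy⟩ := hy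
  refine ⟨s, hs, ?_⟩
  by_contra hlt
  push Not at hlt
  have h1 : (p : ℤ) ^ J ∣ V b k s := by
    apply pow_dvd_of_le_emultiplicity
    have h2 := Order.add_one_le_of_lt hlt
    rw [hJ]
    exact_mod_cast h2
  have h2 := sum_tv_ge hp b k s y J J le_rfl hsy h1
  omega

/-- ample sets are thick -/
theorem thick_of_ample {S : Set ℤ} (h : Ample S) : Thick S := by
  classical
  obtain ⟨C₀, hC₀⟩ := h
  -- lower bound for the measure
  have hball : ∀ p : ℕ, p.Prime → 0 < mu S p := by
    intro p hp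
    obtain ⟨m, c, hF⟩ := (hC₀ p hp).2
    have hpr : (0 : ℝ) < p := by exact_mod_cast hp.pos
    have h1 : ∀ J : ℕ, ((p : ℝ) ^ m)⁻¹ ≤ (nu S p J : ℝ) / (p : ℝ) ^ J := by
      intro J
      refine le_trans ?_ (ratio_antitone S hp.pos (le_max_left J m))
      set N := max J m with hN
      rw [le_div_iff₀ (by positivity)]
      have h2 : p ^ (N - m) ≤ nu S p N := by
        rw [← cnt_pow hp N m (le_max_right _ _) c]
        refine Finset.card_le_card fun y hy => ?_
        rw [Finset.mem_filter, Finset.mem_range] at hy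
        exact mem_Yset_of_Full hF N y hy.1 hy.2
      have h3 : ((p ^ (N - m) : ℕ) : ℝ) ≤ nu S p N := by exact_mod_cast h2
      push_cast at h3
      rw [pow_sub₀ _ hpr.ne' (le_max_right _ _)] at h3
      linarith
    exact lt_of_lt_of_le (by positivity) (le_ciInf h1)
  have hmu : ∀ p : ℕ, p.Prime → 1 - (C₀ : ℝ) / p ≤ mu S p := by
    intro p hp
    have : Fact p.Prime := ⟨hp⟩
    obtain ⟨E, hEc, hE⟩ := (hC₀ p hp).1
    have hpr : (0 : ℝ) < p := by exact_mod_cast hp.pos
    refine le_ciInf fun J => ?_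
    refine le_trans ?_ (ratio_antitone S hp.pos (Nat.le_succ J))
    rw [Nat.succ_eq_add_one, le_div_iff₀ (by positivity)]
    -- the complement of `Yset` lies in the exceptional classes
    have h1 : (Finset.range (p ^ (J + 1)) \ Yset S p (J + 1)).card ≤ C₀ * p ^ J := by
      have h2 : Finset.range (p ^ (J + 1)) \ Yset S p (J + 1) ⊆ E.biUnion fun e =>
          (Finset.range (p ^ (J + 1))).filter fun y : ℕ => (p : ℤ) ^ 1 ∣ (y : ℤ) - (e.val : ℕ) := by
        intro y hy
        rw [Finset.mem_sdiff] at hy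
        rw [Finset.mem_biUnion]
        by_cases hyE : ((y : ℤ) : ZMod p) ∈ E
        · refine ⟨_, hyE, ?_⟩
          rw [Finset.mem_filter]
          refine ⟨hy.1, ?_⟩
          rw [pow_one, ← ZMod.intCast_zmod_eq_zero_iff_dvd]
          push_cast
          rw [ZMod.natCast_zmod_val, sub_self]
        · exfalso
          apply hy.2
          rw [mem_Yset]
          exact ⟨Finset.mem_range.mp hy.1, hE y hyE (J + 1)⟩
      refine (Finset.card_le_card h2).trans (Finset.card_biUnion_le.trans ?_)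
      calc _ ≤ ∑ e ∈ E, p ^ J := by
            refine Finset.sum_le_sum fun e _ => ?_
            rw [cnt_pow hp (J + 1) 1 (by omega)]
            exact le_of_eq (by congr 1)
        _ = E.card * p ^ J := by rw [Finset.sum_const, smul_eq_mul]
        _ ≤ _ := Nat.mul_le_mul_right _ hEc
    have hsub : Yset S p (J + 1) ⊆ Finset.range (p ^ (J + 1)) := fun y hy =>
      Finset.mem_range.mpr (mem_Yset.mp hy).1
    rw [Finset.card_sdiff_of_subset hsub, Finset.card_range] at h1
    have h2 : p ^ (J + 1) ≤ nu S p (J + 1) + C₀ * p ^ J := by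
      unfold nu; omega
    have h3 : ((p : ℝ) ^ (J + 1)) ≤ nu S p (J + 1) + C₀ * (p : ℝ) ^ J := by exact_mod_cast h2
    have h4 : (1 - (C₀ : ℝ) / p) * (p : ℝ) ^ (J + 1) = (p : ℝ) ^ (J + 1) - C₀ * (p : ℝ) ^ J := by
      rw [pow_succ]; field_simp
    rw [h4]
    linarith
  refine ⟨fun p hp => linGrowth_of_mu_pos hp (hball p hp), 2 * C₀, fun p hp _ => hball p hp, ?_⟩
  have hsum : Summable fun p : ℕ => 2 * C₀ * (Real.log p / (p : ℝ) ^ 2) := by
    obtain ⟨M, hM0, hM⟩ := sum_log_div_sq_bound
    refine Summable.mul_left _ (summable_of_sum_le (fun p => ?_) (c := M) hM)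
    exact div_nonneg (Real.log_natCast_nonneg p) (by positivity)
  refine Summable.of_nonneg_of_le (fun p => ?_) (fun p => ?_) hsum
  · split_ifs with h
    · have h1 := mu_le_one S h.1.pos
      have h2 : 1 ≤ 1 / mu S p := by rw [le_div_iff₀ (hball p h.1)]; linarith
      have := Real.log_natCast_nonneg p
      have h3 : 0 ≤ 1 / mu S p - 1 := by linarith
      positivity
    · exact le_rfl
  · split_ifs with h
    · have hpr : (0 : ℝ) < p := by exact_mod_cast h.1.pos
      have hlog := Real.log_natCast_nonneg p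
      have h1 : 2 * (C₀ : ℝ) < p := by exact_mod_cast h.2
      have hmup := hball p h.1
      have h2 : 1 / mu S p - 1 ≤ 2 * C₀ / p := by
        rw [sub_le_iff_le_add, div_le_iff₀ hmup]
        have h3 := hmu p h.1
        have h4 : (C₀ : ℝ) / p ≤ 1 / 2 := by rw [div_le_div_iff₀ hpr (by norm_num)]; linarith
        have h5 : (0 : ℝ) ≤ C₀ / p := by positivity
        have h6 : 1 ≤ (2 * (C₀ / p) + 1) * (1 - (C₀ : ℝ) / p) := by nlinarith
        calc (1 : ℝ) ≤ (2 * (C₀ / p) + 1) * (1 - (C₀ : ℝ) / p) := h6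
          _ ≤ (2 * (C₀ / p) + 1) * mu S p := mul_le_mul_of_nonneg_left h3 (by positivity)
          _ = _ := by ring
      calc (1 / mu S p - 1) * Real.log p / p ≤ (2 * C₀ / p) * Real.log p / p := by
            refine div_le_div_of_nonneg_right ?_ hpr.le
            exact mul_le_mul_of_nonneg_right h2 hlog
        _ = _ := by ring
    · have := Real.log_natCast_nonneg p
      positivity

theorem banach_le {S : Set ℤ} {δ : ℝ}
    (h : ∀ L₀ : ℕ, ∃ L : ℕ, L₀ ≤ L ∧ ∃ x : ℤ, δ * L ≤ ((S ∩ Set.Ico x (x + L)).ncard : ℝ))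
    {Q : Finset ℕ} (hQ : ∀ p ∈ Q, p.Prime) (J : ℕ) :
    δ ≤ ∏ p ∈ Q, ((nu S p J : ℝ) / (p : ℝ) ^ J) := by
  classical
  set T : ℝ := ∏ p ∈ Q, (nu S p J : ℝ) with hT
  set M : ℝ := ∏ p ∈ Q, (p : ℝ) ^ J with hM
  have hT0 : 0 ≤ T := Finset.prod_nonneg fun _ _ => Nat.cast_nonneg _
  have hMpos : 0 < M := Finset.prod_pos fun p hp => by
    have : (0 : ℝ) < p := by exact_mod_cast (hQ p hp).pos
    positivity
  rw [Finset.prod_div_distrib, ← hT, ← hM]
  by_contra hcon
  push Not at hcon
  -- choose `L` large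
  set γ : ℝ := δ - T / M with hγ
  have hγpos : 0 < γ := by rw [hγ]; linarith
  obtain ⟨L₀, hL₀⟩ := exists_nat_gt (T / γ)
  obtain ⟨L, hL, x, hx⟩ := h (L₀ + 1)
  have hLr : (L₀ : ℝ) + 1 ≤ L := by exact_mod_cast hL
  have hfin : (S ∩ Set.Ico x (x + L)).Finite := (Set.finite_Ico x (x + L)).subset Set.inter_subset_right
  have h1 := card_window_le hQ J hfin.toFinset (fun z hz => (hfin.mem_toFinset.mp hz).1) x (x + L)
    (by omega)
  have h2 : (hfin.toFinset.filter fun z => x ≤ z ∧ z < x + L) = hfin.toFinset := by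
    refine Finset.filter_true_of_mem fun z hz => ?_
    exact (hfin.mem_toFinset.mp hz).2
  rw [h2, ← Set.ncard_eq_toFinset_card _ hfin, ← hT, ← hM] at h1
  have h3 := hx.trans h1
  push_cast at h3
  have h4 : T * (((x : ℝ) + L - x) / M + 1) = T / M * L + T := by field_simp; ring
  rw [h4] at h3
  have h5 : γ * L ≤ T := by rw [hγ]; linarith
  rw [div_lt_iff₀ hγpos] at hL₀
  nlinarith

/-- **sets of positive upper Banach density are thick** -/
theorem thick_of_banach {S : Set ℤ} (h : PosUpperBanachDensity S) : Thick S := by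
  classical
  obtain ⟨δ, hδ, h⟩ := h
  have hprod : ∀ Q : Finset ℕ, (∀ p ∈ Q, p.Prime) → δ ≤ ∏ p ∈ Q, mu S p := by
    intro Q hQ
    have htend : Tendsto (fun J : ℕ => ∏ p ∈ Q, ((nu S p J : ℝ) / (p : ℝ) ^ J)) atTop
        (𝓝 (∏ p ∈ Q, mu S p)) := tendsto_finsetProd _ fun p hp => tendsto_mu S (hQ p hp).pos
    exact ge_of_tendsto' htend fun J => banach_le h hQ J
  have hmu : ∀ p : ℕ, p.Prime → 0 < mu S p := by
    intro p hp
    have h1 := hprod {p} (by simpa using hp)
    rw [Finset.prod_singleton] at h1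
    linarith
  refine ⟨fun p hp => linGrowth_of_mu_pos hp (hmu p hp), 0, fun p hp _ => hmu p hp, ?_⟩
  have hδ1 : δ ≤ 1 := by simpa using hprod ∅ (by simp)
  refine summable_of_sum_le (c := Real.log (1 / δ) / δ) (fun p => ?_) (fun s => ?_)
  · split_ifs with hp
    · have h1 := mu_le_one S hp.1.pos
      have h2 : 1 ≤ 1 / mu S p := by rw [le_div_iff₀ (hmu p hp.1)]; linarith
      have := Real.log_natCast_nonneg p
      have h3 : 0 ≤ 1 / mu S p - 1 := by linarith
      positivity
    · exact le_rfl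
  · rw [← Finset.sum_filter]
    set Q := s.filter (fun p : ℕ => p.Prime ∧ 0 < p) with hQ
    have hQp : ∀ p ∈ Q, p.Prime := fun p hp => (Finset.mem_filter.mp hp).2.1
    have h1 : ∀ p ∈ Q, (1 / mu S p - 1) * Real.log p / p ≤ Real.log (1 / mu S p) / δ := by
      intro p hp
      have hpp := hQp p hp
      have hpr : (0 : ℝ) < p := by exact_mod_cast hpp.pos
      have hmup := hmu p hpp
      have hmu1 := mu_le_one S hpp.pos
      have h2 : 1 ≤ 1 / mu S p := by rw [le_div_iff₀ hmup]; linarith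
      have h3 : Real.log p / p ≤ 1 := by
        rw [div_le_one hpr]
        have := Real.log_le_sub_one_of_pos hpr
        linarith
      have hδmu : δ ≤ mu S p := by
        have := hprod {p} (by simpa using hpp)
        rwa [Finset.prod_singleton] at this
      have h4 : 1 / mu S p - 1 ≤ Real.log (1 / mu S p) / δ := by
        have h5 : 1 - mu S p ≤ Real.log (1 / mu S p) := by
          have := Real.one_sub_inv_le_log_of_pos (show 0 < 1 / mu S p by positivity)
          rw [one_div] at this ⊢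
          rwa [inv_inv] at this
        have h6 : 1 / mu S p - 1 = (1 - mu S p) / mu S p := by field_simp
        rw [h6]
        calc (1 - mu S p) / mu S p ≤ (1 - mu S p) / δ :=
              div_le_div_of_nonneg_left (by linarith) hδ hδmu
          _ ≤ _ := div_le_div_of_nonneg_right h5 hδ.le
      have h7 : 0 ≤ 1 / mu S p - 1 := by linarith
      have hlog := Real.log_natCast_nonneg p
      calc (1 / mu S p - 1) * Real.log p / p = (1 / mu S p - 1) * (Real.log p / p) := by ring
        _ ≤ (1 / mu S p - 1) * 1 := mul_le_mul_of_nonneg_left h3 h7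
        _ ≤ _ := by linarith
    refine (Finset.sum_le_sum h1).trans ?_
    rw [← Finset.sum_div]
    refine div_le_div_of_nonneg_right ?_ hδ.le
    rw [← Real.log_prod]
    · have h2 := hprod Q hQp
      have hpos : 0 < ∏ p ∈ Q, mu S p := lt_of_lt_of_le hδ h2
      rw [Finset.prod_div_distrib, Finset.prod_const_one]
      refine Real.log_le_log (by positivity) ?_
      exact div_le_div_of_nonneg_left zero_le_one hδ h2
    · intro p hp
      have := hmu p (hQp p hp)
      positivity

end Pool.Agent.Work.MP_b29d7f_nt
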