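import Pool.Agent.Work.MP_b29d7f_nt.Main

/-!
# Valuations of factorials and sums over primes
-/

open Filter Topology Chebyshev

namespace Pool.Agent.Work.MP_b29d7f_nt

theorem fact_val_le {p : ℕ} (hp : p.Prime) (n : ℕ) :
    (p - 1) * n.factorial.factorization p ≤ n := by
  have : Fact p.Prime := ⟨hp⟩
  rw [Nat.factorization_def _ hp, sub_one_mul_padicValNat_factorial]
  exact Nat.sub_le _ _

theorem fact_val_ge {p : ℕ} (hp : p.Prime) (n : ℕ) :
    n ≤ (p - 1) * (n.factorial.factorization p + Nat.log p n + 1) := by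
  have : Fact p.Prime := ⟨hp⟩
  rw [add_assoc, mul_add, Nat.factorization_def _ hp, sub_one_mul_padicValNat_factorial]
  have h1 : (p.digits n).sum ≤ (p - 1) * (Nat.log p n + 1) := by
    rcases Nat.eq_zero_or_pos n with rfl | hn
    · simp
    · have h2 : (p.digits n).sum ≤ (p.digits n).length • (p - 1) := by
        refine List.sum_le_card_nsmul _ _ fun d hd => ?_
        have := Nat.digits_lt_base hp.one_lt hd
        omega
      rw [Nat.length_digits p n hp.one_lt hn.ne', smul_eq_mul, mul_comm] at h2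
      exact h2
  have h3 : (p.digits n).sum ≤ n := Nat.digit_sum_le p n
  omega

/-- real forms -/
theorem fact_val_le_real {p : ℕ} (hp : p.Prime) (n : ℕ) :
    (n.factorial.factorization p : ℝ) * Real.log p ≤ n * (Real.log p / (p - 1)) := by
  have h := fact_val_le hp n
  have h1 : (2 : ℝ) ≤ p := by exact_mod_cast hp.two_le
  have h2 : ((p : ℝ) - 1) * n.factorial.factorization p ≤ n := by
    have h3 : (((p - 1) * n.factorial.factorization p : ℕ) : ℝ) ≤ ((n : ℕ) : ℝ) := by exact_mod_cast h
    rw [Nat.cast_mul, Nat.cast_sub hp.one_le, Nat.cast_one] at h3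
    exact h3
  have hp1 : (0 : ℝ) < p - 1 := by linarith
  have hlog : 0 ≤ Real.log p := Real.log_nonneg (by linarith)
  rw [mul_div_assoc', le_div_iff₀ hp1]
  nlinarith

theorem fact_val_ge_real {p : ℕ} (hp : p.Prime) (n : ℕ) :
    n * (Real.log p / (p - 1)) - (Real.log n + Real.log p) ≤
      (n.factorial.factorization p : ℝ) * Real.log p := by
  have h := fact_val_ge hp n
  have h1 : (2 : ℝ) ≤ p := by exact_mod_cast hp.two_le
  have hp1 : (0 : ℝ) < p - 1 := by linarith
  have h2 : (n : ℝ) ≤ (p - 1) * (n.factorial.factorization p + Nat.log p n + 1) := by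
    have h3 : ((n : ℕ) : ℝ) ≤
        (((p - 1) * (n.factorial.factorization p + Nat.log p n + 1) : ℕ) : ℝ) := by exact_mod_cast h
    rw [Nat.cast_mul, Nat.cast_sub hp.one_le, Nat.cast_one] at h3
    push_cast at h3
    exact h3
  have hlog : 0 ≤ Real.log p := Real.log_nonneg (by linarith)
  have h4 : (Nat.log p n : ℝ) * Real.log p ≤ Real.log n := by
    rcases Nat.eq_zero_or_pos n with rfl | hn
    · simp
    · have h5 : (p : ℝ) ^ Nat.log p n ≤ n := by exact_mod_cast Nat.pow_log_le_self p hn.ne'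
      rw [← Real.log_pow]
      exact Real.log_le_log (by positivity) h5
  have h5 : (n : ℝ) * (Real.log p / (p - 1)) ≤
      (n.factorial.factorization p + Nat.log p n + 1) * Real.log p := by
    rw [mul_div_assoc', div_le_iff₀ hp1]
    calc (n : ℝ) * Real.log p ≤ ((p - 1) * (n.factorial.factorization p + Nat.log p n + 1)) *
          Real.log p := mul_le_mul_of_nonneg_right h2 hlog
      _ = _ := by ring
  linarith

theorem log_nat_eq_sum {n : ℕ} (hn : n ≠ 0) (s : Finset ℕ)
    (hsub : ∀ p : ℕ, p.Prime → p ∣ n → p ∈ s) (hs : ∀ p ∈ s, p.Prime) :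
    Real.log n = ∑ p ∈ s, (n.factorization p : ℝ) * Real.log p := by
  conv_lhs => rw [← Nat.prod_factorization_pow_eq_self hn]
  rw [Finsupp.prod, Nat.support_factorization]
  push_cast
  rw [Real.log_prod]
  · rw [← Finset.sum_subset (s₁ := n.primeFactors) (s₂ := s)]
    · refine Finset.sum_congr rfl fun p hp => ?_
      rw [Real.log_pow]
    · intro p hp
      exact hsub p (Nat.prime_of_mem_primeFactors hp) (Nat.dvd_of_mem_primeFactors hp)
    · intro p hp hnp
      have h3 : n.factorization p = 0 := by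
        rw [← Nat.support_factorization, Finsupp.notMem_support_iff] at hnp
        exact hnp
      rw [h3]
      simp
  · intro p hp
    have := (Nat.prime_of_mem_primeFactors hp).pos
    positivity

theorem log_factorial_eq (n P : ℕ) (hP : n ≤ P) :
    Real.log (n.factorial : ℝ) =
      ∑ p ∈ P.primesLE, (n.factorial.factorization p : ℝ) * Real.log p := by
  refine log_nat_eq_sum (Nat.factorial_ne_zero n) _ (fun p hp hd => ?_)
    fun p hp => Nat.prime_of_mem_primesLE hp
  rw [Nat.mem_primesLE]
  exact ⟨((hp.dvd_factorial).mp hd).trans hP, hp⟩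

/-- Mertens' lower bound -/
theorem mertens_lower_all : ∃ C : ℝ, 0 ≤ C ∧ ∀ n : ℕ, 1 ≤ n →
    Real.log n - C ≤ ∑ p ∈ n.primesLE, Real.log p / p := by
  obtain ⟨M, hM0, hM⟩ := sum_log_div_sq_bound
  refine ⟨1 + 2 * M, by positivity, fun n hn => ?_⟩
  have hnr : (1 : ℝ) ≤ n := by exact_mod_cast hn
  have h1 := log_factorial_ge n
  rw [log_factorial_eq n n le_rfl] at h1
  have h2 : ∑ p ∈ n.primesLE, (n.factorial.factorization p : ℝ) * Real.log p ≤
      n * ∑ p ∈ n.primesLE, (Real.log p / p + 2 * (Real.log p / (p : ℝ) ^ 2)) := by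
    rw [Finset.mul_sum]
    refine Finset.sum_le_sum fun p hp => ?_
    have hpp := Nat.prime_of_mem_primesLE hp
    refine (fact_val_le_real hpp n).trans (mul_le_mul_of_nonneg_left ?_ (by linarith))
    have h1 : (2 : ℝ) ≤ p := by exact_mod_cast hpp.two_le
    have hp1 : (0 : ℝ) < p - 1 := by linarith
    have hlog : 0 ≤ Real.log p := Real.log_nonneg (by linarith)
    rw [div_add' _ _ _ (by linarith : (p : ℝ) ≠ 0), div_le_div_iff₀ hp1 (by linarith)]
    have e : (Real.log p + 2 * (Real.log p / (p : ℝ) ^ 2) * p) * (p - 1) =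
        Real.log p * p + Real.log p * ((p - 2) / p) := by
      field_simp
      ring
    rw [e]
    have : 0 ≤ Real.log p * (((p : ℝ) - 2) / p) := by
      apply mul_nonneg hlog
      apply div_nonneg <;> linarith
    linarith
  rw [Finset.sum_add_distrib, ← Finset.mul_sum] at h2
  have h3 := hM n.primesLE
  have h4 : (n : ℝ) * (Real.log n - 1) ≤ n * ((∑ p ∈ n.primesLE, Real.log p / p) + 2 * M) := by
    refine (by linarith : (n : ℝ) * (Real.log n - 1) ≤ _).trans (h2.trans ?_)
    exact mul_le_mul_of_nonneg_left (by linarith) (by linarith)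
  have h5 := le_of_mul_le_mul_left h4 (by linarith)
  linarith

theorem sum_log_primes_dvd_le {i : ℕ} (hi : i ≠ 0) (s : Finset ℕ) (hs : ∀ p ∈ s, p.Prime) :
    ∑ p ∈ s.filter (fun p => p ∣ i), Real.log p ≤ Real.log i := by
  have h1 : ∑ p ∈ s.filter (fun p => p ∣ i), Real.log p ≤ ∑ p ∈ i.primeFactors, Real.log p := by
    refine Finset.sum_le_sum_of_subset_of_nonneg ?_ fun p _ _ => Real.log_natCast_nonneg p
    intro p hp
    rw [Finset.mem_filter] at hp
    rw [Nat.mem_primeFactors]
    exact ⟨hs p hp.1, hp.2, hi⟩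
  refine h1.trans ?_
  rw [← Real.log_prod]
  · have h2 : ((∏ p ∈ i.primeFactors, p : ℕ) : ℝ) ≤ i := by
      exact_mod_cast Nat.le_of_dvd (Nat.pos_of_ne_zero hi) (Nat.prod_primeFactors_dvd i)
    push_cast at h2
    refine Real.log_le_log ?_ h2
    refine Finset.prod_pos fun p hp => ?_
    exact_mod_cast (Nat.prime_of_mem_primeFactors hp).pos
  · intro p hp
    have := (Nat.prime_of_mem_primeFactors hp).pos
    positivity

/-- comparison of floors -/
theorem floor_diff (k k' : ℕ) (hk : k ≤ k') (s : Finset ℕ) (hs : ∀ p ∈ s, p.Prime) :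
    ∑ p ∈ s, (((k' / p : ℕ) : ℝ) - ((k / p : ℕ) : ℝ)) * Real.log p ≤
      ((k' : ℝ) - k) * Real.log k' := by
  have h1 : ∀ p ∈ s, (((k' / p : ℕ) : ℝ) - ((k / p : ℕ) : ℝ)) * Real.log p =
      ∑ i ∈ Finset.Ioc k k', if p ∣ i then Real.log p else 0 := by
    intro p _
    rw [← Finset.sum_filter, Finset.sum_const, nsmul_eq_mul]
    congr 1
    have h2 := Nat.Ioc_filter_dvd_card_eq_div k' p
    have h3 := Nat.Ioc_filter_dvd_card_eq_div k p
    have h4 : (Finset.Ioc 0 k').filter (fun x => p ∣ x) =
        (Finset.Ioc 0 k).filter (fun x => p ∣ x) ∪ (Finset.Ioc k k').filter (fun x => p ∣ x) := by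
      rw [← Finset.filter_union]
      congr 1
      ext x
      simp only [Finset.mem_union, Finset.mem_Ioc]
      omega
    rw [h4, Finset.card_union_of_disjoint, h3] at h2
    · rw [← h2]; push_cast; ring
    · rw [Finset.disjoint_left]
      intro x hx hx'
      rw [Finset.mem_filter, Finset.mem_Ioc] at hx hx'
      omega
  rw [Finset.sum_congr rfl h1, Finset.sum_comm]
  calc ∑ i ∈ Finset.Ioc k k', ∑ p ∈ s, (if p ∣ i then Real.log p else 0)
      ≤ ∑ i ∈ Finset.Ioc k k', Real.log k' := by
        refine Finset.sum_le_sum fun i hi => ?_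
        rw [Finset.mem_Ioc] at hi
        rw [← Finset.sum_filter]
        refine (sum_log_primes_dvd_le (by omega) s hs).trans ?_
        exact Real.log_le_log (by exact_mod_cast (by omega : 0 < i)) (by exact_mod_cast hi.2)
    _ = _ := by
        rw [Finset.sum_const, Nat.card_Ioc, nsmul_eq_mul, Nat.cast_sub hk]

end Pool.Agent.Work.MP_b29d7f_nt
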