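import Pool.Agent.Work.MP_b29d7f_nt.Pig

/-!
# Sums over pairs
-/

open Filter Topology

namespace Pool.Agent.Work.MP_b29d7f_nt

/-- the sum of `f x y` over the pairs `y < x` of elements of `X` -/
noncomputable def PS (f : ℤ → ℤ → ℝ) (X : Finset ℤ) : ℝ :=
  ∑ x ∈ X, ∑ y ∈ X.filter (fun y => y < x), f x y

theorem PS_insert (f : ℤ → ℤ → ℝ) (hf : ∀ x y, f x y = f y x) (X : Finset ℤ) (z : ℤ)
    (hz : z ∉ X) : PS f (insert z X) = PS f X + ∑ y ∈ X, f z y := by
  classical
  unfold PS
  rw [Finset.sum_insert hz]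
  have h1 : ∑ y ∈ (insert z X).filter (fun y => y < z), f z y =
      ∑ y ∈ X, if y < z then f z y else 0 := by
    rw [Finset.filter_insert, if_neg (lt_irrefl _), Finset.sum_filter]
  have h2 : ∑ x ∈ X, ∑ y ∈ (insert z X).filter (fun y => y < x), f x y =
      (∑ x ∈ X, ∑ y ∈ X.filter (fun y => y < x), f x y) +
      ∑ y ∈ X, if z < y then f z y else 0 := by
    rw [← Finset.sum_add_distrib]
    refine Finset.sum_congr rfl fun x _ => ?_
    rw [Finset.filter_insert]
    split_ifs with h
    · rw [Finset.sum_insert (fun h' => hz (Finset.mem_filter.mp h').1), add_comm, hf]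
    · rw [add_zero]
  rw [h1, h2]
  have h3 : ∑ y ∈ X, f z y =
      (∑ y ∈ X, if y < z then f z y else 0) + ∑ y ∈ X, if z < y then f z y else 0 := by
    rw [← Finset.sum_add_distrib]
    refine Finset.sum_congr rfl fun y hy => ?_
    have hne : z ≠ y := by rintro rfl; exact hz hy
    rcases lt_or_gt_of_ne hne with h | h
    · rw [if_neg (not_lt.mpr h.le), if_pos h, zero_add]
    · rw [if_pos h, if_neg (not_lt.mpr h.le), add_zero]
  rw [h3]
  ring

theorem PS_union (f : ℤ → ℤ → ℝ) (hf : ∀ x y, f x y = f y x) (X₀ X₁ : Finset ℤ)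
    (hd : Disjoint X₀ X₁) :
    PS f (X₀ ∪ X₁) = PS f X₀ + PS f X₁ + ∑ x ∈ X₁, ∑ y ∈ X₀, f x y := by
  classical
  induction X₁ using Finset.induction_on with
  | empty => simp [PS]
  | insert z X₁ hz ih =>
    rw [Finset.disjoint_insert_right] at hd
    rw [Finset.union_insert, PS_insert f hf _ z (by
      rw [Finset.mem_union, not_or]; exact ⟨hd.1, hz⟩), ih hd.2, PS_insert f hf _ z hz,
      Finset.sum_union hd.2, Finset.sum_insert hz]
    ring

theorem PS_seq (f : ℤ → ℤ → ℝ) (hf : ∀ x y, f x y = f y x) (a : ℕ → ℤ)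
    (ha : Function.Injective a) (n : ℕ) :
    PS f ((Finset.range n).image a) =
      ∑ k ∈ Finset.range n, ∑ i ∈ Finset.range k, f (a k) (a i) := by
  classical
  induction n with
  | zero => simp [PS]
  | succ n ih =>
    rw [Finset.range_add_one, Finset.image_insert, PS_insert f hf, ih,
      Finset.sum_insert (by simp), add_comm]
    · congr 1
      rw [Finset.sum_image (fun i _ j _ h => ha h)]
    · rw [Finset.mem_image]
      rintro ⟨i, hi, hia⟩
      have := ha hia
      rw [Finset.mem_range] at hi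
      omega

theorem PS_congr {f g : ℤ → ℤ → ℝ} {X : Finset ℤ} (h : ∀ x ∈ X, ∀ y ∈ X, y < x → f x y = g x y) :
    PS f X = PS g X := by
  unfold PS
  refine Finset.sum_congr rfl fun x hx => Finset.sum_congr rfl fun y hy => ?_
  rw [Finset.mem_filter] at hy
  exact h x hx y hy.1 hy.2

theorem PS_nonneg {f : ℤ → ℤ → ℝ} {X : Finset ℤ} (h : ∀ x ∈ X, ∀ y ∈ X, 0 ≤ f x y) : 0 ≤ PS f X := by
  unfold PS
  refine Finset.sum_nonneg fun x hx => Finset.sum_nonneg fun y hy => ?_
  rw [Finset.mem_filter] at hy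
  exact h x hx y hy.1

/-- the `p`-adic valuation of the difference -/
noncomputable def vd (p : ℕ) (x y : ℤ) : ℝ := (multiplicity (p : ℤ) (x - y) : ℝ)

theorem vd_nonneg (p : ℕ) (x y : ℤ) : 0 ≤ vd p x y := Nat.cast_nonneg _

theorem vd_comm (p : ℕ) (x y : ℤ) : vd p x y = vd p y x := by
  unfold vd
  rw [← neg_sub, multiplicity_neg]

/-- logarithmic distance -/
noncomputable def ld (x y : ℤ) : ℝ := Real.log |((x - y : ℤ) : ℝ)|

theorem ld_comm (x y : ℤ) : ld x y = ld y x := by
  unfold ld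
  push_cast
  rw [abs_sub_comm]

theorem energy_eq_PS (X : Finset ℤ) : energy X = PS ld X := by
  unfold energy PS ld
  refine Finset.sum_congr rfl fun x _ => Finset.sum_congr rfl fun y _ => ?_
  rw [Real.log_abs]

/-- **product formula** -/
theorem PS_product (X : Finset ℤ) (s : Finset ℕ) (hs : ∀ p ∈ s, p.Prime)
    (hsub : ∀ x ∈ X, ∀ y ∈ X, x ≠ y → ∀ p : ℕ, p.Prime → multiplicity (p : ℤ) (x - y) ≠ 0 → p ∈ s) :
    PS ld X = ∑ p ∈ s, PS (vd p) X * Real.log p := by
  have h1 : PS ld X = PS (fun x y => ∑ p ∈ s, vd p x y * Real.log p) X := by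
    refine PS_congr fun x hx y hy hyx => ?_
    unfold ld vd
    exact log_eq_sum (x - y) (by omega) s hs (hsub x hx y hy (by omega))
  rw [h1]
  unfold PS
  simp_rw [Finset.sum_mul]
  rw [Finset.sum_comm]
  refine Finset.sum_congr rfl fun x _ => ?_
  rw [Finset.sum_comm]

/-- the valuation of a superfactorial is a lower bound for the `p`-adic energy -/
theorem PS_vd_ge {p : ℕ} (hp : p.Prime) (X : Finset ℤ) :
    ∑ k ∈ Finset.range X.card, (k.factorial.factorization p : ℝ) ≤ PS (vd p) X := by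
  classical
  rcases Nat.eq_zero_or_pos X.card with h0 | hpos
  · rw [h0, Finset.range_zero, Finset.sum_empty]
    exact PS_nonneg fun _ _ _ _ => vd_nonneg p _ _
  obtain ⟨n, hn⟩ : ∃ n, X.card = n + 1 := ⟨X.card - 1, by omega⟩
  set v := X.orderEmbOfFin hn with hv
  have hdvd := Matrix.superFactorial_dvd_vandermonde_det (fun i => v i)
  rw [Matrix.det_vandermonde] at hdvd
  have hX : X = (Finset.univ : Finset (Fin (n + 1))).image v := by
    rw [hv, Finset.image_orderEmbOfFin_univ]
  have hne : ∀ i j : Fin (n + 1), i ≠ j → v j - v i ≠ 0 := by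
    intro i j hij h
    exact hij (v.injective (sub_eq_zero.mp h)).symm
  have hprod0 : ∏ i : Fin (n + 1), ∏ j ∈ Finset.Ioi i, (v j - v i) ≠ 0 := by
    rw [Finset.prod_ne_zero_iff]
    intro i _
    rw [Finset.prod_ne_zero_iff]
    intro j hj
    rw [Finset.mem_Ioi] at hj
    exact hne i j hj.ne
  -- PS in terms of the enumeration
  have hPS : PS (vd p) X = ∑ i : Fin (n + 1), ∑ j ∈ Finset.Ioi i, vd p (v j) (v i) := by
    unfold PS
    conv_lhs => rw [hX]
    rw [Finset.sum_image (fun i _ j _ h => v.injective h)]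
    have h1 : ∀ j : Fin (n + 1), ∑ y ∈ ((Finset.univ : Finset (Fin (n + 1))).image v).filter
        (fun y => y < v j), vd p (v j) y = ∑ i ∈ Finset.Iio j, vd p (v j) (v i) := by
      intro j
      rw [Finset.filter_image, Finset.sum_image (fun i _ j _ h => v.injective h)]
      refine Finset.sum_congr ?_ fun _ _ => rfl
      ext i
      simp
    rw [Finset.sum_congr rfl fun j _ => h1 j]
    rw [Finset.sum_sigma', Finset.sum_sigma']
    refine Finset.sum_bij' (fun z _ => ⟨z.2, z.1⟩) (fun z _ => ⟨z.2, z.1⟩) ?_ ?_ ?_ ?_ ?_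
    · intro z hz
      simp only [Finset.mem_sigma, Finset.mem_univ, true_and, Finset.mem_Iio] at hz
      simpa using hz
    · intro z hz
      simp only [Finset.mem_sigma, Finset.mem_univ, true_and, Finset.mem_Ioi] at hz
      simpa using hz
    · intro z _; rfl
    · intro z _; rfl
    · intro z _; rfl
  have hpz : Prime (p : ℤ) := Nat.prime_iff_prime_int.mp hp
  have hfin : ∀ x : ℤ, x ≠ 0 → FiniteMultiplicity (p : ℤ) x := by
    intro x hx
    rw [Int.finiteMultiplicity_iff]
    exact ⟨by simpa using hp.ne_one, hx⟩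
  -- multiplicity of the determinant
  have hdet : (multiplicity (p : ℤ) (∏ i : Fin (n + 1), ∏ j ∈ Finset.Ioi i, (v j - v i)) : ℝ) =
      PS (vd p) X := by
    rw [hPS]
    have h3 : ((multiplicity (p : ℤ) (∏ i : Fin (n + 1), ∏ j ∈ Finset.Ioi i, (v j - v i)) : ℕ) : ℕ∞)
        = ((∑ i : Fin (n + 1), ∑ j ∈ Finset.Ioi i, multiplicity (p : ℤ) (v j - v i) : ℕ) : ℕ∞) := by
      rw [← (hfin _ hprod0).emultiplicity_eq_multiplicity, Finset.emultiplicity_prod hpz]
      push_cast
      refine Finset.sum_congr rfl fun i _ => ?_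
      rw [Finset.emultiplicity_prod hpz]
      refine Finset.sum_congr rfl fun j hj => ?_
      rw [Finset.mem_Ioi] at hj
      exact (hfin _ (hne i j hj.ne)).emultiplicity_eq_multiplicity
    have h4 : multiplicity (p : ℤ) (∏ i : Fin (n + 1), ∏ j ∈ Finset.Ioi i, (v j - v i)) =
        ∑ i : Fin (n + 1), ∑ j ∈ Finset.Ioi i, multiplicity (p : ℤ) (v j - v i) := by
      exact_mod_cast h3
    rw [h4]
    push_cast
    rfl
  -- the superfactorial
  have hsf : ∀ m : ℕ, m.superFactorial = ∏ k ∈ Finset.range (m + 1), k.factorial := by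
    intro m
    induction m with
    | zero => simp
    | succ m ih => rw [Finset.prod_range_succ, ← ih, Nat.superFactorial, mul_comm]
  have hsfac : ∀ m : ℕ, (∏ k ∈ Finset.range m, k.factorial).factorization p =
      ∑ k ∈ Finset.range m, k.factorial.factorization p := by
    intro m
    rw [Nat.factorization_prod (fun k _ => Nat.factorial_ne_zero k)]
    simp
  rw [← hdet, hn]
  have h5 : (p : ℤ) ^ (∑ k ∈ Finset.range (n + 1), k.factorial.factorization p) ∣
      ∏ i : Fin (n + 1), ∏ j ∈ Finset.Ioi i, (v j - v i) := by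
    refine dvd_trans ?_ hdvd
    rw [← hsfac, hsf]
    exact_mod_cast Nat.ordProj_dvd _ p
  rw [(hfin _ hprod0).pow_dvd_iff_le_multiplicity] at h5
  exact_mod_cast h5

end Pool.Agent.Work.MP_b29d7f_nt
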