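import Pool.Agent.Work.MP_b29d7f_nt.Val

/-!
# Averaging over residue classes
-/

namespace Pool.Agent.Work.MP_b29d7f_nt

theorem cnt_pow {p : ℕ} (hp : p.Prime) (N j : ℕ) (hj : j ≤ N) (c : ℤ) :
    ((Finset.range (p ^ N)).filter fun y : ℕ => (p : ℤ) ^ j ∣ (y : ℤ) - c).card = p ^ (N - j) := by
  have hpj : 0 < p ^ j := pow_pos hp.pos j
  have hpjz : (0:ℤ) < (p : ℤ) ^ j := by exact_mod_cast hpj
  set c' : ℕ := (c % (p : ℤ) ^ j).toNat with hc'
  have hc0 : 0 ≤ c % (p : ℤ) ^ j := Int.emod_nonneg _ hpjz.ne'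
  have hcc : ((c' : ℕ) : ℤ) = c % (p : ℤ) ^ j := Int.toNat_of_nonneg hc0
  have hiff : ∀ y : ℕ, (p : ℤ) ^ j ∣ (y : ℤ) - c ↔ y ≡ c' [MOD p ^ j] := by
    intro y
    rw [← Int.natCast_modEq_iff, hcc]
    push_cast
    constructor
    · intro h
      have h1 : c ≡ y [ZMOD (p:ℤ) ^ j] := Int.modEq_iff_dvd.mpr h
      exact (h1.symm).trans (Int.mod_modEq _ _).symm
    · intro h
      have h1 : c ≡ y [ZMOD (p:ℤ) ^ j] := (Int.mod_modEq _ _).symm.trans h.symm
      exact Int.modEq_iff_dvd.mp h1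
  rw [Finset.filter_congr (fun y _ => hiff y), ← Nat.count_eq_card_filter_range]
  rw [Nat.count_modEq_card (p ^ N) hpj c']
  have hdvd : p ^ j ∣ p ^ N := pow_dvd_pow _ hj
  rw [Nat.mod_eq_zero_of_dvd hdvd, if_neg (Nat.not_lt_zero _), add_zero, Nat.pow_div hj hp.pos]

theorem sum_geom (p : ℕ) (hp : 1 < p) (N : ℕ) :
    (∑ j ∈ Finset.Icc 1 N, p ^ (N - j)) * (p - 1) + 1 = p ^ N := by
  induction N with
  | zero => simp
  | succ N ih =>
    rw [Finset.sum_Icc_succ_top (by omega)]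
    have h1 : ∑ j ∈ Finset.Icc 1 N, p ^ (N + 1 - j) = p * ∑ j ∈ Finset.Icc 1 N, p ^ (N - j) := by
      rw [Finset.mul_sum]
      refine Finset.sum_congr rfl fun j hj => ?_
      rw [Finset.mem_Icc] at hj
      rw [show N + 1 - j = (N - j) + 1 by omega, pow_succ]; ring
    rw [h1, Nat.sub_self, pow_zero, pow_succ, ← ih]
    obtain ⟨q, rfl⟩ : ∃ q, p = q + 1 := ⟨p - 1, by omega⟩
    simp only [Nat.add_sub_cancel]
    ring

theorem wp_avg {S : Set ℤ} (hS : S.Infinite) {p : ℕ} (hp : p.Prime) {a : ℕ → ℤ}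
    (ha : IsPOrdering S p a) (k : ℕ) (R : Finset (ZMod p))
    (hR : ∀ c ∈ R, ∀ y : ℤ, (y : ZMod p) = c → ∀ N : ℕ, ∃ s ∈ S, (p : ℤ) ^ N ∣ s - y) :
    wp p a k * R.card * (p - 1) ≤ k * p := by
  classical
  haveI : Fact p.Prime := ⟨hp⟩
  set w := wp p a k with hw
  rcases Nat.eq_zero_or_pos w with h0 | hwpos
  · rw [h0]; simp
  set Y : Finset ℕ := (Finset.range (p ^ w)).filter fun y : ℕ => ((y : ℤ) : ZMod p) ∈ R with hY
  have hYcard : Y.card = R.card * p ^ (w - 1) := by
    have h1 : Y = R.biUnion fun c => (Finset.range (p ^ w)).filter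
        fun y : ℕ => ((y : ℤ) : ZMod p) = c := by
      ext y
      simp only [hY, Finset.mem_filter, Finset.mem_biUnion]
      constructor
      · rintro ⟨h1, h2⟩; exact ⟨_, h2, h1, rfl⟩
      · rintro ⟨c, h1, h2, h3⟩; exact ⟨h2, h3 ▸ h1⟩
    rw [h1, Finset.card_biUnion]
    · rw [Finset.sum_congr rfl (g := fun _ => p ^ (w - 1)), Finset.sum_const, smul_eq_mul]
      intro c _
      rw [← cnt_pow hp w 1 hwpos ((c.val : ℕ) : ℤ)]
      congr 1
      apply Finset.filter_congr
      intro y _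
      rw [pow_one, ← ZMod.intCast_zmod_eq_zero_iff_dvd]
      push_cast
      rw [ZMod.natCast_zmod_val, sub_eq_zero]
    · intro c _ d _ hcd
      rw [Function.onFun, Finset.disjoint_left]
      intro y hy hy'
      rw [Finset.mem_filter] at hy hy'
      exact hcd (hy.2.symm.trans hy'.2)
  have hlow : w * Y.card ≤ ∑ y ∈ Y, ∑ i ∈ Finset.range k, tv p w ((y : ℤ) - a i) := by
    rw [mul_comm, ← smul_eq_mul, ← Finset.sum_const]
    refine Finset.sum_le_sum fun y hy => ?_
    rw [hY, Finset.mem_filter] at hy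
    obtain ⟨s, hs, hd⟩ := hR _ hy.2 (y : ℤ) rfl w
    exact sum_tv_ge hp a k s y w w le_rfl hd (pow_wp_dvd hS hp ha k s hs)
  have hup : ∑ y ∈ Y, ∑ i ∈ Finset.range k, tv p w ((y : ℤ) - a i) ≤
      k * ∑ j ∈ Finset.Icc 1 w, p ^ (w - j) := by
    rw [Finset.sum_comm]
    have hone : ∀ i ∈ Finset.range k, ∑ y ∈ Y, tv p w ((y : ℤ) - a i) ≤
        ∑ j ∈ Finset.Icc 1 w, p ^ (w - j) := by
      intro i _
      unfold tv
      simp_rw [Finset.card_filter]
      rw [Finset.sum_comm]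
      refine Finset.sum_le_sum fun j hj => ?_
      rw [Finset.mem_Icc] at hj
      rw [← Finset.card_filter, ← cnt_pow hp w j hj.2 (a i)]
      apply Finset.card_le_card
      intro y hy
      rw [Finset.mem_filter] at hy ⊢
      rw [hY, Finset.mem_filter] at hy
      exact ⟨hy.1.1, hy.2⟩
    calc _ ≤ ∑ _i ∈ Finset.range k, ∑ j ∈ Finset.Icc 1 w, p ^ (w - j) := Finset.sum_le_sum hone
      _ = _ := by rw [Finset.sum_const, Finset.card_range, smul_eq_mul]
  have hgeom := sum_geom p hp.one_lt w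
  have hpp : p ^ w = p * p ^ (w - 1) := by
    rw [← pow_succ', Nat.sub_add_cancel hwpos]
  have hpos : 0 < p ^ (w - 1) := pow_pos hp.pos _
  have hfin : (w * R.card * (p - 1)) * p ^ (w - 1) ≤ (k * p) * p ^ (w - 1) := by
    calc (w * R.card * (p - 1)) * p ^ (w - 1) = (w * Y.card) * (p - 1) := by rw [hYcard]; ring
      _ ≤ (k * ∑ j ∈ Finset.Icc 1 w, p ^ (w - j)) * (p - 1) :=
          Nat.mul_le_mul_right _ (hlow.trans hup)
      _ = k * ((∑ j ∈ Finset.Icc 1 w, p ^ (w - j)) * (p - 1)) := by ring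
      _ ≤ k * p ^ w := Nat.mul_le_mul_left _ (by omega)
      _ = (k * p) * p ^ (w - 1) := by rw [hpp]; ring
  exact Nat.le_of_mul_le_mul_right hfin hpos

theorem wp_ball {S : Set ℤ} (hS : S.Infinite) {p : ℕ} (hp : p.Prime) {a : ℕ → ℤ}
    (ha : IsPOrdering S p a) (k m : ℕ) (c : ℤ) (hc : Full S p m c) :
    wp p a k ≤ k * (m + 1) := by
  classical
  set w := wp p a k with hw
  set N := max w m with hN
  have hwN : w ≤ N := le_max_left _ _
  have hmN : m ≤ N := le_max_right _ _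
  set Y : Finset ℕ := (Finset.range (p ^ N)).filter fun y : ℕ => (p : ℤ) ^ m ∣ (y : ℤ) - c with hY
  have hYcard : Y.card = p ^ (N - m) := cnt_pow hp N m hmN c
  have hlow : w * Y.card ≤ ∑ y ∈ Y, ∑ i ∈ Finset.range k, tv p N ((y : ℤ) - a i) := by
    rw [mul_comm, ← smul_eq_mul, ← Finset.sum_const]
    refine Finset.sum_le_sum fun y hy => ?_
    rw [hY, Finset.mem_filter] at hy
    obtain ⟨s, hs, hd⟩ := hc (y : ℤ) hy.2 N
    exact sum_tv_ge hp a k s y N w hwN hd (pow_wp_dvd hS hp ha k s hs)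
  have hup : ∑ y ∈ Y, ∑ i ∈ Finset.range k, tv p N ((y : ℤ) - a i) ≤
      k * ((m + 1) * p ^ (N - m)) := by
    rw [Finset.sum_comm]
    have hone : ∀ i ∈ Finset.range k, ∑ y ∈ Y, tv p N ((y : ℤ) - a i) ≤ (m + 1) * p ^ (N - m) := by
      intro i _
      unfold tv
      simp_rw [Finset.card_filter]
      rw [Finset.sum_comm]
      have hterm : ∀ j ∈ Finset.Icc 1 N,
          (∑ y ∈ Y, if (p : ℤ) ^ j ∣ (y : ℤ) - a i then 1 else 0) ≤
            if j ≤ m then p ^ (N - m) else p ^ (N - j) := by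
        intro j hj
        rw [Finset.mem_Icc] at hj
        rw [← Finset.card_filter]
        split_ifs with hjm
        · rw [← hYcard]; exact Finset.card_filter_le _ _
        · rw [← cnt_pow hp N j hj.2 (a i)]
          apply Finset.card_le_card
          intro y hy
          rw [Finset.mem_filter] at hy ⊢
          rw [hY, Finset.mem_filter] at hy
          exact ⟨hy.1.1, hy.2⟩
      refine (Finset.sum_le_sum hterm).trans ?_
      rw [Finset.sum_ite]
      have h1 : ∑ x ∈ (Finset.Icc 1 N).filter (fun j => j ≤ m), p ^ (N - m) ≤ m * p ^ (N - m) := by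
        rw [Finset.sum_const, smul_eq_mul]
        apply Nat.mul_le_mul_right
        have : (Finset.Icc 1 N).filter (fun j => j ≤ m) ⊆ Finset.Icc 1 m := by
          intro j hj
          rw [Finset.mem_filter, Finset.mem_Icc] at hj
          rw [Finset.mem_Icc]; omega
        have := Finset.card_le_card this
        rw [Nat.card_Icc] at this
        omega
      have h2 : ∑ x ∈ (Finset.Icc 1 N).filter (fun j => ¬ j ≤ m), p ^ (N - x) ≤ p ^ (N - m) := by
        have h3 : ∑ x ∈ (Finset.Icc 1 N).filter (fun j => ¬ j ≤ m), p ^ (N - x) ≤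
            ∑ j ∈ Finset.Icc 1 (N - m), p ^ ((N - m) - j) := by
          have himg : (Finset.Icc 1 N).filter (fun j => ¬ j ≤ m) =
              (Finset.Icc 1 (N - m)).image (fun j => j + m) := by
            ext j
            simp only [Finset.mem_filter, Finset.mem_Icc, Finset.mem_image]
            constructor
            · rintro ⟨⟨h1, h2⟩, h3⟩; exact ⟨j - m, ⟨by omega, by omega⟩, by omega⟩
            · rintro ⟨l, ⟨h1, h2⟩, rfl⟩; omega
          rw [himg, Finset.sum_image (fun x _ y _ h => by omega)]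
          refine Finset.sum_le_sum fun j _ => ?_
          rw [show N - (j + m) = N - m - j by omega]
        have h4 := sum_geom p hp.one_lt (N - m)
        have h5 : ∑ j ∈ Finset.Icc 1 (N - m), p ^ ((N - m) - j) ≤
            (∑ j ∈ Finset.Icc 1 (N - m), p ^ ((N - m) - j)) * (p - 1) :=
          Nat.le_mul_of_pos_right _ (by have := hp.two_le; omega)
        omega
      calc _ ≤ m * p ^ (N - m) + p ^ (N - m) := Nat.add_le_add h1 h2
        _ = (m + 1) * p ^ (N - m) := by ring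
    calc _ ≤ ∑ _i ∈ Finset.range k, (m + 1) * p ^ (N - m) := Finset.sum_le_sum hone
      _ = _ := by rw [Finset.sum_const, Finset.card_range, smul_eq_mul]
  have hpos : 0 < p ^ (N - m) := pow_pos hp.pos _
  have hfin : w * p ^ (N - m) ≤ (k * (m + 1)) * p ^ (N - m) := by
    calc w * p ^ (N - m) = w * Y.card := by rw [hYcard]
      _ ≤ _ := hlow.trans hup
      _ = _ := by ring
  exact Nat.le_of_mul_le_mul_right hfin hpos

end Pool.Agent.Work.MP_b29d7f_nt
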