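import Pool.Agent.Work.MP_b29d7f_nt.Global

/-!
# Few terms of the ordering lie outside the balls
-/

open Filter Topology

namespace Pool.Agent.Work.MP_b29d7f_nt

/-- the number of `i < k` with `a i` outside the ball `c + p ^ m ℤ_p` -/
noncomputable def nZ (p m : ℕ) (c : ℤ) (a : ℕ → ℤ) (k : ℕ) : ℕ := by
  classical
  exact ((Finset.range k).filter fun i => ¬ (p : ℤ) ^ m ∣ a i - c).card

open scoped Classical in
theorem nZ_eq (p m : ℕ) (c : ℤ) (a : ℕ → ℤ) (k : ℕ) :
    nZ p m c a k = ((Finset.range k).filter fun i => ¬ (p : ℤ) ^ m ∣ a i - c).card := by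
  unfold nZ
  congr

theorem nZ_mono (p m : ℕ) (c : ℤ) (a : ℕ → ℤ) : Monotone (nZ p m c a) := by
  classical
  intro k l hkl
  rw [nZ_eq, nZ_eq]
  refine Finset.card_le_card ?_
  exact Finset.filter_subset_filter _ (Finset.range_mono hkl)

theorem mem_Yset_of_Full {S : Set ℤ} {p m : ℕ} {c : ℤ} (hF : Full S p m c) (J : ℕ) (y : ℕ)
    (hy : y < p ^ J) (hyc : (p : ℤ) ^ m ∣ (y : ℤ) - c) : y ∈ Yset S p J := by
  rw [mem_Yset]
  exact ⟨hy, hF y hyc J⟩

theorem wp_le_nZ {S : Set ℤ} (hS : S.Infinite) {p : ℕ} (hp : p.Prime) {a : ℕ → ℤ}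
    (ha : IsPOrdering S p a) {m : ℕ} {c : ℤ} (hF : Full S p m c) (k : ℕ) :
    (wp p a k : ℝ) ≤ k * (m + 1 / (p - 1)) - nZ p m c a k := by
  classical
  have hpr : (2 : ℝ) ≤ p := by exact_mod_cast hp.two_le
  have hp0 : (0 : ℝ) < p := by linarith
  have hp1 : (0 : ℝ) < p - 1 := by linarith
  set w := wp p a k with hw
  set J := max w m with hJ
  have hwJ : w ≤ J := le_max_left _ _
  have hmJ : m ≤ J := le_max_right _ _
  set Y := (Finset.range (p ^ J)).filter fun y : ℕ => (p : ℤ) ^ m ∣ (y : ℤ) - c with hY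
  have hYcard : Y.card = p ^ (J - m) := cnt_pow hp J m hmJ c
  have hYsub : Y ⊆ Yset S p J := by
    intro y hy
    rw [hY, Finset.mem_filter, Finset.mem_range] at hy
    exact mem_Yset_of_Full hF J y hy.1 hy.2
  have h1 := wp_sum_le hS hp ha k J hwJ Y hYsub
  rw [← hw] at h1
  have hYr : (Y.card : ℝ) = (p : ℝ) ^ J * ((p : ℝ) ^ m)⁻¹ := by
    rw [hYcard]; push_cast; exact pow_sub₀ _ hp0.ne' hmJ
  have hYpos : (0 : ℝ) < Y.card := by rw [hYr]; positivity
  -- upper bound for each `i`
  have h2 : ∀ i ∈ Finset.range k, ((∑ j ∈ Finset.Icc 1 J,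
      (Y.filter fun y : ℕ => (p : ℤ) ^ j ∣ (y : ℤ) - a i).card : ℕ) : ℝ) ≤
      Y.card * (m + 1 / (p - 1) - if ¬ (p : ℤ) ^ m ∣ a i - c then 1 else 0) := by
    intro i _
    push_cast
    by_cases hin : (p : ℤ) ^ m ∣ a i - c
    · rw [if_neg (not_not.mpr hin), sub_zero]
      have hsplit : Finset.Icc 1 J = Finset.Icc 1 m ∪ Finset.Ioc m J := by
        ext j; simp only [Finset.mem_union, Finset.mem_Icc, Finset.mem_Ioc]; omega
      rw [hsplit, Finset.sum_union]
      · have e1 : ∑ j ∈ Finset.Icc 1 m,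
            ((Y.filter fun y : ℕ => (p : ℤ) ^ j ∣ (y : ℤ) - a i).card : ℝ) ≤ m * Y.card := by
          calc _ ≤ ∑ j ∈ Finset.Icc 1 m, (Y.card : ℝ) := by
                refine Finset.sum_le_sum fun j _ => ?_
                exact_mod_cast Finset.card_filter_le _ _
            _ = _ := by rw [Finset.sum_const, Nat.card_Icc]; simp
        have e2 : ∑ j ∈ Finset.Ioc m J,
            ((Y.filter fun y : ℕ => (p : ℤ) ^ j ∣ (y : ℤ) - a i).card : ℝ) ≤
            Y.card * (1 / (p - 1)) := by
          calc _ ≤ ∑ j ∈ Finset.Ioc m J, (p : ℝ) ^ J * ((p : ℝ) ^ j)⁻¹ := by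
                refine Finset.sum_le_sum fun j hj => ?_
                rw [Finset.mem_Ioc] at hj
                have h3 : ((Y.filter fun y : ℕ => (p : ℤ) ^ j ∣ (y : ℤ) - a i).card : ℝ) ≤
                    ((p ^ (J - j) : ℕ) : ℝ) := by
                  have h4 : (Y.filter fun y : ℕ => (p : ℤ) ^ j ∣ (y : ℤ) - a i) ⊆
                      (Finset.range (p ^ J)).filter fun y : ℕ => (p : ℤ) ^ j ∣ (y : ℤ) - a i := by
                    intro y hy
                    rw [Finset.mem_filter, hY, Finset.mem_filter] at hy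
                    rw [Finset.mem_filter]
                    exact ⟨hy.1.1, hy.2⟩
                  have h5 := Finset.card_le_card h4
                  rw [cnt_pow hp J j hj.2 (a i)] at h5
                  exact_mod_cast h5
                refine h3.trans (le_of_eq ?_)
                push_cast
                rw [pow_sub₀ _ hp0.ne' hj.2]
            _ = (p : ℝ) ^ J * ∑ j ∈ Finset.Ioc m J, ((p : ℝ) ^ j)⁻¹ := by rw [Finset.mul_sum]
            _ ≤ (p : ℝ) ^ J * ((p : ℝ) ^ m * (p - 1))⁻¹ :=
                mul_le_mul_of_nonneg_left (sum_pow_inv_le p m J hp.two_le) (by positivity)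
            _ = _ := by rw [hYr]; field_simp
        linarith
      · rw [Finset.disjoint_left]
        intro j hj hj'
        rw [Finset.mem_Icc] at hj
        rw [Finset.mem_Ioc] at hj'
        omega
    · rw [if_pos hin]
      have hm1 : 1 ≤ m := by
        by_contra h0
        apply hin
        rw [show m = 0 by omega, pow_zero]
        exact one_dvd _
      have hzero : ∀ j ∈ Finset.Icc 1 J, m ≤ j →
          ((Y.filter fun y : ℕ => (p : ℤ) ^ j ∣ (y : ℤ) - a i).card : ℝ) = 0 := by
        intro j _ hmj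
        rw [Nat.cast_eq_zero, Finset.card_eq_zero, Finset.filter_eq_empty_iff]
        intro y hy hd
        apply hin
        rw [hY, Finset.mem_filter] at hy
        have h3 := dvd_sub hy.2 ((pow_dvd_pow (p : ℤ) hmj).trans hd)
        have : (y : ℤ) - c - (y - a i) = a i - c := by ring
        rwa [this] at h3
      have e1 : ∑ j ∈ Finset.Icc 1 J,
          ((Y.filter fun y : ℕ => (p : ℤ) ^ j ∣ (y : ℤ) - a i).card : ℝ) ≤ (m - 1) * Y.card := by
        calc _ ≤ ∑ j ∈ Finset.Icc 1 J, (if j < m then (Y.card : ℝ) else 0) := by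
              refine Finset.sum_le_sum fun j hj => ?_
              split_ifs with h
              · exact_mod_cast Finset.card_filter_le _ _
              · exact (hzero j hj (by omega)).le
          _ ≤ ∑ j ∈ Finset.Ico 1 m, (Y.card : ℝ) := by
              rw [← Finset.sum_filter]
              refine Finset.sum_le_sum_of_subset_of_nonneg ?_ fun _ _ _ => Nat.cast_nonneg _
              intro j hj
              rw [Finset.mem_filter, Finset.mem_Icc] at hj
              rw [Finset.mem_Ico]
              omega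
          _ = _ := by
              rw [Finset.sum_const, Nat.card_Ico, nsmul_eq_mul, Nat.cast_sub hm1, Nat.cast_one]
      have e2 : 0 ≤ (Y.card : ℝ) * (1 / (p - 1)) := by positivity
      nlinarith
  have h3 : ((w * Y.card : ℕ) : ℝ) ≤ ∑ i ∈ Finset.range k,
      (Y.card * (m + 1 / (p - 1) - if ¬ (p : ℤ) ^ m ∣ a i - c then 1 else 0) : ℝ) := by
    have h4 : ((w * Y.card : ℕ) : ℝ) ≤ ((∑ i ∈ Finset.range k, ∑ j ∈ Finset.Icc 1 J,
      (Y.filter fun y : ℕ => (p : ℤ) ^ j ∣ (y : ℤ) - a i).card : ℕ) : ℝ) := by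
      exact_mod_cast h1
    rw [Nat.cast_sum] at h4
    exact h4.trans (Finset.sum_le_sum h2)
  rw [← Finset.mul_sum, Finset.sum_sub_distrib, Finset.sum_const, Finset.card_range, nsmul_eq_mul,
    ← Finset.natCast_card_filter, ← nZ_eq] at h3
  push_cast at h3
  have h4 : (w : ℝ) * Y.card ≤ (k * (m + 1 / (p - 1)) - nZ p m c a k) * Y.card := by linarith
  exact le_of_mul_le_mul_right h4 hYpos

/-- the number of terms outside the ball is `o(n)` -/
theorem nZ_small {S : Set ℤ} (hT : Thick S) {a : ℕ → ℤ}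
    (ha : ∀ p : ℕ, p.Prime → IsPOrdering S p a) {q : ℕ} (hq : q.Prime) {m : ℕ} {c : ℤ}
    (hmu : mu S q = ((q : ℝ) ^ m)⁻¹) (hF : Full S q m c) (δ : ℝ) (hδ : 0 < δ) :
    ∀ᶠ n : ℕ in atTop, (nZ q m c a n : ℝ) ≤ δ * n := by
  have hS : S.Infinite := infinite_of_linGrowth (hT.1 2 Nat.prime_two)
  have hqr : (2 : ℝ) ≤ q := by exact_mod_cast hq.two_le
  have hlogq : Real.log 2 ≤ Real.log q := Real.log_le_log (by norm_num) hqr
  have hlog2 : 0 < Real.log 2 := Real.log_pos (by norm_num)
  set ε : ℝ := δ * Real.log 2 / 6 with hε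
  have hεpos : 0 < ε := by positivity
  obtain ⟨C, hC0, hC⟩ := local_sharp hT ha hq ε hεpos
  have hkap : kap S q = (m + 1 / (q - 1)) * Real.log q := by
    unfold kap
    rw [hmu, Real.log_inv, Real.log_pow]
    ring
  -- bound for the sum of nZ
  have h1 : ∀ n : ℕ, (∑ k ∈ Finset.range n, (nZ q m c a k : ℝ)) * Real.log q ≤
      ∑ k ∈ Finset.range n, (k * ε + C * (1 + Real.log k)) := by
    intro n
    have h2 := hC n
    have h3 : ∑ k ∈ Finset.range n, (wp q a k : ℝ) * Real.log q ≤
        ∑ k ∈ Finset.range n, (k * kap S q - nZ q m c a k * Real.log q) := by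
      refine Finset.sum_le_sum fun k _ => ?_
      rw [hkap]
      calc (wp q a k : ℝ) * Real.log q ≤ (k * (m + 1 / (q - 1)) - nZ q m c a k) * Real.log q :=
            mul_le_mul_of_nonneg_right (wp_le_nZ hS hq (ha q hq) hF k) (by linarith)
        _ = _ := by ring
    have h4 := h2.trans h3
    rw [← sub_nonneg, ← Finset.sum_sub_distrib] at h4
    rw [← sub_nonneg, Finset.sum_mul, ← Finset.sum_sub_distrib]
    refine h4.trans (le_of_eq (Finset.sum_congr rfl fun k _ => ?_))
    ring
  -- log n = o(n)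
  have h2 : Tendsto (fun n : ℕ => C * (1 + Real.log (2 * n)) / n) atTop (𝓝 0) := by
    have h3 : Tendsto (fun n : ℕ => Real.log (n : ℝ) / n) atTop (𝓝 0) := by
      have := (Real.isLittleO_log_id_atTop.tendsto_div_nhds_zero).comp
        (tendsto_natCast_atTop_atTop (R := ℝ))
      exact this
    have h4 : Tendsto (fun n : ℕ => (1 : ℝ) / n) atTop (𝓝 0) := tendsto_one_div_atTop_nhds_zero_nat
    have h5 := ((h4.const_mul (C * (1 + Real.log 2))).add (h3.const_mul C))
    rw [mul_zero, mul_zero, add_zero] at h5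
    refine h5.congr' ?_
    filter_upwards [eventually_gt_atTop 0] with n hn
    have hnr : (0 : ℝ) < n := by exact_mod_cast hn
    rw [Real.log_mul (by norm_num) hnr.ne']
    ring
  have h3 : ∀ᶠ n : ℕ in atTop, C * (1 + Real.log (2 * n)) / n < ε := h2.eventually_lt_const hεpos
  filter_upwards [h3, eventually_gt_atTop 0] with n hn hn0
  have hnr : (1 : ℝ) ≤ n := by exact_mod_cast hn0
  rw [div_lt_iff₀ (by linarith)] at hn
  have h4 := h1 (2 * n)
  have h5 : (n : ℝ) * nZ q m c a n ≤ ∑ k ∈ Finset.range (2 * n), (nZ q m c a k : ℝ) := by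
    calc (n : ℝ) * nZ q m c a n = ∑ k ∈ Finset.Ico n (2 * n), (nZ q m c a n : ℝ) := by
          rw [Finset.sum_const, Nat.card_Ico, nsmul_eq_mul]
          congr 2
          omega
      _ ≤ ∑ k ∈ Finset.Ico n (2 * n), (nZ q m c a k : ℝ) := by
          refine Finset.sum_le_sum fun k hk => ?_
          rw [Finset.mem_Ico] at hk
          exact_mod_cast nZ_mono q m c a hk.1
      _ ≤ _ := by
          refine Finset.sum_le_sum_of_subset_of_nonneg ?_ fun _ _ _ => Nat.cast_nonneg _
          intro k hk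
          rw [Finset.mem_Ico] at hk
          rw [Finset.mem_range]
          exact hk.2
  have h6 : ∑ k ∈ Finset.range (2 * n), ((k : ℝ) * ε + C * (1 + Real.log k)) ≤
      2 * n * (n * ε + n * ε) + 2 * n * (ε * n) := by
    rw [Finset.sum_add_distrib]
    refine add_le_add ?_ ?_
    · calc ∑ k ∈ Finset.range (2 * n), (k : ℝ) * ε ≤ ∑ k ∈ Finset.range (2 * n), (n * ε + n * ε) := by
            refine Finset.sum_le_sum fun k hk => ?_
            rw [Finset.mem_range] at hk
            have : (k : ℝ) ≤ 2 * n := by exact_mod_cast hk.le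
            nlinarith
        _ = _ := by rw [Finset.sum_const, Finset.card_range, nsmul_eq_mul]; push_cast; ring
    · calc ∑ k ∈ Finset.range (2 * n), C * (1 + Real.log (k : ℝ)) ≤
            ∑ k ∈ Finset.range (2 * n), ε * n := by
            refine Finset.sum_le_sum fun k hk => ?_
            rw [Finset.mem_range] at hk
            refine le_trans (mul_le_mul_of_nonneg_left ?_ hC0) hn.le
            rcases Nat.eq_zero_or_pos k with rfl | hk0
            · have := Real.log_nonneg (show (1 : ℝ) ≤ 2 * n by linarith)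
              simp only [Nat.cast_zero, Real.log_zero]
              linarith
            · have := Real.log_le_log (show (0 : ℝ) < k by exact_mod_cast hk0)
                (show (k : ℝ) ≤ 2 * n by exact_mod_cast hk.le)
              linarith
        _ = _ := by rw [Finset.sum_const, Finset.card_range, nsmul_eq_mul]; push_cast; ring
  have h7 : (n : ℝ) * nZ q m c a n * Real.log 2 ≤ 6 * ε * n * n := by
    have h8 : (n : ℝ) * nZ q m c a n * Real.log 2 ≤
        (∑ k ∈ Finset.range (2 * n), (nZ q m c a k : ℝ)) * Real.log q :=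
      mul_le_mul h5 hlogq hlog2.le (Finset.sum_nonneg fun _ _ => Nat.cast_nonneg _)
    linarith
  have h8 : 6 * ε = δ * Real.log 2 := by rw [hε]; ring
  rw [h8] at h7
  have h9 : ((n : ℝ) * Real.log 2) * nZ q m c a n ≤ (n * Real.log 2) * (δ * n) := by linarith
  exact le_of_mul_le_mul_left h9 (by positivity)

end Pool.Agent.Work.MP_b29d7f_nt
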