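import Pool.Agent.Work.MP_b29d7f_nt.Fact

/-!
# The numerical contradiction
-/

open Filter Topology

namespace Pool.Agent.Work.MP_b29d7f_nt

theorem log_le_two_sqrt {x : ℝ} (hx : 0 < x) : Real.log x ≤ 2 * √x := by
  have h1 := Real.log_le_sub_one_of_pos (Real.sqrt_pos.mpr hx)
  rw [Real.log_sqrt hx.le] at h1
  have := Real.sqrt_nonneg x
  linarith

/-- a crude entropy bound for binomial coefficients -/
theorem log_choose_le (n₀ i n : ℕ) (hn : n₀ + i ≤ n) :
    Real.log ((n₀ + i).factorial : ℝ) - Real.log (n₀.factorial : ℝ) - Real.log (i.factorial : ℝ) ≤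
      2 * √((i : ℝ) * n) + i := by
  rcases Nat.eq_zero_or_pos i with rfl | hi
  · simp
  have hir : (0 : ℝ) < i := by exact_mod_cast hi
  have hnr : (0 : ℝ) < n := by exact_mod_cast (by omega : 0 < n)
  have h1 : (n₀ + i).factorial ≤ n₀.factorial * n ^ i := by
    rw [← Nat.factorial_mul_ascFactorial]
    refine Nat.mul_le_mul_left _ ?_
    exact (Nat.ascFactorial_le_pow_add n₀ i).trans (Nat.pow_le_pow_left hn i)
  have h2 : Real.log ((n₀ + i).factorial : ℝ) ≤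
      Real.log (n₀.factorial : ℝ) + i * Real.log n := by
    have h3 : Real.log ((n₀ + i).factorial : ℝ) ≤ Real.log ((n₀.factorial * n ^ i : ℕ) : ℝ) :=
      Real.log_le_log (by positivity) (by exact_mod_cast h1)
    push_cast at h3
    rwa [Real.log_mul (by positivity) (by positivity), Real.log_pow] at h3
  have h3 := log_factorial_ge i
  have h4 : Real.log n - Real.log i ≤ 2 * √((n : ℝ) / i) := by
    rw [← Real.log_div hnr.ne' hir.ne']
    exact log_le_two_sqrt (by positivity)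
  have h5 : (i : ℝ) * √((n : ℝ) / i) = √((i : ℝ) * n) := by
    rw [show (i : ℝ) * n = (i : ℝ) ^ 2 * (n / i) by field_simp, Real.sqrt_mul (by positivity),
      Real.sqrt_sq hir.le]
  have h6 := mul_le_mul_of_nonneg_left h4 hir.le
  have h7 : (i : ℝ) * (2 * √((n : ℝ) / i)) = 2 * √((i : ℝ) * n) := by rw [← h5]; ring
  rw [h7] at h6
  linarith

theorem sum_range_real (N : ℕ) : ∑ k ∈ Finset.range N, (k : ℝ) = N * (N - 1) / 2 := by
  induction N with
  | zero => simp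
  | succ N ih => rw [Finset.sum_range_succ, ih]; push_cast; ring

theorem log_prime_bound {p : ℕ} (hp : p.Prime) :
    Real.log 3 ≤ Real.log p + Real.log p / (p - 1) := by
  have h2 : (2 : ℝ) ≤ p := by exact_mod_cast hp.two_le
  rcases Nat.lt_or_ge p 3 with h | h
  · have : p = 2 := by have := hp.two_le; omega
    subst this
    have h3 : Real.log 3 ≤ Real.log 4 := Real.log_le_log (by norm_num) (by norm_num)
    have h4 : Real.log 4 = Real.log 2 + Real.log 2 := by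
      rw [← Real.log_mul (by norm_num) (by norm_num)]; norm_num
    have h5 : Real.log ((2 : ℕ) : ℝ) + Real.log ((2 : ℕ) : ℝ) / (((2 : ℕ) : ℝ) - 1) =
        Real.log 2 + Real.log 2 := by push_cast; norm_num
    rw [h5, ← h4]
    exact h3
  · have h3 : (3 : ℝ) ≤ p := by exact_mod_cast h
    have h4 := Real.log_le_log (by norm_num : (0 : ℝ) < 3) h3
    have h5 : 0 ≤ Real.log p / (p - 1) := div_nonneg (Real.log_nonneg (by linarith)) (by linarith)
    linarith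

theorem N1_bound {n n₀ n₁ : ℕ} {t : ℝ} (ht : 0 ≤ t) (hsplit : n = n₀ + n₁)
    (hτ : (n₁ : ℝ) ≤ t ^ 2 * n) :
    ∑ k ∈ Finset.range n, Real.log (k.factorial : ℝ) -
      ∑ k ∈ Finset.range n₀, Real.log (k.factorial : ℝ) -
      ∑ k ∈ Finset.range n₁, Real.log (k.factorial : ℝ) - n₁ * Real.log (n₀.factorial : ℝ) ≤
      n₁ * (2 * (t * n) + n₁) := by
  have hn0 : (0 : ℝ) ≤ n := Nat.cast_nonneg n
  have e1 : ∑ k ∈ Finset.range n, Real.log (k.factorial : ℝ) =
      ∑ k ∈ Finset.range n₀, Real.log (k.factorial : ℝ) +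
      ∑ i ∈ Finset.range n₁, Real.log ((n₀ + i).factorial : ℝ) := by
    rw [hsplit, Finset.sum_range_add]
  have e2 : (n₁ : ℝ) * Real.log (n₀.factorial : ℝ) =
      ∑ i ∈ Finset.range n₁, Real.log (n₀.factorial : ℝ) := by
    rw [Finset.sum_const, Finset.card_range, nsmul_eq_mul]
  have e3 : ∑ k ∈ Finset.range n, Real.log (k.factorial : ℝ) -
    ∑ k ∈ Finset.range n₀, Real.log (k.factorial : ℝ) -
    ∑ k ∈ Finset.range n₁, Real.log (k.factorial : ℝ) - n₁ * Real.log (n₀.factorial : ℝ) =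
    ∑ i ∈ Finset.range n₁, (Real.log ((n₀ + i).factorial : ℝ) - Real.log (n₀.factorial : ℝ) -
      Real.log (i.factorial : ℝ)) := by
    rw [e1, e2, Finset.sum_sub_distrib, Finset.sum_sub_distrib]
    ring
  rw [e3]
  calc _ ≤ ∑ i ∈ Finset.range n₁, (2 * (t * n) + (n₁ : ℝ)) := by
        refine Finset.sum_le_sum fun i hi => ?_
        rw [Finset.mem_range] at hi
        refine (log_choose_le n₀ i n (by omega)).trans ?_
        have hir : (i : ℝ) ≤ n₁ := by exact_mod_cast hi.le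
        refine add_le_add (mul_le_mul_of_nonneg_left ?_ (by norm_num)) hir
        rw [Real.sqrt_le_left (by positivity)]
        calc (i : ℝ) * n ≤ (t ^ 2 * n) * n :=
              mul_le_mul_of_nonneg_right (hir.trans hτ) hn0
          _ = (t * n) ^ 2 := by ring
    _ = _ := by rw [Finset.sum_const, Finset.card_range, nsmul_eq_mul]

theorem Tp_bound {p : ℕ} (hpp : p.Prime) (m n n₀ n₁ N Z : ℕ) (hNZ : n = N + Z)
    (hn₀N' : n₀ ≤ N) (hsplit : n = n₀ + n₁) :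
    (∑ k ∈ Finset.range n₁, (k.factorial.factorization p : ℝ) * Real.log p) -
      (∑ k ∈ Finset.range n, (k.factorial.factorization p : ℝ) * Real.log p) +
      (∑ j ∈ Finset.range N, ((m : ℝ) * j + (j.factorial.factorization p : ℝ)) +
          ((m : ℝ) - 1) * N * Z) * Real.log p ≤
      n₁ * (n₁ * Real.log p) + n₁ * (Real.log n + Real.log p) +
        (m : ℝ) * Real.log p * (n * (n - 1) / 2) - Z * (n₀ * Real.log 3) := by
  have hp2 : (2 : ℝ) ≤ p := by exact_mod_cast hpp.two_le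
  have hp1 : (0 : ℝ) < p - 1 := by linarith
  have hlogp : 0 ≤ Real.log p := Real.log_natCast_nonneg p
  have hlogn0 : 0 ≤ Real.log (n : ℝ) := Real.log_natCast_nonneg n
  have hNZr : (n : ℝ) = N + Z := by exact_mod_cast hNZ
  have hsplitr : (n : ℝ) = n₀ + n₁ := by exact_mod_cast hsplit
  have hn₀N : (n₀ : ℝ) ≤ N := by exact_mod_cast hn₀N'
  have hZn₁ : (Z : ℝ) ≤ n₁ := by linarith
  have hZ0 : (0 : ℝ) ≤ Z := Nat.cast_nonneg _
  have hN0 : (0 : ℝ) ≤ N := Nat.cast_nonneg _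
  have hn₁0 : (0 : ℝ) ≤ n₁ := Nat.cast_nonneg _
  set ℓ : ℝ := Real.log p / (p - 1) with hℓ
  have hℓ0 : 0 ≤ ℓ := div_nonneg hlogp hp1.le
  have hℓ1 : ℓ ≤ Real.log p := by
    rw [hℓ, div_le_iff₀ hp1]
    nlinarith
  -- (N3)
  have h3 : ∑ k ∈ Finset.range n₁, (k.factorial.factorization p : ℝ) * Real.log p ≤
      n₁ * (n₁ * Real.log p) := by
    calc _ ≤ ∑ k ∈ Finset.range n₁, (n₁ * Real.log p) := by
          refine Finset.sum_le_sum fun k hk => ?_
          rw [Finset.mem_range] at hk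
          refine (fact_val_le_real hpp k).trans ?_
          have hkr : (k : ℝ) ≤ n₁ := by exact_mod_cast hk.le
          exact mul_le_mul hkr hℓ1 hℓ0 hn₁0
      _ = _ := by rw [Finset.sum_const, Finset.card_range, nsmul_eq_mul]
  -- (N2)
  have h2 : ∑ j ∈ Finset.range N, (j.factorial.factorization p : ℝ) * Real.log p +
      Z * (N * ℓ - (Real.log n + Real.log p)) ≤
      ∑ k ∈ Finset.range n, (k.factorial.factorization p : ℝ) * Real.log p := by
    rw [hNZ, Finset.sum_range_add]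
    refine add_le_add le_rfl ?_
    calc (Z : ℝ) * (N * ℓ - (Real.log ((N + Z : ℕ) : ℝ) + Real.log p)) =
          ∑ i ∈ Finset.range Z, (N * ℓ - (Real.log ((N + Z : ℕ) : ℝ) + Real.log p)) := by
          rw [Finset.sum_const, Finset.card_range, nsmul_eq_mul]
      _ ≤ _ := by
          refine Finset.sum_le_sum fun i hi => ?_
          rw [Finset.mem_range] at hi
          refine le_trans ?_ (fact_val_ge_real hpp (N + i))
          have e1 : (N : ℝ) * ℓ ≤ ((N + i : ℕ) : ℝ) * (Real.log p / (p - 1)) := by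
            refine mul_le_mul_of_nonneg_right ?_ hℓ0
            push_cast
            have : (0 : ℝ) ≤ i := Nat.cast_nonneg i
            linarith
          have e2 : Real.log ((N + i : ℕ) : ℝ) ≤ Real.log ((N + Z : ℕ) : ℝ) := by
            rcases Nat.eq_zero_or_pos (N + i) with h0 | hpos
            · rw [h0]
              simp only [Nat.cast_zero, Real.log_zero]
              exact Real.log_natCast_nonneg _
            · exact Real.log_le_log (by exact_mod_cast hpos)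
                (by exact_mod_cast (by omega : N + i ≤ N + Z))
          linarith
  -- (N4)
  have h4 : (∑ j ∈ Finset.range N, ((m : ℝ) * j + (j.factorial.factorization p : ℝ)) +
        ((m : ℝ) - 1) * N * Z) * Real.log p ≤
      (m : ℝ) * Real.log p * (n * (n - 1) / 2) +
        ∑ j ∈ Finset.range N, (j.factorial.factorization p : ℝ) * Real.log p -
        N * Z * Real.log p := by
    rw [Finset.sum_add_distrib, ← Finset.mul_sum, sum_range_real, ← Finset.sum_mul]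
    have hZ1 : 0 ≤ (Z : ℝ) * (Z - 1) := by
      rcases Nat.eq_zero_or_pos Z with h0 | hpos
      · rw [h0]; simp
      · have : (1 : ℝ) ≤ Z := by exact_mod_cast hpos
        nlinarith
    have hm0 : (0 : ℝ) ≤ m := Nat.cast_nonneg _
    have e1 : (n : ℝ) * (n - 1) / 2 = N * (N - 1) / 2 + N * Z + Z * (Z - 1) / 2 := by
      rw [hNZr]; ring
    rw [e1]
    have e2 : 0 ≤ (m : ℝ) * Real.log p * (Z * (Z - 1) / 2) := by positivity
    linarith
  have h5 := log_prime_bound hpp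
  rw [← hℓ] at h5
  have h6 : (Z : ℝ) * (n₀ * Real.log 3) ≤ Z * (N * ℓ) + N * Z * Real.log p := by
    have hlog3 : 0 ≤ Real.log 3 := Real.log_nonneg (by norm_num)
    calc (Z : ℝ) * (n₀ * Real.log 3) ≤ Z * (N * (Real.log p + ℓ)) := by
          refine mul_le_mul_of_nonneg_left ?_ hZ0
          exact mul_le_mul hn₀N h5 hlog3 hN0
      _ = _ := by ring
  have h7 : (Z : ℝ) * (Real.log n + Real.log p) ≤ n₁ * (Real.log n + Real.log p) :=
    mul_le_mul_of_nonneg_right hZn₁ (by linarith)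
  linarith

/-- the final contradiction in real variables -/
theorem final_arith {κ t C₁ C₂ D E a n n₀ n₁ ln l2 l3 q : ℝ} (hκpos : 0 < κ) (hκ1 : κ ≤ 1)
    (ht0 : 0 < t) (ht1 : t ≤ κ / 16) (ht2 : t * C₂ ≤ κ / 8) (hC₂0 : 0 ≤ C₂)
    (hκ : κ = l3 - l2) (hC₂ : C₂ = 1 + C₁ + a) (hD : D = 2 + q) (hE : E = C₁ + 2 * a)
    (hn : 1 ≤ n) (hsplit : n = n₀ + n₁) (hτ : n₁ ≤ t ^ 2 * n)
    (hbig : D * ln + E < κ / 4 * n)
    (hdiv : n₀ * l3 ≤ (2 * (t * n) + n₁) + (n₀ * l2 + 2 * ln) + n₁ * C₁ + (q * ln + C₁) +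
      (n₁ + 2) * a) : False := by
  have ht16 : t ≤ 1 / 16 := by linarith
  have hn₁t : n₁ ≤ t * n := by
    refine hτ.trans (mul_le_mul_of_nonneg_right ?_ (by linarith))
    nlinarith
  have e1 : n₁ * C₂ ≤ κ / 8 * n := by
    calc n₁ * C₂ ≤ (t * n) * C₂ := mul_le_mul_of_nonneg_right hn₁t hC₂0
      _ = (t * C₂) * n := by ring
      _ ≤ _ := mul_le_mul_of_nonneg_right ht2 (by linarith)
  have e2 : n₀ * κ ≤ 2 * (t * n) + n₁ * C₂ + (D * ln + E) := by
    rw [hκ, hC₂, hD, hE]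
    linarith
  have e3 : n * (1 - t) * κ ≤ n₀ * κ := by
    refine mul_le_mul_of_nonneg_right ?_ hκpos.le
    have : n * (1 - t) = n - t * n := by ring
    linarith
  have e4 : 2 * (t * n) ≤ κ / 8 * n := by
    have := mul_le_mul_of_nonneg_right ht1 (show (0 : ℝ) ≤ n by linarith)
    linarith
  have e5 : n * (15 / 16) * κ ≤ n * (1 - t) * κ := by
    refine mul_le_mul_of_nonneg_right ?_ hκpos.le
    exact mul_le_mul_of_nonneg_left (by linarith) (by linarith)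
  have e6 : 0 < κ * n := by positivity
  linarith

/-- dividing by `n₁` -/
theorem collect {n n₀ n₁ : ℕ} {t C₁ a l2 l3 q S₀ S₁ S F₀ Z Vn₁ Vn W : ℝ}
    (hn₁r : (1 : ℝ) ≤ n₁) (hn₀r : (1 : ℝ) ≤ n₀) (hsplitr : (n : ℝ) = n₀ + n₁) (ha0 : 0 ≤ a)
    (hl3 : 0 ≤ l3)
    (hN1 : S - S₀ - S₁ - n₁ * F₀ ≤ n₁ * (2 * (t * n) + n₁))
    (hTp : Vn₁ - Vn + W ≤ n₁ * (n₁ * C₁) + n₁ * (q * Real.log n + C₁) + a * (n * (n - 1) / 2) -
        Z * (n₀ * l3))
    (hz : (n₁ : ℝ) ≤ Z)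
    (hstar : S₀ + (n₀ * (n₀ - 1) / 2) * a + n₁ * (((n₀ : ℝ) - 2) * a + F₀ - n₀ * l2 -
      2 * Real.log n₀) + (S₁ - Vn₁) ≤ (S - Vn) + W) :
    (n₀ : ℝ) * l3 ≤ (2 * (t * n) + n₁) + (n₀ * l2 + 2 * Real.log n) + n₁ * C₁ +
      (q * Real.log n + C₁) + (n₁ + 2) * a := by
  have hz3 : (n₁ : ℝ) * (n₀ * l3) ≤ Z * (n₀ * l3) :=
    mul_le_mul_of_nonneg_right hz (by positivity)
  have hlogn₀ : Real.log (n₀ : ℝ) ≤ Real.log n :=
    Real.log_le_log (by linarith) (by rw [hsplitr]; linarith)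
  have hquad : a * (n * (n - 1) / 2) - (n₀ * (n₀ - 1) / 2) * a -
      n₁ * (((n₀ : ℝ) - 2) * a) ≤ n₁ * ((n₁ + 2) * a) := by
    have e1 : a * (n * (n - 1) / 2) - (n₀ * (n₀ - 1) / 2) * a -
      n₁ * (((n₀ : ℝ) - 2) * a) =
      a * (n₁ * (n₁ - 1) / 2 + 2 * n₁) := by rw [hsplitr]; ring
    rw [e1]
    have e2 : (n₁ : ℝ) * (n₁ - 1) / 2 + 2 * n₁ ≤ n₁ * (n₁ + 2) := by nlinarith
    calc a * (n₁ * (n₁ - 1) / 2 + 2 * n₁) ≤ a * (n₁ * (n₁ + 2)) :=
          mul_le_mul_of_nonneg_left e2 ha0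
      _ = _ := by ring
  have e1 : (n₁ : ℝ) * (2 * Real.log n₀) ≤ n₁ * (2 * Real.log n) := by
    refine mul_le_mul_of_nonneg_left ?_ (by linarith)
    linarith
  have hcollect : (n₁ : ℝ) * (n₀ * l3) ≤ n₁ * ((2 * (t * n) + n₁) +
      (n₀ * l2 + 2 * Real.log n) + n₁ * C₁ + (q * Real.log n + C₁) +
      (n₁ + 2) * a) := by
    linarith
  exact le_of_mul_le_mul_left hcollect (by linarith : (0 : ℝ) < n₁)

theorem numeric (Q : Finset ℕ) (hQ : ∀ p ∈ Q, p.Prime) (m : ℕ → ℕ) (A : ℕ)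
    (hA : A = ∏ p ∈ Q, p ^ m p) :
    ∃ τ : ℝ, 0 < τ ∧ ∃ N₀ : ℕ, ∀ (n n₀ n₁ : ℕ) (np zp : ℕ → ℕ), N₀ ≤ n → n = n₀ + n₁ → 1 ≤ n₁ →
      1 ≤ n₀ → (n₁ : ℝ) ≤ τ * n → (∀ p ∈ Q, n = np p + zp p) → (∀ p ∈ Q, n₀ ≤ np p) →
      n₁ ≤ ∑ p ∈ Q, zp p →
      ∑ k ∈ Finset.range n₀, (Real.log (k.factorial : ℝ) + k * Real.log (A : ℝ)) +
        n₁ * (((n₀ : ℝ) - 2) * Real.log (A : ℝ) +
          Real.log (n₀.factorial : ℝ) - n₀ * Real.log 2 - 2 * Real.log n₀) +
        ∑ k ∈ Finset.range n₁, (Real.log (k.factorial : ℝ) -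
          ∑ p ∈ Q, (k.factorial.factorization p : ℝ) * Real.log p) ≤
      ∑ k ∈ Finset.range n, (Real.log (k.factorial : ℝ) -
          ∑ p ∈ Q, (k.factorial.factorization p : ℝ) * Real.log p) +
        ∑ p ∈ Q, (∑ j ∈ Finset.range (np p), ((m p : ℝ) * j + (j.factorial.factorization p : ℝ)) +
          ((m p : ℝ) - 1) * np p * zp p) * Real.log p → False := by
  classical
  have hlogA : Real.log (A : ℝ) = ∑ p ∈ Q, (m p : ℝ) * Real.log p := by
    rw [hA]
    push_cast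
    rw [Real.log_prod]
    · exact Finset.sum_congr rfl fun p _ => by rw [Real.log_pow]
    · intro p hp
      have : (0 : ℝ) < p := by exact_mod_cast (hQ p hp).pos
      positivity
  have hlogA0 : 0 ≤ Real.log (A : ℝ) := Real.log_natCast_nonneg A
  obtain ⟨C₁, hC₁⟩ : ∃ C₁ : ℝ, C₁ = ∑ p ∈ Q, Real.log p := ⟨_, rfl⟩
  have hC₁0 : 0 ≤ C₁ := by
    rw [hC₁]; exact Finset.sum_nonneg fun p _ => Real.log_natCast_nonneg p
  obtain ⟨C₂, hC₂⟩ : ∃ C₂ : ℝ, C₂ = 1 + C₁ + Real.log (A : ℝ) := ⟨_, rfl⟩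
  have hC₂0 : 0 ≤ C₂ := by rw [hC₂]; positivity
  obtain ⟨κ, hκ⟩ : ∃ κ : ℝ, κ = Real.log 3 - Real.log 2 := ⟨_, rfl⟩
  have hκpos : 0 < κ := by
    have := Real.log_lt_log (by norm_num : (0 : ℝ) < 2) (by norm_num : (2 : ℝ) < 3)
    linarith
  have hκ1 : κ ≤ 1 := by
    have : κ = Real.log (3 / 2) := by rw [hκ, Real.log_div (by norm_num) (by norm_num)]
    rw [this]
    have := Real.log_le_sub_one_of_pos (show (0 : ℝ) < 3 / 2 by norm_num)
    linarith
  obtain ⟨t, ht⟩ : ∃ t : ℝ, t = κ / (8 * (2 + C₂)) := ⟨_, rfl⟩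
  have htpos : 0 < t := by rw [ht]; positivity
  have ht1 : t ≤ κ / 16 := by
    rw [ht]
    apply div_le_div_of_nonneg_left hκpos.le (by norm_num)
    linarith
  have ht2 : t * C₂ ≤ κ / 8 := by
    rw [ht, div_mul_eq_mul_div, div_le_div_iff₀ (by positivity) (by norm_num)]
    nlinarith
  obtain ⟨D, hD⟩ : ∃ D : ℝ, D = 2 + (Q.card : ℝ) := ⟨_, rfl⟩
  obtain ⟨E, hE⟩ : ∃ E : ℝ, E = C₁ + 2 * Real.log (A : ℝ) := ⟨_, rfl⟩
  have hlim : Tendsto (fun n : ℕ => (D * Real.log n + E) / n) atTop (𝓝 0) := by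
    have h3 : Tendsto (fun n : ℕ => Real.log (n : ℝ) / n) atTop (𝓝 0) := by
      have := (Real.isLittleO_log_id_atTop.tendsto_div_nhds_zero).comp
        (tendsto_natCast_atTop_atTop (R := ℝ))
      exact this
    have h4 : Tendsto (fun n : ℕ => (1 : ℝ) / n) atTop (𝓝 0) := tendsto_one_div_atTop_nhds_zero_nat
    have h5 := ((h3.const_mul D).add (h4.const_mul E))
    rw [mul_zero, mul_zero, add_zero] at h5
    refine h5.congr fun n => ?_
    ring
  obtain ⟨N₁, hN₁⟩ := eventually_atTop.mp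
    (hlim.eventually_lt_const (show (0 : ℝ) < κ / 4 by linarith))
  refine ⟨t ^ 2, by positivity, max N₁ 1, ?_⟩
  intro n n₀ n₁ np zp hn hsplit hn₁ hn₀ hτ hnp hn₀p hz hstar
  have hnN₁ : N₁ ≤ n := (le_max_left _ _).trans hn
  have hn1 : 1 ≤ n := (le_max_right _ _).trans hn
  have hnr : (1 : ℝ) ≤ n := by exact_mod_cast hn1
  have hn₁r : (1 : ℝ) ≤ n₁ := by exact_mod_cast hn₁
  have hn₀r : (1 : ℝ) ≤ n₀ := by exact_mod_cast hn₀
  have hsplitr : (n : ℝ) = n₀ + n₁ := by exact_mod_cast hsplit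
  have hbig := hN₁ n hnN₁
  rw [div_lt_iff₀ (by linarith)] at hbig
  have hN1 := N1_bound htpos.le hsplit hτ
  have hsumTp := Finset.sum_le_sum fun p (hp : p ∈ Q) =>
    Tp_bound (hQ p hp) (m p) n n₀ n₁ (np p) (zp p) (hnp p hp) (hn₀p p hp) hsplit
  have hexpL : ∑ k ∈ Finset.range n₀, (Real.log (k.factorial : ℝ) + k * Real.log (A : ℝ)) =
      ∑ k ∈ Finset.range n₀, Real.log (k.factorial : ℝ) +
        (n₀ * (n₀ - 1) / 2) * Real.log (A : ℝ) := by
    rw [Finset.sum_add_distrib, ← Finset.sum_mul, sum_range_real]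
  have hexpF : ∀ N : ℕ, ∑ k ∈ Finset.range N, (Real.log (k.factorial : ℝ) -
          ∑ p ∈ Q, (k.factorial.factorization p : ℝ) * Real.log p) =
      ∑ k ∈ Finset.range N, Real.log (k.factorial : ℝ) -
        ∑ p ∈ Q, ∑ k ∈ Finset.range N, (k.factorial.factorization p : ℝ) * Real.log p := by
    intro N
    rw [Finset.sum_sub_distrib, Finset.sum_comm]
  rw [hexpL, hexpF, hexpF] at hstar
  have hsumR : ∑ p ∈ Q, (n₁ * (n₁ * Real.log p) + n₁ * (Real.log n + Real.log p) +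
        (m p : ℝ) * Real.log p * (n * (n - 1) / 2) - zp p * (n₀ * Real.log 3)) =
      n₁ * (n₁ * C₁) + n₁ * (Q.card * Real.log n + C₁) + Real.log (A : ℝ) * (n * (n - 1) / 2) -
        (∑ p ∈ Q, (zp p : ℝ)) * (n₀ * Real.log 3) := by
    rw [Finset.sum_sub_distrib, Finset.sum_add_distrib, Finset.sum_add_distrib, ← Finset.mul_sum,
      ← Finset.mul_sum, ← Finset.mul_sum, Finset.sum_add_distrib, Finset.sum_const, nsmul_eq_mul,
      ← Finset.sum_mul, ← Finset.sum_mul, hlogA, ← hC₁]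
  rw [hsumR, Finset.sum_add_distrib, Finset.sum_sub_distrib] at hsumTp
  have hzr : (n₁ : ℝ) ≤ ∑ p ∈ Q, (zp p : ℝ) := by exact_mod_cast hz
  have hdiv := collect hn₁r hn₀r hsplitr hlogA0 (Real.log_nonneg (by norm_num : (1 : ℝ) ≤ 3)) hN1
    hsumTp hzr hstar
  exact final_arith hκpos hκ1 htpos ht1 ht2 hC₂0 hκ hC₂ hD hE hnr hsplitr hτ hbig hdiv

end Pool.Agent.Work.MP_b29d7f_nt
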