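import Pool.Agent.Work.MP_b29d7f_nt.Cross
import Pool.Agent.Work.MP_b29d7f_nt.Numeric
import Pool.Agent.Work.MP_b29d7f_nt.Null

/-!
# Comparison of the archimedean and the `p`-adic energies
-/

open Filter Topology

namespace Pool.Agent.Work.MP_b29d7f_nt

section

variable {S : Set ℤ} {a : ℕ → ℤ}

/-- the first `n` terms -/
noncomputable def Xn (a : ℕ → ℤ) (n : ℕ) : Finset ℤ := (Finset.range n).image a

/-- terms inside the ball -/
noncomputable def XB (p m : ℕ) (c : ℤ) (a : ℕ → ℤ) (n : ℕ) : Finset ℤ := by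
  classical
  exact (Xn a n).filter fun x => (p : ℤ) ^ m ∣ x - c

/-- terms outside the ball -/
noncomputable def XC (p m : ℕ) (c : ℤ) (a : ℕ → ℤ) (n : ℕ) : Finset ℤ := by
  classical
  exact (Xn a n).filter fun x => ¬ (p : ℤ) ^ m ∣ x - c

theorem mem_XB {p m : ℕ} {c : ℤ} {n : ℕ} {x : ℤ} :
    x ∈ XB p m c a n ↔ x ∈ Xn a n ∧ (p : ℤ) ^ m ∣ x - c := by
  unfold XB
  rw [Finset.mem_filter]

theorem mem_XC {p m : ℕ} {c : ℤ} {n : ℕ} {x : ℤ} :
    x ∈ XC p m c a n ↔ x ∈ Xn a n ∧ ¬ (p : ℤ) ^ m ∣ x - c := by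
  unfold XC
  rw [Finset.mem_filter]

theorem XB_union_XC (p m : ℕ) (c : ℤ) (n : ℕ) : XB p m c a n ∪ XC p m c a n = Xn a n := by
  classical
  ext x
  rw [Finset.mem_union, mem_XB, mem_XC]
  tauto

theorem XB_disj_XC (p m : ℕ) (c : ℤ) (n : ℕ) : Disjoint (XB p m c a n) (XC p m c a n) := by
  rw [Finset.disjoint_left]
  intro x hx hx'
  exact (mem_XC.mp hx').2 (mem_XB.mp hx).2

theorem card_Xn (ha : Function.Injective a) (n : ℕ) : (Xn a n).card = n := by
  unfold Xn
  rw [Finset.card_image_of_injective _ ha, Finset.card_range]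

theorem card_XB_add_XC (ha : Function.Injective a) (p m : ℕ) (c : ℤ) (n : ℕ) :
    n = (XB p m c a n).card + (XC p m c a n).card := by
  rw [← Finset.card_union_of_disjoint (XB_disj_XC p m c n), XB_union_XC, card_Xn ha]

theorem card_XC (ha : Function.Injective a) (p m : ℕ) (c : ℤ) (n : ℕ) :
    (XC p m c a n).card = nZ p m c a n := by
  classical
  rw [nZ_eq]
  unfold XC Xn
  rw [Finset.filter_image, Finset.card_image_of_injective _ ha]

/-- **the energy inside the ball** -/
theorem PS_XB_le (hS : S.Infinite) {p : ℕ} (hp : p.Prime) (ha : IsPOrdering S p a) {m : ℕ} {c : ℤ}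
    (hF : Full S p m c) (n : ℕ) :
    PS (vd p) (XB p m c a n) ≤ ∑ j ∈ Finset.range (XB p m c a n).card,
      ((m : ℝ) * j + (j.factorial.factorization p : ℝ)) := by
  classical
  have hinj := injective_of_ordering hS hp ha
  induction n with
  | zero =>
    have h0 : XB p m c a 0 = ∅ := by
      ext x; rw [mem_XB]; simp [Xn]
    rw [h0]; simp [PS]
  | succ n ih =>
    have hX : Xn a (n + 1) = insert (a n) (Xn a n) := by
      unfold Xn; rw [Finset.range_add_one, Finset.image_insert]
    by_cases hin : (p : ℤ) ^ m ∣ a n - c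
    · have h1 : XB p m c a (n + 1) = insert (a n) (XB p m c a n) := by
        ext x
        rw [mem_XB, hX, Finset.mem_insert, Finset.mem_insert, mem_XB]
        constructor
        · rintro ⟨rfl | h1, h2⟩
          · left; rfl
          · right; exact ⟨h1, h2⟩
        · rintro (rfl | ⟨h1, h2⟩)
          · exact ⟨Or.inl rfl, hin⟩
          · exact ⟨Or.inr h1, h2⟩
      have hnot : a n ∉ XB p m c a n := by
        intro h
        have h2 := (mem_XB.mp h).1
        unfold Xn at h2
        rw [Finset.mem_image] at h2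
        obtain ⟨i, hi, hia⟩ := h2
        have := hinj hia
        rw [Finset.mem_range] at hi
        omega
      rw [h1, PS_insert _ (vd_comm p) _ _ hnot, Finset.card_insert_of_notMem hnot,
        Finset.sum_range_succ]
      refine add_le_add ih ?_
      have h2 : XB p m c a n = ((Finset.range n).filter fun i => (p : ℤ) ^ m ∣ a i - c).image a := by
        unfold XB Xn
        rw [Finset.filter_image]
      have h3 := inner_le hS hp ha hF n hin
      rw [h2, Finset.sum_image (fun i _ j _ h => hinj h), Finset.card_image_of_injective _ hinj]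
      unfold vd
      exact_mod_cast h3
    · have h1 : XB p m c a (n + 1) = XB p m c a n := by
        ext x
        rw [mem_XB, hX, Finset.mem_insert, mem_XB]
        constructor
        · rintro ⟨rfl | h1, h2⟩
          · exact absurd h2 hin
          · exact ⟨h1, h2⟩
        · rintro ⟨h1, h2⟩
          exact ⟨Or.inr h1, h2⟩
      rw [h1]
      exact ih

/-- **the total `p`-adic energy** -/
theorem PS_le (hS : S.Infinite) {p : ℕ} (hp : p.Prime) (ha : IsPOrdering S p a) {m : ℕ} {c : ℤ}
    (hF : Full S p m c) (n : ℕ) :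
    PS (vd p) (Xn a n) ≤ ∑ j ∈ Finset.range (XB p m c a n).card,
      ((m : ℝ) * j + (j.factorial.factorization p : ℝ)) +
      ((m : ℝ) - 1) * (XB p m c a n).card * (XC p m c a n).card + PS (vd p) (XC p m c a n) := by
  classical
  rw [← XB_union_XC (a := a) p m c n, PS_union _ (vd_comm p) _ _ (XB_disj_XC p m c n)]
  have h1 := PS_XB_le hS hp ha hF n
  have h2 : ∑ x ∈ XC p m c a n, ∑ y ∈ XB p m c a n, vd p x y ≤
      ((m : ℝ) - 1) * (XB p m c a n).card * (XC p m c a n).card := by
    calc _ ≤ ∑ x ∈ XC p m c a n, ∑ y ∈ XB p m c a n, ((m : ℝ) - 1) := by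
          refine Finset.sum_le_sum fun x hx => Finset.sum_le_sum fun y hy => ?_
          rw [mem_XC] at hx
          rw [mem_XB] at hy
          have hnd : ¬ (p : ℤ) ^ m ∣ x - y := by
            intro h
            apply hx.2
            have h3 := dvd_add h hy.2
            have : x - y + (y - c) = x - c := by ring
            rwa [this] at h3
          have hlt : multiplicity (p : ℤ) (x - y) < m := by
            by_contra hle
            push Not at hle
            exact hnd ((pow_dvd_pow _ hle).trans (pow_multiplicity_dvd _ _))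
          unfold vd
          have h3 : multiplicity (p : ℤ) (x - y) + 1 ≤ m := hlt
          have h4 : (multiplicity (p : ℤ) (x - y) : ℝ) + 1 ≤ m := by exact_mod_cast h3
          linarith
      _ = _ := by
          rw [Finset.sum_const, Finset.sum_const, nsmul_eq_mul, nsmul_eq_mul]
          ring
  linarith

/-- primes occurring in the differences -/
noncomputable def PP (Q : Finset ℕ) (a : ℕ → ℤ) (n : ℕ) : Finset ℕ := by
  classical
  exact Q ∪ n.primesLE ∪ (Xn a n).biUnion fun x => (Xn a n).biUnion fun y =>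
    (x - y).natAbs.primeFactors

theorem PP_prime {Q : Finset ℕ} (hQ : ∀ p ∈ Q, p.Prime) {n p : ℕ} (hp : p ∈ PP Q a n) :
    p.Prime := by
  classical
  unfold PP at hp
  rw [Finset.mem_union, Finset.mem_union, Finset.mem_biUnion] at hp
  rcases hp with (h | h) | ⟨x, _, h⟩
  · exact hQ p h
  · exact Nat.prime_of_mem_primesLE h
  · rw [Finset.mem_biUnion] at h
    obtain ⟨y, _, h⟩ := h
    exact Nat.prime_of_mem_primeFactors h

theorem PP_mem {Q : Finset ℕ} {n : ℕ} {x y : ℤ} (hx : x ∈ Xn a n) (hy : y ∈ Xn a n) (hxy : x ≠ y)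
    {p : ℕ} (hp : p.Prime) (hne : multiplicity (p : ℤ) (x - y) ≠ 0) : p ∈ PP Q a n := by
  classical
  unfold PP
  rw [Finset.mem_union, Finset.mem_biUnion]
  right
  refine ⟨x, hx, ?_⟩
  rw [Finset.mem_biUnion]
  refine ⟨y, hy, ?_⟩
  rw [Nat.mem_primeFactors]
  refine ⟨hp, ?_, Int.natAbs_ne_zero.mpr (sub_ne_zero.mpr hxy)⟩
  have h2 : (p : ℤ) ∣ x - y := by
    by_contra hnd
    exact hne (multiplicity_eq_zero.mpr hnd)
  have h3 := Int.natAbs_dvd_natAbs.mpr h2
  rwa [Int.natAbs_natCast] at h3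

theorem PS_mono {f : ℤ → ℤ → ℝ} (hf : ∀ x y, 0 ≤ f x y) {X Y : Finset ℤ} (h : X ⊆ Y) :
    PS f X ≤ PS f Y := by
  classical
  unfold PS
  calc ∑ x ∈ X, ∑ y ∈ X.filter (fun y => y < x), f x y
      ≤ ∑ x ∈ X, ∑ y ∈ Y.filter (fun y => y < x), f x y := by
        refine Finset.sum_le_sum fun x _ => ?_
        exact Finset.sum_le_sum_of_subset_of_nonneg (Finset.filter_subset_filter _ h)
          fun y _ _ => hf x y
    _ ≤ _ := Finset.sum_le_sum_of_subset_of_nonneg h fun x _ _ =>
        Finset.sum_nonneg fun y _ => hf x y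

/-- factorials away from `Q` -/
theorem fact_away {Q : Finset ℕ} (hQ : ∀ p ∈ Q, p.Prime) {n k : ℕ} (hk : k ≤ n) :
    ∑ p ∈ PP Q a n \ Q, (k.factorial.factorization p : ℝ) * Real.log p =
      Real.log (k.factorial : ℝ) - ∑ p ∈ Q, (k.factorial.factorization p : ℝ) * Real.log p := by
  classical
  have hsub : Q ⊆ PP Q a n := by
    intro p hp
    unfold PP
    rw [Finset.mem_union, Finset.mem_union]
    exact Or.inl (Or.inl hp)
  have h1 := log_nat_eq_sum (Nat.factorial_ne_zero k) (PP Q a n) (fun p hp hd => by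
    unfold PP
    rw [Finset.mem_union, Finset.mem_union, Nat.mem_primesLE]
    exact Or.inl (Or.inr ⟨((hp.dvd_factorial).mp hd).trans hk, hp⟩))
    (fun p hp => PP_prime hQ hp)
  rw [h1, ← Finset.sum_sdiff hsub]
  ring

/-- data describing the closures -/
structure Data (S : Set ℤ) (a : ℕ → ℤ) (Q : Finset ℕ) (m : ℕ → ℕ) (c : ℕ → ℤ) : Prop where
  inf : S.Infinite
  ord : ∀ p : ℕ, p.Prime → IsPOrdering S p a
  hQ : ∀ p ∈ Q, p.Prime
  full : ∀ p : ℕ, p.Prime → Full S p (m p) (c p)
  zero : ∀ p : ℕ, p.Prime → p ∉ Q → m p = 0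

variable {Q : Finset ℕ} {m : ℕ → ℕ} {c : ℕ → ℤ}

/-- terms in the lattice -/
noncomputable def X0 (Q : Finset ℕ) (m : ℕ → ℕ) (c : ℕ → ℤ) (a : ℕ → ℤ) (n : ℕ) : Finset ℤ := by
  classical
  exact (Xn a n).filter fun x => ∀ p ∈ Q, (p : ℤ) ^ m p ∣ x - c p

/-- terms outside the lattice -/
noncomputable def X1 (Q : Finset ℕ) (m : ℕ → ℕ) (c : ℕ → ℤ) (a : ℕ → ℤ) (n : ℕ) : Finset ℤ := by
  classical
  exact (Xn a n).filter fun x => ¬ ∀ p ∈ Q, (p : ℤ) ^ m p ∣ x - c p

theorem mem_X0 {n : ℕ} {x : ℤ} :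
    x ∈ X0 Q m c a n ↔ x ∈ Xn a n ∧ ∀ p ∈ Q, (p : ℤ) ^ m p ∣ x - c p := by
  unfold X0
  rw [Finset.mem_filter]

theorem mem_X1 {n : ℕ} {x : ℤ} :
    x ∈ X1 Q m c a n ↔ x ∈ Xn a n ∧ ¬ ∀ p ∈ Q, (p : ℤ) ^ m p ∣ x - c p := by
  unfold X1
  rw [Finset.mem_filter]

theorem X0_union_X1 (n : ℕ) : X0 Q m c a n ∪ X1 Q m c a n = Xn a n := by
  classical
  ext x
  rw [Finset.mem_union, mem_X0, mem_X1]
  tauto

theorem X0_disj_X1 (n : ℕ) : Disjoint (X0 Q m c a n) (X1 Q m c a n) := by
  rw [Finset.disjoint_left]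
  intro x hx hx'
  exact (mem_X1.mp hx').2 (mem_X0.mp hx).2

theorem Data.inj (D : Data S a Q m c) : Function.Injective a :=
  injective_of_ordering D.inf Nat.prime_two (D.ord 2 Nat.prime_two)

theorem Data.dvd_of (D : Data S a Q m c) {d : ℤ} (h : ∀ p ∈ Q, (p : ℤ) ^ m p ∣ d) :
    ((∏ p ∈ Q, p ^ m p : ℕ) : ℤ) ∣ d := by
  classical
  have h5 : ∏ p ∈ Q, p ^ m p ∣ d.natAbs := by
    refine Finset.prod_dvd_of_isRelPrime ?_ fun p hp => ?_
    · intro p hp q hq hpq
      rw [Function.onFun, ← Nat.coprime_iff_isRelPrime]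
      exact Nat.Coprime.pow _ _ ((Nat.coprime_primes (D.hQ p hp) (D.hQ q hq)).mpr hpq)
    · rw [← Int.natCast_dvd_natCast, Int.dvd_natAbs]
      push_cast
      exact h p hp
  rw [← Int.natCast_dvd_natCast, Int.dvd_natAbs] at h5
  exact h5

theorem Data.X0_dvd (D : Data S a Q m c) {n : ℕ} :
    ∀ x ∈ X0 Q m c a n, ∀ y ∈ X0 Q m c a n, ((∏ p ∈ Q, p ^ m p : ℕ) : ℤ) ∣ x - y := by
  intro x hx y hy
  refine D.dvd_of fun p hp => ?_
  have h1 := dvd_sub ((mem_X0.mp hx).2 p hp) ((mem_X0.mp hy).2 p hp)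
  have : x - c p - (y - c p) = x - y := by ring
  rwa [this] at h1

theorem Data.A_pos (D : Data S a Q m c) : 0 < ∏ p ∈ Q, p ^ m p :=
  Finset.prod_pos fun p hp => pow_pos (D.hQ p hp).pos _

/-- upper bound for the total energy -/
theorem Data.energy_le (D : Data S a Q m c) (n : ℕ) :
    PS ld (Xn a n) ≤ ∑ k ∈ Finset.range n, (Real.log (k.factorial : ℝ) -
          ∑ p ∈ Q, (k.factorial.factorization p : ℝ) * Real.log p) +
      ∑ p ∈ Q, (∑ j ∈ Finset.range (XB p (m p) (c p) a n).card,
          ((m p : ℝ) * j + (j.factorial.factorization p : ℝ)) +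
          ((m p : ℝ) - 1) * (XB p (m p) (c p) a n).card * (XC p (m p) (c p) a n).card) *
            Real.log p +
      ∑ p ∈ Q, PS (vd p) (XC p (m p) (c p) a n) * Real.log p := by
  classical
  have hsub : Q ⊆ PP Q a n := by
    intro p hp
    unfold PP
    rw [Finset.mem_union, Finset.mem_union]
    exact Or.inl (Or.inl hp)
  rw [PS_product (Xn a n) (PP Q a n) (fun p hp => PP_prime D.hQ hp)
    (fun x hx y hy hxy p hp hne => PP_mem hx hy hxy hp hne), ← Finset.sum_sdiff hsub]
  have h1 : ∑ p ∈ PP Q a n \ Q, PS (vd p) (Xn a n) * Real.log p ≤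
      ∑ k ∈ Finset.range n, (Real.log (k.factorial : ℝ) -
          ∑ p ∈ Q, (k.factorial.factorization p : ℝ) * Real.log p) := by
    calc _ ≤ ∑ p ∈ PP Q a n \ Q, ∑ k ∈ Finset.range n,
          (k.factorial.factorization p : ℝ) * Real.log p := by
          refine Finset.sum_le_sum fun p hp => ?_
          rw [Finset.mem_sdiff] at hp
          have hpp := PP_prime D.hQ hp.1
          have hm0 := D.zero p hpp hp.2
          rw [← Finset.sum_mul]
          refine mul_le_mul_of_nonneg_right ?_ (Real.log_natCast_nonneg p)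
          have h2 := PS_le D.inf hpp (D.ord p hpp) (D.full p hpp) n
          have h3 : XC p (m p) (c p) a n = ∅ := by
            rw [Finset.eq_empty_iff_forall_notMem]
            intro x hx
            apply (mem_XC.mp hx).2
            rw [hm0, pow_zero]
            exact one_dvd _
          have h4 : (XB p (m p) (c p) a n).card = n := by
            have := card_XB_add_XC D.inj p (m p) (c p) n
            rw [h3, Finset.card_empty] at this
            omega
          rw [h3, h4, hm0] at h2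
          simpa [PS] using h2
      _ = ∑ k ∈ Finset.range n, ∑ p ∈ PP Q a n \ Q,
          (k.factorial.factorization p : ℝ) * Real.log p := Finset.sum_comm
      _ = _ := by
          refine Finset.sum_congr rfl fun k hk => ?_
          rw [Finset.mem_range] at hk
          exact fact_away D.hQ hk.le
  have h2 : ∑ p ∈ Q, PS (vd p) (Xn a n) * Real.log p ≤
      ∑ p ∈ Q, (∑ j ∈ Finset.range (XB p (m p) (c p) a n).card,
          ((m p : ℝ) * j + (j.factorial.factorization p : ℝ)) +
          ((m p : ℝ) - 1) * (XB p (m p) (c p) a n).card * (XC p (m p) (c p) a n).card) *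
            Real.log p +
      ∑ p ∈ Q, PS (vd p) (XC p (m p) (c p) a n) * Real.log p := by
    rw [← Finset.sum_add_distrib]
    refine Finset.sum_le_sum fun p hp => ?_
    rw [← add_mul]
    refine mul_le_mul_of_nonneg_right ?_ (Real.log_natCast_nonneg p)
    exact PS_le D.inf (D.hQ p hp) (D.ord p (D.hQ p hp)) (D.full p (D.hQ p hp)) n
  linarith

/-- lower bound for the energy of the terms outside the lattice -/
theorem Data.energy_X1 (D : Data S a Q m c) (n : ℕ) :
    ∑ k ∈ Finset.range (X1 Q m c a n).card, (Real.log (k.factorial : ℝ) -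
          ∑ p ∈ Q, (k.factorial.factorization p : ℝ) * Real.log p) +
      ∑ p ∈ Q, PS (vd p) (XC p (m p) (c p) a n) * Real.log p ≤ PS ld (X1 Q m c a n) := by
  classical
  have hsub : Q ⊆ PP Q a n := by
    intro p hp
    unfold PP
    rw [Finset.mem_union, Finset.mem_union]
    exact Or.inl (Or.inl hp)
  have hcard : (X1 Q m c a n).card ≤ n := by
    calc (X1 Q m c a n).card ≤ (Xn a n).card := Finset.card_le_card fun x hx => (mem_X1.mp hx).1
      _ = n := card_Xn D.inj n
  rw [PS_product (X1 Q m c a n) (PP Q a n) (fun p hp => PP_prime D.hQ hp)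
    (fun x hx y hy hxy p hp hne => PP_mem (mem_X1.mp hx).1 (mem_X1.mp hy).1 hxy hp hne),
    ← Finset.sum_sdiff hsub]
  refine add_le_add ?_ ?_
  · calc _ = ∑ k ∈ Finset.range (X1 Q m c a n).card, ∑ p ∈ PP Q a n \ Q,
          (k.factorial.factorization p : ℝ) * Real.log p := by
          refine Finset.sum_congr rfl fun k hk => ?_
          rw [Finset.mem_range] at hk
          exact (fact_away D.hQ (by omega)).symm
      _ = ∑ p ∈ PP Q a n \ Q, ∑ k ∈ Finset.range (X1 Q m c a n).card,
          (k.factorial.factorization p : ℝ) * Real.log p := Finset.sum_comm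
      _ ≤ _ := by
          refine Finset.sum_le_sum fun p hp => ?_
          rw [Finset.mem_sdiff] at hp
          rw [← Finset.sum_mul]
          exact mul_le_mul_of_nonneg_right (PS_vd_ge (PP_prime D.hQ hp.1) _)
            (Real.log_natCast_nonneg p)
  · refine Finset.sum_le_sum fun p hp => ?_
    refine mul_le_mul_of_nonneg_right ?_ (Real.log_natCast_nonneg p)
    refine PS_mono (vd_nonneg p) fun x hx => ?_
    rw [mem_XC] at hx
    rw [mem_X1]
    exact ⟨hx.1, fun h => hx.2 (h p hp)⟩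

/-- **the basic inequality** -/
theorem Data.star (D : Data S a Q m c) (n : ℕ) (hn₀ : 1 ≤ (X0 Q m c a n).card) :
      ∑ k ∈ Finset.range (X0 Q m c a n).card, (Real.log (k.factorial : ℝ) +
          k * Real.log ((∏ p ∈ Q, p ^ m p : ℕ) : ℝ)) +
        (X1 Q m c a n).card * ((((X0 Q m c a n).card : ℝ) - 2) *
          Real.log ((∏ p ∈ Q, p ^ m p : ℕ) : ℝ) +
          Real.log ((X0 Q m c a n).card.factorial : ℝ) - (X0 Q m c a n).card * Real.log 2 -
          2 * Real.log (X0 Q m c a n).card) +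
        ∑ k ∈ Finset.range (X1 Q m c a n).card, (Real.log (k.factorial : ℝ) -
          ∑ p ∈ Q, (k.factorial.factorization p : ℝ) * Real.log p) ≤
      ∑ k ∈ Finset.range n, (Real.log (k.factorial : ℝ) -
          ∑ p ∈ Q, (k.factorial.factorization p : ℝ) * Real.log p) +
        ∑ p ∈ Q, (∑ j ∈ Finset.range (XB p (m p) (c p) a n).card,
          ((m p : ℝ) * j + (j.factorial.factorization p : ℝ)) +
          ((m p : ℝ) - 1) * (XB p (m p) (c p) a n).card * (XC p (m p) (c p) a n).card) *
            Real.log p := by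
  classical
  have hU := D.energy_le n
  rw [← X0_union_X1 (Q := Q) (m := m) (c := c) (a := a) n, PS_union _ ld_comm _ _ (X0_disj_X1 n)]
    at hU
  have h0 := energy_lattice D.A_pos (X0 Q m c a n) D.X0_dvd
  rw [energy_eq_PS] at h0
  have h1 := D.energy_X1 n
  have h2 : ((X1 Q m c a n).card : ℝ) * ((((X0 Q m c a n).card : ℝ) - 2) *
          Real.log ((∏ p ∈ Q, p ^ m p : ℕ) : ℝ) +
          Real.log ((X0 Q m c a n).card.factorial : ℝ) - (X0 Q m c a n).card * Real.log 2 -
          2 * Real.log (X0 Q m c a n).card) ≤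
      ∑ x ∈ X1 Q m c a n, ∑ y ∈ X0 Q m c a n, ld x y := by
    rw [← nsmul_eq_mul, ← Finset.sum_const]
    refine Finset.sum_le_sum fun x hx => ?_
    refine cross_ge D.A_pos (X0 Q m c a n) D.X0_dvd x ?_ hn₀
    intro h
    exact (mem_X1.mp hx).2 (mem_X0.mp h).2
  linarith

end

end Pool.Agent.Work.MP_b29d7f_nt
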