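import Pool.Agent.Work.MP_b29d7f_nt.Compare

/-!
# Thick sets with a simultaneous ordering
-/

open Filter Topology

namespace Pool.Agent.Work.MP_b29d7f_nt

theorem exists_data {S : Set ℤ} (hT : Thick S) {a : ℕ → ℤ}
    (ha : ∀ p : ℕ, p.Prime → IsPOrdering S p a) :
    ∃ (Q : Finset ℕ) (m : ℕ → ℕ) (c : ℕ → ℤ), Data S a Q m c ∧
      ∀ p : ℕ, p.Prime → mu S p = ((p : ℝ) ^ m p)⁻¹ := by
  classical
  have hS : S.Infinite := infinite_of_linGrowth (hT.1 2 Nat.prime_two)
  choose! m c hmc using fun (p : ℕ) (hp : p.Prime) => structure_p hT ha hp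
  obtain ⟨_, P₁, hmu, hsum⟩ := hT
  have h0 := hsum.tendsto_atTop_zero
  have hlog2 : 0 < Real.log 2 := Real.log_pos (by norm_num)
  obtain ⟨P₂, hP₂⟩ := eventually_atTop.mp (h0.eventually_lt_const
    (show (0 : ℝ) < Real.log 2 / 2 by positivity))
  refine ⟨(max P₁ P₂).primesLE, m, c, ⟨hS, ha, fun p hp => Nat.prime_of_mem_primesLE hp,
    fun p hp => (hmc p hp).2, ?_⟩, fun p hp => (hmc p hp).1⟩
  intro p hp hpQ
  have hlt : max P₁ P₂ < p := by
    by_contra hle
    push Not at hle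
    exact hpQ (Nat.mem_primesLE.mpr ⟨hle, hp⟩)
  have h1 := hP₂ p ((le_max_right _ _).trans hlt.le)
  rw [if_pos ⟨hp, lt_of_le_of_lt (le_max_left _ _) hlt⟩, (hmc p hp).1] at h1
  by_contra hm
  have hm1 : 1 ≤ m p := Nat.one_le_iff_ne_zero.mpr hm
  have hp2 : (2 : ℝ) ≤ p := by exact_mod_cast hp.two_le
  have hlogp : Real.log 2 ≤ Real.log p := Real.log_le_log (by norm_num) hp2
  rw [one_div, inv_inv] at h1
  have h2 : (p : ℝ) ≤ (p : ℝ) ^ m p := le_self_pow₀ (by linarith) (by omega)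
  have h3 : Real.log 2 / 2 ≤ ((p : ℝ) ^ m p - 1) * Real.log p / p := by
    rw [div_le_div_iff₀ (by norm_num) (by linarith)]
    have h4 : (p : ℝ) ≤ ((p : ℝ) ^ m p - 1) * 2 := by linarith
    calc Real.log 2 * p ≤ Real.log p * p := mul_le_mul_of_nonneg_right hlogp (by linarith)
      _ ≤ Real.log p * (((p : ℝ) ^ m p - 1) * 2) :=
          mul_le_mul_of_nonneg_left h4 (by linarith)
      _ = _ := by ring
  linarith

section

variable {S : Set ℤ} {a : ℕ → ℤ} {Q : Finset ℕ} {m : ℕ → ℕ} {c : ℕ → ℤ}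

/-- **no term lies outside the lattice** -/
theorem Data.all_in (D : Data S a Q m c) (hT : Thick S)
    (hmu : ∀ p : ℕ, p.Prime → mu S p = ((p : ℝ) ^ m p)⁻¹) :
    ∀ i, ∀ p ∈ Q, (p : ℤ) ^ m p ∣ a i - c p := by
  classical
  by_contra hcon
  push Not at hcon
  obtain ⟨i, p₀, hp₀, hnd⟩ := hcon
  obtain ⟨τ, hτ, N₀, hnum⟩ := numeric Q D.hQ m _ rfl
  set δ : ℝ := min τ (1 / 2) / (Q.card + 1) with hδ
  have hδpos : 0 < δ := by rw [hδ]; positivity
  have hev : ∀ᶠ n : ℕ in atTop, ∀ p ∈ Q, (nZ p (m p) (c p) a n : ℝ) ≤ δ * n := by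
    rw [eventually_all_finset]
    intro p hp
    exact nZ_small hT D.ord (D.hQ p hp) (hmu p (D.hQ p hp)) (D.full p (D.hQ p hp)) δ hδpos
  obtain ⟨n, hn1, hn2, hn3, hn4⟩ := (hev.and ((eventually_ge_atTop N₀).and
    ((eventually_gt_atTop i).and (eventually_ge_atTop 2)))).exists
  have hnr : (2 : ℝ) ≤ n := by exact_mod_cast hn4
  have hsplit : n = (X0 Q m c a n).card + (X1 Q m c a n).card := by
    rw [← Finset.card_union_of_disjoint (X0_disj_X1 n), X0_union_X1, card_Xn D.inj]
  have hX1 : 1 ≤ (X1 Q m c a n).card := by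
    refine Finset.card_pos.mpr ⟨a i, ?_⟩
    rw [mem_X1]
    refine ⟨?_, fun h => hnd (h p₀ hp₀)⟩
    unfold Xn
    exact Finset.mem_image_of_mem _ (Finset.mem_range.mpr hn3)
  have hz : (X1 Q m c a n).card ≤ ∑ p ∈ Q, (XC p (m p) (c p) a n).card := by
    have hsub : X1 Q m c a n ⊆ Q.biUnion fun p => XC p (m p) (c p) a n := by
      intro x hx
      rw [mem_X1] at hx
      obtain ⟨hx1, hx2⟩ := hx
      push Not at hx2
      obtain ⟨p, hp, hpx⟩ := hx2
      rw [Finset.mem_biUnion]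
      exact ⟨p, hp, mem_XC.mpr ⟨hx1, hpx⟩⟩
    exact (Finset.card_le_card hsub).trans Finset.card_biUnion_le
  have hX1r : ((X1 Q m c a n).card : ℝ) ≤ min τ (1 / 2) * n := by
    have h1 : ((X1 Q m c a n).card : ℝ) ≤ ∑ p ∈ Q, ((XC p (m p) (c p) a n).card : ℝ) := by
      exact_mod_cast hz
    refine h1.trans ?_
    calc ∑ p ∈ Q, ((XC p (m p) (c p) a n).card : ℝ) ≤ ∑ p ∈ Q, δ * n := by
          refine Finset.sum_le_sum fun p hp => ?_
          rw [card_XC D.inj]
          exact hn1 p hp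
      _ = (Q.card * δ) * n := by rw [Finset.sum_const, nsmul_eq_mul]; ring
      _ ≤ min τ (1 / 2) * n := by
          refine mul_le_mul_of_nonneg_right ?_ (by linarith)
          rw [hδ]
          have h2 : (0 : ℝ) < (Q.card : ℝ) + 1 := Nat.cast_add_one_pos _
          rw [mul_div_assoc', div_le_iff₀ h2]
          have h3 : 0 < min τ (1 / 2) := lt_min hτ (by norm_num)
          nlinarith
  have hX0 : 1 ≤ (X0 Q m c a n).card := by
    have h1 : ((X1 Q m c a n).card : ℝ) ≤ 1 / 2 * n :=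
      hX1r.trans (mul_le_mul_of_nonneg_right (min_le_right _ _) (by linarith))
    have h2 : (n : ℝ) = ((X0 Q m c a n).card : ℝ) + ((X1 Q m c a n).card : ℝ) := by
      exact_mod_cast hsplit
    have h3 : (1 : ℝ) ≤ ((X0 Q m c a n).card : ℝ) := by linarith
    exact_mod_cast h3
  refine hnum n (X0 Q m c a n).card (X1 Q m c a n).card
    (fun p => (XB p (m p) (c p) a n).card) (fun p => (XC p (m p) (c p) a n).card) hn2 hsplit hX1 hX0
    (hX1r.trans (mul_le_mul_of_nonneg_right (min_le_left _ _) (by linarith)))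
    (fun p _ => card_XB_add_XC D.inj p (m p) (c p) n) ?_ hz (D.star n hX0)
  intro p hp
  refine Finset.card_le_card fun x hx => ?_
  rw [mem_X0] at hx
  rw [mem_XB]
  exact ⟨hx.1, hx.2 p hp⟩

/-- the distances between the first `n` terms -/
theorem Data.dist_eq (D : Data S a Q m c) (hall : ∀ i, ∀ p ∈ Q, (p : ℤ) ^ m p ∣ a i - c p) (n : ℕ) :
    ∀ x ∈ Xn a n, ∀ y ∈ Xn a n, y < x →
      x - y = ((∏ p ∈ Q, p ^ m p : ℕ) : ℤ) * ((Xn a n).filter fun z => y ≤ z ∧ z < x).card := by
  classical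
  set A := ∏ p ∈ Q, p ^ m p with hA
  have hApos : 0 < A := D.A_pos
  have hmem : ∀ x ∈ Xn a n, ∀ p ∈ Q, (p : ℤ) ^ m p ∣ x - c p := by
    intro x hx p hp
    unfold Xn at hx
    rw [Finset.mem_image] at hx
    obtain ⟨i, _, rfl⟩ := hx
    exact hall i p hp
  have hdvd : ∀ x ∈ Xn a n, ∀ y ∈ Xn a n, (A : ℤ) ∣ x - y := by
    intro x hx y hy
    refine D.dvd_of fun p hp => ?_
    have h1 := dvd_sub (hmem x hx p hp) (hmem y hy p hp)
    have : x - c p - (y - c p) = x - y := by ring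
    rwa [this] at h1
  have hXC : ∀ p ∈ Q, XC p (m p) (c p) a n = ∅ := by
    intro p hp
    rw [Finset.eq_empty_iff_forall_notMem]
    intro x hx
    rw [mem_XC] at hx
    exact hx.2 (hmem x hx.1 p hp)
  have hXB : ∀ p ∈ Q, (XB p (m p) (c p) a n).card = n := by
    intro p hp
    have := card_XB_add_XC D.inj p (m p) (c p) n
    rw [hXC p hp, Finset.card_empty] at this
    omega
  have hlogA : Real.log (A : ℝ) = ∑ p ∈ Q, (m p : ℝ) * Real.log p := by
    rw [hA]
    push_cast
    rw [Real.log_prod]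
    · exact Finset.sum_congr rfl fun p _ => by rw [Real.log_pow]
    · intro p hp
      have : (0 : ℝ) < p := by exact_mod_cast (D.hQ p hp).pos
      positivity
  have hU := D.energy_le n
  have e1 : ∑ p ∈ Q, PS (vd p) (XC p (m p) (c p) a n) * Real.log p = 0 := by
    refine Finset.sum_eq_zero fun p hp => ?_
    rw [hXC p hp]; simp [PS]
  have e2 : ∑ p ∈ Q, (∑ j ∈ Finset.range (XB p (m p) (c p) a n).card,
          ((m p : ℝ) * j + (j.factorial.factorization p : ℝ)) +
          ((m p : ℝ) - 1) * (XB p (m p) (c p) a n).card * (XC p (m p) (c p) a n).card) *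
            Real.log p =
      ∑ k ∈ Finset.range n, (k * Real.log (A : ℝ) +
        ∑ p ∈ Q, (k.factorial.factorization p : ℝ) * Real.log p) := by
    have e3 : ∀ p ∈ Q, (∑ j ∈ Finset.range (XB p (m p) (c p) a n).card,
          ((m p : ℝ) * j + (j.factorial.factorization p : ℝ)) +
          ((m p : ℝ) - 1) * (XB p (m p) (c p) a n).card * (XC p (m p) (c p) a n).card) *
            Real.log p =
        ∑ k ∈ Finset.range n, ((k : ℝ) * (m p * Real.log p) +
          (k.factorial.factorization p : ℝ) * Real.log p) := by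
      intro p hp
      rw [hXB p hp, hXC p hp, Finset.card_empty, Nat.cast_zero, mul_zero, add_zero, Finset.sum_mul]
      refine Finset.sum_congr rfl fun k _ => ?_
      ring
    rw [Finset.sum_congr rfl e3, Finset.sum_comm]
    refine Finset.sum_congr rfl fun k _ => ?_
    rw [Finset.sum_add_distrib, hlogA, Finset.mul_sum]
  rw [e1, e2, add_zero, ← Finset.sum_add_distrib] at hU
  have hE : energy (Xn a n) ≤ ∑ k ∈ Finset.range (Xn a n).card,
      ∑ d ∈ Finset.Icc 1 k, Real.log ((A : ℝ) * d) := by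
    rw [energy_eq_PS, card_Xn D.inj]
    refine hU.trans (le_of_eq (Finset.sum_congr rfl fun k _ => ?_))
    rw [sum_log_lattice A hApos]
    ring
  have hkey := energy_eq_of_le (fun d => Real.log ((A : ℝ) * d)) (Xn a n)
    (lattice_key hApos (Xn a n) hdvd) hE
  intro x hx y hy hyx
  have h1 := hkey x hx y hy hyx
  have hxy : (0 : ℝ) < ((x - y : ℤ) : ℝ) := by
    have : 0 < x - y := by omega
    exact_mod_cast this
  have hcpos : 0 < ((Xn a n).filter fun z => y ≤ z ∧ z < x).card :=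
    Finset.card_pos.mpr ⟨y, Finset.mem_filter.mpr ⟨hy, le_rfl, hyx⟩⟩
  have hAr : (0 : ℝ) < A := by exact_mod_cast hApos
  have hcr : (0 : ℝ) < (((Xn a n).filter fun z => y ≤ z ∧ z < x).card : ℝ) := by
    exact_mod_cast hcpos
  have h2 := Real.log_injOn_pos (Set.mem_Ioi.mpr hxy) (Set.mem_Ioi.mpr (by positivity)) h1
  exact_mod_cast h2

/-- the first `n` terms form a block -/
theorem Data.block (D : Data S a Q m c) (hall : ∀ i, ∀ p ∈ Q, (p : ℤ) ^ m p ∣ a i - c p) (n : ℕ)
    (hn : 0 < n) :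
    ∃ b : ℤ, Xn a n =
      (Finset.range n).image fun j : ℕ => b + ((∏ p ∈ Q, p ^ m p : ℕ) : ℤ) * j := by
  classical
  set A := ∏ p ∈ Q, p ^ m p with hA
  have hne : (Xn a n).Nonempty := by
    rw [← Finset.card_pos, card_Xn D.inj]; exact hn
  set b := (Xn a n).min' hne with hb
  have hbX : b ∈ Xn a n := (Xn a n).min'_mem hne
  refine ⟨b, ?_⟩
  have hApos : (0 : ℤ) < A := by exact_mod_cast D.A_pos
  refine Finset.eq_of_subset_of_card_le ?_ ?_
  · intro x hx
    rw [Finset.mem_image]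
    rcases eq_or_lt_of_le ((Xn a n).min'_le x hx) with h | h
    · refine ⟨0, Finset.mem_range.mpr hn, ?_⟩
      rw [← hb] at h
      simp [h]
    · rw [← hb] at h
      have h1 := D.dist_eq hall n x hx b hbX h
      refine ⟨((Xn a n).filter fun z => b ≤ z ∧ z < x).card, ?_, by rw [← hA] at h1; linarith⟩
      rw [Finset.mem_range]
      calc ((Xn a n).filter fun z => b ≤ z ∧ z < x).card < (Xn a n).card := by
            refine Finset.card_lt_card ?_
            rw [Finset.ssubset_iff_of_subset (Finset.filter_subset _ _)]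
            exact ⟨x, hx, fun h => lt_irrefl _ (Finset.mem_filter.mp h).2.2⟩
        _ = n := card_Xn D.inj n
  · rw [card_Xn D.inj]
    refine Finset.card_image_le.trans ?_
    rw [Finset.card_range]

/-- the set contains a half-line of the lattice -/
theorem Data.half_line (D : Data S a Q m c) (hall : ∀ i, ∀ p ∈ Q, (p : ℤ) ^ m p ∣ a i - c p) :
    (∀ j : ℕ, ((∏ p ∈ Q, p ^ m p : ℕ) : ℤ) * j + a 0 ∈ S) ∨
    (∀ j : ℕ, (-((∏ p ∈ Q, p ^ m p : ℕ) : ℤ)) * j + a 0 ∈ S) := by
  classical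
  set A := ∏ p ∈ Q, p ^ m p with hA
  have hApos : (0 : ℤ) < A := by exact_mod_cast D.A_pos
  have hXS : ∀ n, ∀ x ∈ Xn a n, x ∈ S := by
    intro n x hx
    unfold Xn at hx
    rw [Finset.mem_image] at hx
    obtain ⟨i, _, rfl⟩ := hx
    exact (D.ord 2 Nat.prime_two).1 i
  -- for each `N`, one of the two sides is present up to `N`
  have hN : ∀ N : ℕ, (∀ j : ℕ, j ≤ N → (A : ℤ) * j + a 0 ∈ S) ∨
      (∀ j : ℕ, j ≤ N → (-(A : ℤ)) * j + a 0 ∈ S) := by
    intro N
    obtain ⟨b, hb⟩ := D.block hall (2 * N + 1) (by omega)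
    rw [← hA] at hb
    have h0 : a 0 ∈ Xn a (2 * N + 1) := by
      unfold Xn
      exact Finset.mem_image_of_mem _ (Finset.mem_range.mpr (by omega))
    have h0' := h0
    rw [hb, Finset.mem_image] at h0'
    obtain ⟨j₀, hj₀, hj₀'⟩ := h0'
    rw [Finset.mem_range] at hj₀
    rcases Nat.lt_or_ge N j₀ with hlt | hge
    · right
      intro j hj
      refine hXS (2 * N + 1) _ ?_
      rw [hb, Finset.mem_image]
      refine ⟨j₀ - j, Finset.mem_range.mpr (by omega), ?_⟩
      rw [← hj₀', Nat.cast_sub (by omega)]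
      ring
    · left
      intro j hj
      refine hXS (2 * N + 1) _ ?_
      rw [hb, Finset.mem_image]
      refine ⟨j₀ + j, Finset.mem_range.mpr (by omega), ?_⟩
      rw [← hj₀']
      push_cast
      ring
  by_cases hleft : ∀ N : ℕ, ∀ j : ℕ, j ≤ N → (A : ℤ) * j + a 0 ∈ S
  · left
    intro j
    exact hleft j j le_rfl
  · right
    push Not at hleft
    obtain ⟨N, j₁, hj₁, hnot⟩ := hleft
    intro j
    rcases hN (max N j) with h | h
    · exact absurd (h j₁ (hj₁.trans (le_max_left _ _))) hnot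
    · exact h j (le_max_right _ _)

/-- the set is contained in the lattice -/
theorem Data.subset_lattice (D : Data S a Q m c)
    (hall : ∀ i, ∀ p ∈ Q, (p : ℤ) ^ m p ∣ a i - c p) :
    ∀ s ∈ S, ((∏ p ∈ Q, p ^ m p : ℕ) : ℤ) ∣ s - a 0 := by
  intro s hs
  refine D.dvd_of fun p hp => ?_
  have hpp := D.hQ p hp
  have h1 := pow_wp_dvd D.inf hpp (D.ord p hpp) 1 s hs
  have h2 : m p ≤ wp p a 1 := by
    have h3 : (p : ℤ) ^ m p ∣ a 1 - a 0 := by
      have h4 := dvd_sub (hall 1 p hp) (hall 0 p hp)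
      have : a 1 - c p - (a 0 - c p) = a 1 - a 0 := by ring
      rwa [this] at h4
    unfold wp V
    have hne : a 1 - a 0 ≠ 0 := by
      intro h
      have := D.inj (sub_eq_zero.mp h)
      omega
    have hfin : FiniteMultiplicity (p : ℤ) (a 1 - a 0) := by
      rw [Int.finiteMultiplicity_iff]
      exact ⟨by simpa using hpp.ne_one, hne⟩
    simp only [Finset.range_one, Finset.prod_singleton]
    rwa [hfin.pow_dvd_iff_le_multiplicity] at h3
  have h3 := (pow_dvd_pow (p : ℤ) h2).trans h1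
  simpa [V] using h3

end

/-- **sufficiency**: a set between a half-line of a progression and the progression has a
simultaneous ordering -/
theorem ordering_of_ap {S : Set ℤ} {a b : ℤ} (h1 : ∀ n : ℕ, a * n + b ∈ S)
    (h2 : ∀ s ∈ S, a ∣ s - b) : HasSimultaneousOrdering S := by
  refine ⟨fun k => a * k + b, fun p hp => ⟨fun k => h1 k, ?_⟩⟩
  intro k s hs
  obtain ⟨t, ht⟩ := h2 s hs
  refine emultiplicity_le_emultiplicity_of_dvd_right ?_
  have e1 : ∏ i ∈ Finset.range k, (a * (k : ℤ) + b - (a * (i : ℤ) + b)) =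
      a ^ k * (k.factorial : ℤ) := by
    have h3 : ∀ i ∈ Finset.range k, a * (k : ℤ) + b - (a * (i : ℤ) + b) = a * ((k : ℤ) - i) :=
      fun i _ => by ring
    rw [Finset.prod_congr rfl h3, Finset.prod_mul_distrib, Finset.prod_const, Finset.card_range]
    congr 1
    rw [← Finset.prod_range_reflect, Nat.factorial_eq_prod_range_add_one]
    push_cast
    refine Finset.prod_congr rfl fun i hi => ?_
    rw [Finset.mem_range] at hi
    have : ((k - 1 - i : ℕ) : ℤ) = (k : ℤ) - 1 - i := by omega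
    rw [this]
    ring
  have e2 : ∏ i ∈ Finset.range k, (s - (a * (i : ℤ) + b)) =
      a ^ k * ∏ i ∈ Finset.range k, ((t - k + 1) + (i : ℤ)) := by
    have h3 : ∀ i ∈ Finset.range k, s - (a * (i : ℤ) + b) = a * (t - i) := by
      intro i _
      linear_combination ht
    rw [Finset.prod_congr rfl h3, Finset.prod_mul_distrib, Finset.prod_const, Finset.card_range]
    congr 1
    rw [← Finset.prod_range_reflect]
    refine Finset.prod_congr rfl fun i hi => ?_
    rw [Finset.mem_range] at hi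
    have : ((k - 1 - i : ℕ) : ℤ) = (k : ℤ) - 1 - i := by omega
    rw [this]
    ring
  rw [e1, e2]
  exact mul_dvd_mul_left _ (Nat.factorial_coe_dvd_prod k (t - k + 1))

/-- **Classification of the thick sets with a simultaneous ordering.** -/
theorem thick_iff {S : Set ℤ} (hT : Thick S) :
    HasSimultaneousOrdering S ↔
      ∃ a b : ℤ, a ≠ 0 ∧ (∀ n : ℕ, a * n + b ∈ S) ∧ ∀ s ∈ S, a ∣ s - b := by
  constructor
  · rintro ⟨a, ha⟩
    obtain ⟨Q, m, c, D, hmu⟩ := exists_data hT ha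
    have hall := D.all_in hT hmu
    have hA : ((∏ p ∈ Q, p ^ m p : ℕ) : ℤ) ≠ 0 := by
      have := D.A_pos
      exact_mod_cast this.ne'
    rcases D.half_line hall with h | h
    · exact ⟨_, a 0, hA, h, D.subset_lattice hall⟩
    · refine ⟨_, a 0, neg_ne_zero.mpr hA, h, fun s hs => ?_⟩
      rw [neg_dvd]
      exact D.subset_lattice hall s hs
  · rintro ⟨a, b, _, h1, h2⟩
    exact ordering_of_ap h1 h2

end Pool.Agent.Work.MP_b29d7f_nt
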