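import Mathlib

/-!
# The number of values of a polynomial modulo a prime
-/

open Polynomial

namespace Pool.Agent.Work.MP_b29d7f_nt

variable {p : ℕ} [Fact p.Prime]

/-- A polynomial of degree `0 < d < p` over `F_p` is not invariant under a translation. -/
theorem comp_X_add_ne (f : (ZMod p)[X]) (hd : 0 < f.natDegree) (hp : f.natDegree < p) (u : ZMod p)
    (hu : u ≠ 0) : f ≠ f.comp (X + C u) := by
  intro h
  have h1 : ∀ x, f.eval (x + u) = f.eval x := by
    intro x
    conv_rhs => rw [h]
    simp
  have h2 : ∀ n : ℕ, f.eval ((n : ZMod p) * u) = f.eval 0 := by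
    intro n
    induction n with
    | zero => simp
    | succ n ih => rw [Nat.cast_succ, add_mul, one_mul, h1, ih]
  have h3 : ∀ x, f.eval x = f.eval 0 := by
    intro x
    have := h2 (x / u).val
    rwa [ZMod.natCast_zmod_val, div_mul_cancel₀ _ hu] at this
  have h4 : f - C (f.eval 0) = 0 := by
    by_contra hne
    have h5 : (Finset.univ : Finset (ZMod p)) ⊆ (f - C (f.eval 0)).roots.toFinset := by
      intro x _
      rw [Multiset.mem_toFinset, mem_roots hne]
      simp [h3 x]
    have h6 := Finset.card_le_card h5
    rw [Finset.card_univ, ZMod.card] at h6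
    have h7 := Multiset.toFinset_card_le (f - C (f.eval 0)).roots
    have h8 := card_roots' (f - C (f.eval 0))
    rw [natDegree_sub_C] at h8
    omega
  have h5 : f.natDegree = 0 := by
    rw [sub_eq_zero.mp h4, natDegree_C]
  omega

/-- the invariance group -/
theorem inv_unique (f : (ZMod p)[X]) (hd : 0 < f.natDegree) (hp : f.natDegree < p)
    (t c c' : ZMod p) (ht : t ≠ 0) (h : f = f.comp (C t * X + C c))
    (h' : f = f.comp (C t * X + C c')) : c = c' := by
  by_contra hne
  have h1 : ∀ x, f.eval (t * x + c) = f.eval (t * x + c') := by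
    intro x
    have e1 : f.eval x = f.eval (t * x + c) := by
      conv_lhs => rw [h]
      simp
    have e2 : f.eval x = f.eval (t * x + c') := by
      conv_lhs => rw [h']
      simp
    rw [← e1, ← e2]
  have h2 : ∀ y, f.eval (y + (c' - c)) = f.eval y := by
    intro y
    have := h1 ((y - c) / t)
    rw [mul_div_cancel₀ _ ht] at this
    rw [show y + (c' - c) = y - c + c' by ring, ← this]
    congr 1; ring
  have hu : c' - c ≠ 0 := fun h => hne (sub_eq_zero.mp h).symm
  -- same argument as before
  have h3 : ∀ n : ℕ, f.eval ((n : ZMod p) * (c' - c)) = f.eval 0 := by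
    intro n
    induction n with
    | zero => simp
    | succ n ih => rw [Nat.cast_succ, add_mul, one_mul, h2, ih]
  have h4 : ∀ x, f.eval x = f.eval 0 := by
    intro x
    have := h3 (x / (c' - c)).val
    rwa [ZMod.natCast_zmod_val, div_mul_cancel₀ _ hu] at this
  have h5 : f - C (f.eval 0) = 0 := by
    by_contra hne
    have h5 : (Finset.univ : Finset (ZMod p)) ⊆ (f - C (f.eval 0)).roots.toFinset := by
      intro x _
      rw [Multiset.mem_toFinset, mem_roots hne]
      simp [h4 x]
    have h6 := Finset.card_le_card h5
    rw [Finset.card_univ, ZMod.card] at h6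
    have h7 := Multiset.toFinset_card_le (f - C (f.eval 0)).roots
    have h8 := card_roots' (f - C (f.eval 0))
    rw [natDegree_sub_C] at h8
    omega
  have h6 : f.natDegree = 0 := by
    rw [sub_eq_zero.mp h5, natDegree_C]
  omega

theorem inv_pow (f : (ZMod p)[X]) (hd : 0 < f.natDegree) (t c : ZMod p)
    (h : f = f.comp (C t * X + C c)) : t ≠ 0 ∧ t ^ f.natDegree = 1 := by
  have hf0 : f ≠ 0 := by rintro rfl; simp at hd
  have ht : t ≠ 0 := by
    rintro rfl
    rw [C_0, zero_mul, zero_add, comp_C] at h
    rw [h, natDegree_C] at hd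
    omega
  refine ⟨ht, ?_⟩
  have hlin : (C t * X + C c).natDegree = 1 := natDegree_linear ht
  have h1 := congrArg leadingCoeff h
  rw [leadingCoeff_comp (by rw [hlin]; exact one_ne_zero), leadingCoeff_linear ht] at h1
  have h2 : f.leadingCoeff ≠ 0 := leadingCoeff_ne_zero.mpr hf0
  have h3 : f.leadingCoeff * t ^ f.natDegree = f.leadingCoeff * 1 := by rw [mul_one]; exact h1.symm
  exact mul_left_cancel₀ h2 h3

/-- number of `d`-th roots of unity when `p ≢ 1 mod d` -/
theorem card_roots_unity (d : ℕ) (hd : 0 < d) (hpd : ¬ d ∣ p - 1) :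
    ((Finset.univ : Finset (ZMod p)).filter fun t => t ^ d = 1 ∧ t ≠ 1).card + 2 ≤ d := by
  classical
  have : NeZero d := ⟨hd.ne'⟩
  set A := (Finset.univ : Finset (ZMod p)).filter fun t => t ^ d = 1 with hA
  have h1 : A.card = Fintype.card (rootsOfUnity d (ZMod p)) := by
    rw [hA]
    symm
    rw [← Fintype.card_subtype (fun t : ZMod p => t ^ d = 1)]
    refine Fintype.card_congr ?_
    refine
      { toFun := fun u => ⟨((u : (ZMod p)ˣ) : ZMod p), ?_⟩
        invFun := fun t => ⟨Units.ofPowEqOne t.1 d t.2 hd.ne', ?_⟩
        left_inv := ?_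
        right_inv := ?_ }
    · have := u.2
      rw [mem_rootsOfUnity] at this
      have h2 := congrArg (fun z : (ZMod p)ˣ => (z : ZMod p)) this
      simpa using h2
    · rw [mem_rootsOfUnity]
      exact Units.pow_ofPowEqOne _ _
    · intro u
      apply Subtype.ext
      apply Units.ext
      rfl
    · intro t
      rfl
  have h2 : Fintype.card (rootsOfUnity d (ZMod p)) ≤ d := by
    have := card_rootsOfUnity (ZMod p) d
    rwa [Nat.card_eq_fintype_card] at this
  have h3 : Fintype.card (rootsOfUnity d (ZMod p)) ∣ p - 1 := by
    have := Subgroup.card_subgroup_dvd_card (rootsOfUnity d (ZMod p))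
    rw [Nat.card_eq_fintype_card, Nat.card_eq_fintype_card, ZMod.card_units] at this
    exact this
  have h4 : A.card ≠ d := by
    intro h
    rw [h1] at h
    rw [h] at h3
    exact hpd h3
  have h5 : ((Finset.univ : Finset (ZMod p)).filter fun t => t ^ d = 1 ∧ t ≠ 1) = A.erase 1 := by
    ext t
    simp only [hA, Finset.mem_filter, Finset.mem_erase, Finset.mem_univ, true_and]
    tauto
  rw [h5, Finset.card_erase_of_mem (by simp [hA])]
  have h6 : 0 < A.card := Finset.card_pos.mpr ⟨1, by simp [hA]⟩
  omega

theorem card_roots_le (g : (ZMod p)[X]) (hg : g ≠ 0) (n : ℕ) (hn : g.natDegree ≤ n)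
    (A : Finset (ZMod p)) (hA : ∀ x ∈ A, g.eval x = 0) : A.card ≤ n := by
  classical
  have h1 : A ⊆ g.roots.toFinset := by
    intro x hx
    rw [Multiset.mem_toFinset, mem_roots hg]
    exact hA x hx
  exact (Finset.card_le_card h1).trans ((Multiset.toFinset_card_le _).trans
    ((card_roots' g).trans hn))

/-- off-diagonal points of the curve `f(x) = f(y)` over `F_p` -/
noncomputable def offDiag (f : (ZMod p)[X]) : Finset (ZMod p × ZMod p) := by
  classical
  exact Finset.univ.filter fun z => z.1 ≠ z.2 ∧ f.eval z.1 = f.eval z.2

open scoped Classical in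
theorem mem_offDiag (f : (ZMod p)[X]) (z : ZMod p × ZMod p) :
    z ∈ offDiag f ↔ z.1 ≠ z.2 ∧ f.eval z.1 = f.eval z.2 := by
  unfold offDiag
  simp

/-- lines through a point that lies on no line contained in the curve -/
theorem card_offDiag_le_of_good (f : (ZMod p)[X]) (hd : 2 ≤ f.natDegree) (hp : f.natDegree < p)
    (P : ZMod p × ZMod p) (hP : P ∈ offDiag f)
    (hgood : ∀ t : ZMod p, f ≠ f.comp (C t * X + C (P.2 - t * P.1))) :
    (offDiag f).card ≤ (f.natDegree - 2) * (p + 1) + 1 := by
  classical
  obtain ⟨x₀, y₀⟩ := P
  rw [mem_offDiag] at hP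
  obtain ⟨hxy, hfxy⟩ := hP
  simp only at hxy hfxy hgood
  have hf0 : f ≠ 0 := by rintro rfl; simp at hd
  set g : ZMod p × ZMod p → Option (ZMod p) := fun z =>
    if z.1 = x₀ then none else some ((z.2 - y₀) / (z.1 - x₀)) with hg
  have hmem : (x₀, y₀) ∈ offDiag f := by rw [mem_offDiag]; exact ⟨hxy, hfxy⟩
  have h1 : ((offDiag f).erase (x₀, y₀)).card ≤
      (f.natDegree - 2) * (Finset.univ : Finset (Option (ZMod p))).card := by
    refine Finset.card_le_mul_card_image_of_maps_to (f := g) (fun _ _ => Finset.mem_univ _) _ ?_
    intro o _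
    rcases o with _ | t
    · -- vertical line
      have hv : (((offDiag f).erase (x₀, y₀)).filter fun z => g z = none).card ≤
          (((Finset.univ : Finset (ZMod p)).filter fun y => f.eval y = f.eval x₀).erase x₀).card - 1 := by
        rw [← Finset.card_erase_of_mem (a := y₀)]
        · refine Finset.card_le_card_of_injOn Prod.snd ?_ ?_
          · rintro ⟨x, y⟩ hz
            rw [Finset.mem_coe, Finset.mem_filter, Finset.mem_erase, mem_offDiag] at hz
            obtain ⟨⟨h1, h2, h3⟩, h4⟩ := hz
            have hx : x = x₀ := by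
              by_contra hne
              rw [hg] at h4
              simp [hne] at h4
            subst hx
            simp only at h2 h3
            rw [Finset.mem_coe, Finset.mem_erase, Finset.mem_erase, Finset.mem_filter]
            refine ⟨?_, fun h => h2 h.symm, Finset.mem_univ _, h3.symm⟩
            rintro rfl
            exact h1 rfl
          · rintro ⟨x, y⟩ hz ⟨x', y'⟩ hz' hyy
            rw [Finset.mem_coe, Finset.mem_filter] at hz hz'
            have hx : x = x₀ := by
              by_contra hne
              have := hz.2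
              rw [hg] at this
              simp [hne] at this
            have hx' : x' = x₀ := by
              by_contra hne
              have := hz'.2
              rw [hg] at this
              simp [hne] at this
            simp only at hyy
            rw [hx, hx', hyy]
        · rw [Finset.mem_erase, Finset.mem_filter]
          exact ⟨fun h => hxy h.symm, Finset.mem_univ _, hfxy.symm⟩
      rw [Finset.card_erase_of_mem (by simp)] at hv
      have hr : ((Finset.univ : Finset (ZMod p)).filter fun y => f.eval y = f.eval x₀).card ≤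
          f.natDegree := by
        have hne : f - C (f.eval x₀) ≠ 0 := by
          intro h
          have h5 : f.natDegree = 0 := by rw [sub_eq_zero.mp h, natDegree_C]
          omega
        refine card_roots_le (f - C (f.eval x₀)) hne _ (by rw [natDegree_sub_C]) _ ?_
        intro x hx
        rw [Finset.mem_filter] at hx
        simp [hx.2]
      omega
    · -- slope `t`
      set c := y₀ - t * x₀ with hc
      have hne : f - f.comp (C t * X + C c) ≠ 0 := fun h => hgood t (sub_eq_zero.mp h)
      set A := ((offDiag f).erase (x₀, y₀)).filter fun z => g z = some t with hA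
      have hAmem : ∀ z ∈ A, z.1 ≠ x₀ ∧ z.2 = t * z.1 + c ∧ z.1 ≠ z.2 ∧
          (f - f.comp (C t * X + C c)).eval z.1 = 0 := by
        rintro ⟨x, y⟩ hz
        rw [hA, Finset.mem_filter, Finset.mem_erase, mem_offDiag] at hz
        obtain ⟨⟨h1, h2, h3⟩, h4⟩ := hz
        have hx : x ≠ x₀ := by
          rintro rfl
          rw [hg] at h4
          simp at h4
        have hxx : x - x₀ ≠ 0 := sub_ne_zero.mpr hx
        rw [hg] at h4
        simp only [hx, if_false, Option.some.injEq] at h4
        rw [div_eq_iff hxx] at h4
        have hy : y = t * x + c := by rw [hc]; linear_combination h4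
        refine ⟨hx, hy, h2, ?_⟩
        simp only at h3
        simp only [eval_sub, eval_comp, eval_add, eval_mul, eval_C, eval_X]
        rw [← hy, h3, sub_self]
      have hinj : A.card ≤ (A.image Prod.fst).card := by
        rw [Finset.card_image_of_injOn]
        intro z hz z' hz' h
        have h1 := hAmem z hz
        have h2 := hAmem z' hz'
        apply Prod.ext h
        rw [h1.2.1, h2.2.1]
        have : z.1 = z'.1 := h
        rw [this]
      have hx₀root : (f - f.comp (C t * X + C c)).eval x₀ = 0 := by
        simp only [eval_sub, eval_comp, eval_add, eval_mul, eval_C, eval_X]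
        rw [hc, show t * x₀ + (y₀ - t * x₀) = y₀ by ring, hfxy, sub_self]
      by_cases ht1 : t = 1
      · -- degree drops
        have hdeg : (f - f.comp (C t * X + C c)).natDegree ≤ f.natDegree - 1 := by
          subst ht1
          have e1 : (C (1 : ZMod p) * X + C c) = X + C c := by rw [C_1, one_mul]
          have hlin : (X + C c : (ZMod p)[X]).natDegree = 1 := natDegree_X_add_C c
          have hdc : f.degree = (f.comp (X + C c)).degree := by
            have h2 : f.comp (X + C c) ≠ 0 := by
              intro h
              have h3 := natDegree_comp (p := f) (q := X + C c)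
              rw [h, hlin, natDegree_zero] at h3
              omega
            rw [degree_eq_natDegree hf0, degree_eq_natDegree h2, natDegree_comp, hlin, mul_one]
          have hlc : f.leadingCoeff = (f.comp (X + C c)).leadingCoeff := by
            rw [leadingCoeff_comp (by rw [hlin]; exact one_ne_zero)]
            simp
          have hlt := degree_sub_lt_left hdc hf0 hlc
          rw [e1]
          rw [e1] at hne
          rw [degree_eq_natDegree hne, degree_eq_natDegree hf0] at hlt
          have : (f - f.comp (X + C c)).natDegree < f.natDegree := by exact_mod_cast hlt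
          omega
        have hB : (insert x₀ (A.image Prod.fst)).card ≤ f.natDegree - 1 := by
          refine card_roots_le _ hne _ hdeg _ ?_
          intro x hx
          rw [Finset.mem_insert, Finset.mem_image] at hx
          rcases hx with rfl | ⟨z, hz, rfl⟩
          · exact hx₀root
          · exact (hAmem z hz).2.2.2
        rw [Finset.card_insert_of_notMem] at hB
        · omega
        · rw [Finset.mem_image]
          rintro ⟨z, hz, hzx⟩
          exact (hAmem z hz).1 hzx
      · have h1t : 1 - t ≠ 0 := sub_ne_zero.mpr (Ne.symm ht1)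
        set x₁ := c / (1 - t) with hx₁
        have hx₁eq : t * x₁ + c = x₁ := by
          rw [hx₁]; field_simp; ring
        have hx₁root : (f - f.comp (C t * X + C c)).eval x₁ = 0 := by
          simp only [eval_sub, eval_comp, eval_add, eval_mul, eval_C, eval_X]
          rw [hx₁eq, sub_self]
        have hx₀₁ : x₀ ≠ x₁ := by
          intro h
          rw [← h] at hx₁eq
          apply hxy
          rw [← hx₁eq, hc]; ring
        have hdeg : (f - f.comp (C t * X + C c)).natDegree ≤ f.natDegree := by
          refine (natDegree_sub_le _ _).trans (max_le le_rfl ?_)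
          rw [natDegree_comp]
          have : (C t * X + C c : (ZMod p)[X]).natDegree ≤ 1 := natDegree_linear_le
          calc f.natDegree * (C t * X + C c).natDegree ≤ f.natDegree * 1 :=
                Nat.mul_le_mul_left _ this
            _ = _ := mul_one _
        have hB : (insert x₁ (insert x₀ (A.image Prod.fst))).card ≤ f.natDegree := by
          refine card_roots_le _ hne _ hdeg _ ?_
          intro x hx
          rw [Finset.mem_insert, Finset.mem_insert, Finset.mem_image] at hx
          rcases hx with rfl | rfl | ⟨z, hz, rfl⟩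
          · exact hx₁root
          · exact hx₀root
          · exact (hAmem z hz).2.2.2
        rw [Finset.card_insert_of_notMem, Finset.card_insert_of_notMem] at hB
        · omega
        · rw [Finset.mem_image]
          rintro ⟨z, hz, hzx⟩
          exact (hAmem z hz).1 hzx
        · rw [Finset.mem_insert, Finset.mem_image]
          rintro (h | ⟨z, hz, hzx⟩)
          · exact hx₀₁ h.symm
          · have h2 := hAmem z hz
            apply h2.2.2.1
            rw [h2.2.1, hzx, hx₁eq]
  rw [Finset.card_erase_of_mem hmem, Finset.card_univ, Fintype.card_option, ZMod.card] at h1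
  omega

/-- the number of off-diagonal points, `p ≢ 1 mod d` -/
theorem card_offDiag_le (f : (ZMod p)[X]) (hd : 2 ≤ f.natDegree) (hp : f.natDegree < p)
    (hpd : ¬ f.natDegree ∣ p - 1) :
    (offDiag f).card ≤ (f.natDegree - 2) * (p + 1) + 1 := by
  classical
  by_cases hgood : ∃ P ∈ offDiag f, ∀ t : ZMod p, f ≠ f.comp (C t * X + C (P.2 - t * P.1))
  · obtain ⟨P, hP, h⟩ := hgood
    exact card_offDiag_le_of_good f hd hp P hP h
  · push Not at hgood
    set B := (Finset.univ : Finset (ZMod p)).filter fun t => t ^ f.natDegree = 1 ∧ t ≠ 1 with hB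
    have hBcard := card_roots_unity (p := p) f.natDegree (by omega) hpd
    rw [← hB] at hBcard
    have hcover : offDiag f ⊆ B.biUnion fun t => (offDiag f).filter fun z =>
        f = f.comp (C t * X + C (z.2 - t * z.1)) := by
      intro z hz
      obtain ⟨t, ht⟩ := hgood z hz
      have h1 := inv_pow f (by omega) t _ ht
      rw [Finset.mem_biUnion]
      refine ⟨t, ?_, Finset.mem_filter.mpr ⟨hz, ht⟩⟩
      rw [hB, Finset.mem_filter]
      refine ⟨Finset.mem_univ _, h1.2, ?_⟩
      rintro rfl
      rw [C_1, one_mul, one_mul] at ht
      rw [mem_offDiag] at hz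
      exact comp_X_add_ne f (by omega) hp _ (sub_ne_zero.mpr (Ne.symm hz.1)) ht
    have h1 : (offDiag f).card ≤ ∑ t ∈ B, ((offDiag f).filter fun z =>
        f = f.comp (C t * X + C (z.2 - t * z.1))).card :=
      (Finset.card_le_card hcover).trans Finset.card_biUnion_le
    have h2 : ∀ t ∈ B, ((offDiag f).filter fun z =>
        f = f.comp (C t * X + C (z.2 - t * z.1))).card ≤ p := by
      intro t ht
      have h3 : ((offDiag f).filter fun z =>
        f = f.comp (C t * X + C (z.2 - t * z.1))).card ≤ (Finset.univ : Finset (ZMod p)).card := by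
        refine Finset.card_le_card_of_injOn Prod.fst (fun _ _ => Finset.mem_coe.mpr (Finset.mem_univ _)) ?_
        intro z hz z' hz' h
        rw [Finset.mem_coe, Finset.mem_filter] at hz hz'
        have ht0 := (inv_pow f (by omega) t _ hz.2).1
        have h4 := inv_unique f (by omega) hp t _ _ ht0 hz.2 hz'.2
        apply Prod.ext h
        have h5 : z.1 = z'.1 := h
        rw [h5] at h4
        linear_combination h4
      rwa [Finset.card_univ, ZMod.card] at h3
    have h3 : (offDiag f).card ≤ B.card * p := by
      refine h1.trans ((Finset.sum_le_sum h2).trans ?_)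
      rw [Finset.sum_const, smul_eq_mul]
    have h4 : B.card * p ≤ (f.natDegree - 2) * (p + 1) := Nat.mul_le_mul (by omega) (by omega)
    omega

open scoped Classical in
/-- **image size, `p ≢ 1 mod d`** -/
theorem card_image_ge (f : (ZMod p)[X]) (hd : 2 ≤ f.natDegree) (hp : f.natDegree < p)
    (hpd : ¬ f.natDegree ∣ p - 1) :
    p - 1 ≤ (f.natDegree - 1) * ((Finset.univ : Finset (ZMod p)).image fun x => f.eval x).card := by
  set I := (Finset.univ : Finset (ZMod p)).image fun x => f.eval x with hI
  set n : ZMod p → ℕ := fun c => ((Finset.univ : Finset (ZMod p)).filter fun x => f.eval x = c).card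
    with hn
  have h1 : ∑ c ∈ I, n c = p := by
    rw [hn, ← Finset.card_eq_sum_card_image, Finset.card_univ, ZMod.card]
  have h2 : ∑ c ∈ I, n c ^ 2 = p + (offDiag f).card := by
    have h3 : ∑ c ∈ I, n c ^ 2 =
        ((Finset.univ : Finset (ZMod p × ZMod p)).filter fun z => f.eval z.1 = f.eval z.2).card := by
      rw [Finset.card_eq_sum_card_fiberwise (f := fun z => f.eval z.1) (t := I)]
      · refine Finset.sum_congr rfl fun c _ => ?_
        rw [sq, hn, ← Finset.card_product]
        congr 1
        ext z
        simp only [Finset.mem_product, Finset.mem_filter, Finset.mem_univ, true_and]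
        constructor
        · rintro ⟨h1, h2⟩; exact ⟨h1.trans h2.symm, h1⟩
        · rintro ⟨h1, h2⟩; exact ⟨h2, h1 ▸ h2⟩
      · intro z _
        rw [hI, Finset.mem_coe, Finset.mem_image]
        exact ⟨z.1, Finset.mem_univ _, rfl⟩
    rw [h3]
    have h4 : ((Finset.univ : Finset (ZMod p × ZMod p)).filter fun z => f.eval z.1 = f.eval z.2) =
        ((Finset.univ : Finset (ZMod p)).image fun x => (x, x)) ∪ offDiag f := by
      ext ⟨x, y⟩
      rw [Finset.mem_filter, Finset.mem_union, Finset.mem_image, mem_offDiag]
      simp only [Finset.mem_univ, true_and, Prod.mk.injEq]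
      constructor
      · intro h
        by_cases hxy : x = y
        · left; exact ⟨x, rfl, hxy⟩
        · right; exact ⟨hxy, h⟩
      · rintro (⟨a, rfl, rfl⟩ | ⟨_, h⟩)
        · rfl
        · exact h
    rw [h4, Finset.card_union_of_disjoint, Finset.card_image_of_injective, Finset.card_univ,
      ZMod.card]
    · intro a b h
      exact (Prod.mk.injEq _ _ _ _ ▸ h).1
    · rw [Finset.disjoint_left]
      rintro z hz hz'
      rw [Finset.mem_image] at hz
      obtain ⟨x, _, rfl⟩ := hz
      rw [mem_offDiag] at hz'
      exact hz'.1 rfl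
  have h3 : p ^ 2 ≤ I.card * (p + (offDiag f).card) := by
    have := sq_sum_le_card_mul_sum_sq (s := I) (f := n)
    rwa [h2, h1] at this
  have h4 := card_offDiag_le f hd hp hpd
  obtain ⟨d, hd'⟩ : ∃ d, f.natDegree = d + 2 := ⟨f.natDegree - 2, by omega⟩
  rw [hd'] at h4 ⊢
  simp only [Nat.add_sub_cancel] at h4
  have h5 : p ^ 2 ≤ I.card * ((d + 1) * (p + 1)) := by
    refine h3.trans (Nat.mul_le_mul_left _ ?_)
    have : (d + 1) * (p + 1) = d * (p + 1) + 1 + p := by ring
    omega
  by_contra hcon
  push Not at hcon
  rw [show d + 2 - 1 = d + 1 by omega] at hcon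
  have hpp : 2 ≤ p := (Fact.out : p.Prime).two_le
  obtain ⟨q, rfl⟩ : ∃ q, p = q + 2 := ⟨p - 2, by omega⟩
  have h6 : (d + 1) * I.card ≤ q := by omega
  have h7 : I.card * ((d + 1) * (q + 2 + 1)) ≤ q * (q + 2 + 1) := by
    calc I.card * ((d + 1) * (q + 2 + 1)) = ((d + 1) * I.card) * (q + 2 + 1) := by ring
      _ ≤ _ := Nat.mul_le_mul_right _ h6
  nlinarith

open scoped Classical in
/-- **image size, trivial bound** -/
theorem card_image_ge' (f : (ZMod p)[X]) (hd : 0 < f.natDegree) :
    p ≤ f.natDegree * ((Finset.univ : Finset (ZMod p)).image fun x => f.eval x).card := by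
  have h := Finset.card_le_mul_card_image (f := fun x => f.eval x)
    (Finset.univ : Finset (ZMod p)) f.natDegree ?_
  · rwa [Finset.card_univ, ZMod.card] at h
  · intro c _
    have hne : f - C c ≠ 0 := by
      intro h
      have h5 : f.natDegree = 0 := by rw [sub_eq_zero.mp h, natDegree_C]
      omega
    refine card_roots_le (f - C c) hne _ (by rw [natDegree_sub_C]) _ ?_
    intro x hx
    rw [Finset.mem_filter] at hx
    simp [hx.2]

end Pool.Agent.Work.MP_b29d7f_nt
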