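import Pool.Agent.Work.MP_b29d7f_nt.Meas

/-!
# The energy lower bound for sets contained in few residue classes
-/

open Filter Topology

namespace Pool.Agent.Work.MP_b29d7f_nt

/-- residues modulo `∏_{p ∈ Q} p ^ J` compatible with `S` at all `p ∈ Q` -/
noncomputable def Dset (S : Set ℤ) (Q : Finset ℕ) (J : ℕ) : Finset ℕ := by
  classical
  exact (Finset.range (∏ p ∈ Q, p ^ J)).filter fun r : ℕ => ∀ p ∈ Q, ∃ s ∈ S, (p : ℤ) ^ J ∣ s - r

open scoped Classical in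
theorem mem_Dset {S : Set ℤ} {Q : Finset ℕ} {J r : ℕ} :
    r ∈ Dset S Q J ↔ r < ∏ p ∈ Q, p ^ J ∧ ∀ p ∈ Q, ∃ s ∈ S, (p : ℤ) ^ J ∣ s - r := by
  unfold Dset
  rw [Finset.mem_filter, Finset.mem_range]

theorem coprime_pows {Q : Finset ℕ} (hQ : ∀ p ∈ Q, p.Prime) (J : ℕ) :
    (Q : Set ℕ).Pairwise (Function.onFun IsRelPrime fun p => p ^ J) := by
  intro p hp q hq hpq
  rw [Function.onFun, ← Nat.coprime_iff_isRelPrime]
  exact Nat.Coprime.pow _ _ ((Nat.coprime_primes (hQ p hp) (hQ q hq)).mpr hpq)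

theorem card_Dset_le (S : Set ℤ) {Q : Finset ℕ} (hQ : ∀ p ∈ Q, p.Prime) (J : ℕ) :
    (Dset S Q J).card ≤ ∏ p ∈ Q, nu S p J := by
  classical
  have h1 : ∏ p ∈ Q, nu S p J = (Q.pi fun p => Yset S p J).card := by
    rw [Finset.card_pi]; rfl
  rw [h1]
  refine Finset.card_le_card_of_injOn (fun r p _ => r % p ^ J) ?_ ?_
  · intro r hr
    rw [Finset.mem_coe, mem_Dset] at hr
    rw [Finset.mem_coe, Finset.mem_pi]
    intro p hp
    obtain ⟨s, hs, hd⟩ := hr.2 p hp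
    rw [mem_Yset]
    refine ⟨Nat.mod_lt _ (pow_pos (hQ p hp).pos J), s, hs, ?_⟩
    have h2 : ((r % p ^ J : ℕ) : ℤ) = (r : ℤ) % (p : ℤ) ^ J := by push_cast; rfl
    have h3 : (p : ℤ) ^ J ∣ (r : ℤ) - ((r % p ^ J : ℕ) : ℤ) := by
      rw [h2]; exact Int.dvd_self_sub_emod
    have h4 := dvd_add hd h3
    simpa using h4
  · intro r hr r' hr' h
    rw [Finset.mem_coe, mem_Dset] at hr hr'
    have h2 : ∀ p ∈ Q, ((p ^ J : ℕ) : ℤ) ∣ (r : ℤ) - r' := by
      intro p hp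
      have h3 := congrFun (congrFun h p) hp
      simp only at h3
      have h4 : r ≡ r' [MOD p ^ J] := h3
      exact (Nat.modEq_iff_dvd.mp h4.symm)
    have h3 : ((∏ p ∈ Q, p ^ J : ℕ) : ℤ) ∣ (r : ℤ) - r' := by
      have h5 : ∏ p ∈ Q, p ^ J ∣ ((r : ℤ) - r').natAbs := by
        refine Finset.prod_dvd_of_isRelPrime (coprime_pows hQ J) fun p hp => ?_
        rw [← Int.natCast_dvd_natCast, Int.dvd_natAbs]
        exact h2 p hp
      rw [← Int.natCast_dvd_natCast, Int.dvd_natAbs] at h5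
      exact h5
    have h4 : r ≡ r' [MOD ∏ p ∈ Q, p ^ J] := by
      rw [Nat.modEq_iff_dvd]
      rw [dvd_sub_comm]
      exact h3
    exact Nat.ModEq.eq_of_lt_of_lt h4 hr.1 hr'.1

/-- number of elements of `X ⊆ S` in a window -/
theorem card_window_le {S : Set ℤ} {Q : Finset ℕ} (hQ : ∀ p ∈ Q, p.Prime) (J : ℕ)
    (X : Finset ℤ) (hX : ∀ x ∈ X, x ∈ S) (y x : ℤ) (hyx : y ≤ x) :
    ((X.filter fun z => y ≤ z ∧ z < x).card : ℝ) ≤
      (∏ p ∈ Q, (nu S p J : ℝ)) * ((x - y) / (∏ p ∈ Q, (p : ℝ) ^ J) + 1) := by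
  classical
  set M : ℕ := ∏ p ∈ Q, p ^ J with hM
  have hMpos : 0 < M := Finset.prod_pos fun p hp => pow_pos (hQ p hp).pos J
  have hMz : (0 : ℤ) < M := by exact_mod_cast hMpos
  have hMr : (0 : ℝ) < M := by exact_mod_cast hMpos
  have hsub : (X.filter fun z => y ≤ z ∧ z < x) ⊆ (Dset S Q J).biUnion fun r =>
      (Finset.Ico y x).filter fun z => z ≡ (r : ℤ) [ZMOD (M : ℤ)] := by
    intro z hz
    rw [Finset.mem_filter] at hz
    rw [Finset.mem_biUnion]
    have h0 : 0 ≤ z % (M : ℤ) := Int.emod_nonneg _ hMz.ne'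
    have hc : (((z % (M : ℤ)).toNat : ℕ) : ℤ) = z % (M : ℤ) := Int.toNat_of_nonneg h0
    refine ⟨(z % (M : ℤ)).toNat, ?_, ?_⟩
    · rw [mem_Dset]
      refine ⟨?_, fun p hp => ⟨z, hX z hz.1, ?_⟩⟩
      · have : (((z % (M : ℤ)).toNat : ℕ) : ℤ) < ((M : ℕ) : ℤ) := by
          rw [hc]; exact Int.emod_lt_of_pos _ hMz
        exact_mod_cast this
      · rw [hc]
        have h1 : (M : ℤ) ∣ z - z % (M : ℤ) := Int.dvd_self_sub_emod
        have h2 : ((p ^ J : ℕ) : ℤ) ∣ (M : ℤ) := by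
          rw [Int.natCast_dvd_natCast, hM]
          exact Finset.dvd_prod_of_mem (fun p => p ^ J) hp
        push_cast at h2
        exact h2.trans h1
    · rw [Finset.mem_filter, Finset.mem_Ico, hc]
      exact ⟨hz.2, (Int.mod_modEq z M).symm⟩
  have h1 : ((X.filter fun z => y ≤ z ∧ z < x).card : ℝ) ≤
      ∑ r ∈ Dset S Q J, (((Finset.Ico y x).filter fun z => z ≡ (r : ℤ) [ZMOD (M : ℤ)]).card : ℝ) := by
    exact_mod_cast (Finset.card_le_card hsub).trans Finset.card_biUnion_le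
  have h2 : ∀ r : ℤ, (((Finset.Ico y x).filter fun z => z ≡ r [ZMOD (M : ℤ)]).card : ℝ) ≤
      (x - y) / M + 1 := by
    intro r
    have h3 := Int.Ico_filter_modEq_card y x hMz r
    have h4 : (((((Finset.Ico y x).filter fun z => z ≡ r [ZMOD (M : ℤ)]).card : ℕ) : ℤ) : ℝ) ≤
        (x - y) / M + 1 := by
      rw [h3]
      rw [Int.cast_max]
      refine max_le ?_ ?_
      · push_cast
        have e1 : ((⌈((x : ℚ) - r) / ((M : ℤ) : ℚ)⌉ : ℤ) : ℚ) < ((x : ℚ) - r) / ((M : ℤ) : ℚ) + 1 :=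
          Int.ceil_lt_add_one _
        have e2 : ((y : ℚ) - r) / ((M : ℤ) : ℚ) ≤ ((⌈((y : ℚ) - r) / ((M : ℤ) : ℚ)⌉ : ℤ) : ℚ) :=
          Int.le_ceil _
        have e3 : ((⌈((x : ℚ) - r) / ((M : ℤ) : ℚ)⌉ : ℤ) : ℚ) -
            ((⌈((y : ℚ) - r) / ((M : ℤ) : ℚ)⌉ : ℤ) : ℚ) ≤ ((x : ℚ) - y) / ((M : ℤ) : ℚ) + 1 := by
          have : ((x : ℚ) - y) / ((M : ℤ) : ℚ) = ((x : ℚ) - r) / ((M : ℤ) : ℚ) -
              ((y : ℚ) - r) / ((M : ℤ) : ℚ) := by ring
          rw [this]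
          linarith
        have e4 : (((⌈((x : ℚ) - r) / ((M : ℤ) : ℚ)⌉ : ℤ) : ℚ) : ℝ) -
            (((⌈((y : ℚ) - r) / ((M : ℤ) : ℚ)⌉ : ℤ) : ℚ) : ℝ) ≤
            (((x : ℚ) : ℝ) - ((y : ℚ) : ℝ)) / (((M : ℤ) : ℚ) : ℝ) + 1 := by
          exact_mod_cast e3
        simpa using e4
      · have : (0 : ℝ) ≤ (x - y) / M := by
          apply div_nonneg _ hMr.le
          have : (y : ℝ) ≤ x := by exact_mod_cast hyx
          linarith
        push_cast
        linarith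
    exact_mod_cast h4
  have hc0 : (0 : ℝ) ≤ (x - y) / M + 1 := by
    have : (0 : ℝ) ≤ (x - y) / M := by
      apply div_nonneg _ hMr.le
      have : (y : ℝ) ≤ x := by exact_mod_cast hyx
      linarith
    linarith
  have hM2 : ∏ p ∈ Q, (p : ℝ) ^ J = M := by rw [hM]; push_cast; rfl
  rw [hM2]
  calc ((X.filter fun z => y ≤ z ∧ z < x).card : ℝ)
      ≤ ∑ r ∈ Dset S Q J, (((Finset.Ico y x).filter fun z => z ≡ (r : ℤ) [ZMOD (M : ℤ)]).card : ℝ) :=
        h1
    _ ≤ ∑ r ∈ Dset S Q J, (((x : ℝ) - y) / M + 1) := Finset.sum_le_sum fun r _ => h2 r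
    _ = (Dset S Q J).card * (((x : ℝ) - y) / M + 1) := by rw [Finset.sum_const, nsmul_eq_mul]
    _ ≤ (∏ p ∈ Q, (nu S p J : ℝ)) * (((x : ℝ) - y) / M + 1) := by
        refine mul_le_mul_of_nonneg_right ?_ hc0
        exact_mod_cast card_Dset_le S hQ J

/-- `H_k ≤ 1 + log k` -/
theorem sum_inv_le (k : ℕ) : ∑ d ∈ Finset.Icc 1 k, (1 : ℝ) / d ≤ 1 + Real.log k := by
  rcases Nat.eq_zero_or_pos k with rfl | hk
  · simp
  · have h := harmonic_le_one_add_log k
    have h2 : (harmonic k : ℝ) = ∑ d ∈ Finset.Icc 1 k, (1 : ℝ) / d := by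
      rw [harmonic_eq_sum_Icc]
      push_cast
      refine Finset.sum_congr rfl fun d _ => ?_
      rw [one_div]
    rw [← h2]
    exact h

theorem sum_log_eq (k : ℕ) : ∑ d ∈ Finset.Icc 1 k, Real.log d = Real.log (k.factorial : ℝ) := by
  induction k with
  | zero => simp
  | succ k ih =>
    rw [Finset.sum_Icc_succ_top (by omega), ih, Nat.factorial_succ, Nat.cast_mul,
      Real.log_mul (by positivity) (by positivity), add_comm]

/-- **Energy lower bound.** -/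
theorem energy_thick (S : Set ℤ) {Q : Finset ℕ} (hQ : ∀ p ∈ Q, p.Prime) (J : ℕ)
    (hν : ∀ p ∈ Q, 0 < nu S p J) :
    ∃ K : ℝ, 0 ≤ K ∧ ∀ X : Finset ℤ, (∀ x ∈ X, x ∈ S) →
      ∑ k ∈ Finset.range X.card, (Real.log (k.factorial : ℝ) +
        k * (∑ p ∈ Q, Real.log ((p : ℝ) ^ J / nu S p J)) - K * (1 + Real.log k)) ≤ energy X := by
  classical
  set T : ℝ := ∏ p ∈ Q, (nu S p J : ℝ) with hT
  set M : ℝ := ∏ p ∈ Q, (p : ℝ) ^ J with hM
  have hT1 : 1 ≤ T := by
    have h1 : (1 : ℕ) ≤ ∏ p ∈ Q, nu S p J := Finset.prod_pos hν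
    rw [hT]
    exact_mod_cast h1
  have hMpos : 0 < M := Finset.prod_pos fun p hp => by
    have : (0 : ℝ) < p := by exact_mod_cast (hQ p hp).pos
    positivity
  have hTM : T ≤ M := by
    refine Finset.prod_le_prod (fun _ _ => Nat.cast_nonneg _) fun p hp => ?_
    exact_mod_cast nu_le S p J
  set Λ : ℝ := Real.log (M / T) with hΛ
  have hΛ0 : 0 ≤ Λ := Real.log_nonneg (by rw [le_div_iff₀ (by linarith)]; linarith)
  have hΛsum : ∑ p ∈ Q, Real.log ((p : ℝ) ^ J / nu S p J) = Λ := by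
    rw [hΛ, hM, hT, ← Finset.prod_div_distrib, Real.log_prod]
    intro p hp
    have h1 : (0 : ℝ) < p := by exact_mod_cast (hQ p hp).pos
    have h2 : (0 : ℝ) < nu S p J := by exact_mod_cast hν p hp
    positivity
  refine ⟨2 * T * (1 + Λ), by positivity, fun X hX => ?_⟩
  rw [hΛsum]
  set g : ℕ → ℝ := fun d => Real.log d + Λ - 2 * T * (1 + Λ) * (1 / d) with hg
  have key : ∀ x ∈ X, ∀ y ∈ X, y < x →
      g ((X.filter fun z => y ≤ z ∧ z < x).card) ≤ Real.log ((x - y : ℤ) : ℝ) := by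
    intro x hx y hy hyx
    set d := (X.filter fun z => y ≤ z ∧ z < x).card with hd
    have hd1 : 1 ≤ d := by
      rw [hd]
      exact Finset.card_pos.mpr ⟨y, Finset.mem_filter.mpr ⟨hy, le_rfl, hyx⟩⟩
    have hdr : (1 : ℝ) ≤ d := by exact_mod_cast hd1
    have hdxy : (d : ℝ) ≤ ((x - y : ℤ) : ℝ) := by
      have h1 : d ≤ (Finset.Ico y x).card := by
        rw [hd]
        refine Finset.card_le_card fun z hz => ?_
        rw [Finset.mem_filter] at hz
        rw [Finset.mem_Ico]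
        exact hz.2
      rw [Int.card_Ico] at h1
      have h2 : (d : ℤ) ≤ x - y := by omega
      exact_mod_cast h2
    have hwin := card_window_le hQ J X hX y x hyx.le
    rw [← hd, ← hT, ← hM] at hwin
    have hxyr : ((x - y : ℤ) : ℝ) = (x : ℝ) - y := by push_cast; ring
    have hdist : (d - T) * (M / T) ≤ ((x - y : ℤ) : ℝ) := by
      rw [hxyr]
      have e1 : T * (((x : ℝ) - y) / M + 1) = T * ((x : ℝ) - y) / M + T := by ring
      rw [e1] at hwin
      have e2 : (d : ℝ) - T ≤ T * ((x : ℝ) - y) / M := by linarith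
      rw [le_div_iff₀ hMpos] at e2
      rw [mul_div_assoc', div_le_iff₀ (by linarith)]
      linarith
    change Real.log d + Λ - 2 * T * (1 + Λ) * (1 / d) ≤ _
    by_cases hcase : 2 * T ≤ d
    · have hu : T / d ≤ 1 / 2 := by rw [div_le_iff₀ (by linarith)]; linarith
      have hu0 : 0 ≤ T / d := by positivity
      have h1 : Real.log (((d : ℝ) - T) * (M / T)) ≤ Real.log ((x - y : ℤ) : ℝ) := by
        refine Real.log_le_log ?_ hdist
        have : 0 < (d : ℝ) - T := by linarith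
        positivity
      refine le_trans ?_ h1
      have h2 : ((d : ℝ) - T) * (M / T) = d * (1 - T / d) * (M / T) := by
        field_simp
      have h1u : 0 < 1 - T / d := by linarith
      rw [h2, Real.log_mul (by positivity) (by positivity), Real.log_mul (by positivity) h1u.ne',
        ← hΛ]
      have h3 : -(2 * (T / d)) ≤ Real.log (1 - T / d) := by
        have h4 := Real.one_sub_inv_le_log_of_pos h1u
        have h5 : -(2 * (T / d)) ≤ 1 - (1 - T / d)⁻¹ := by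
          have h6 : (1 - T / d)⁻¹ ≤ 1 + 2 * (T / d) := by
            rw [inv_le_iff_one_le_mul₀ h1u]
            nlinarith
          linarith
        linarith
      have h4 : 2 * (T / d) ≤ 2 * T * (1 + Λ) * (1 / d) := by
        have : 2 * T * (1 + Λ) * (1 / d) = 2 * (T / d) * (1 + Λ) := by ring
        rw [this]
        nlinarith
      linarith
    · push Not at hcase
      have h1 : Real.log d ≤ Real.log ((x - y : ℤ) : ℝ) := Real.log_le_log (by linarith) hdxy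
      have h2 : Λ ≤ 2 * T * (1 + Λ) * (1 / d) := by
        rw [mul_one_div, le_div_iff₀ (by linarith)]
        nlinarith
      linarith
  refine le_trans ?_ (energy_ge g X key)
  refine Finset.sum_le_sum fun k _ => ?_
  rw [hg]
  rw [Finset.sum_sub_distrib, Finset.sum_add_distrib, sum_log_eq, Finset.sum_const, Nat.card_Icc,
    ← Finset.mul_sum]
  have h1 := mul_le_mul_of_nonneg_left (sum_inv_le k) (show 0 ≤ 2 * T * (1 + Λ) by positivity)
  rw [nsmul_eq_mul]
  simp only [Nat.add_sub_cancel]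
  linarith

end Pool.Agent.Work.MP_b29d7f_nt
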