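import Pool.Agent.Work.MP_b29d7f_nt.PairSum
import Pool.Agent.Work.MP_b29d7f_nt.Sieve

/-!
# Archimedean bounds for points of a lattice
-/

open Filter Topology

namespace Pool.Agent.Work.MP_b29d7f_nt

/-- points of a residue class modulo `A` in `[y, x)` -/
theorem card_lattice_le {A : ℕ} (hA : 0 < A) (X : Finset ℤ)
    (hX : ∀ x ∈ X, ∀ y ∈ X, (A : ℤ) ∣ x - y) {x y : ℤ} (hx : x ∈ X) (hy : y ∈ X) (hyx : y < x) :
    (A : ℤ) * (X.filter fun z => y ≤ z ∧ z < x).card ≤ x - y := by
  classical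
  have hAz : (0 : ℤ) < A := by exact_mod_cast hA
  have h1 : (X.filter fun z => y ≤ z ∧ z < x).card ≤ (Finset.Ico (0 : ℤ) ((x - y) / A)).card := by
    refine Finset.card_le_card_of_injOn (fun z => (z - y) / A) ?_ ?_
    · intro z hz
      rw [Finset.mem_coe, Finset.mem_filter] at hz
      rw [Finset.mem_coe, Finset.mem_Ico]
      obtain ⟨k, hk⟩ := hX z hz.1 y hy
      obtain ⟨l, hl⟩ := hX x hx y hy
      simp only
      rw [hk, hl, Int.mul_ediv_cancel_left _ hAz.ne', Int.mul_ediv_cancel_left _ hAz.ne']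
      constructor
      · have : 0 ≤ (A : ℤ) * k := by rw [← hk]; omega
        exact nonneg_of_mul_nonneg_right this hAz
      · have : (A : ℤ) * k < A * l := by rw [← hk, ← hl]; omega
        exact lt_of_mul_lt_mul_left this hAz.le
    · intro z hz z' hz' h
      rw [Finset.mem_coe, Finset.mem_filter] at hz hz'
      obtain ⟨k, hk⟩ := hX z hz.1 y hy
      obtain ⟨l, hl⟩ := hX z' hz'.1 y hy
      simp only at h
      rw [hk, hl, Int.mul_ediv_cancel_left _ hAz.ne', Int.mul_ediv_cancel_left _ hAz.ne'] at h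
      rw [h] at hk
      omega
  rw [Int.card_Ico, sub_zero] at h1
  obtain ⟨l, hl⟩ := hX x hx y hy
  have h2 : 0 ≤ (x - y) / A := Int.ediv_nonneg (by omega) hAz.le
  have h3 : ((X.filter fun z => y ≤ z ∧ z < x).card : ℤ) ≤ (x - y) / A := by omega
  calc (A : ℤ) * (X.filter fun z => y ≤ z ∧ z < x).card ≤ A * ((x - y) / A) :=
        mul_le_mul_of_nonneg_left h3 hAz.le
    _ ≤ x - y := Int.mul_ediv_self_le hAz.ne'

/-- the comparison function for a lattice -/
theorem sum_log_lattice (A : ℕ) (hA : 0 < A) (k : ℕ) :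
    ∑ d ∈ Finset.Icc 1 k, Real.log ((A : ℝ) * d) =
      Real.log (k.factorial : ℝ) + k * Real.log A := by
  have hAr : (0 : ℝ) < A := by exact_mod_cast hA
  have h1 : ∀ d ∈ Finset.Icc 1 k, Real.log ((A : ℝ) * d) = Real.log A + Real.log d := by
    intro d hd
    rw [Finset.mem_Icc] at hd
    have : (0 : ℝ) < d := by exact_mod_cast hd.1
    exact Real.log_mul hAr.ne' this.ne'
  rw [Finset.sum_congr rfl h1, Finset.sum_add_distrib, sum_log_eq, Finset.sum_const, Nat.card_Icc,
    nsmul_eq_mul]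
  simp only [Nat.add_sub_cancel]
  ring

theorem lattice_key {A : ℕ} (hA : 0 < A) (X : Finset ℤ)
    (hX : ∀ x ∈ X, ∀ y ∈ X, (A : ℤ) ∣ x - y) :
    ∀ x ∈ X, ∀ y ∈ X, y < x →
      Real.log ((A : ℝ) * ((X.filter fun z => y ≤ z ∧ z < x).card : ℝ)) ≤
        Real.log ((x - y : ℤ) : ℝ) := by
  classical
  intro x hx y hy hyx
  have h1 := card_lattice_le hA X hX hx hy hyx
  have h2 : 0 < (X.filter fun z => y ≤ z ∧ z < x).card :=
    Finset.card_pos.mpr ⟨y, Finset.mem_filter.mpr ⟨hy, le_rfl, hyx⟩⟩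
  refine Real.log_le_log ?_ ?_
  · have h3 : (0 : ℝ) < ((X.filter fun z => y ≤ z ∧ z < x).card : ℝ) := by exact_mod_cast h2
    have h4 : (0 : ℝ) < A := by exact_mod_cast hA
    positivity
  · exact_mod_cast h1

/-- **energy of lattice points** -/
theorem energy_lattice {A : ℕ} (hA : 0 < A) (X : Finset ℤ)
    (hX : ∀ x ∈ X, ∀ y ∈ X, (A : ℤ) ∣ x - y) :
    ∑ k ∈ Finset.range X.card, (Real.log (k.factorial : ℝ) + k * Real.log A) ≤ energy X := by
  have h := energy_ge (fun d => Real.log ((A : ℝ) * d)) X (lattice_key hA X hX)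
  simp only [sum_log_lattice A hA] at h
  exact h

/-- distances from a point to lattice points below it -/
theorem below_ge {A : ℕ} (hA : 0 < A) (Y : Finset ℤ) (hY : ∀ x ∈ Y, ∀ y ∈ Y, (A : ℤ) ∣ x - y)
    (x : ℤ) (hx : ∀ y ∈ Y, y < x) :
    Real.log ((Y.card - 1).factorial : ℝ) + ((Y.card - 1 : ℕ) : ℝ) * Real.log A ≤
      ∑ y ∈ Y, Real.log |((x - y : ℤ) : ℝ)| := by
  classical
  have hAr : (0 : ℝ) < A := by exact_mod_cast hA
  set g : ℕ → ℝ := fun d => Real.log ((A : ℝ) * ((d - 1 : ℕ) : ℝ)) with hg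
  have h1 : ∀ y ∈ Y, g ((Y.filter fun z => y ≤ z).card) ≤ Real.log |((x - y : ℤ) : ℝ)| := by
    intro y hy
    set r := (Y.filter fun z => y ≤ z).card with hr
    have hr1 : 0 < r := Finset.card_pos.mpr ⟨y, Finset.mem_filter.mpr ⟨hy, le_rfl⟩⟩
    have hxy : (0 : ℤ) < x - y := by have := hx y hy; omega
    have hxyr : (1 : ℝ) ≤ ((x - y : ℤ) : ℝ) := by exact_mod_cast hxy
    rw [abs_of_pos (by linarith)]
    change Real.log ((A : ℝ) * ((r - 1 : ℕ) : ℝ)) ≤ _
    rcases Nat.eq_zero_or_pos (r - 1) with h0 | hpos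
    · rw [h0]
      simp only [Nat.cast_zero, mul_zero, Real.log_zero]
      exact Real.log_nonneg hxyr
    · -- the largest element of Y
      have hYne : Y.Nonempty := ⟨y, hy⟩
      set M := Y.max' hYne with hM
      have hMY : M ∈ Y := Y.max'_mem hYne
      have hyM : y < M := by
        obtain ⟨z, hz, hzy⟩ : ∃ z ∈ Y.filter (fun z => y ≤ z), z ≠ y := by
          by_contra hcon
          push Not at hcon
          have h2 : Y.filter (fun z => y ≤ z) ⊆ {y} := fun z hz =>
            Finset.mem_singleton.mpr (hcon z hz)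
          have h3 := Finset.card_le_card h2
          rw [Finset.card_singleton] at h3
          omega
        rw [Finset.mem_filter] at hz
        have h4 := Y.le_max' z hz.1
        rw [← hM] at h4
        have h5 : y < z := lt_of_le_of_ne hz.2 (Ne.symm hzy)
        omega
      have h2 := card_lattice_le hA Y hY hMY hy hyM
      have h3 : r = (Y.filter fun z => y ≤ z ∧ z < M).card + 1 := by
        have h4 : Y.filter (fun z => y ≤ z) = insert M (Y.filter fun z => y ≤ z ∧ z < M) := by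
          ext z
          simp only [Finset.mem_filter, Finset.mem_insert]
          constructor
          · rintro ⟨hz1, hz2⟩
            have h5 := Y.le_max' z hz1
            rw [← hM] at h5
            rcases eq_or_lt_of_le h5 with h6 | h6
            · left; exact h6
            · right; exact ⟨hz1, hz2, h6⟩
          · rintro (rfl | ⟨hz1, hz2, _⟩)
            · exact ⟨hMY, hyM.le⟩
            · exact ⟨hz1, hz2⟩
        rw [hr, h4, Finset.card_insert_of_notMem]
        rw [Finset.mem_filter]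
        exact fun h => lt_irrefl _ h.2.2
      have h4 : (A : ℤ) * ((r - 1 : ℕ) : ℤ) ≤ x - y := by
        rw [h3, Nat.add_sub_cancel]
        have := hx M hMY
        omega
      refine Real.log_le_log ?_ ?_
      · have : (0 : ℝ) < ((r - 1 : ℕ) : ℝ) := by exact_mod_cast hpos
        positivity
      · exact_mod_cast h4
  have h2 : ∑ d ∈ Finset.Icc 1 Y.card, g d =
      Real.log ((Y.card - 1).factorial : ℝ) + ((Y.card - 1 : ℕ) : ℝ) * Real.log A := by
    have h3 : ∀ n : ℕ, ∑ d ∈ Finset.Icc 1 (n + 1), g d =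
        ∑ d ∈ Finset.Icc 1 n, Real.log ((A : ℝ) * d) := by
      intro n
      induction n with
      | zero => simp [hg]
      | succ n ih =>
        rw [Finset.sum_Icc_succ_top (by omega), ih, Finset.sum_Icc_succ_top (by omega) (b := n)]
        rfl
    rcases Nat.eq_zero_or_pos Y.card with h0 | hpos
    · rw [h0]; simp
    · obtain ⟨n, hn⟩ : ∃ n, Y.card = n + 1 := ⟨Y.card - 1, by omega⟩
      rw [hn, h3, sum_log_lattice A hA, Nat.add_sub_cancel]
  rw [← h2, ← rank_sum]
  exact Finset.sum_le_sum h1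

theorem above_ge {A : ℕ} (hA : 0 < A) (Y : Finset ℤ) (hY : ∀ x ∈ Y, ∀ y ∈ Y, (A : ℤ) ∣ x - y)
    (x : ℤ) (hx : ∀ y ∈ Y, x < y) :
    Real.log ((Y.card - 1).factorial : ℝ) + ((Y.card - 1 : ℕ) : ℝ) * Real.log A ≤
      ∑ y ∈ Y, Real.log |((x - y : ℤ) : ℝ)| := by
  classical
  have h := below_ge hA (Y.image fun y => -y) (by
    intro u hu v hv
    rw [Finset.mem_image] at hu hv
    obtain ⟨u', hu', rfl⟩ := hu
    obtain ⟨v', hv', rfl⟩ := hv
    have := hY v' hv' u' hu'
    have e : -u' - -v' = v' - u' := by ring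
    rwa [e]) (-x) (by
    intro y hy
    rw [Finset.mem_image] at hy
    obtain ⟨y', hy', rfl⟩ := hy
    have := hx y' hy'
    omega)
  rw [Finset.card_image_of_injective _ neg_injective,
    Finset.sum_image (fun _ _ _ _ h => neg_injective h)] at h
  refine h.trans (le_of_eq ?_)
  refine Finset.sum_congr rfl fun y _ => ?_
  have e : -x - -y = -(x - y) := by ring
  rw [e]
  push_cast
  rw [abs_neg]

theorem log_fact_pred (n N : ℕ) (hnN : n ≤ N) (hN : 1 ≤ N) :
    Real.log (n.factorial : ℝ) - Real.log N ≤ Real.log ((n - 1).factorial : ℝ) := by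
  rcases Nat.eq_zero_or_pos n with rfl | hn
  · simp
    exact Real.log_natCast_nonneg N
  · obtain ⟨m, rfl⟩ : ∃ m, n = m + 1 := ⟨n - 1, by omega⟩
    rw [Nat.add_sub_cancel, Nat.factorial_succ, Nat.cast_mul, Real.log_mul (by positivity)
      (by positivity)]
    have : Real.log ((m + 1 : ℕ) : ℝ) ≤ Real.log N :=
      Real.log_le_log (by positivity) (by exact_mod_cast hnN)
    linarith

/-- **cross energy**: a point outside the lattice -/
theorem cross_ge {A : ℕ} (hA : 0 < A) (Y : Finset ℤ) (hY : ∀ x ∈ Y, ∀ y ∈ Y, (A : ℤ) ∣ x - y)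
    (x : ℤ) (hx : x ∉ Y) (hne : 1 ≤ Y.card) :
    ((Y.card : ℝ) - 2) * Real.log A + Real.log (Y.card.factorial : ℝ) - Y.card * Real.log 2 -
      2 * Real.log Y.card ≤ ∑ y ∈ Y, ld x y := by
  classical
  have hA1 : (1 : ℝ) ≤ A := by exact_mod_cast hA
  have hlogA : 0 ≤ Real.log A := Real.log_nonneg hA1
  set Y₁ := Y.filter fun y => y < x with hY₁
  set Y₂ := Y.filter fun y => ¬ y < x with hY₂
  have hcard : Y₁.card + Y₂.card = Y.card := Finset.card_filter_add_card_filter_not _
  have hsum : ∑ y ∈ Y, ld x y = ∑ y ∈ Y₁, ld x y + ∑ y ∈ Y₂, ld x y :=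
    (Finset.sum_filter_add_sum_filter_not Y _ _).symm
  have h1 := below_ge hA Y₁ (fun u hu v hv => hY u (Finset.filter_subset _ _ hu) v
    (Finset.filter_subset _ _ hv)) x (fun y hy => (Finset.mem_filter.mp hy).2)
  have h2 := above_ge hA Y₂ (fun u hu v hv => hY u (Finset.filter_subset _ _ hu) v
    (Finset.filter_subset _ _ hv)) x (fun y hy => by
      rw [hY₂, Finset.mem_filter] at hy
      have : y ≠ x := by rintro rfl; exact hx hy.1
      omega)
  have h3 := log_fact_pred Y₁.card Y.card (by omega) hne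
  have h4 := log_fact_pred Y₂.card Y.card (by omega) hne
  have h5 : Real.log (Y.card.factorial : ℝ) - Y.card * Real.log 2 ≤
      Real.log (Y₁.card.factorial : ℝ) + Real.log (Y₂.card.factorial : ℝ) := by
    have h6 : Y.card.factorial ≤ 2 ^ Y.card * (Y₁.card.factorial * Y₂.card.factorial) := by
      rw [← hcard]
      have h7 := Nat.add_choose_mul_factorial_mul_factorial Y₁.card Y₂.card
      have h8 : (Y₁.card + Y₂.card).choose Y₂.card ≤ 2 ^ (Y₁.card + Y₂.card) :=
        Nat.choose_le_two_pow _ _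
      calc (Y₁.card + Y₂.card).factorial = (Y₁.card + Y₂.card).choose Y₂.card *
            (Y₁.card.factorial * Y₂.card.factorial) := by rw [← h7]; ring
        _ ≤ _ := Nat.mul_le_mul_right _ h8
    have h7 : Real.log (Y.card.factorial : ℝ) ≤
        Real.log ((2 ^ Y.card * (Y₁.card.factorial * Y₂.card.factorial) : ℕ) : ℝ) :=
      Real.log_le_log (by positivity) (by exact_mod_cast h6)
    push_cast at h7
    rw [Real.log_mul (by positivity) (by positivity), Real.log_mul (by positivity) (by positivity),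
      Real.log_pow] at h7
    linarith
  have h6 : ((Y.card : ℝ) - 2) * Real.log A ≤ ((Y₁.card - 1 : ℕ) : ℝ) * Real.log A +
      ((Y₂.card - 1 : ℕ) : ℝ) * Real.log A := by
    rw [← add_mul]
    refine mul_le_mul_of_nonneg_right ?_ hlogA
    have h7 : Y.card ≤ (Y₁.card - 1) + (Y₂.card - 1) + 2 := by omega
    have h8 : (Y.card : ℝ) ≤ ((Y₁.card - 1 : ℕ) : ℝ) + ((Y₂.card - 1 : ℕ) : ℝ) + 2 := by
      exact_mod_cast h7
    linarith
  rw [hsum]
  unfold ld
  linarith

end Pool.Agent.Work.MP_b29d7f_nt
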