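import Mathlib

/-!
# Simultaneous `p`-orderings of sets of integers: the definitions used in the statements
-/

namespace Pool.Agent.Work.MP_b29d7f_nt

/-- `a` is a `p`-ordering of `S`: all its terms lie in `S`, and for every `k` the term `a k`
minimises over `S` the `p`-adic valuation of `∏_{i<k} (s - a i)` (the valuation of `0` is `⊤`). -/
def IsPOrdering (S : Set ℤ) (p : ℕ) (a : ℕ → ℤ) : Prop :=
  (∀ k, a k ∈ S) ∧ ∀ k, ∀ s ∈ S,
    emultiplicity (p : ℤ) (∏ i ∈ Finset.range k, (a k - a i)) ≤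
      emultiplicity (p : ℤ) (∏ i ∈ Finset.range k, (s - a i))

/-- `S` admits a simultaneous `p`-ordering: one sequence is a `p`-ordering of `S` for every
prime `p`. -/
def HasSimultaneousOrdering (S : Set ℤ) : Prop :=
  ∃ a : ℕ → ℤ, ∀ p : ℕ, p.Prime → IsPOrdering S p a

/-- `T` is *ample*: there is a constant `C` such that for every prime `p` the set `T` is
`p`-adically dense in all but at most `C` residue classes modulo `p`, and in some ball. -/
def Ample (T : Set ℤ) : Prop :=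
  ∃ C : ℕ, ∀ p : ℕ, p.Prime →
    (∃ E : Finset (ZMod p), E.card ≤ C ∧
      ∀ y : ℤ, (y : ZMod p) ∉ E → ∀ N : ℕ, ∃ t ∈ T, (p : ℤ) ^ N ∣ t - y) ∧
    ∃ (m : ℕ) (c : ℤ), ∀ y : ℤ, (p : ℤ) ^ m ∣ y - c → ∀ N : ℕ, ∃ t ∈ T, (p : ℤ) ^ N ∣ t - y

/-- the residues modulo `p ^ J` which occur in `S` -/
noncomputable def Yset (S : Set ℤ) (p J : ℕ) : Finset ℕ := by
  classical
  exact (Finset.range (p ^ J)).filter fun y : ℕ => ∃ s ∈ S, (p : ℤ) ^ J ∣ s - y

/-- the number of residue classes modulo `p ^ J` which meet `S` -/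
noncomputable def nu (S : Set ℤ) (p J : ℕ) : ℕ := (Yset S p J).card

/-- the Haar measure of the closure of `S` in `ℤ_p`: the infimum over `J` of the proportion of the
residue classes modulo `p ^ J` which meet `S` -/
noncomputable def mu (S : Set ℤ) (p : ℕ) : ℝ := ⨅ J : ℕ, (nu S p J : ℝ) / (p : ℝ) ^ J

/-- `S` grows at most linearly at `p`: for any `k` integers there is an element `s` of `S` for
which the `p`-adic valuation of the product of the differences is at most `B k`. (Equivalently the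
closure of `S` in `ℤ_p` has positive capacity.) -/
def LinGrowth (S : Set ℤ) (p : ℕ) : Prop :=
  ∃ B : ℕ, ∀ (k : ℕ) (b : ℕ → ℤ), ∃ s ∈ S,
    emultiplicity (p : ℤ) (∏ i ∈ Finset.range k, (s - b i)) ≤ ((B * k : ℕ) : ℕ∞)

/-- `S` is *thick*: its closure in `ℤ_p` has positive capacity for every `p`, and positive measure
`μ_p` for all but finitely many `p`, with `∑ (1 / μ_p - 1) (log p) / p < ∞`. -/
def Thick (S : Set ℤ) : Prop :=
  (∀ p : ℕ, p.Prime → LinGrowth S p) ∧
  ∃ P₁ : ℕ, (∀ p : ℕ, p.Prime → P₁ < p → 0 < mu S p) ∧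
    Summable fun p : ℕ => if p.Prime ∧ P₁ < p then (1 / mu S p - 1) * Real.log p / p else 0

/-- `S` has positive upper Banach density -/
def PosUpperBanachDensity (S : Set ℤ) : Prop :=
  ∃ δ : ℝ, 0 < δ ∧ ∀ L₀ : ℕ, ∃ L : ℕ, L₀ ≤ L ∧ ∃ x : ℤ,
    δ * L ≤ ((S ∩ Set.Ico x (x + L)).ncard : ℝ)

end Pool.Agent.Work.MP_b29d7f_nt
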