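import Pool.Agent.Work.MP_b29d7f_nt.Meas

/-!
# The local inequality and its equality case
-/

open Filter Topology

namespace Pool.Agent.Work.MP_b29d7f_nt

/-- `κ_p = log p / (p - 1) + log (1 / μ_p)` -/
noncomputable def kap (S : Set ℤ) (p : ℕ) : ℝ := Real.log p / (p - 1) - Real.log (mu S p)

/-- concavity of the logarithm on `[1, p]` -/
theorem log_chord {p : ℕ} (hp : 2 ≤ p) {u : ℝ} (hu1 : 1 ≤ u) (hup : u ≤ p) :
    (u - 1) * (Real.log p / (p - 1)) ≤ Real.log u := by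
  have hpr : (2 : ℝ) ≤ p := by exact_mod_cast hp
  have hp1 : (0 : ℝ) < p - 1 := by linarith
  have hconc := strictConcaveOn_log_Ioi.concaveOn
  have h := hconc.2 (show (1 : ℝ) ∈ Set.Ioi 0 by simp)
    (show (p : ℝ) ∈ Set.Ioi 0 by rw [Set.mem_Ioi]; linarith)
    (show (0 : ℝ) ≤ ((p : ℝ) - u) / (p - 1) from div_nonneg (by linarith) hp1.le)
    (show (0 : ℝ) ≤ (u - 1) / (p - 1) from div_nonneg (by linarith) hp1.le)
    (by field_simp; ring)
  simp only [smul_eq_mul, Real.log_one, mul_zero, zero_add] at h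
  have e1 : ((p : ℝ) - u) / (p - 1) * 1 + (u - 1) / (p - 1) * p = u := by field_simp; ring
  rw [e1] at h
  calc (u - 1) * (Real.log p / (p - 1)) = (u - 1) / (p - 1) * Real.log p := by ring
    _ ≤ _ := h

theorem log_chord_strict {p : ℕ} (hp : 2 ≤ p) {u : ℝ} (hu1 : 1 < u) (hup : u < p) :
    (u - 1) * (Real.log p / (p - 1)) < Real.log u := by
  have hpr : (2 : ℝ) ≤ p := by exact_mod_cast hp
  have hp1 : (0 : ℝ) < p - 1 := by linarith
  have h := strictConcaveOn_log_Ioi.2 (show (1 : ℝ) ∈ Set.Ioi 0 by simp)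
    (show (p : ℝ) ∈ Set.Ioi 0 by rw [Set.mem_Ioi]; linarith)
    (show (1 : ℝ) ≠ p by intro h; linarith)
    (show (0 : ℝ) < ((p : ℝ) - u) / (p - 1) from div_pos (by linarith) hp1)
    (show (0 : ℝ) < (u - 1) / (p - 1) from div_pos (by linarith) hp1)
    (by field_simp; ring)
  simp only [smul_eq_mul, Real.log_one, mul_zero, zero_add] at h
  have e1 : ((p : ℝ) - u) / (p - 1) * 1 + (u - 1) / (p - 1) * p = u := by field_simp; ring
  rw [e1] at h
  calc (u - 1) * (Real.log p / (p - 1)) = (u - 1) / (p - 1) * Real.log p := by ring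
    _ < _ := h

/-- the scale of `μ` -/
theorem exists_scale {S : Set ℤ} {p : ℕ} (hp : 2 ≤ p) (hmu : 0 < mu S p) :
    ∃ m : ℕ, 1 ≤ ((p : ℝ) ^ m * mu S p)⁻¹ ∧ ((p : ℝ) ^ m * mu S p)⁻¹ < p := by
  have hpr : (2 : ℝ) ≤ p := by exact_mod_cast hp
  obtain ⟨m, hm1, hm2⟩ := exists_nat_pow_near_of_lt_one hmu (mu_le_one S (by omega))
    (show (0 : ℝ) < (p : ℝ)⁻¹ by positivity) (inv_lt_one_of_one_lt₀ (by linarith))
  refine ⟨m, ?_, ?_⟩
  · rw [_root_.inv_pow] at hm2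
    apply one_le_inv₀ (by positivity) |>.mpr
    calc (p : ℝ) ^ m * mu S p ≤ (p : ℝ) ^ m * ((p : ℝ) ^ m)⁻¹ :=
          mul_le_mul_of_nonneg_left hm2 (by positivity)
      _ = 1 := mul_inv_cancel₀ (by positivity)
  · rw [_root_.inv_pow, pow_succ] at hm1
    rw [inv_lt_comm₀ (by positivity) (by linarith)]
    calc (p : ℝ)⁻¹ = (p : ℝ) ^ m * ((p : ℝ) ^ m * p)⁻¹ := by
          have : (p : ℝ) ^ m ≠ 0 := by positivity
          have : (p : ℝ) ≠ 0 := by linarith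
          field_simp
      _ < _ := mul_lt_mul_of_pos_left hm1 (by positivity)

theorem kap_eq {S : Set ℤ} {p : ℕ} (hp : 2 ≤ p) (hmu : 0 < mu S p) (m : ℕ) :
    kap S p = Real.log p / (p - 1) + m * Real.log p + Real.log ((p : ℝ) ^ m * mu S p)⁻¹ := by
  have hpr : (2 : ℝ) ≤ p := by exact_mod_cast hp
  unfold kap
  rw [Real.log_inv, Real.log_mul (by positivity) hmu.ne', Real.log_pow]
  ring

/-- **The local inequality** `w_p(k) log p ≤ κ_p k`. -/
theorem wp_le_kap {S : Set ℤ} (hS : S.Infinite) {p : ℕ} (hp : p.Prime) {a : ℕ → ℤ}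
    (ha : IsPOrdering S p a) (hmu : 0 < mu S p) (k : ℕ) :
    (wp p a k : ℝ) * Real.log p ≤ k * kap S p := by
  obtain ⟨m, hm1, hm2⟩ := exists_scale hp.two_le hmu
  have h1 := wp_le_of_mu hS hp ha hmu k m
  have hpr : (2 : ℝ) ≤ p := by exact_mod_cast hp.two_le
  have hlog : 0 ≤ Real.log p := Real.log_nonneg (by linarith)
  set u := ((p : ℝ) ^ m * mu S p)⁻¹ with hu
  have hinv : ((p : ℝ) ^ m * mu S p * (p - 1))⁻¹ = u / (p - 1) := by
    rw [mul_inv, hu, div_eq_mul_inv]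
  rw [hinv] at h1
  have h2 := log_chord hp.two_le hm1 hm2.le
  rw [kap_eq hp.two_le hmu m, ← hu]
  have hk : (0 : ℝ) ≤ k := Nat.cast_nonneg k
  calc (wp p a k : ℝ) * Real.log p ≤ (k * (m + u / (p - 1))) * Real.log p :=
        mul_le_mul_of_nonneg_right h1 hlog
    _ = k * (Real.log p / (p - 1) + m * Real.log p + (u - 1) * (Real.log p / (p - 1))) := by ring
    _ ≤ _ := mul_le_mul_of_nonneg_left (by linarith) hk

/-- a missed class in every ball, at a common level -/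
theorem exists_level {S : Set ℤ} {p : ℕ} (hp : p.Prime) (m : ℕ) (hnf : ∀ c, ¬ Full S p m c) :
    ∃ J₀, m ≤ J₀ ∧ ∀ c : ℤ,
      ((Yset S p J₀).filter fun y : ℕ => (p : ℤ) ^ m ∣ (y : ℤ) - c).card + 1 ≤ p ^ (J₀ - m) := by
  classical
  have hpm : (0 : ℤ) < (p : ℤ) ^ m := pow_pos (by exact_mod_cast hp.pos) m
  have h1 : ∀ c : ℤ, ∃ N : ℕ, ∃ y : ℤ, (p : ℤ) ^ m ∣ y - c ∧ ∀ s ∈ S, ¬ (p : ℤ) ^ N ∣ s - y := by
    intro c
    have := hnf c
    unfold Full at this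
    push Not at this
    obtain ⟨y, hy, N, hN⟩ := this
    exact ⟨N, y, hy, hN⟩
  choose N y hy hN using h1
  set J₀ := max m ((Finset.range (p ^ m)).sup fun c : ℕ => N (c : ℤ)) with hJ₀
  refine ⟨J₀, le_max_left _ _, fun c => ?_⟩
  -- reduce c modulo p ^ m
  set c' : ℕ := (c % (p : ℤ) ^ m).toNat with hc'
  have hc0 : 0 ≤ c % (p : ℤ) ^ m := Int.emod_nonneg _ hpm.ne'
  have hcc : ((c' : ℕ) : ℤ) = c % (p : ℤ) ^ m := Int.toNat_of_nonneg hc0
  have hcdvd : (p : ℤ) ^ m ∣ c - c' := by rw [hcc]; exact Int.dvd_self_sub_emod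
  have hc'lt : c' < p ^ m := by
    have : ((c' : ℕ) : ℤ) < ((p ^ m : ℕ) : ℤ) := by
      rw [hcc]; push_cast; exact Int.emod_lt_of_pos _ hpm
    exact_mod_cast this
  have hNle : N (c' : ℤ) ≤ J₀ :=
    (Finset.le_sup (f := fun c : ℕ => N (c : ℤ)) (Finset.mem_range.mpr hc'lt)).trans
      (le_max_right _ _)
  have hpJ : (0 : ℤ) < (p : ℤ) ^ J₀ := pow_pos (by exact_mod_cast hp.pos) _
  set y₀ : ℕ := (y c' % (p : ℤ) ^ J₀).toNat with hy₀
  have hy00 : 0 ≤ y c' % (p : ℤ) ^ J₀ := Int.emod_nonneg _ hpJ.ne'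
  have hycc : ((y₀ : ℕ) : ℤ) = y c' % (p : ℤ) ^ J₀ := Int.toNat_of_nonneg hy00
  have hydvd : (p : ℤ) ^ J₀ ∣ y c' - y₀ := by rw [hycc]; exact Int.dvd_self_sub_emod
  have hy₀lt : y₀ < p ^ J₀ := by
    have : ((y₀ : ℕ) : ℤ) < ((p ^ J₀ : ℕ) : ℤ) := by
      rw [hycc]; push_cast; exact Int.emod_lt_of_pos _ hpJ
    exact_mod_cast this
  have hmJ : m ≤ J₀ := le_max_left _ _
  have hy₀c : (p : ℤ) ^ m ∣ (y₀ : ℤ) - c := by
    have e1 := hy c'
    have e2 := (pow_dvd_pow (p : ℤ) hmJ).trans hydvd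
    have e3 := dvd_sub (dvd_sub e1 e2) hcdvd
    have : y c' - c' - (y c' - y₀) - (c - c') = (y₀ : ℤ) - c := by ring
    rwa [this] at e3
  have hy₀n : y₀ ∉ Yset S p J₀ := by
    rw [mem_Yset]
    rintro ⟨_, s, hs, hd⟩
    apply hN c' s hs
    have e1 := dvd_sub hd hydvd
    have : s - y₀ - (y c' - y₀) = s - y c' := by ring
    rw [this] at e1
    exact (pow_dvd_pow _ hNle).trans e1
  rw [← cnt_pow hp J₀ m hmJ c]
  have hsub : insert y₀ ((Yset S p J₀).filter fun y : ℕ => (p : ℤ) ^ m ∣ (y : ℤ) - c) ⊆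
      (Finset.range (p ^ J₀)).filter fun y : ℕ => (p : ℤ) ^ m ∣ (y : ℤ) - c := by
    intro z hz
    rw [Finset.mem_insert, Finset.mem_filter] at hz
    rw [Finset.mem_filter, Finset.mem_range]
    rcases hz with rfl | ⟨hz1, hz2⟩
    · exact ⟨hy₀lt, hy₀c⟩
    · exact ⟨(mem_Yset.mp hz1).1, hz2⟩
  have := Finset.card_le_card hsub
  rwa [Finset.card_insert_of_notMem] at this
  intro h
  exact hy₀n (Finset.mem_filter.mp h).1

/-- the gap when no ball is full -/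
theorem wp_gap {S : Set ℤ} (hS : S.Infinite) {p : ℕ} (hp : p.Prime) {a : ℕ → ℤ}
    (ha : IsPOrdering S p a) (m : ℕ) (hm : 1 ≤ m) (hmu : ((p : ℝ) ^ m)⁻¹ ≤ mu S p)
    (hnf : ∀ c, ¬ Full S p m c) :
    ∃ τ : ℝ, 0 < τ ∧ ∀ k : ℕ, (wp p a k : ℝ) ≤ k * (m + 1 / (p - 1) - τ) := by
  classical
  obtain ⟨J₀, hmJ₀, hJ₀⟩ := exists_level hp m hnf
  have hpr : (2 : ℝ) ≤ p := by exact_mod_cast hp.two_le
  have hp0 : (0 : ℝ) < p := by linarith
  refine ⟨(p : ℝ) ^ m / (p : ℝ) ^ J₀, by positivity, fun k => ?_⟩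
  set w := wp p a k with hw
  obtain ⟨i, hi⟩ : ∃ i, w ≤ J₀ + i := ⟨w, by omega⟩
  set J := J₀ + i with hJ
  have h1 := wp_sum_le hS hp ha k J hi (Yset S p J) (Finset.Subset.refl _)
  rw [← hw] at h1
  have hν : (p : ℝ) ^ J ≤ (p : ℝ) ^ m * nu S p J := by
    have h2 := hmu.trans (mu_le S p J)
    rw [le_div_iff₀ (by positivity)] at h2
    calc (p : ℝ) ^ J = (p : ℝ) ^ m * (((p : ℝ) ^ m)⁻¹ * (p : ℝ) ^ J) := by field_simp
      _ ≤ _ := mul_le_mul_of_nonneg_left h2 (by positivity)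
  have hνpos : (0 : ℝ) < nu S p J := by
    by_contra hle
    push Not at hle
    have h0 : (nu S p J : ℝ) = 0 := le_antisymm hle (Nat.cast_nonneg _)
    rw [h0, mul_zero] at hν
    have : (0 : ℝ) < (p : ℝ) ^ J := by positivity
    linarith
  have h2 : ∀ l ∈ Finset.range k, ((∑ j ∈ Finset.Icc 1 J,
      ((Yset S p J).filter fun y : ℕ => (p : ℤ) ^ j ∣ (y : ℤ) - a l).card : ℕ) : ℝ) ≤
      (m - 1) * nu S p J + ((p : ℝ) ^ J * ((p : ℝ) ^ m)⁻¹ - (p : ℝ) ^ J * ((p : ℝ) ^ J₀)⁻¹) +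
        (p : ℝ) ^ J * ((p : ℝ) ^ m * (p - 1))⁻¹ := by
    intro l _
    push_cast
    have hsplit : Finset.Icc 1 J = insert m (Finset.Ico 1 m) ∪ Finset.Ioc m J := by
      ext j
      simp only [Finset.mem_union, Finset.mem_Icc, Finset.mem_Ioc, Finset.mem_insert,
        Finset.mem_Ico]
      omega
    rw [hsplit, Finset.sum_union, Finset.sum_insert (by simp)]
    · refine add_le_add ?_ ?_
      · rw [add_comm]
        refine add_le_add ?_ ?_
        · calc ∑ j ∈ Finset.Ico 1 m,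
              (((Yset S p J).filter fun y : ℕ => (p : ℤ) ^ j ∣ (y : ℤ) - a l).card : ℝ)
              ≤ ∑ j ∈ Finset.Ico 1 m, (nu S p J : ℝ) := by
                refine Finset.sum_le_sum fun j _ => ?_
                exact_mod_cast Finset.card_filter_le _ _
            _ = _ := by
                rw [Finset.sum_const, Nat.card_Ico, nsmul_eq_mul, Nat.cast_sub hm, Nat.cast_one]
        · have h3 := card_filter_add_le (S := S) hp.pos J₀ m hmJ₀ (a l) i
          have h4 := hJ₀ (a l)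
          have h5 : ((((Yset S p J).filter fun y : ℕ => (p : ℤ) ^ m ∣ (y : ℤ) - a l).card : ℕ) : ℝ)
              ≤ (p : ℝ) ^ i * ((p : ℝ) ^ (J₀ - m) - 1) := by
            have h6 : ((Yset S p J).filter fun y : ℕ => (p : ℤ) ^ m ∣ (y : ℤ) - a l).card ≤
                p ^ i * (p ^ (J₀ - m) - 1) :=
              h3.trans (Nat.mul_le_mul_left _ (by omega))
            have h7 : 1 ≤ p ^ (J₀ - m) := Nat.one_le_pow _ _ hp.pos
            have h8 : ((((Yset S p J).filter fun y : ℕ => (p : ℤ) ^ m ∣ (y : ℤ) - a l).card : ℕ) : ℝ)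
              ≤ ((p ^ i * (p ^ (J₀ - m) - 1) : ℕ) : ℝ) := by exact_mod_cast h6
            rw [Nat.cast_mul, Nat.cast_sub h7] at h8
            push_cast at h8
            exact h8
          refine h5.trans (le_of_eq ?_)
          rw [pow_sub₀ _ hp0.ne' hmJ₀, hJ, pow_add]
          have : (p : ℝ) ^ J₀ ≠ 0 := by positivity
          field_simp
      · calc ∑ j ∈ Finset.Ioc m J,
            (((Yset S p J).filter fun y : ℕ => (p : ℤ) ^ j ∣ (y : ℤ) - a l).card : ℝ)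
            ≤ ∑ j ∈ Finset.Ioc m J, (p : ℝ) ^ J * ((p : ℝ) ^ j)⁻¹ := by
              refine Finset.sum_le_sum fun j hj => ?_
              rw [Finset.mem_Ioc] at hj
              have h3 : (((Yset S p J).filter fun y : ℕ => (p : ℤ) ^ j ∣ (y : ℤ) - a l).card : ℝ) ≤
                  ((p ^ (J - j) : ℕ) : ℝ) := by
                exact_mod_cast card_ball_le S hp J j hj.2 (a l)
              refine h3.trans (le_of_eq ?_)
              push_cast
              rw [pow_sub₀ _ (by linarith) hj.2]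
          _ = (p : ℝ) ^ J * ∑ j ∈ Finset.Ioc m J, ((p : ℝ) ^ j)⁻¹ := by rw [Finset.mul_sum]
          _ ≤ _ := mul_le_mul_of_nonneg_left (sum_pow_inv_le p m J hp.two_le) (by positivity)
    · rw [Finset.disjoint_left]
      intro j hj hj'
      rw [Finset.mem_insert, Finset.mem_Ico] at hj
      rw [Finset.mem_Ioc] at hj'
      omega
  have h3 : (w : ℝ) * nu S p J ≤ k * ((m - 1) * nu S p J +
      ((p : ℝ) ^ J * ((p : ℝ) ^ m)⁻¹ - (p : ℝ) ^ J * ((p : ℝ) ^ J₀)⁻¹) +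
        (p : ℝ) ^ J * ((p : ℝ) ^ m * (p - 1))⁻¹) := by
    have h4 : ((w * (Yset S p J).card : ℕ) : ℝ) ≤ ((∑ l ∈ Finset.range k, ∑ j ∈ Finset.Icc 1 J,
      ((Yset S p J).filter fun y : ℕ => (p : ℤ) ^ j ∣ (y : ℤ) - a l).card : ℕ) : ℝ) := by
      exact_mod_cast h1
    rw [Nat.cast_sum] at h4
    have h5 := h4.trans (Finset.sum_le_sum h2)
    rw [Finset.sum_const, Finset.card_range, nsmul_eq_mul] at h5
    push_cast at h5
    exact h5
  have hp1 : (0 : ℝ) < p - 1 := by linarith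
  -- the bracket is at most ν (m + 1/(p-1) - p^m/p^{J₀})
  have h4 : (m - 1) * (nu S p J : ℝ) +
      ((p : ℝ) ^ J * ((p : ℝ) ^ m)⁻¹ - (p : ℝ) ^ J * ((p : ℝ) ^ J₀)⁻¹) +
        (p : ℝ) ^ J * ((p : ℝ) ^ m * (p - 1))⁻¹ ≤
      (m + 1 / (p - 1) - (p : ℝ) ^ m / (p : ℝ) ^ J₀) * nu S p J := by
    have hc : 0 ≤ ((p : ℝ) ^ m)⁻¹ - ((p : ℝ) ^ J₀)⁻¹ + ((p : ℝ) ^ m * (p - 1))⁻¹ := by
      have e1 : ((p : ℝ) ^ J₀)⁻¹ ≤ ((p : ℝ) ^ m)⁻¹ :=
        inv_anti₀ (by positivity) (pow_le_pow_right₀ (by linarith) hmJ₀)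
      have e2 : 0 ≤ ((p : ℝ) ^ m * (p - 1))⁻¹ := by positivity
      linarith
    have h5 := mul_le_mul_of_nonneg_right hν hc
    have e3 : (p : ℝ) ^ m * nu S p J * (((p : ℝ) ^ m)⁻¹ - ((p : ℝ) ^ J₀)⁻¹ +
        ((p : ℝ) ^ m * (p - 1))⁻¹) =
        (1 + 1 / (p - 1) - (p : ℝ) ^ m / (p : ℝ) ^ J₀) * nu S p J := by
      have : (p : ℝ) ^ m ≠ 0 := by positivity
      have : (p : ℝ) ^ J₀ ≠ 0 := by positivity
      field_simp
      ring
    rw [e3] at h5
    linarith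
  have h5 : (w : ℝ) * nu S p J ≤
      (k * (m + 1 / (p - 1) - (p : ℝ) ^ m / (p : ℝ) ^ J₀)) * nu S p J := by
    refine h3.trans ?_
    calc _ ≤ (k : ℝ) * ((m + 1 / (p - 1) - (p : ℝ) ^ m / (p : ℝ) ^ J₀) * nu S p J) :=
          mul_le_mul_of_nonneg_left h4 (Nat.cast_nonneg k)
      _ = _ := by ring
  exact le_of_mul_le_mul_right h5 hνpos

/-- **The local dichotomy.** -/
theorem local_dichotomy {S : Set ℤ} (hS : S.Infinite) {p : ℕ} (hp : p.Prime) {a : ℕ → ℤ}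
    (ha : IsPOrdering S p a) (hmu : 0 < mu S p) :
    (∃ (m : ℕ) (c : ℤ), mu S p = ((p : ℝ) ^ m)⁻¹ ∧ Full S p m c) ∨
    ∃ η : ℝ, 0 < η ∧ ∀ k : ℕ, (wp p a k : ℝ) * Real.log p ≤ k * (kap S p - η) := by
  obtain ⟨m, hm1, hm2⟩ := exists_scale hp.two_le hmu
  have hpr : (2 : ℝ) ≤ p := by exact_mod_cast hp.two_le
  have hlog : 0 < Real.log p := Real.log_pos (by linarith)
  set u := ((p : ℝ) ^ m * mu S p)⁻¹ with hu
  rcases eq_or_lt_of_le hm1 with h1 | h1
  · -- `μ = p ^ (-m)`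
    have hmueq : mu S p = ((p : ℝ) ^ m)⁻¹ := by
      have : (p : ℝ) ^ m * mu S p = 1 := by
        have := congrArg (fun x => x⁻¹) h1
        simp only [inv_one, hu, inv_inv] at this
        exact this.symm
      field_simp
      linarith
    by_cases hfull : ∃ c, Full S p m c
    · obtain ⟨c, hc⟩ := hfull
      exact Or.inl ⟨m, c, hmueq, hc⟩
    · push Not at hfull
      right
      rcases Nat.eq_zero_or_pos m with rfl | hmpos
      · exfalso
        obtain ⟨J₀, _, hJ₀⟩ := exists_level hp 0 hfull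
        have h2 := hJ₀ 0
        simp only [pow_zero, one_dvd, Finset.filter_true, Nat.sub_zero] at h2
        have h3 := mu_le S p J₀
        rw [hmueq, pow_zero, inv_one, le_div_iff₀ (by positivity), one_mul] at h3
        have h4 : ((nu S p J₀ + 1 : ℕ) : ℝ) ≤ ((p ^ J₀ : ℕ) : ℝ) := by exact_mod_cast h2
        push_cast at h4
        linarith
      · obtain ⟨τ, hτ, hw⟩ := wp_gap hS hp ha m hmpos hmueq.ge hfull
        refine ⟨τ * Real.log p, by positivity, fun k => ?_⟩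
        rw [kap_eq hp.two_le hmu m, ← hu, ← h1, Real.log_one]
        calc (wp p a k : ℝ) * Real.log p ≤ (k * (m + 1 / (p - 1) - τ)) * Real.log p :=
              mul_le_mul_of_nonneg_right (hw k) hlog.le
          _ = _ := by ring
  · right
    have hst := log_chord_strict hp.two_le h1 hm2
    refine ⟨Real.log u - (u - 1) * (Real.log p / (p - 1)), by linarith, fun k => ?_⟩
    have h2 := wp_le_of_mu hS hp ha hmu k m
    have hinv : ((p : ℝ) ^ m * mu S p * (p - 1))⁻¹ = u / (p - 1) := by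
      rw [mul_inv, hu, div_eq_mul_inv]
    rw [hinv] at h2
    rw [kap_eq hp.two_le hmu m, ← hu]
    calc (wp p a k : ℝ) * Real.log p ≤ (k * (m + u / (p - 1))) * Real.log p :=
          mul_le_mul_of_nonneg_right h2 hlog.le
      _ = _ := by ring

end Pool.Agent.Work.MP_b29d7f_nt
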