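import Pool.Agent.Work.MP_b29d7f_nt.Tail
import Pool.Agent.Work.MP_b29d7f_nt.Sieve
import Pool.Agent.Work.MP_b29d7f_nt.Local

/-!
# The global inequality
-/

open Filter Topology Chebyshev

namespace Pool.Agent.Work.MP_b29d7f_nt

theorem infinite_of_linGrowth {S : Set ℤ} {p : ℕ} (h : LinGrowth S p) : S.Infinite := by
  classical
  intro hfin
  obtain ⟨B, hB⟩ := h
  set n := hfin.toFinset.card with hn
  set e := hfin.toFinset.equivFin with he
  set b : ℕ → ℤ := fun i => if hi : i < n then ((e.symm ⟨i, hi⟩ : hfin.toFinset) : ℤ) else 0 with hb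
  obtain ⟨s, hs, hle⟩ := hB n b
  have h0 : ∏ i ∈ Finset.range n, (s - b i) = 0 := by
    rw [Finset.prod_eq_zero_iff]
    have hs' : s ∈ hfin.toFinset := hfin.mem_toFinset.mpr hs
    refine ⟨(e ⟨s, hs'⟩ : ℕ), Finset.mem_range.mpr (e ⟨s, hs'⟩).2, ?_⟩
    have hlt : (e ⟨s, hs'⟩ : ℕ) < n := (e ⟨s, hs'⟩).2
    have h1 : b (e ⟨s, hs'⟩ : ℕ) = s := by
      rw [hb]
      simp only
      rw [dif_pos hlt]
      simp
    rw [h1, sub_self]
  rw [h0, emultiplicity_zero] at hle
  exact absurd hle (not_le.mpr (ENat.natCast_lt_top _))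

theorem wp_le_of_linGrowth {S : Set ℤ} (hS : S.Infinite) {p : ℕ} (hp : p.Prime) {a : ℕ → ℤ}
    (ha : IsPOrdering S p a) (h : LinGrowth S p) : ∃ B : ℕ, ∀ k, wp p a k ≤ B * k := by
  obtain ⟨B, hB⟩ := h
  refine ⟨B, fun k => ?_⟩
  obtain ⟨s, hs, hle⟩ := hB k a
  have h1 := (ha.2 k s hs).trans hle
  have hne := V_ne_zero hS hp ha k
  have hfin : FiniteMultiplicity (p : ℤ) (V a k (a k)) := by
    rw [Int.finiteMultiplicity_iff]
    exact ⟨by simpa using hp.ne_one, hne⟩
  change emultiplicity (p : ℤ) (V a k (a k)) ≤ _ at h1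
  rw [hfin.emultiplicity_eq_multiplicity] at h1
  exact_mod_cast h1

theorem nu_pos {S : Set ℤ} (hS : S.Nonempty) {p : ℕ} (hp : p.Prime) (J : ℕ) : 0 < nu S p J := by
  obtain ⟨s, hs⟩ := hS
  have hpJ : (0 : ℤ) < (p : ℤ) ^ J := pow_pos (by exact_mod_cast hp.pos) _
  have h0 : 0 ≤ s % (p : ℤ) ^ J := Int.emod_nonneg _ hpJ.ne'
  have hc : (((s % (p : ℤ) ^ J).toNat : ℕ) : ℤ) = s % (p : ℤ) ^ J := Int.toNat_of_nonneg h0
  refine Finset.card_pos.mpr ⟨(s % (p : ℤ) ^ J).toNat, ?_⟩
  rw [mem_Yset]
  refine ⟨?_, s, hs, by rw [hc]; exact Int.dvd_self_sub_emod⟩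
  have : (((s % (p : ℤ) ^ J).toNat : ℕ) : ℤ) < ((p ^ J : ℕ) : ℤ) := by
    rw [hc]; push_cast; exact Int.emod_lt_of_pos _ hpJ
  exact_mod_cast this

/-- the excess of a large prime -/
noncomputable def eta (S : Set ℤ) (p : ℕ) : ℝ := p / (mu S p * (p - 1)) - 1

theorem eta_facts {S : Set ℤ} {p : ℕ} (hp : p.Prime) (hmu : 0 < mu S p) :
    0 ≤ eta S p ∧ eta S p ≤ 2 * (1 / mu S p - 1) + 2 / p ∧
      (mu S p * (p - 1))⁻¹ = (1 + eta S p) / p := by
  have hpr : (2 : ℝ) ≤ p := by exact_mod_cast hp.two_le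
  have hp1 : (0 : ℝ) < p - 1 := by linarith
  have hmu1 := mu_le_one S hp.pos
  have h1 : 1 ≤ 1 / mu S p := by rw [le_div_iff₀ hmu]; linarith
  have h2 : (p : ℝ) / (mu S p * (p - 1)) = (1 / mu S p) * (p / (p - 1)) := by field_simp
  have h3 : 1 ≤ (p : ℝ) / (p - 1) := by rw [le_div_iff₀ hp1]; linarith
  have h4 : (p : ℝ) / (p - 1) ≤ 1 + 2 / p := by
    rw [div_le_iff₀ hp1]
    have : (1 + 2 / (p : ℝ)) * (p - 1) = p + (1 - 2 / p) := by field_simp; ring
    rw [this]
    have : 2 / (p : ℝ) ≤ 1 := by rw [div_le_iff₀ (by linarith)]; linarith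
    linarith
  have h5 : (p : ℝ) / (p - 1) ≤ 2 := by rw [div_le_iff₀ hp1]; linarith
  refine ⟨?_, ?_, ?_⟩
  · unfold eta
    rw [h2]
    nlinarith
  · unfold eta
    rw [h2]
    have h6 : (1 / mu S p) * ((p : ℝ) / (p - 1)) - 1 =
        (1 / mu S p - 1) * (p / (p - 1)) + (p / (p - 1) - 1) := by ring
    rw [h6]
    have h7 : (1 / mu S p - 1) * ((p : ℝ) / (p - 1)) ≤ (1 / mu S p - 1) * 2 :=
      mul_le_mul_of_nonneg_left h5 (by linarith)
    linarith
  · unfold eta
    field_simp
    ring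

theorem summable_eta {S : Set ℤ} {P₁ : ℕ} (hmu : ∀ p : ℕ, p.Prime → P₁ < p → 0 < mu S p)
    (hsum : Summable fun p : ℕ =>
      if p.Prime ∧ P₁ < p then (1 / mu S p - 1) * Real.log p / p else 0) :
    Summable fun p : ℕ => if p.Prime ∧ P₁ < p then eta S p * Real.log p / p else 0 := by
  have h2 : Summable fun p : ℕ => 2 * (Real.log p / (p : ℝ) ^ 2) := by
    obtain ⟨M, hM0, hM⟩ := sum_log_div_sq_bound
    refine Summable.mul_left 2 (summable_of_sum_le (fun p => ?_) (c := M) hM)
    exact div_nonneg (Real.log_natCast_nonneg p) (by positivity)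
  refine Summable.of_nonneg_of_le (fun p => ?_) (fun p => ?_) ((hsum.mul_left 2).add h2)
  · split_ifs with h
    · exact div_nonneg (mul_nonneg (eta_facts h.1 (hmu p h.1 h.2)).1 (Real.log_natCast_nonneg p))
        (Nat.cast_nonneg p)
    · exact le_rfl
  · split_ifs with h
    · have h3 := (eta_facts h.1 (hmu p h.1 h.2)).2.1
      have hlog := Real.log_natCast_nonneg p
      have hpr : (0 : ℝ) < p := by exact_mod_cast h.1.pos
      calc eta S p * Real.log p / p = eta S p * (Real.log p / p) := by ring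
        _ ≤ (2 * (1 / mu S p - 1) + 2 / p) * (Real.log p / p) :=
            mul_le_mul_of_nonneg_right h3 (by positivity)
        _ = _ := by field_simp
    · have := Real.log_natCast_nonneg p
      positivity

/-- **The global inequality.** -/
theorem global_lower {S : Set ℤ} (hT : Thick S) {a : ℕ → ℤ}
    (ha : ∀ p : ℕ, p.Prime → IsPOrdering S p a) (ε : ℝ) (hε : 0 < ε) :
    ∃ P₀ : ℕ, ∀ P, P₀ ≤ P → ∀ J : ℕ, ∃ C : ℝ, 0 ≤ C ∧ ∀ n : ℕ,
      ∑ k ∈ Finset.range n, (k * ((∑ p ∈ P.primesLE,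
          (Real.log p / (p - 1) + Real.log ((p : ℝ) ^ J / nu S p J))) - ε) - C * (1 + Real.log k)) ≤
        ∑ k ∈ Finset.range n, ∑ p ∈ P.primesLE, (wp p a k : ℝ) * Real.log p := by
  classical
  obtain ⟨hlin, P₁, hmu, hsum⟩ := hT
  have hS : S.Infinite := infinite_of_linGrowth (hlin 2 Nat.prime_two)
  have hinj := injective_of_ordering hS Nat.prime_two (ha 2 Nat.prime_two)
  obtain ⟨P₀, hP₁P₀, hP₀⟩ := tail_bound (fun p k => wp p a k) (eta S) P₁
    (fun p hp hpP => (eta_facts hp (hmu p hp hpP)).1)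
    (fun p hp hpP k => by
      have h1 := wp_le_of_mu hS hp (ha p hp) (hmu p hp hpP) k 0
      rw [pow_zero, one_mul, (eta_facts hp (hmu p hp hpP)).2.2] at h1
      simpa using h1)
    (summable_eta hmu hsum) ε hε
  refine ⟨P₀, fun P hP J => ?_⟩
  obtain ⟨C₁, hC₁⟩ := hP₀ P hP
  obtain ⟨K, hK0, hK⟩ := energy_thick S (Q := P.primesLE)
    (fun p hp => Nat.prime_of_mem_primesLE hp) J
    (fun p hp => nu_pos hS.nonempty (Nat.prime_of_mem_primesLE hp) J)
  set A : ℝ := ∑ p ∈ P.primesLE, Real.log p with hA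
  have hA0 : 0 ≤ A := Finset.sum_nonneg fun p _ => Real.log_natCast_nonneg p
  set N : ℝ := (P.primesLE.card : ℝ) with hN
  have hN0 : 0 ≤ N := Nat.cast_nonneg _
  refine ⟨K + |C₁| + A + N, by positivity, fun n => ?_⟩
  -- energy bound
  have hE := hK ((Finset.range n).image a) (by
    intro x hx
    rw [Finset.mem_image] at hx
    obtain ⟨i, _, rfl⟩ := hx
    exact (ha 2 Nat.prime_two).1 i)
  rw [Finset.card_image_of_injective _ hinj, Finset.card_range, energy_seq a hinj] at hE
  -- termwise comparison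
  have hterm : ∀ k ∈ Finset.range n, Real.log |((V a k (a k) : ℤ) : ℝ)| ≤
      ∑ p ∈ P.primesLE, (wp p a k : ℝ) * Real.log p +
        (Real.log (k.factorial : ℝ) - k * (∑ p ∈ P.primesLE, Real.log p / (p - 1)) + ε * k +
          (|C₁| + A + N) * (1 + Real.log k)) := by
    intro k _
    set v := V a k (a k) with hv
    have hv0 : v ≠ 0 := V_ne_zero hS Nat.prime_two (ha 2 Nat.prime_two) k
    set F := v.natAbs.primeFactors.filter (fun p => P < p) with hF
    have h1 := log_eq_sum v hv0 (P.primesLE ∪ F) (by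
      intro p hp
      rw [Finset.mem_union] at hp
      rcases hp with hp | hp
      · exact Nat.prime_of_mem_primesLE hp
      · exact Nat.prime_of_mem_primeFactors (Finset.mem_filter.mp hp).1) (by
      intro p hp hne
      rw [Finset.mem_union, Nat.mem_primesLE, Finset.mem_filter]
      by_cases hle : p ≤ P
      · left; exact ⟨hle, hp⟩
      · right
        refine ⟨?_, by omega⟩
        rw [Nat.mem_primeFactors]
        refine ⟨hp, ?_, Int.natAbs_ne_zero.mpr hv0⟩
        have h2 : (p : ℤ) ∣ v := by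
          by_contra hnd
          exact hne (multiplicity_eq_zero.mpr hnd)
        have h3 := Int.natAbs_dvd_natAbs.mpr h2
        rwa [Int.natAbs_natCast] at h3)
    rw [Finset.sum_union] at h1
    · rw [h1]
      refine add_le_add (le_of_eq rfl) ?_
      have h2 := hC₁ k F (fun p hp => by
        rw [hF, Finset.mem_filter] at hp
        exact ⟨Nat.prime_of_mem_primeFactors hp.1, hp.2⟩)
      refine h2.trans ?_
      -- the part of `k!` at the primes above `P`
      have h3 : ∑ p ∈ k.primesLE.filter (fun p => P < p), ((k / p : ℕ) : ℝ) * Real.log p +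
          ∑ p ∈ P.primesLE, (k.factorial.factorization p : ℝ) * Real.log p ≤
          Real.log (k.factorial : ℝ) := by
        rw [log_factorial_eq k (max k P) (le_max_left _ _)]
        have h4 : ∑ p ∈ k.primesLE.filter (fun p => P < p), ((k / p : ℕ) : ℝ) * Real.log p ≤
            ∑ p ∈ k.primesLE.filter (fun p => P < p),
              (k.factorial.factorization p : ℝ) * Real.log p := by
          refine Finset.sum_le_sum fun p hp => ?_
          rw [Finset.mem_filter, Nat.mem_primesLE] at hp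
          have hpp := hp.1.2
          refine mul_le_mul_of_nonneg_right ?_ (Real.log_natCast_nonneg p)
          have h5 : k / p ≤ k.factorial.factorization p := by
            rw [← hpp.pow_dvd_iff_le_factorization (Nat.factorial_ne_zero _),
              Nat.Prime.pow_dvd_factorial_iff hpp (b := Nat.log p k + 2) (by omega)]
            calc k / p ≤ k / p ^ 1 := by rw [pow_one]
              _ ≤ _ := Finset.single_le_sum (f := fun i => k / p ^ i)
                (fun _ _ => Nat.zero_le _) (Finset.mem_Ico.mpr ⟨le_rfl, by omega⟩)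
          exact_mod_cast h5
        refine (add_le_add h4 le_rfl).trans ?_
        rw [← Finset.sum_union]
        · refine Finset.sum_le_sum_of_subset_of_nonneg ?_ fun p _ _ =>
            mul_nonneg (Nat.cast_nonneg _) (Real.log_natCast_nonneg p)
          intro p hp
          rw [Finset.mem_union, Finset.mem_filter, Nat.mem_primesLE, Nat.mem_primesLE] at hp
          rw [Nat.mem_primesLE]
          rcases hp with hp | hp
          · exact ⟨hp.1.1.trans (le_max_left _ _), hp.1.2⟩
          · exact ⟨hp.1.trans (le_max_right _ _), hp.2⟩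
        · rw [Finset.disjoint_left]
          intro p hp hp'
          rw [Finset.mem_filter] at hp
          rw [Nat.mem_primesLE] at hp'
          omega
      have h4 : k * (∑ p ∈ P.primesLE, Real.log p / (p - 1)) - (N * Real.log k + A) ≤
          ∑ p ∈ P.primesLE, (k.factorial.factorization p : ℝ) * Real.log p := by
        have h5 : ∑ p ∈ P.primesLE, ((k : ℝ) * (Real.log p / (p - 1)) - (Real.log k + Real.log p)) ≤
            ∑ p ∈ P.primesLE, (k.factorial.factorization p : ℝ) * Real.log p :=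
          Finset.sum_le_sum fun p hp => fact_val_ge_real (Nat.prime_of_mem_primesLE hp) k
        rw [Finset.sum_sub_distrib, Finset.sum_add_distrib, ← Finset.mul_sum, Finset.sum_const,
          nsmul_eq_mul, ← hN, ← hA] at h5
        exact h5
      have hlogk : 0 ≤ Real.log k := Real.log_natCast_nonneg k
      have h5 : C₁ ≤ |C₁| := le_abs_self _
      have h6 : 0 ≤ |C₁| := abs_nonneg _
      nlinarith
    · rw [Finset.disjoint_left]
      intro p hp hp'
      rw [Nat.mem_primesLE] at hp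
      rw [hF, Finset.mem_filter] at hp'
      omega
  have h1 := hE.trans (Finset.sum_le_sum hterm)
  rw [Finset.sum_add_distrib] at h1
  have h2 : ∑ k ∈ Finset.range n, (k * ((∑ p ∈ P.primesLE,
          (Real.log p / (p - 1) + Real.log ((p : ℝ) ^ J / nu S p J))) - ε) -
          (K + |C₁| + A + N) * (1 + Real.log k)) =
      ∑ k ∈ Finset.range n, (Real.log (k.factorial : ℝ) +
        k * (∑ p ∈ P.primesLE, Real.log ((p : ℝ) ^ J / nu S p J)) - K * (1 + Real.log k)) -
      ∑ k ∈ Finset.range n,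
        (Real.log (k.factorial : ℝ) - k * (∑ p ∈ P.primesLE, Real.log p / (p - 1)) + ε * k +
          (|C₁| + A + N) * (1 + Real.log k)) := by
    rw [← Finset.sum_sub_distrib]
    refine Finset.sum_congr rfl fun k _ => ?_
    rw [Finset.sum_add_distrib]
    ring
  rw [h2]
  linarith

/-- asymptotics -/
theorem asym {A C : ℝ} (hC : 0 ≤ C)
    (h : ∀ n : ℕ, ∑ k ∈ Finset.range n, ((k : ℝ) * A - C * (1 + Real.log k)) ≤ 0) : A ≤ 0 := by
  by_contra hA
  push Not at hA
  have h1 : ∀ n : ℕ, 1 ≤ n → ((n : ℝ) - 1) * A / 2 ≤ C * (1 + Real.log n) := by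
    intro n hn
    have hnr : (1 : ℝ) ≤ n := by exact_mod_cast hn
    have h2 := h n
    rw [Finset.sum_sub_distrib, ← Finset.sum_mul, ← Finset.mul_sum] at h2
    have h3 : ∑ k ∈ Finset.range n, (k : ℝ) = n * (n - 1) / 2 := by
      have h4 := Finset.sum_range_id_mul_two n
      have h5 : (((∑ k ∈ Finset.range n, k) * 2 : ℕ) : ℝ) = ((n * (n - 1) : ℕ) : ℝ) := by rw [h4]
      rw [Nat.cast_mul, Nat.cast_mul, Nat.cast_sub hn] at h5
      push_cast at h5
      linarith
    have h4 : ∑ k ∈ Finset.range n, (1 + Real.log (k : ℝ)) ≤ n * (1 + Real.log n) := by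
      calc ∑ k ∈ Finset.range n, (1 + Real.log (k : ℝ)) ≤ ∑ k ∈ Finset.range n, (1 + Real.log n) := by
            refine Finset.sum_le_sum fun k hk => ?_
            rw [Finset.mem_range] at hk
            rcases Nat.eq_zero_or_pos k with rfl | hk0
            · have := Real.log_nonneg hnr
              simp only [Nat.cast_zero, Real.log_zero]
              linarith
            · have := Real.log_le_log (show (0 : ℝ) < k by exact_mod_cast hk0)
                (show (k : ℝ) ≤ n by exact_mod_cast hk.le)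
              linarith
        _ = _ := by rw [Finset.sum_const, Finset.card_range, nsmul_eq_mul]
    rw [h3] at h2
    have h5 := mul_le_mul_of_nonneg_left h4 hC
    have h6 : (n : ℝ) * (((n : ℝ) - 1) * A / 2) ≤ n * (C * (1 + Real.log n)) := by
      nlinarith
    exact le_of_mul_le_mul_left h6 (by linarith)
  -- log n = o(n)
  have h2 : Tendsto (fun n : ℕ => C * (1 + Real.log n) / n) atTop (𝓝 0) := by
    have h3 : Tendsto (fun n : ℕ => Real.log (n : ℝ) / n) atTop (𝓝 0) := by
      have := (Real.isLittleO_log_id_atTop.tendsto_div_nhds_zero).comp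
        (tendsto_natCast_atTop_atTop (R := ℝ))
      exact this
    have h4 : Tendsto (fun n : ℕ => (1 : ℝ) / n) atTop (𝓝 0) := tendsto_one_div_atTop_nhds_zero_nat
    have h5 := (h4.add h3).const_mul C
    rw [add_zero, mul_zero] at h5
    refine h5.congr fun n => ?_
    ring
  have h3 : ∀ᶠ n : ℕ in atTop, C * (1 + Real.log n) / n < A / 4 := h2.eventually_lt_const (by linarith)
  obtain ⟨n, hn, hn2⟩ := (h3.and (eventually_ge_atTop 2)).exists
  have hnr : (2 : ℝ) ≤ n := by exact_mod_cast hn2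
  rw [div_lt_iff₀ (by linarith)] at hn
  have h4 := h1 n (by omega)
  nlinarith

/-- **All measures are positive.** -/
theorem mu_pos_of_ordering {S : Set ℤ} (hT : Thick S) {a : ℕ → ℤ}
    (ha : ∀ p : ℕ, p.Prime → IsPOrdering S p a) {q : ℕ} (hq : q.Prime) : 0 < mu S q := by
  classical
  have hS : S.Infinite := infinite_of_linGrowth (hT.1 2 Nat.prime_two)
  obtain ⟨P₀, hP₀⟩ := global_lower hT ha 1 one_pos
  set P := max P₀ q with hP
  choose! B hB using fun (p : ℕ) (hp : p.Prime) =>
    wp_le_of_linGrowth hS hp (ha p hp) (hT.1 p hp)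
  set D : ℝ := ∑ p ∈ P.primesLE, (B p : ℝ) * Real.log p with hD
  have hbound : ∀ J : ℕ, Real.log ((q : ℝ) ^ J / nu S q J) ≤ D + 1 := by
    intro J
    obtain ⟨C, hC0, hC⟩ := hP₀ P (le_max_left _ _) J
    have hnonneg : ∀ p ∈ P.primesLE, 0 ≤ Real.log ((p : ℝ) ^ J / nu S p J) := by
      intro p hp
      have hpp := Nat.prime_of_mem_primesLE hp
      have h1 : (0 : ℝ) < nu S p J := by exact_mod_cast nu_pos hS.nonempty hpp J
      apply Real.log_nonneg
      rw [le_div_iff₀ h1, one_mul]
      exact_mod_cast nu_le S p J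
    have h1 : Real.log ((q : ℝ) ^ J / nu S q J) ≤
        ∑ p ∈ P.primesLE, (Real.log p / (p - 1) + Real.log ((p : ℝ) ^ J / nu S p J)) := by
      have h2 : Real.log ((q : ℝ) ^ J / nu S q J) ≤
          ∑ p ∈ P.primesLE, Real.log ((p : ℝ) ^ J / nu S p J) :=
        Finset.single_le_sum hnonneg (Nat.mem_primesLE.mpr ⟨le_max_right _ _, hq⟩)
      refine h2.trans (Finset.sum_le_sum fun p hp => ?_)
      have h3 : (1 : ℝ) ≤ p := by exact_mod_cast (Nat.prime_of_mem_primesLE hp).one_le
      have : 0 ≤ Real.log p / (p - 1) := div_nonneg (Real.log_nonneg h3) (by linarith)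
      linarith
    have h2 : (∑ p ∈ P.primesLE, (Real.log p / (p - 1) + Real.log ((p : ℝ) ^ J / nu S p J)) - 1 - D)
        ≤ 0 := by
      refine asym hC0 fun n => ?_
      have h3 := hC n
      have h4 : ∑ k ∈ Finset.range n, ∑ p ∈ P.primesLE, (wp p a k : ℝ) * Real.log p ≤
          ∑ k ∈ Finset.range n, (k : ℝ) * D := by
        refine Finset.sum_le_sum fun k _ => ?_
        rw [hD, Finset.mul_sum]
        refine Finset.sum_le_sum fun p hp => ?_
        have h5 := hB p (Nat.prime_of_mem_primesLE hp) k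
        have h6 : (wp p a k : ℝ) ≤ B p * k := by exact_mod_cast h5
        calc (wp p a k : ℝ) * Real.log p ≤ (B p * k) * Real.log p :=
              mul_le_mul_of_nonneg_right h6 (Real.log_natCast_nonneg p)
          _ = _ := by ring
      have h5 := h3.trans h4
      rw [← sub_nonpos, ← Finset.sum_sub_distrib] at h5
      refine le_trans (le_of_eq (Finset.sum_congr rfl fun k _ => ?_)) h5
      ring
    linarith
  have hlow : Real.exp (-(D + 1)) ≤ mu S q := by
    refine le_ciInf fun J => ?_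
    have h1 := hbound J
    have hqr : (0 : ℝ) < q := by exact_mod_cast hq.pos
    have h2 : (0 : ℝ) < nu S q J := by exact_mod_cast nu_pos hS.nonempty hq J
    rw [← Real.le_log_iff_exp_le (by positivity)]
    have h3 : Real.log ((nu S q J : ℝ) / (q : ℝ) ^ J) = -Real.log ((q : ℝ) ^ J / nu S q J) := by
      rw [← Real.log_inv, inv_div]
    rw [h3]
    linarith
  exact (Real.exp_pos _).trans_le hlow

/-- **Every local inequality is asymptotically sharp.** -/
theorem local_sharp {S : Set ℤ} (hT : Thick S) {a : ℕ → ℤ}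
    (ha : ∀ p : ℕ, p.Prime → IsPOrdering S p a) {q : ℕ} (hq : q.Prime) (ε : ℝ) (hε : 0 < ε) :
    ∃ C : ℝ, 0 ≤ C ∧ ∀ n : ℕ,
      ∑ k ∈ Finset.range n, (k * (kap S q - ε) - C * (1 + Real.log k)) ≤
        ∑ k ∈ Finset.range n, (wp q a k : ℝ) * Real.log q := by
  classical
  have hS : S.Infinite := infinite_of_linGrowth (hT.1 2 Nat.prime_two)
  have hmu : ∀ p : ℕ, p.Prime → 0 < mu S p := fun p hp => mu_pos_of_ordering hT ha hp
  obtain ⟨P₀, hP₀⟩ := global_lower hT ha (ε / 2) (by positivity)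
  set P := max P₀ q with hP
  -- choice of J
  have htend : Tendsto (fun J : ℕ => ∑ p ∈ P.primesLE,
      (Real.log p / (p - 1) + Real.log ((p : ℝ) ^ J / nu S p J))) atTop
      (𝓝 (∑ p ∈ P.primesLE, kap S p)) := by
    refine tendsto_finsetSum _ fun p hp => ?_
    have hpp := Nat.prime_of_mem_primesLE hp
    have h1 := (tendsto_mu S hpp.pos).log (hmu p hpp).ne'
    have h2 := h1.neg.const_add (Real.log p / (p - 1))
    have h3 : Real.log p / (p - 1) + -Real.log (mu S p) = kap S p := by unfold kap; ring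
    rw [h3] at h2
    refine h2.congr fun J => ?_
    rw [← Real.log_inv, inv_div]
  have hev : ∀ᶠ J : ℕ in atTop, (∑ p ∈ P.primesLE, kap S p) - ε / 2 < ∑ p ∈ P.primesLE,
      (Real.log p / (p - 1) + Real.log ((p : ℝ) ^ J / nu S p J)) :=
    htend.eventually (lt_mem_nhds (by linarith))
  obtain ⟨J, hJ⟩ := hev.exists
  obtain ⟨C, hC0, hC⟩ := hP₀ P (le_max_left _ _) J
  refine ⟨C, hC0, fun n => ?_⟩
  have hqP : q ∈ P.primesLE := Nat.mem_primesLE.mpr ⟨le_max_right _ _, hq⟩
  have h1 := hC n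
  have h2 : ∑ k ∈ Finset.range n, ∑ p ∈ P.primesLE, (wp p a k : ℝ) * Real.log p ≤
      ∑ k ∈ Finset.range n, ((wp q a k : ℝ) * Real.log q +
        k * ((∑ p ∈ P.primesLE, kap S p) - kap S q)) := by
    refine Finset.sum_le_sum fun k _ => ?_
    rw [← Finset.add_sum_erase _ _ hqP]
    refine add_le_add le_rfl ?_
    rw [← Finset.add_sum_erase _ _ hqP, add_sub_cancel_left, Finset.mul_sum]
    refine Finset.sum_le_sum fun p hp => ?_
    have hpp := Nat.prime_of_mem_primesLE (Finset.mem_of_mem_erase hp)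
    exact wp_le_kap hS hpp (ha p hpp) (hmu p hpp) k
  have h3 := h1.trans h2
  have e1 : ∑ k ∈ Finset.range n, ((wp q a k : ℝ) * Real.log q +
        k * ((∑ p ∈ P.primesLE, kap S p) - kap S q)) =
      ∑ k ∈ Finset.range n, (wp q a k : ℝ) * Real.log q +
        ∑ k ∈ Finset.range n, (k : ℝ) * ((∑ p ∈ P.primesLE, kap S p) - kap S q) :=
    Finset.sum_add_distrib
  rw [e1] at h3
  have h4 : ∑ k ∈ Finset.range n, (k * (kap S q - ε) - C * (1 + Real.log k)) ≤
      ∑ k ∈ Finset.range n, ((k * ((∑ p ∈ P.primesLE,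
          (Real.log p / (p - 1) + Real.log ((p : ℝ) ^ J / nu S p J))) - ε / 2) -
          C * (1 + Real.log k)) - k * ((∑ p ∈ P.primesLE, kap S p) - kap S q)) := by
    refine Finset.sum_le_sum fun k _ => ?_
    have hk : (0 : ℝ) ≤ k := Nat.cast_nonneg k
    have h5 := mul_le_mul_of_nonneg_left hJ.le hk
    nlinarith
  have e2 : ∑ k ∈ Finset.range n, ((k * ((∑ p ∈ P.primesLE,
          (Real.log p / (p - 1) + Real.log ((p : ℝ) ^ J / nu S p J))) - ε / 2) -
          C * (1 + Real.log k)) - k * ((∑ p ∈ P.primesLE, kap S p) - kap S q)) =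
      ∑ k ∈ Finset.range n, (k * ((∑ p ∈ P.primesLE,
          (Real.log p / (p - 1) + Real.log ((p : ℝ) ^ J / nu S p J))) - ε / 2) -
          C * (1 + Real.log k)) -
        ∑ k ∈ Finset.range n, (k : ℝ) * ((∑ p ∈ P.primesLE, kap S p) - kap S q) :=
    Finset.sum_sub_distrib _ _
  rw [e2] at h4
  linarith

/-- **Structure of the closures.** -/
theorem structure_p {S : Set ℤ} (hT : Thick S) {a : ℕ → ℤ}
    (ha : ∀ p : ℕ, p.Prime → IsPOrdering S p a) {q : ℕ} (hq : q.Prime) :
    ∃ (m : ℕ) (c : ℤ), mu S q = ((q : ℝ) ^ m)⁻¹ ∧ Full S q m c := by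
  have hS : S.Infinite := infinite_of_linGrowth (hT.1 2 Nat.prime_two)
  rcases local_dichotomy hS hq (ha q hq) (mu_pos_of_ordering hT ha hq) with h | ⟨η, hη, hw⟩
  · exact h
  · exfalso
    obtain ⟨C, hC0, hC⟩ := local_sharp hT ha hq (η / 2) (by positivity)
    have h1 : η / 2 ≤ 0 := by
      refine asym hC0 fun n => ?_
      have h2 := (hC n).trans (Finset.sum_le_sum fun k _ => hw k)
      rw [← sub_nonpos, ← Finset.sum_sub_distrib] at h2
      refine le_trans (le_of_eq (Finset.sum_congr rfl fun k _ => ?_)) h2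
      ring
    linarith

end Pool.Agent.Work.MP_b29d7f_nt
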