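import Pool.Agent.Work.MP_b29d7f_nt.Hensel
import Pool.Agent.Work.MP_b29d7f_nt.Count

/-!
# Residue classes in which the values of a polynomial are dense
-/

open Polynomial

namespace Pool.Agent.Work.MP_b29d7f_nt

theorem infinite_of_Full {S : Set ℤ} {p m : ℕ} (hp : p.Prime) {c : ℤ} (h : Full S p m c) :
    S.Infinite := by
  classical
  intro hfin
  have hppos : (0 : ℤ) < p := by exact_mod_cast hp.pos
  have hinj : Function.Injective fun n : ℕ => c + (p : ℤ) ^ m * n := by
    intro a b hab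
    have h1 : (p : ℤ) ^ m * a = (p : ℤ) ^ m * b := by
      have : c + (p : ℤ) ^ m * a = c + (p : ℤ) ^ m * b := hab
      linarith
    have h2 := mul_left_cancel₀ (pow_ne_zero m hppos.ne') h1
    exact_mod_cast h2
  obtain ⟨y, hy, hyS⟩ := ((Set.infinite_range_of_injective hinj).sdiff hfin).nonempty
  obtain ⟨n, rfl⟩ := hy
  simp only at hyS
  set y := c + (p : ℤ) ^ m * n with hy
  -- N with p ^ N larger than all distances
  obtain ⟨B, hB⟩ : ∃ B : ℕ, ∀ s ∈ S, (s - y).natAbs ≤ B := by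
    refine ⟨(hfin.toFinset).sup fun s => (s - y).natAbs, fun s hs => ?_⟩
    exact Finset.le_sup (f := fun s : ℤ => (s - y).natAbs) (hfin.mem_toFinset.mpr hs)
  obtain ⟨s, hs, hd⟩ := h y (by rw [hy]; simp) (B + 1)
  have hne : s - y ≠ 0 := by
    intro h0
    apply hyS
    have : s = y := by linarith
    rwa [← this]
  have h1 : ((p : ℤ) ^ (B + 1)).natAbs ≤ (s - y).natAbs :=
    Nat.le_of_dvd (Int.natAbs_pos.mpr hne) (Int.natAbs_dvd_natAbs.mpr hd)
  rw [Int.natAbs_pow, Int.natAbs_natCast] at h1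
  have h2 : B + 1 < p ^ (B + 1) := Nat.lt_pow_self hp.one_lt
  have := hB s hs
  omega

theorem good_classes (f : ℤ[X]) (hd : 2 ≤ f.natDegree) {T S : Set ℤ}
    (hTS : ∀ t ∈ T, f.eval t ∈ S) (C₀ : ℕ) {p : ℕ} (hp : p.Prime) (E : Finset (ZMod p))
    (hEc : E.card ≤ C₀)
    (hE : ∀ y : ℤ, (y : ZMod p) ∉ E → ∀ N : ℕ, ∃ t ∈ T, (p : ℤ) ^ N ∣ t - y)
    (hpd : f.natDegree < p) (hpl : f.leadingCoeff.natAbs < p) :
    ∃ R : Finset (ZMod p),
      (∀ c ∈ R, ∀ y : ℤ, (y : ZMod p) = c → ∀ N : ℕ, ∃ s ∈ S, (p : ℤ) ^ N ∣ s - y) ∧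
      p ≤ f.natDegree * (R.card + (f.natDegree + C₀)) ∧
      (¬ f.natDegree ∣ p - 1 → p - 1 ≤ (f.natDegree - 1) * (R.card + (f.natDegree + C₀))) := by
  classical
  have : Fact p.Prime := ⟨hp⟩
  have hf0 : f ≠ 0 := by rintro rfl; simp at hd
  set φ := Int.castRingHom (ZMod p) with hφ
  set g : (ZMod p)[X] := f.map φ with hg
  have hlc : φ f.leadingCoeff ≠ 0 := by
    intro h
    have h1 : ((f.leadingCoeff : ℤ) : ZMod p) = 0 := h
    rw [ZMod.intCast_zmod_eq_zero_iff_dvd] at h1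
    have h2 := Int.natAbs_dvd_natAbs.mpr h1
    rw [Int.natAbs_natCast] at h2
    have h3 := Nat.le_of_dvd (Int.natAbs_pos.mpr (leadingCoeff_ne_zero.mpr hf0)) h2
    omega
  have hgd : g.natDegree = f.natDegree := natDegree_map_of_leadingCoeff_ne_zero φ hlc
  have hglc : g.leadingCoeff ≠ 0 := by
    rw [hg, leadingCoeff_map_of_leadingCoeff_ne_zero φ hlc]
    exact hlc
  have hgder : g.derivative ≠ 0 := by
    intro h
    have h1 := congrArg (fun q => coeff q (g.natDegree - 1)) h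
    simp only [coeff_derivative, coeff_zero] at h1
    rw [Nat.sub_add_cancel (by omega)] at h1
    have h2 : (((g.natDegree - 1 : ℕ) : ZMod p) + 1) = ((g.natDegree : ℕ) : ZMod p) := by
      rw [← Nat.cast_succ, Nat.succ_eq_add_one, Nat.sub_add_cancel (by omega)]
    rw [h2] at h1
    rcases mul_eq_zero.mp h1 with h3 | h3
    · exact hglc h3
    · rw [ZMod.natCast_eq_zero_iff] at h3
      have := Nat.le_of_dvd (by omega) h3
      omega
  set Z := (Finset.univ : Finset (ZMod p)).filter fun x => g.derivative.eval x = 0 with hZ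
  have hZcard : Z.card ≤ f.natDegree := by
    refine card_roots_le g.derivative hgder _ ?_ Z ?_
    · refine (natDegree_derivative_le g).trans ?_
      omega
    · intro x hx
      exact (Finset.mem_filter.mp hx).2
  set R := ((Finset.univ : Finset (ZMod p)) \ (Z ∪ E)).image fun x => g.eval x with hR
  set I := (Finset.univ : Finset (ZMod p)).image fun x => g.eval x with hI
  have hIR : I.card ≤ R.card + (f.natDegree + C₀) := by
    have h1 : I ⊆ R ∪ (Z ∪ E).image fun x => g.eval x := by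
      intro c hc
      rw [hI, Finset.mem_image] at hc
      obtain ⟨x, _, rfl⟩ := hc
      by_cases hx : x ∈ Z ∪ E
      · exact Finset.mem_union_right _ (Finset.mem_image_of_mem _ hx)
      · exact Finset.mem_union_left _ (Finset.mem_image_of_mem _
          (Finset.mem_sdiff.mpr ⟨Finset.mem_univ _, hx⟩))
    have h2 := Finset.card_le_card h1
    have h3 := Finset.card_union_le R ((Z ∪ E).image fun x => g.eval x)
    have h4 : ((Z ∪ E).image fun x => g.eval x).card ≤ (Z ∪ E).card := Finset.card_image_le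
    have h5 := Finset.card_union_le Z E
    omega
  refine ⟨R, ?_, ?_, ?_⟩
  · intro c hc y hy
    rw [hR, Finset.mem_image] at hc
    obtain ⟨x, hx, rfl⟩ := hc
    rw [Finset.mem_sdiff, Finset.mem_union, not_or] at hx
    set x₀ : ℤ := (x.val : ℤ) with hx₀
    have hx₀c : (x₀ : ZMod p) = x := by
      rw [hx₀]; push_cast; exact ZMod.natCast_zmod_val x
    have heval : ∀ q : ℤ[X], (q.map φ).eval x = ((q.eval x₀ : ℤ) : ZMod p) := by
      intro q
      rw [← hx₀c, Polynomial.eval_intCast_map]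
      rfl
    have hder : ¬ (p : ℤ) ∣ f.derivative.eval x₀ := by
      intro h
      apply hx.2.1
      rw [hZ, Finset.mem_filter]
      refine ⟨Finset.mem_univ _, ?_⟩
      rw [hg, derivative_map, heval]
      exact (ZMod.intCast_zmod_eq_zero_iff_dvd _ _).mpr h
    have hT : Full T p 1 x₀ := by
      intro z hz N
      refine hE z ?_ N
      rw [pow_one, ← ZMod.intCast_zmod_eq_zero_iff_dvd] at hz
      push_cast at hz
      rw [sub_eq_zero.mp hz, hx₀c]
      exact hx.2.2
    have hF := Full_image f hp hTS x₀ 0 1 le_rfl (by simp) (by simpa using hder) hT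
    intro N
    refine hF y ?_ N
    rw [add_zero, pow_one, ← ZMod.intCast_zmod_eq_zero_iff_dvd]
    push_cast
    rw [hy, hg, heval, sub_self]
  · have h1 := card_image_ge' g (by omega)
    rw [hgd] at h1
    exact h1.trans (Nat.mul_le_mul_left _ hIR)
  · intro hnd
    have h1 := card_image_ge g (by omega) (by omega) (by rw [hgd]; exact hnd)
    rw [hgd] at h1
    exact h1.trans (Nat.mul_le_mul_left _ hIR)

/-- the real-variable bound for the exponent -/
theorem w_bound {w r p k D B : ℕ} (hp : 2 ≤ p) (hw : w * r * (p - 1) ≤ k * p)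
    (hr : p - 1 ≤ D * (r + B)) (hpB : 2 * (1 + D * B) ≤ p) (hD : 0 < D) :
    (w : ℝ) ≤ k * (D / p + 4 * D * (2 + D * B) / (p : ℝ) ^ 2) := by
  have hpr : (2 : ℝ) ≤ p := by exact_mod_cast hp
  have hDr : (0 : ℝ) < D := by exact_mod_cast hD
  have hB0 : (0 : ℝ) ≤ B := Nat.cast_nonneg B
  have hpB' : 2 * (1 + (D : ℝ) * B) ≤ p := by exact_mod_cast hpB
  have hr' : (p : ℝ) - 1 ≤ D * (r + B) := by
    have h1 : ((p - 1 : ℕ) : ℝ) ≤ ((D * (r + B) : ℕ) : ℝ) := by exact_mod_cast hr
    rw [Nat.cast_sub (by omega)] at h1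
    push_cast at h1
    exact h1
  have hw' : (w : ℝ) * r * (p - 1) ≤ k * p := by
    have h1 : ((w * r * (p - 1) : ℕ) : ℝ) ≤ ((k * p : ℕ) : ℝ) := by exact_mod_cast hw
    push_cast [Nat.cast_sub (show 1 ≤ p by omega)] at h1
    exact h1
  set Q : ℝ := p - (1 + D * B) with hQ
  have hQ2 : (p : ℝ) / 2 ≤ Q := by rw [hQ]; linarith
  have hQpos : 0 < Q := by linarith
  have hDr' : Q ≤ D * r := by rw [hQ]; nlinarith
  have hw0 : (0 : ℝ) ≤ w := Nat.cast_nonneg w
  have hk0 : (0 : ℝ) ≤ k := Nat.cast_nonneg k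
  have hp1 : (p : ℝ) / 2 ≤ p - 1 := by linarith
  -- w * Q * (p - 1) ≤ k * D * p
  have h1 : (w : ℝ) * Q * (p - 1) ≤ k * D * p := by
    have h2 : (w : ℝ) * Q * (p - 1) ≤ w * (D * r) * (p - 1) :=
      mul_le_mul_of_nonneg_right (mul_le_mul_of_nonneg_left hDr' hw0) (by linarith)
    have h3 : (w : ℝ) * (D * r) * (p - 1) = D * (w * r * (p - 1)) := by ring
    have h4 : (D : ℝ) * (w * r * (p - 1)) ≤ D * (k * p) := mul_le_mul_of_nonneg_left hw' hDr.le
    calc _ ≤ _ := h2
      _ = _ := h3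
      _ ≤ _ := h4
      _ = _ := by ring
  have hden : 0 < Q * ((p : ℝ) - 1) := mul_pos hQpos (by linarith)
  have h2 : (w : ℝ) ≤ k * D * p / (Q * (p - 1)) := by
    rw [le_div_iff₀ hden]
    calc (w : ℝ) * (Q * (p - 1)) = w * Q * (p - 1) := by ring
      _ ≤ _ := h1
  refine h2.trans ?_
  rw [div_le_iff₀ hden]
  have hppos : (0 : ℝ) < p := by linarith
  -- need: k D p ≤ k (D/p + 4 D (2 + D B)/p²) Q (p-1)
  have key : (p : ℝ) ≤ (1 / p + 4 * (2 + D * B) / (p : ℝ) ^ 2) * (Q * (p - 1)) := by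
    have e1 : (1 / (p : ℝ) + 4 * (2 + D * B) / (p : ℝ) ^ 2) * (Q * (p - 1)) =
        ((p + 4 * (2 + D * B)) * (Q * (p - 1))) / (p : ℝ) ^ 2 := by
      field_simp
    rw [e1, le_div_iff₀ (by positivity)]
    have h5 : (p : ℝ) ^ 2 / 4 ≤ Q * (p - 1) := by
      have := mul_le_mul hQ2 hp1 (by positivity) hQpos.le
      nlinarith
    have h6 : Q * ((p : ℝ) - 1) = p ^ 2 - (2 + D * B) * p + (1 + D * B) := by rw [hQ]; ring
    have hDB : 0 ≤ (D : ℝ) * B := by positivity
    calc (p : ℝ) * p ^ 2 ≤ p * (p ^ 2 - (2 + D * B) * p + (1 + D * B)) + (2 + D * B) * p ^ 2 := by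
          nlinarith
      _ ≤ p * (Q * (p - 1)) + 4 * (2 + D * B) * (Q * (p - 1)) := by
          rw [← h6]
          nlinarith
      _ = _ := by ring
  calc (k : ℝ) * D * p = (k * D) * p := by ring
    _ ≤ (k * D) * ((1 / p + 4 * (2 + D * B) / (p : ℝ) ^ 2) * (Q * (p - 1))) :=
        mul_le_mul_of_nonneg_left key (by positivity)
    _ = _ := by ring

end Pool.Agent.Work.MP_b29d7f_nt
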