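import Pool.Agent.Work.MP_b29d7f_nt.Avg

/-!
# Hensel's lemma and density of the values of a polynomial
-/

open Polynomial

namespace Pool.Agent.Work.MP_b29d7f_nt

theorem hensel (f : ℤ[X]) {p : ℕ} (hp : p.Prime) (x₀ : ℤ) (e M : ℕ) (hM : e + 1 ≤ M)
    (he : (p : ℤ) ^ e ∣ f.derivative.eval x₀) (he' : ¬ (p : ℤ) ^ (e + 1) ∣ f.derivative.eval x₀)
    (y : ℤ) (hy : (p : ℤ) ^ (M + e) ∣ f.eval x₀ - y) (N : ℕ) :
    ∃ x : ℤ, (p : ℤ) ^ M ∣ x - x₀ ∧ (p : ℤ) ^ (M + e + N) ∣ f.eval x - y := by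
  have hpz : Prime (p : ℤ) := Nat.prime_iff_prime_int.mp hp
  induction N with
  | zero => exact ⟨x₀, by simp, by simpa using hy⟩
  | succ N ih =>
    obtain ⟨x, hx, hxy⟩ := ih
    have hder : (p : ℤ) ^ M ∣ f.derivative.eval x - f.derivative.eval x₀ :=
      hx.trans (f.derivative.sub_dvd_eval_sub x x₀)
    have h1 : (p : ℤ) ^ (e + 1) ∣ f.derivative.eval x - f.derivative.eval x₀ :=
      (pow_dvd_pow _ hM).trans hder
    have h2 : (p : ℤ) ^ e ∣ f.derivative.eval x := by
      have := dvd_add ((pow_dvd_pow (p : ℤ) (Nat.le_succ e)).trans h1) he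
      simpa using this
    obtain ⟨u, hu⟩ := h2
    have hpu : ¬ (p : ℤ) ∣ u := by
      intro h
      apply he'
      have h3 : (p : ℤ) ^ (e + 1) ∣ f.derivative.eval x := by
        rw [hu, pow_succ]
        exact mul_dvd_mul_left _ h
      have := dvd_sub h3 h1
      simpa using this
    obtain ⟨q, hq⟩ := hxy
    have hcop : IsCoprime (p : ℤ) u := (Prime.coprime_iff_not_dvd hpz).mpr hpu
    obtain ⟨α, β, hαβ⟩ := hcop
    -- α p + β u = 1; take h = - q β
    obtain ⟨k, hk⟩ := f.binomExpansion x ((p : ℤ) ^ (M + N) * (-(q * β)))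
    refine ⟨x + (p : ℤ) ^ (M + N) * (-(q * β)), ?_, ?_⟩
    · have : x + (p : ℤ) ^ (M + N) * (-(q * β)) - x₀ =
        (x - x₀) + (p : ℤ) ^ M * ((p : ℤ) ^ N * (-(q * β))) := by ring
      rw [this]
      exact dvd_add hx (dvd_mul_right _ _)
    · have hexp : ∃ r, 2 * (M + N) = M + e + (N + 1) + r := ⟨M + N - e - 1, by omega⟩
      obtain ⟨r, hr⟩ := hexp
      have hsq : ((p : ℤ) ^ (M + N) * (-(q * β))) ^ 2 =
          (p : ℤ) ^ (M + e + (N + 1)) * ((p : ℤ) ^ r * (q * β) ^ 2) := by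
        have : ((p : ℤ) ^ (M + N)) ^ 2 = (p : ℤ) ^ (M + e + (N + 1)) * (p : ℤ) ^ r := by
          rw [← pow_mul, ← pow_add]; congr 1; omega
        rw [mul_pow, this]; ring
      have hmain : f.eval (x + (p : ℤ) ^ (M + N) * (-(q * β))) - y =
          (p : ℤ) ^ (M + e + (N + 1)) * (q * α + k * ((p : ℤ) ^ r * (q * β) ^ 2)) := by
        have hfx : f.eval x = y + (p : ℤ) ^ (M + e + N) * q := by linarith
        rw [hk, hsq, hu, hfx]
        have e1 : (p : ℤ) ^ (M + e + (N + 1)) = (p : ℤ) ^ (M + e + N) * p := by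
          rw [← pow_succ]; congr 1
        have e2 : (p : ℤ) ^ e * (p : ℤ) ^ (M + N) = (p : ℤ) ^ (M + e + N) := by
          rw [← pow_add]; congr 1; omega
        rw [e1]
        linear_combination (-(u * q * β)) * e2 - (p : ℤ) ^ (M + e + N) * q * hαβ
      rw [hmain]
      exact dvd_mul_right _ _

/-- If `T` is `p`-adically dense in the ball `x₀ + p ^ M ℤ` then the set of values `f(T)` is
`p`-adically dense in the ball of `f x₀` of radius `p ^ (M + e)`, where `e` is the exponent of `p`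
in `f' x₀` and `e < M`. -/
theorem Full_image (f : ℤ[X]) {p : ℕ} (hp : p.Prime) {T S : Set ℤ}
    (hTS : ∀ t ∈ T, f.eval t ∈ S) (x₀ : ℤ) (e M : ℕ) (hM : e + 1 ≤ M)
    (he : (p : ℤ) ^ e ∣ f.derivative.eval x₀) (he' : ¬ (p : ℤ) ^ (e + 1) ∣ f.derivative.eval x₀)
    (hT : Full T p M x₀) : Full S p (M + e) (f.eval x₀) := by
  intro y hy N
  have hy' : (p : ℤ) ^ (M + e) ∣ f.eval x₀ - y := by
    rw [dvd_sub_comm]; exact hy
  obtain ⟨x, hx, hxy⟩ := hensel f hp x₀ e M hM he he' y hy' N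
  obtain ⟨t, ht, htx⟩ := hT x hx N
  refine ⟨f.eval t, hTS t ht, ?_⟩
  have h1 : (p : ℤ) ^ N ∣ f.eval t - f.eval x := htx.trans (f.sub_dvd_eval_sub t x)
  have h2 : (p : ℤ) ^ N ∣ f.eval x - y := (pow_dvd_pow _ (by omega)).trans hxy
  have := dvd_add h1 h2
  simpa using this

/-- in particular, `f(T)` is `p`-adically dense in some ball, if `T` is and `f` is not constant -/
theorem exists_Full_image (f : ℤ[X]) (hf : 0 < f.natDegree) {p : ℕ} (hp : p.Prime) {T S : Set ℤ}
    (hTS : ∀ t ∈ T, f.eval t ∈ S) (m : ℕ) (c : ℤ) (hT : Full T p m c) :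
    ∃ m' c', Full S p m' c' := by
  classical
  -- a point of the ball at which the derivative does not vanish
  have hder : f.derivative ≠ 0 := by
    intro h0
    have := Polynomial.derivative_eq_zero.mp h0
    omega
  have hppos : (0 : ℤ) < p := by exact_mod_cast hp.pos
  obtain ⟨x₀, hx₀, hne⟩ : ∃ x₀ : ℤ, (p : ℤ) ^ m ∣ x₀ - c ∧ f.derivative.eval x₀ ≠ 0 := by
    by_contra hcon
    push Not at hcon
    apply hder
    apply Polynomial.eq_zero_of_infinite_isRoot
    have hinj : Function.Injective fun n : ℕ => c + (p : ℤ) ^ m * n := by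
      intro a b hab
      have h1 : (p : ℤ) ^ m * a = (p : ℤ) ^ m * b := by
        have : c + (p : ℤ) ^ m * a = c + (p : ℤ) ^ m * b := hab
        linarith
      have h2 := mul_left_cancel₀ (pow_ne_zero m hppos.ne') h1
      exact_mod_cast h2
    refine (Set.infinite_range_of_injective hinj).mono ?_
    rintro _ ⟨n, rfl⟩
    exact hcon _ (by simp)
  have hfin : FiniteMultiplicity (p : ℤ) (f.derivative.eval x₀) := by
    rw [Int.finiteMultiplicity_iff]
    exact ⟨by simpa using hp.ne_one, hne⟩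
  set e := multiplicity (p : ℤ) (f.derivative.eval x₀) with he
  refine ⟨max m (e + 1) + e, f.eval x₀, Full_image f hp hTS x₀ e _ (le_max_right _ _)
    (pow_multiplicity_dvd _ _) ?_ ?_⟩
  · exact hfin.not_pow_dvd_of_multiplicity_lt (Nat.lt_succ_self _)
  · intro y hy N
    refine hT y ?_ N
    have h1 : (p : ℤ) ^ m ∣ y - x₀ := (pow_dvd_pow _ (le_max_left _ _)).trans hy
    have := dvd_add h1 hx₀
    simpa using this

end Pool.Agent.Work.MP_b29d7f_nt
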