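import Pool.Agent.Work.MP_b29d7f_nt.Val

/-!
# The logarithmic energy of a finite set of integers
-/

namespace Pool.Agent.Work.MP_b29d7f_nt

/-- the sum of `log (x - y)` over all pairs `y < x` of elements of `X` -/
noncomputable def energy (X : Finset ℤ) : ℝ :=
  ∑ x ∈ X, ∑ y ∈ X.filter (fun y => y < x), Real.log ((x - y : ℤ) : ℝ)

theorem rank_sum (g : ℕ → ℝ) (X : Finset ℤ) :
    ∑ y ∈ X, g ((X.filter fun z => y ≤ z).card) = ∑ d ∈ Finset.Icc 1 X.card, g d := by
  classical
  induction X using Finset.induction_on_min with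
  | empty => simp
  | insert m X hm ih =>
    have hmX : m ∉ X := fun h => lt_irrefl _ (hm m h)
    rw [Finset.sum_insert hmX, Finset.card_insert_of_notMem hmX,
      Finset.sum_Icc_succ_top (by omega), ← ih, add_comm]
    congr 1
    · refine Finset.sum_congr rfl fun y hy => ?_
      congr 2
      rw [Finset.filter_insert, if_neg (not_le.mpr (hm y hy))]
    · congr 1
      rw [Finset.filter_true_of_mem, Finset.card_insert_of_notMem hmX]
      intro z hz
      rw [Finset.mem_insert] at hz
      rcases hz with rfl | hz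
      · exact le_rfl
      · exact (hm z hz).le

theorem pair_rank_sum (g : ℕ → ℝ) (X : Finset ℤ) :
    ∑ x ∈ X, ∑ y ∈ X.filter (fun y => y < x), g ((X.filter fun z => y ≤ z ∧ z < x).card) =
      ∑ k ∈ Finset.range X.card, ∑ d ∈ Finset.Icc 1 k, g d := by
  classical
  induction X using Finset.induction_on_max with
  | empty => simp
  | insert m X hm ih =>
    have hmX : m ∉ X := fun h => lt_irrefl _ (hm m h)
    rw [Finset.sum_insert hmX, Finset.card_insert_of_notMem hmX, Finset.sum_range_succ, ← ih,
      add_comm]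
    congr 1
    · refine Finset.sum_congr rfl fun x hx => ?_
      rw [Finset.filter_insert, if_neg (not_lt.mpr (hm x hx).le)]
      refine Finset.sum_congr rfl fun y _ => ?_
      congr 2
      rw [Finset.filter_insert, if_neg (fun h => not_lt.mpr (hm x hx).le h.2)]
    · rw [← rank_sum, Finset.filter_insert, if_neg (lt_irrefl _), Finset.filter_true_of_mem hm]
      refine Finset.sum_congr rfl fun y _ => ?_
      congr 2
      ext z
      simp only [Finset.mem_filter, Finset.mem_insert]
      constructor
      · rintro ⟨rfl | h1, h2, h3⟩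
        · exact absurd h3 (lt_irrefl _)
        · exact ⟨h1, h2⟩
      · rintro ⟨h1, h2⟩
        exact ⟨Or.inr h1, h2, hm z h1⟩

theorem energy_ge (g : ℕ → ℝ) (X : Finset ℤ)
    (h : ∀ x ∈ X, ∀ y ∈ X, y < x →
      g ((X.filter fun z => y ≤ z ∧ z < x).card) ≤ Real.log ((x - y : ℤ) : ℝ)) :
    ∑ k ∈ Finset.range X.card, ∑ d ∈ Finset.Icc 1 k, g d ≤ energy X := by
  rw [← pair_rank_sum]
  refine Finset.sum_le_sum fun x hx => Finset.sum_le_sum fun y hy => ?_
  rw [Finset.mem_filter] at hy
  exact h x hx y hy.1 hy.2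

/-- equality case -/
theorem energy_eq_of_le (g : ℕ → ℝ) (X : Finset ℤ)
    (h : ∀ x ∈ X, ∀ y ∈ X, y < x →
      g ((X.filter fun z => y ≤ z ∧ z < x).card) ≤ Real.log ((x - y : ℤ) : ℝ))
    (hle : energy X ≤ ∑ k ∈ Finset.range X.card, ∑ d ∈ Finset.Icc 1 k, g d) :
    ∀ x ∈ X, ∀ y ∈ X, y < x →
      Real.log ((x - y : ℤ) : ℝ) = g ((X.filter fun z => y ≤ z ∧ z < x).card) := by
  intro x hx y hy hyx
  by_contra hne
  have hlt : g ((X.filter fun z => y ≤ z ∧ z < x).card) < Real.log ((x - y : ℤ) : ℝ) :=
    lt_of_le_of_ne (h x hx y hy hyx) (Ne.symm hne)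
  have : ∑ k ∈ Finset.range X.card, ∑ d ∈ Finset.Icc 1 k, g d < energy X := by
    rw [← pair_rank_sum]
    refine Finset.sum_lt_sum (fun x hx => Finset.sum_le_sum fun y hy => ?_) ⟨x, hx, ?_⟩
    · rw [Finset.mem_filter] at hy
      exact h x hx y hy.1 hy.2
    · refine Finset.sum_lt_sum (fun y hy => ?_) ⟨y, Finset.mem_filter.mpr ⟨hy, hyx⟩, hlt⟩
      rw [Finset.mem_filter] at hy
      exact h x hx y hy.1 hy.2
  linarith

theorem energy_insert (X : Finset ℤ) (z : ℤ) (hz : z ∉ X) :
    energy (insert z X) = energy X + ∑ y ∈ X, Real.log |((z - y : ℤ) : ℝ)| := by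
  classical
  unfold energy
  rw [Finset.sum_insert hz]
  have h1 : ∑ y ∈ (insert z X).filter (fun y => y < z), Real.log ((z - y : ℤ) : ℝ) =
      ∑ y ∈ X, if y < z then Real.log |((z - y : ℤ) : ℝ)| else 0 := by
    rw [Finset.filter_insert, if_neg (lt_irrefl _), Finset.sum_filter]
    refine Finset.sum_congr rfl fun y _ => ?_
    split_ifs with h
    · rw [Real.log_abs]
    · rfl
  have h2 : ∑ x ∈ X, ∑ y ∈ (insert z X).filter (fun y => y < x), Real.log ((x - y : ℤ) : ℝ) =
      (∑ x ∈ X, ∑ y ∈ X.filter (fun y => y < x), Real.log ((x - y : ℤ) : ℝ)) +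
      ∑ y ∈ X, if z < y then Real.log |((z - y : ℤ) : ℝ)| else 0 := by
    rw [← Finset.sum_add_distrib]
    refine Finset.sum_congr rfl fun x _ => ?_
    rw [Finset.filter_insert]
    split_ifs with h
    · rw [Finset.sum_insert (fun h' => hz (Finset.mem_filter.mp h').1), add_comm]
      congr 1
      rw [← Real.log_abs]
      push_cast
      rw [abs_sub_comm]
    · rw [add_zero]
  rw [h1, h2]
  have h3 : ∑ y ∈ X, Real.log |((z - y : ℤ) : ℝ)| =
      (∑ y ∈ X, if y < z then Real.log |((z - y : ℤ) : ℝ)| else 0) +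
      ∑ y ∈ X, if z < y then Real.log |((z - y : ℤ) : ℝ)| else 0 := by
    rw [← Finset.sum_add_distrib]
    refine Finset.sum_congr rfl fun y hy => ?_
    have hne : z ≠ y := by rintro rfl; exact hz hy
    rcases lt_or_gt_of_ne hne with h | h
    · rw [if_neg (not_lt.mpr h.le), if_pos h, zero_add]
    · rw [if_pos h, if_neg (not_lt.mpr h.le), add_zero]
  rw [h3]
  ring

theorem energy_seq (a : ℕ → ℤ) (ha : Function.Injective a) (n : ℕ) :
    energy ((Finset.range n).image a) =
      ∑ k ∈ Finset.range n, Real.log |((V a k (a k) : ℤ) : ℝ)| := by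
  classical
  induction n with
  | zero => simp [energy]
  | succ n ih =>
    rw [Finset.range_add_one, Finset.image_insert, energy_insert, ih, Finset.sum_insert (by simp),
      add_comm]
    · congr 1
      rw [Finset.sum_image (fun i _ j _ h => ha h)]
      unfold V
      push_cast
      rw [Finset.abs_prod, Real.log_prod]
      intro i hi
      have hne : a n ≠ a i := by
        intro h
        have := ha h
        rw [Finset.mem_range] at hi
        omega
      have : (a n : ℝ) - a i ≠ 0 := by
        intro h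
        apply hne
        exact_mod_cast sub_eq_zero.mp h
      exact abs_ne_zero.mpr this
    · rw [Finset.mem_image]
      rintro ⟨i, hi, hia⟩
      have := ha hia
      rw [Finset.mem_range] at hi
      omega

/-- terms of a `p`-ordering of an infinite set are distinct -/
theorem injective_of_ordering {S : Set ℤ} (hS : S.Infinite) {p : ℕ} (hp : p.Prime) {a : ℕ → ℤ}
    (ha : IsPOrdering S p a) : Function.Injective a := by
  have hV := V_ne_zero hS hp ha
  have haux : ∀ i j, i < j → a i ≠ a j := by
    intro i j hij h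
    apply hV j
    unfold V
    rw [Finset.prod_eq_zero_iff]
    exact ⟨i, Finset.mem_range.mpr hij, by rw [h, sub_self]⟩
  intro i j hij
  rcases lt_trichotomy i j with h | h | h
  · exact absurd hij (haux i j h)
  · exact h
  · exact absurd hij.symm (haux j i h)

end Pool.Agent.Work.MP_b29d7f_nt
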