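import Pool.Agent.Work.MP_b29d7f_nt.Good
import Pool.Agent.Work.MP_b29d7f_nt.Rank

/-!
# The measure of the `p`-adic closure
-/

open Filter Topology

namespace Pool.Agent.Work.MP_b29d7f_nt

open scoped Classical in
theorem mem_Yset {S : Set ℤ} {p J y : ℕ} :
    y ∈ Yset S p J ↔ y < p ^ J ∧ ∃ s ∈ S, (p : ℤ) ^ J ∣ s - y := by
  unfold Yset
  rw [Finset.mem_filter, Finset.mem_range]

theorem nu_le (S : Set ℤ) (p J : ℕ) : nu S p J ≤ p ^ J := by
  classical
  unfold nu Yset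
  refine (Finset.card_filter_le _ _).trans ?_
  rw [Finset.card_range]

/-- the fibres of reduction from level `J + 1` to level `J` -/
theorem card_filter_succ_le {S : Set ℤ} {p : ℕ} (hp : 0 < p) (J m : ℕ) (hm : m ≤ J) (c : ℤ) :
    ((Yset S p (J + 1)).filter fun y : ℕ => (p : ℤ) ^ m ∣ (y : ℤ) - c).card ≤
      p * ((Yset S p J).filter fun y : ℕ => (p : ℤ) ^ m ∣ (y : ℤ) - c).card := by
  classical
  have hpJ : 0 < p ^ J := pow_pos hp J
  refine Finset.card_le_mul_card_image_of_maps_to (f := fun y => y % p ^ J) ?_ p ?_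
  · intro y hy
    rw [Finset.mem_filter, mem_Yset] at hy ⊢
    obtain ⟨⟨hy1, s, hs, hsy⟩, hyc⟩ := hy
    have hmod : (p : ℤ) ^ J ∣ (y : ℤ) - ((y % p ^ J : ℕ) : ℤ) := by
      have h1 : ((y % p ^ J : ℕ) : ℤ) = (y : ℤ) % (p : ℤ) ^ J := by push_cast; rfl
      rw [h1]
      exact Int.dvd_self_sub_emod
    refine ⟨⟨Nat.mod_lt _ hpJ, s, hs, ?_⟩, ?_⟩
    · have h2 := dvd_add ((pow_dvd_pow (p : ℤ) (Nat.le_succ J)).trans hsy) hmod
      simpa using h2
    · have h2 := dvd_sub hyc ((pow_dvd_pow (p : ℤ) hm).trans hmod)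
      simpa using h2
  · intro b _
    have hsub : ((Yset S p (J + 1)).filter fun y : ℕ => (p : ℤ) ^ m ∣ (y : ℤ) - c).filter
        (fun y => y % p ^ J = b) ⊆ (Finset.range p).image fun t => b + p ^ J * t := by
      intro y hy
      rw [Finset.mem_filter, Finset.mem_filter, mem_Yset] at hy
      obtain ⟨⟨⟨hy1, _⟩, _⟩, hyb⟩ := hy
      rw [Finset.mem_image]
      refine ⟨y / p ^ J, ?_, ?_⟩
      · rw [Finset.mem_range, Nat.div_lt_iff_lt_mul hpJ]
        rw [pow_succ] at hy1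
        linarith [mul_comm (p ^ J) p]
      · rw [← hyb]
        exact Nat.mod_add_div y (p ^ J)
    refine (Finset.card_le_card hsub).trans (Finset.card_image_le.trans ?_)
    rw [Finset.card_range]

theorem nu_succ_le {S : Set ℤ} {p : ℕ} (hp : 0 < p) (J : ℕ) : nu S p (J + 1) ≤ p * nu S p J := by
  classical
  have h := card_filter_succ_le (S := S) hp J 0 (Nat.zero_le _) 0
  simpa [nu] using h

theorem card_filter_add_le {S : Set ℤ} {p : ℕ} (hp : 0 < p) (J m : ℕ) (hm : m ≤ J) (c : ℤ) (i : ℕ) :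
    ((Yset S p (J + i)).filter fun y : ℕ => (p : ℤ) ^ m ∣ (y : ℤ) - c).card ≤
      p ^ i * ((Yset S p J).filter fun y : ℕ => (p : ℤ) ^ m ∣ (y : ℤ) - c).card := by
  induction i with
  | zero => simp
  | succ i ih =>
    rw [show J + (i + 1) = (J + i) + 1 by ring]
    refine (card_filter_succ_le hp (J + i) m (by omega) c).trans ?_
    rw [pow_succ]
    calc p * _ ≤ p * (p ^ i * _) := Nat.mul_le_mul_left _ ih
      _ = _ := by ring

theorem bddBelow_ratio (S : Set ℤ) (p : ℕ) :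
    BddBelow (Set.range fun J : ℕ => (nu S p J : ℝ) / (p : ℝ) ^ J) :=
  ⟨0, by rintro _ ⟨J, rfl⟩; positivity⟩

theorem mu_le (S : Set ℤ) (p J : ℕ) : mu S p ≤ (nu S p J : ℝ) / (p : ℝ) ^ J :=
  ciInf_le (bddBelow_ratio S p) J

theorem mu_nonneg (S : Set ℤ) (p : ℕ) : 0 ≤ mu S p := le_ciInf fun J => by positivity

theorem mu_le_one (S : Set ℤ) {p : ℕ} (hp : 0 < p) : mu S p ≤ 1 := by
  refine (mu_le S p 0).trans ?_
  have := nu_le S p 0
  rw [pow_zero, div_one]
  exact_mod_cast this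

theorem ratio_antitone (S : Set ℤ) {p : ℕ} (hp : 0 < p) :
    Antitone fun J : ℕ => (nu S p J : ℝ) / (p : ℝ) ^ J := by
  refine antitone_nat_of_succ_le fun J => ?_
  have hpr : (0 : ℝ) < p := by exact_mod_cast hp
  have h : (nu S p (J + 1) : ℝ) ≤ p * nu S p J := by exact_mod_cast nu_succ_le hp J
  rw [div_le_div_iff₀ (by positivity) (by positivity), pow_succ]
  calc (nu S p (J + 1) : ℝ) * (p : ℝ) ^ J ≤ (p * nu S p J) * (p : ℝ) ^ J :=
        mul_le_mul_of_nonneg_right h (by positivity)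
    _ = _ := by ring

theorem tendsto_mu (S : Set ℤ) {p : ℕ} (hp : 0 < p) :
    Tendsto (fun J : ℕ => (nu S p J : ℝ) / (p : ℝ) ^ J) atTop (𝓝 (mu S p)) :=
  tendsto_atTop_ciInf (ratio_antitone S hp) (bddBelow_ratio S p)

/-- **The averaging inequality.** -/
theorem wp_sum_le {S : Set ℤ} (hS : S.Infinite) {p : ℕ} (hp : p.Prime) {a : ℕ → ℤ}
    (ha : IsPOrdering S p a) (k J : ℕ) (hJ : wp p a k ≤ J) (Y : Finset ℕ) (hY : Y ⊆ Yset S p J) :
    wp p a k * Y.card ≤ ∑ i ∈ Finset.range k, ∑ j ∈ Finset.Icc 1 J,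
      (Y.filter fun y : ℕ => (p : ℤ) ^ j ∣ (y : ℤ) - a i).card := by
  classical
  have h1 : wp p a k * Y.card ≤ ∑ y ∈ Y, ∑ i ∈ Finset.range k, tv p J ((y : ℤ) - a i) := by
    rw [mul_comm, ← smul_eq_mul, ← Finset.sum_const]
    refine Finset.sum_le_sum fun y hy => ?_
    obtain ⟨_, s, hs, hd⟩ := mem_Yset.mp (hY hy)
    exact sum_tv_ge hp a k s y J _ hJ hd (pow_wp_dvd hS hp ha k s hs)
  refine h1.trans (le_of_eq ?_)
  rw [Finset.sum_comm]
  refine Finset.sum_congr rfl fun i _ => ?_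
  unfold tv
  simp_rw [Finset.card_filter]
  rw [Finset.sum_comm]

/-- the number of residues in a ball -/
theorem card_ball_le (S : Set ℤ) {p : ℕ} (hp : p.Prime) (J j : ℕ) (hj : j ≤ J) (c : ℤ) :
    ((Yset S p J).filter fun y : ℕ => (p : ℤ) ^ j ∣ (y : ℤ) - c).card ≤ p ^ (J - j) := by
  classical
  rw [← cnt_pow hp J j hj c]
  refine Finset.card_le_card fun y hy => ?_
  rw [Finset.mem_filter, mem_Yset] at hy
  rw [Finset.mem_filter, Finset.mem_range]
  exact ⟨hy.1.1, hy.2⟩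

theorem sum_pow_inv_le (p m J : ℕ) (hp : 2 ≤ p) :
    ∑ j ∈ Finset.Ioc m J, ((p : ℝ) ^ j)⁻¹ ≤ ((p : ℝ) ^ m * (p - 1))⁻¹ := by
  have hpr : (2 : ℝ) ≤ p := by exact_mod_cast hp
  have h : ∀ J, ∑ j ∈ Finset.Ioc m (m + J), ((p : ℝ) ^ j)⁻¹ =
      ((p : ℝ) ^ m * (p - 1))⁻¹ - ((p : ℝ) ^ (m + J) * (p - 1))⁻¹ := by
    intro J
    induction J with
    | zero => simp
    | succ J ih =>
      rw [← add_assoc, Finset.sum_Ioc_succ_top (by omega), ih]
      have h1 : (p : ℝ) - 1 ≠ 0 := by linarith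
      have h2 : (p : ℝ) ≠ 0 := by linarith
      have h3 : (p : ℝ) ^ (m + J + 1) = p ^ (m + J) * p := pow_succ _ _
      rw [h3]
      field_simp
      ring
  rcases le_total m J with hmJ | hmJ
  · obtain ⟨i, rfl⟩ := Nat.exists_eq_add_of_le hmJ
    rw [h]
    have : 0 ≤ ((p : ℝ) ^ (m + i) * (p - 1))⁻¹ := by
      have : (0 : ℝ) ≤ p - 1 := by linarith
      positivity
    linarith
  · rw [Finset.Ioc_eq_empty (by omega), Finset.sum_empty]
    have : (0 : ℝ) ≤ p - 1 := by linarith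
    positivity

/-- **Local upper bound**, general form: if, at some level, every ball of radius `p ^ m` contains
at most a proportion `B` of all classes, with `m ≥ 1`. -/
theorem wp_le_of_mu {S : Set ℤ} (hS : S.Infinite) {p : ℕ} (hp : p.Prime) {a : ℕ → ℤ}
    (ha : IsPOrdering S p a) (hmu : 0 < mu S p) (k m : ℕ) :
    (wp p a k : ℝ) ≤ k * (m + ((p : ℝ) ^ m * mu S p * (p - 1))⁻¹) := by
  classical
  set w := wp p a k with hw
  set J := max w m with hJ
  have hwJ : w ≤ J := le_max_left _ _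
  have hmJ : m ≤ J := le_max_right _ _
  have h1 := wp_sum_le hS hp ha k J hwJ (Yset S p J) (Finset.Subset.refl _)
  rw [← hw] at h1
  have hpr : (2 : ℝ) ≤ p := by exact_mod_cast hp.two_le
  have hν : (0 : ℝ) < nu S p J := by
    have := hmu.trans_le (mu_le S p J)
    by_contra hle
    push Not at hle
    have h0 : (nu S p J : ℝ) = 0 := le_antisymm hle (Nat.cast_nonneg _)
    rw [h0, zero_div] at this
    exact lt_irrefl _ this
  have hνmu : mu S p * (p : ℝ) ^ J ≤ nu S p J := by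
    have := mu_le S p J
    rwa [le_div_iff₀ (by positivity)] at this
  -- bound the inner sum
  have h2 : ∀ i ∈ Finset.range k, ((∑ j ∈ Finset.Icc 1 J,
      ((Yset S p J).filter fun y : ℕ => (p : ℤ) ^ j ∣ (y : ℤ) - a i).card : ℕ) : ℝ) ≤
      m * nu S p J + (p : ℝ) ^ J * ((p : ℝ) ^ m * (p - 1))⁻¹ := by
    intro i _
    push_cast
    have hsplit : Finset.Icc 1 J = Finset.Icc 1 m ∪ Finset.Ioc m J := by
      ext j; simp only [Finset.mem_union, Finset.mem_Icc, Finset.mem_Ioc]; omega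
    rw [hsplit, Finset.sum_union]
    · refine add_le_add ?_ ?_
      · calc ∑ j ∈ Finset.Icc 1 m,
            (((Yset S p J).filter fun y : ℕ => (p : ℤ) ^ j ∣ (y : ℤ) - a i).card : ℝ)
            ≤ ∑ j ∈ Finset.Icc 1 m, (nu S p J : ℝ) := by
              refine Finset.sum_le_sum fun j _ => ?_
              exact_mod_cast Finset.card_filter_le _ _
          _ = _ := by rw [Finset.sum_const, Nat.card_Icc]; simp
      · calc ∑ j ∈ Finset.Ioc m J,
            (((Yset S p J).filter fun y : ℕ => (p : ℤ) ^ j ∣ (y : ℤ) - a i).card : ℝ)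
            ≤ ∑ j ∈ Finset.Ioc m J, (p : ℝ) ^ J * ((p : ℝ) ^ j)⁻¹ := by
              refine Finset.sum_le_sum fun j hj => ?_
              rw [Finset.mem_Ioc] at hj
              have h3 : (((Yset S p J).filter fun y : ℕ => (p : ℤ) ^ j ∣ (y : ℤ) - a i).card : ℝ) ≤
                  ((p ^ (J - j) : ℕ) : ℝ) := by
                exact_mod_cast card_ball_le S hp J j hj.2 (a i)
              refine h3.trans (le_of_eq ?_)
              push_cast
              rw [pow_sub₀ _ (by linarith) hj.2]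
          _ = (p : ℝ) ^ J * ∑ j ∈ Finset.Ioc m J, ((p : ℝ) ^ j)⁻¹ := by rw [Finset.mul_sum]
          _ ≤ _ := mul_le_mul_of_nonneg_left (sum_pow_inv_le p m J hp.two_le) (by positivity)
    · rw [Finset.disjoint_left]
      intro j hj hj'
      rw [Finset.mem_Icc] at hj
      rw [Finset.mem_Ioc] at hj'
      omega
  have h3 : (w : ℝ) * nu S p J ≤ k * (m * nu S p J + (p : ℝ) ^ J * ((p : ℝ) ^ m * (p - 1))⁻¹) := by
    have h4 : ((w * (Yset S p J).card : ℕ) : ℝ) ≤ ((∑ i ∈ Finset.range k, ∑ j ∈ Finset.Icc 1 J,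
      ((Yset S p J).filter fun y : ℕ => (p : ℤ) ^ j ∣ (y : ℤ) - a i).card : ℕ) : ℝ) := by
      exact_mod_cast h1
    rw [Nat.cast_sum] at h4
    have h5 := h4.trans (Finset.sum_le_sum h2)
    rw [Finset.sum_const, Finset.card_range, nsmul_eq_mul] at h5
    push_cast at h5
    exact h5
  have h4 : (p : ℝ) ^ J * ((p : ℝ) ^ m * (p - 1))⁻¹ ≤
      nu S p J * ((p : ℝ) ^ m * mu S p * (p - 1))⁻¹ := by
    have hp1 : (0 : ℝ) < p - 1 := by linarith
    have e1 : (p : ℝ) ^ J * ((p : ℝ) ^ m * (p - 1))⁻¹ =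
        (mu S p * (p : ℝ) ^ J) * ((p : ℝ) ^ m * mu S p * (p - 1))⁻¹ := by
      field_simp
    rw [e1]
    exact mul_le_mul_of_nonneg_right hνmu (by positivity)
  have h5 : (w : ℝ) * nu S p J ≤
      (k * (m + ((p : ℝ) ^ m * mu S p * (p - 1))⁻¹)) * nu S p J := by
    refine h3.trans ?_
    have hk : (0 : ℝ) ≤ k := Nat.cast_nonneg k
    calc (k : ℝ) * (m * nu S p J + (p : ℝ) ^ J * ((p : ℝ) ^ m * (p - 1))⁻¹)
        ≤ k * (m * nu S p J + nu S p J * ((p : ℝ) ^ m * mu S p * (p - 1))⁻¹) :=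
          mul_le_mul_of_nonneg_left (by linarith) hk
      _ = _ := by ring
  exact le_of_mul_le_mul_right h5 hν

end Pool.Agent.Work.MP_b29d7f_nt
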