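import Pool.Agent.Work.MP_b29d7f_nt.Fact
import Pool.Agent.Work.MP_b29d7f_nt.Rank

/-!
# Exact local bounds inside a full ball
-/

open Filter Topology

namespace Pool.Agent.Work.MP_b29d7f_nt

theorem mult_prod {p : ℕ} (hp : p.Prime) (s : Finset ℕ) (f : ℕ → ℤ) (hf : ∀ i ∈ s, f i ≠ 0) :
    multiplicity (p : ℤ) (∏ i ∈ s, f i) = ∑ i ∈ s, multiplicity (p : ℤ) (f i) := by
  classical
  have hpz : Prime (p : ℤ) := Nat.prime_iff_prime_int.mp hp
  have hfin : ∀ x : ℤ, x ≠ 0 → FiniteMultiplicity (p : ℤ) x := by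
    intro x hx
    rw [Int.finiteMultiplicity_iff]
    exact ⟨by simpa using hp.ne_one, hx⟩
  have h0 : ∏ i ∈ s, f i ≠ 0 := Finset.prod_ne_zero_iff.mpr hf
  have h3 : ((multiplicity (p : ℤ) (∏ i ∈ s, f i) : ℕ) : ℕ∞) =
      ((∑ i ∈ s, multiplicity (p : ℤ) (f i) : ℕ) : ℕ∞) := by
    rw [← (hfin _ h0).emultiplicity_eq_multiplicity, Finset.emultiplicity_prod hpz]
    push_cast
    exact Finset.sum_congr rfl fun i hi => (hfin _ (hf i hi)).emultiplicity_eq_multiplicity
  exact_mod_cast h3

theorem mult_congr {p : ℕ} (hp : p.Prime) {x y : ℤ} {m : ℕ} (hxy : (p : ℤ) ^ m ∣ x - y)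
    (hy : ¬ (p : ℤ) ^ m ∣ y) : multiplicity (p : ℤ) x = multiplicity (p : ℤ) y := by
  have hy0 : y ≠ 0 := by rintro rfl; exact hy (dvd_zero _)
  have hfin : FiniteMultiplicity (p : ℤ) y := by
    rw [Int.finiteMultiplicity_iff]
    exact ⟨by simpa using hp.ne_one, hy0⟩
  have hlt : multiplicity (p : ℤ) y < m := by
    by_contra hle
    push Not at hle
    exact hy ((pow_dvd_pow _ hle).trans (pow_multiplicity_dvd _ _))
  refine multiplicity_eq_of_dvd_of_not_dvd ?_ ?_
  · have h1 := (pow_dvd_pow (p : ℤ) hlt.le).trans hxy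
    have h2 := dvd_add h1 (pow_multiplicity_dvd (p : ℤ) y)
    simpa using h2
  · intro h
    have h1 := (pow_dvd_pow (p : ℤ) (Nat.succ_le_of_lt hlt)).trans hxy
    have h2 := dvd_sub h h1
    rw [sub_sub_cancel] at h2
    exact hfin.not_pow_dvd_of_multiplicity_lt (Nat.lt_succ_self _) h2

theorem mult_eq_card {p : ℕ} (hp : p.Prime) {x : ℤ} {N : ℕ} (hx : ¬ (p : ℤ) ^ N ∣ x) :
    multiplicity (p : ℤ) x = ((Finset.Icc 1 N).filter fun j => (p : ℤ) ^ j ∣ x).card := by
  classical
  have hx0 : x ≠ 0 := by rintro rfl; exact hx (dvd_zero _)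
  have hfin : FiniteMultiplicity (p : ℤ) x := by
    rw [Int.finiteMultiplicity_iff]
    exact ⟨by simpa using hp.ne_one, hx0⟩
  have hlt : multiplicity (p : ℤ) x < N := by
    by_contra hle
    push Not at hle
    exact hx ((pow_dvd_pow _ hle).trans (pow_multiplicity_dvd _ _))
  have h1 : ((Finset.Icc 1 N).filter fun j => (p : ℤ) ^ j ∣ x) =
      Finset.Icc 1 (multiplicity (p : ℤ) x) := by
    ext j
    rw [Finset.mem_filter, Finset.mem_Icc, Finset.mem_Icc, hfin.pow_dvd_iff_le_multiplicity]
    omega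
  rw [h1, Nat.card_Icc]
  omega

/-- pigeonhole principle in a ball -/
theorem pig {p : ℕ} (hp : p.Prime) (m : ℕ) (c : ℤ) (I : Finset ℕ) (b : ℕ → ℤ) (J : ℕ) :
    ∃ y : ℤ, (p : ℤ) ^ m ∣ y - c ∧ ∀ j, 1 ≤ j → j ≤ J →
      (I.filter fun i => (p : ℤ) ^ (m + j) ∣ y - b i).card ≤ I.card / p ^ j := by
  classical
  have hppos : 0 < p := hp.pos
  induction J with
  | zero => exact ⟨c, by simp, fun j h1 h2 => by omega⟩
  | succ J ih =>
    obtain ⟨y, hyc, hy⟩ := ih
    -- number of points near `y`
    set I' := if J = 0 then I else I.filter fun i => (p : ℤ) ^ (m + J) ∣ y - b i with hI'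
    have hI'card : I'.card ≤ I.card / p ^ J := by
      rw [hI']
      split_ifs with h0
      · rw [h0]; simp
      · exact hy J (by omega) le_rfl
    have hdisj : ∀ t ∈ Finset.range p, (I.filter fun i =>
        (p : ℤ) ^ (m + (J + 1)) ∣ (y + (p : ℤ) ^ (m + J) * t) - b i) ⊆ I' := by
      intro t _ i hi
      rw [Finset.mem_filter] at hi
      rw [hI']
      split_ifs with h0
      · exact hi.1
      · rw [Finset.mem_filter]
        refine ⟨hi.1, ?_⟩
        have h1 := (pow_dvd_pow (p : ℤ) (show m + J ≤ m + (J + 1) by omega)).trans hi.2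
        have h2 : (p : ℤ) ^ (m + J) ∣ (p : ℤ) ^ (m + J) * t := dvd_mul_right _ _
        have h3 := dvd_sub h1 h2
        have : y + (p : ℤ) ^ (m + J) * t - b i - (p : ℤ) ^ (m + J) * t = y - b i := by ring
        rwa [this] at h3
    have hsum : ∑ t ∈ Finset.range p, (I.filter fun i =>
        (p : ℤ) ^ (m + (J + 1)) ∣ (y + (p : ℤ) ^ (m + J) * t) - b i).card ≤ I'.card := by
      rw [← Finset.card_biUnion]
      · exact Finset.card_le_card (Finset.biUnion_subset.mpr hdisj)
      · intro t ht t' ht' htt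
        rw [Function.onFun, Finset.disjoint_left]
        intro i hi hi'
        rw [Finset.mem_filter] at hi hi'
        apply htt
        have h1 := dvd_sub hi.2 hi'.2
        have h2 : y + (p : ℤ) ^ (m + J) * t - b i - (y + (p : ℤ) ^ (m + J) * t' - b i) =
            (p : ℤ) ^ (m + J) * ((t : ℤ) - t') := by ring
        rw [h2, show m + (J + 1) = (m + J) + 1 by ring, pow_succ] at h1
        have hne : (p : ℤ) ^ (m + J) ≠ 0 := pow_ne_zero _ (by exact_mod_cast hppos.ne')
        have h3 := (mul_dvd_mul_iff_left hne).mp h1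
        rw [Finset.mem_coe, Finset.mem_range] at ht ht'
        have h4 : (t : ℤ) ≡ t' [ZMOD (p : ℤ)] := (Int.modEq_iff_dvd.mpr (by
          rw [dvd_sub_comm]; exact h3))
        have h5 : t ≡ t' [MOD p] := (Int.natCast_modEq_iff).mp h4
        exact Nat.ModEq.eq_of_lt_of_lt h5 ht ht'
    obtain ⟨t, ht, htle⟩ : ∃ t ∈ Finset.range p, (I.filter fun i =>
        (p : ℤ) ^ (m + (J + 1)) ∣ (y + (p : ℤ) ^ (m + J) * t) - b i).card ≤ I'.card / p := by
      by_contra hcon
      push Not at hcon
      have h1 : ∑ t ∈ Finset.range p, (I'.card / p + 1) ≤ ∑ t ∈ Finset.range p, (I.filter fun i =>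
        (p : ℤ) ^ (m + (J + 1)) ∣ (y + (p : ℤ) ^ (m + J) * t) - b i).card :=
        Finset.sum_le_sum fun t ht => hcon t ht
      rw [Finset.sum_const, Finset.card_range, smul_eq_mul] at h1
      have h2 := Nat.div_add_mod I'.card p
      have h3 := Nat.mod_lt I'.card hppos
      have h4 : p * (I'.card / p + 1) = p * (I'.card / p) + p := by ring
      omega
    refine ⟨y + (p : ℤ) ^ (m + J) * t, ?_, fun j hj1 hjJ => ?_⟩
    · have : y + (p : ℤ) ^ (m + J) * t - c = (y - c) + (p : ℤ) ^ m * ((p : ℤ) ^ J * t) := by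
        rw [pow_add]; ring
      rw [this]
      exact dvd_add hyc (dvd_mul_right _ _)
    · rcases Nat.lt_or_ge j (J + 1) with hlt | hge
      · have hcongr : (I.filter fun i => (p : ℤ) ^ (m + j) ∣ y + (p : ℤ) ^ (m + J) * t - b i) =
            I.filter fun i => (p : ℤ) ^ (m + j) ∣ y - b i := by
          refine Finset.filter_congr fun i _ => ?_
          have h1 : (p : ℤ) ^ (m + j) ∣ (p : ℤ) ^ (m + J) * t :=
            (pow_dvd_pow _ (by omega)).mul_right _
          have h2 : y + (p : ℤ) ^ (m + J) * t - b i = (y - b i) + (p : ℤ) ^ (m + J) * t := by ring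
          rw [h2]
          exact (dvd_add_left h1)
        rw [hcongr]
        exact hy j hj1 (by omega)
      · have hj : j = J + 1 := by omega
        subst hj
        refine htle.trans ?_
        rw [pow_succ, ← Nat.div_div_eq_div_mul]
        exact Nat.div_le_div_right hI'card

/-- **Exact upper bound inside a full ball.** -/
theorem inner_le {S : Set ℤ} (hS : S.Infinite) {p : ℕ} (hp : p.Prime) {a : ℕ → ℤ}
    (ha : IsPOrdering S p a) {m : ℕ} {c : ℤ} (hF : Full S p m c) (k : ℕ)
    (hk : (p : ℤ) ^ m ∣ a k - c) :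
    ∑ i ∈ (Finset.range k).filter (fun i => (p : ℤ) ^ m ∣ a i - c), multiplicity (p : ℤ) (a k - a i) ≤
      m * ((Finset.range k).filter (fun i => (p : ℤ) ^ m ∣ a i - c)).card +
      (((Finset.range k).filter (fun i => (p : ℤ) ^ m ∣ a i - c)).card.factorial).factorization p := by
  classical
  set I := (Finset.range k).filter (fun i => (p : ℤ) ^ m ∣ a i - c) with hI
  set n := I.card with hn
  obtain ⟨y, hyc, hy⟩ := pig hp m c I a (n + 1)
  obtain ⟨s, hs, hsy⟩ := hF y hyc (m + (n + 1))
  have hinj := injective_of_ordering hS hp ha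
  -- `s` is far from the points of `I`
  have hfar : ∀ i ∈ I, ¬ (p : ℤ) ^ (m + (n + 1)) ∣ s - a i := by
    intro i hi hd
    have h1 := hy (n + 1) (by omega) le_rfl
    rw [Nat.div_eq_of_lt (by
      have := Nat.lt_pow_self (n := n + 1) hp.one_lt
      omega)] at h1
    have h2 := Finset.card_eq_zero.mp (Nat.le_zero.mp h1)
    rw [Finset.filter_eq_empty_iff] at h2
    apply h2 hi
    have h3 := dvd_sub hd hsy
    have : s - a i - (s - y) = y - a i := by ring
    rwa [this] at h3
  -- sum over `I` for `s`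
  have hsumI : ∑ i ∈ I, multiplicity (p : ℤ) (s - a i) ≤ m * n + n.factorial.factorization p := by
    have h1 : ∀ i ∈ I, multiplicity (p : ℤ) (s - a i) ≤ m +
        ((Finset.Icc 1 (n + 1)).filter fun j => (p : ℤ) ^ (m + j) ∣ y - a i).card := by
      intro i hi
      rw [mult_eq_card hp (hfar i hi)]
      have h2 : ((Finset.Icc 1 (m + (n + 1))).filter fun j => (p : ℤ) ^ j ∣ s - a i) ⊆
          Finset.Icc 1 m ∪ ((Finset.Icc 1 (n + 1)).filter
            fun j => (p : ℤ) ^ (m + j) ∣ y - a i).image fun j => m + j := by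
        intro j hj
        rw [Finset.mem_filter, Finset.mem_Icc] at hj
        rw [Finset.mem_union, Finset.mem_Icc, Finset.mem_image]
        by_cases hjm : j ≤ m
        · left; exact ⟨hj.1.1, hjm⟩
        · right
          refine ⟨j - m, ?_, by omega⟩
          rw [Finset.mem_filter, Finset.mem_Icc]
          refine ⟨⟨by omega, by omega⟩, ?_⟩
          rw [show m + (j - m) = j by omega]
          have h3 := (pow_dvd_pow (p : ℤ) hj.1.2).trans hsy
          have h4 := dvd_sub hj.2 h3
          have : s - a i - (s - y) = y - a i := by ring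
          rwa [this] at h4
      refine (Finset.card_le_card h2).trans ((Finset.card_union_le _ _).trans ?_)
      rw [Nat.card_Icc]
      have h3 := Finset.card_image_le (s := (Finset.Icc 1 (n + 1)).filter
            fun j => (p : ℤ) ^ (m + j) ∣ y - a i) (f := fun j => m + j)
      omega
    refine (Finset.sum_le_sum h1).trans ?_
    rw [Finset.sum_add_distrib, Finset.sum_const, smul_eq_mul, mul_comm n m]
    refine Nat.add_le_add_left ?_ _
    simp_rw [Finset.card_filter]
    rw [Finset.sum_comm]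
    simp_rw [← Finset.card_filter]
    rw [Nat.factorization_def _ hp]
    have : Fact p.Prime := ⟨hp⟩
    have hlog : Nat.log p n < n + 2 := by
      have := Nat.log_le_self p n
      omega
    rw [padicValNat_factorial hlog]
    have h4 : Finset.Ico 1 (n + 2) = Finset.Icc 1 (n + 1) := by
      ext j; rw [Finset.mem_Ico, Finset.mem_Icc]; omega
    rw [h4]
    refine Finset.sum_le_sum fun j hj => ?_
    rw [Finset.mem_Icc] at hj
    exact hy j hj.1 hj.2
  -- `s` differs from all earlier terms
  have hsk : (p : ℤ) ^ m ∣ s - a k := by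
    have h1 := (pow_dvd_pow (p : ℤ) (show m ≤ m + (n + 1) by omega)).trans hsy
    have h2 := dvd_sub (dvd_add h1 hyc) hk
    have : s - y + (y - c) - (a k - c) = s - a k := by ring
    rwa [this] at h2
  have hout : ∀ i ∈ (Finset.range k).filter (fun i => ¬ (p : ℤ) ^ m ∣ a i - c),
      multiplicity (p : ℤ) (s - a i) = multiplicity (p : ℤ) (a k - a i) ∧ s - a i ≠ 0 := by
    intro i hi
    rw [Finset.mem_filter] at hi
    have h1 : ¬ (p : ℤ) ^ m ∣ a k - a i := by
      intro h
      apply hi.2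
      have h2 := dvd_sub hk h
      have : a k - c - (a k - a i) = a i - c := by ring
      rwa [this] at h2
    have h2 : (p : ℤ) ^ m ∣ (s - a i) - (a k - a i) := by
      have : (s - a i) - (a k - a i) = s - a k := by ring
      rwa [this]
    refine ⟨mult_congr hp h2 h1, ?_⟩
    intro h0
    rw [h0] at h2
    apply h1
    rwa [zero_sub, dvd_neg] at h2
  have hsne : ∀ i ∈ Finset.range k, s - a i ≠ 0 := by
    intro i hi
    by_cases hin : (p : ℤ) ^ m ∣ a i - c
    · intro h0
      apply hfar i (Finset.mem_filter.mpr ⟨hi, hin⟩)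
      rw [h0]; exact dvd_zero _
    · exact (hout i (Finset.mem_filter.mpr ⟨hi, hin⟩)).2
  have hane : ∀ i ∈ Finset.range k, a k - a i ≠ 0 := by
    intro i hi h0
    have := hinj (sub_eq_zero.mp h0)
    rw [Finset.mem_range] at hi
    omega
  have hwp : wp p a k ≤ multiplicity (p : ℤ) (V a k s) := by
    have h1 := pow_wp_dvd hS hp ha k s hs
    have h2 : V a k s ≠ 0 := by
      unfold V; rw [Finset.prod_ne_zero_iff]; exact hsne
    have hfin : FiniteMultiplicity (p : ℤ) (V a k s) := by
      rw [Int.finiteMultiplicity_iff]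
      exact ⟨by simpa using hp.ne_one, h2⟩
    rwa [hfin.pow_dvd_iff_le_multiplicity] at h1
  unfold wp V at hwp
  rw [mult_prod hp _ _ hane, mult_prod hp _ _ hsne,
    ← Finset.sum_filter_add_sum_filter_not (Finset.range k) (fun i => (p : ℤ) ^ m ∣ a i - c),
    ← Finset.sum_filter_add_sum_filter_not (Finset.range k) (fun i => (p : ℤ) ^ m ∣ a i - c)
      (fun i => multiplicity (p : ℤ) (s - a i)),
    Finset.sum_congr rfl (fun i hi => (hout i hi).1)] at hwp
  rw [← hI] at hwp
  omega

end Pool.Agent.Work.MP_b29d7f_nt
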