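import Pool.Agent.Work.MP_b29d7f_nt.Fact

/-!
# The contribution of the large primes
-/

open Filter Topology Chebyshev

namespace Pool.Agent.Work.MP_b29d7f_nt

theorem tail_bound (w : ℕ → ℕ → ℕ) (η : ℕ → ℝ) (P₁ : ℕ)
    (hη : ∀ p : ℕ, p.Prime → P₁ < p → 0 ≤ η p)
    (hw : ∀ p : ℕ, p.Prime → P₁ < p → ∀ k : ℕ, (w p k : ℝ) ≤ k * ((1 + η p) / p))
    (hsum : Summable fun p : ℕ => if p.Prime ∧ P₁ < p then η p * Real.log p / p else 0)
    (ε : ℝ) (hε : 0 < ε) :
    ∃ P₀, P₁ ≤ P₀ ∧ ∀ P, P₀ ≤ P → ∃ C : ℝ, ∀ k : ℕ, ∀ F : Finset ℕ,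
      (∀ p ∈ F, p.Prime ∧ P < p) →
      ∑ p ∈ F, (w p k : ℝ) * Real.log p ≤
        ∑ p ∈ k.primesLE.filter (fun p => P < p), ((k / p : ℕ) : ℝ) * Real.log p + ε * k + C := by
  classical
  obtain ⟨C₀, hC₀, hmert⟩ := mertens_lower_all
  have hlog4 : 0 < Real.log 4 := Real.log_pos (by norm_num)
  have hlognn : ∀ n : ℕ, 0 ≤ Real.log n := fun n => Real.log_natCast_nonneg n
  -- choice of J
  obtain ⟨J, hJ⟩ := exists_nat_gt (6 * Real.log 4 / ε)
  have hJpos : (0 : ℝ) < J := lt_trans (by positivity) hJ
  have hJ1 : 1 ≤ J := by exact_mod_cast hJpos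
  have hJε : 2 * Real.log 4 / J ≤ ε / 3 := by
    rw [div_lt_iff₀ hε] at hJ
    rw [div_le_iff₀ hJpos]
    linarith
  set L₀ : ℝ := Real.log (6 * J) + C₀ with hL₀
  have hL₀nn : 0 ≤ L₀ := by
    have : 0 ≤ Real.log (6 * (J : ℝ)) := by
      apply Real.log_nonneg
      have : (1 : ℝ) ≤ J := by exact_mod_cast hJ1
      linarith
    linarith
  obtain ⟨R, hR⟩ := exists_nat_gt (3 * L₀ / ε)
  set R' := R + 1 with hR'
  have hR'pos : (0 : ℝ) < R' := by rw [hR']; positivity
  have hRε : L₀ / R' ≤ ε / 3 := by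
    rw [div_lt_iff₀ hε] at hR
    rw [div_le_iff₀ hR'pos, hR']
    push_cast
    nlinarith
  -- choice of P₀
  obtain ⟨s₀, hs₀⟩ := (hsum.vanishing (e := Set.Iio (ε / (3 * (2 + R')))) (by
    refine Iio_mem_nhds ?_
    positivity))
  set P₀ := max P₁ (s₀.sup id) with hP₀
  refine ⟨P₀, le_max_left _ _, fun P hP => ?_⟩
  have hP₁P : P₁ ≤ P := (le_max_left _ _).trans hP
  have htail : ∀ F : Finset ℕ, (∀ p ∈ F, p.Prime ∧ P < p) →
      ∑ p ∈ F, η p * Real.log p / p ≤ ε / (3 * (2 + R')) := by
    intro F hF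
    have h1 := hs₀ F (by
      rw [Finset.disjoint_left]
      intro p hp hp'
      have h2 : p ≤ s₀.sup id := Finset.le_sup (f := id) hp'
      have h3 := (hF p hp).2
      have h4 : s₀.sup id ≤ P₀ := le_max_right _ _
      omega)
    rw [Set.mem_Iio] at h1
    refine le_trans (le_of_eq ?_) h1.le
    refine Finset.sum_congr rfl fun p hp => ?_
    have h2 := hF p hp
    rw [if_pos ⟨h2.1, by omega⟩]
  have hτ0 : 0 ≤ ε / (3 * (2 + R')) := by positivity
  refine ⟨L₀ + Real.log ((4 * J + 1).factorial : ℝ), fun k F hF => ?_⟩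
  have hfac0 : 0 ≤ Real.log ((4 * J + 1).factorial : ℝ) := hlognn _
  set z := k / J with hz
  set k' := k + k / R' + 1 with hk'
  have hkk' : k ≤ k' := by rw [hk', add_assoc]; exact Nat.le_add_right _ _
  have hkr : (0 : ℝ) ≤ k := Nat.cast_nonneg k
  -- k' is at least (1 + 1/R') k
  have hk'ge : (k : ℝ) * (1 + 1 / R') ≤ k' := by
    have h1 : k < (k / R' + 1) * R' := by
      have h2 := Nat.div_add_mod k R'
      have h3 := Nat.mod_lt k (show R' > 0 by omega)
      nlinarith
    have h2 : (k : ℝ) < ((k / R' : ℕ) + 1) * R' := by exact_mod_cast h1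
    have h3 : (k : ℝ) / R' ≤ (k / R' : ℕ) + 1 := by
      rw [div_le_iff₀ hR'pos]; exact h2.le
    rw [hk']
    push_cast
    rw [mul_add, mul_one, mul_one_div]
    linarith
  have hk'le : (k' : ℝ) - k ≤ k / R' + 1 := by
    have h1 : ((k / R' : ℕ) : ℝ) ≤ (k : ℝ) / R' := Nat.cast_div_le
    rw [hk']
    push_cast
    linarith
  -- pointwise bound
  have hpt : ∀ p ∈ F, (w p k : ℝ) * Real.log p ≤
      (if p ≤ z then (((k / p : ℕ) : ℝ) + 1) * Real.log p else ((k' / p : ℕ) : ℝ) * Real.log p) +
        (2 + R') * k * (η p * Real.log p / p) := by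
    intro p hp
    obtain ⟨hpp, hPp⟩ := hF p hp
    have hP₁p : P₁ < p := by omega
    have hη0 := hη p hpp hP₁p
    have hwp := hw p hpp hP₁p k
    have hpr : (0 : ℝ) < p := by exact_mod_cast hpp.pos
    have hlogp := hlognn p
    have hterm : 0 ≤ η p * Real.log p / p := by positivity
    split_ifs with hpz
    · have h1 : (k : ℝ) / p ≤ ((k / p : ℕ) : ℝ) + 1 := by
        rw [div_le_iff₀ hpr]
        have h2 : k < (k / p + 1) * p := by
          have := Nat.div_add_mod k p
          have := Nat.mod_lt k hpp.pos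
          nlinarith
        have h3 : (k : ℝ) < (((k / p : ℕ) : ℝ) + 1) * p := by exact_mod_cast h2
        exact h3.le
      calc (w p k : ℝ) * Real.log p ≤ (k * ((1 + η p) / p)) * Real.log p :=
            mul_le_mul_of_nonneg_right hwp hlogp
        _ = (k / p) * Real.log p + k * (η p * Real.log p / p) := by ring
        _ ≤ (((k / p : ℕ) : ℝ) + 1) * Real.log p + (2 + R') * k * (η p * Real.log p / p) := by
            refine add_le_add (mul_le_mul_of_nonneg_right h1 hlogp) ?_
            refine mul_le_mul_of_nonneg_right ?_ hterm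
            nlinarith
    · by_cases hsmall : η p ≤ 1 / R'
      · have h1 : (w p k : ℝ) * p ≤ k' := by
          have h2 : (w p k : ℝ) * p ≤ k * (1 + η p) := by
            calc (w p k : ℝ) * p ≤ (k * ((1 + η p) / p)) * p :=
                  mul_le_mul_of_nonneg_right hwp hpr.le
              _ = _ := by field_simp
          refine h2.trans (le_trans ?_ hk'ge)
          exact mul_le_mul_of_nonneg_left (by linarith) hkr
        have h3 : w p k * p ≤ k' := by exact_mod_cast h1
        have h4 : w p k ≤ k' / p := (Nat.le_div_iff_mul_le hpp.pos).mpr h3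
        have h5 : (w p k : ℝ) ≤ ((k' / p : ℕ) : ℝ) := by exact_mod_cast h4
        have h6 : 0 ≤ (2 + R') * k * (η p * Real.log p / p) := by positivity
        have h7 := mul_le_mul_of_nonneg_right h5 hlogp
        linarith
      · push Not at hsmall
        have h1 : 1 + η p ≤ (2 + R') * η p := by
          have h2 : 1 ≤ R' * η p := by
            rw [div_lt_iff₀ hR'pos] at hsmall
            linarith
          nlinarith
        have h2 : 0 ≤ ((k' / p : ℕ) : ℝ) * Real.log p := by positivity
        calc (w p k : ℝ) * Real.log p ≤ (k * ((1 + η p) / p)) * Real.log p :=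
              mul_le_mul_of_nonneg_right hwp hlogp
          _ = (1 + η p) * (k * Real.log p / p) := by ring
          _ ≤ ((2 + R') * η p) * (k * Real.log p / p) :=
              mul_le_mul_of_nonneg_right h1 (by positivity)
          _ = (2 + R') * k * (η p * Real.log p / p) := by ring
          _ ≤ _ := by linarith
  have hS1 : ∑ p ∈ F, (w p k : ℝ) * Real.log p ≤
      (∑ p ∈ F, (if p ≤ z then (((k / p : ℕ) : ℝ) + 1) * Real.log p else
        ((k' / p : ℕ) : ℝ) * Real.log p)) + ε / 3 * k := by
    refine (Finset.sum_le_sum hpt).trans ?_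
    rw [Finset.sum_add_distrib, ← Finset.mul_sum]
    have h1 := mul_le_mul_of_nonneg_left (htail F hF) (show 0 ≤ (2 + (R' : ℝ)) * k by positivity)
    have h2 : (2 + (R' : ℝ)) * k * (ε / (3 * (2 + R'))) = ε / 3 * k := by field_simp
    linarith
  -- the two parts of the sum
  have hS2 : ∑ p ∈ F, (if p ≤ z then (((k / p : ℕ) : ℝ) + 1) * Real.log p else
        ((k' / p : ℕ) : ℝ) * Real.log p) ≤
      ∑ p ∈ k.primesLE.filter (fun p => P < p), ((k / p : ℕ) : ℝ) * Real.log p +
        ∑ p ∈ z.primesLE, Real.log p +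
        ∑ p ∈ k'.primesLE.filter (fun p => z < p), (((k' / p : ℕ) : ℝ) - ((k / p : ℕ) : ℝ)) *
          Real.log p := by
    have e1 : ∀ p ∈ F, (if p ≤ z then (((k / p : ℕ) : ℝ) + 1) * Real.log p else
        ((k' / p : ℕ) : ℝ) * Real.log p) =
        ((k / p : ℕ) : ℝ) * Real.log p + (if p ≤ z then Real.log p else 0) +
        (if z < p then (((k' / p : ℕ) : ℝ) - ((k / p : ℕ) : ℝ)) * Real.log p else 0) := by
      intro p _
      by_cases h : p ≤ z
      · rw [if_pos h, if_pos h, if_neg (not_lt.mpr h)]; ring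
      · rw [if_neg h, if_neg h, if_pos (not_le.mp h)]; ring
    rw [Finset.sum_congr rfl e1, Finset.sum_add_distrib, Finset.sum_add_distrib]
    refine add_le_add (add_le_add ?_ ?_) ?_
    · -- terms with p > k vanish
      rw [← Finset.sum_filter_add_sum_filter_not F (fun p => p ≤ k)]
      have h0 : ∑ p ∈ F.filter (fun p => ¬ p ≤ k), ((k / p : ℕ) : ℝ) * Real.log p = 0 := by
        refine Finset.sum_eq_zero fun p hp => ?_
        rw [Finset.mem_filter] at hp
        rw [Nat.div_eq_of_lt (by omega)]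
        simp
      rw [h0, add_zero]
      refine Finset.sum_le_sum_of_subset_of_nonneg ?_ fun p _ _ =>
        mul_nonneg (Nat.cast_nonneg _) (hlognn p)
      intro p hp
      rw [Finset.mem_filter] at hp
      rw [Finset.mem_filter, Nat.mem_primesLE]
      exact ⟨⟨hp.2, (hF p hp.1).1⟩, (hF p hp.1).2⟩
    · rw [← Finset.sum_filter]
      refine Finset.sum_le_sum_of_subset_of_nonneg ?_ fun p _ _ => hlognn p
      intro p hp
      rw [Finset.mem_filter] at hp
      rw [Nat.mem_primesLE]
      exact ⟨hp.2, (hF p hp.1).1⟩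
    · rw [← Finset.sum_filter]
      rw [← Finset.sum_filter_add_sum_filter_not (F.filter fun p => z < p) (fun p => p ≤ k')]
      have h0 : ∑ p ∈ (F.filter fun p => z < p).filter (fun p => ¬ p ≤ k'),
          (((k' / p : ℕ) : ℝ) - ((k / p : ℕ) : ℝ)) * Real.log p = 0 := by
        refine Finset.sum_eq_zero fun p hp => ?_
        rw [Finset.mem_filter] at hp
        rw [Nat.div_eq_of_lt (by omega), Nat.div_eq_of_lt (by omega)]
        simp
      rw [h0, add_zero]
      refine Finset.sum_le_sum_of_subset_of_nonneg ?_ fun p _ _ => ?_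
      · intro p hp
        rw [Finset.mem_filter, Finset.mem_filter] at hp
        rw [Finset.mem_filter, Nat.mem_primesLE]
        exact ⟨⟨hp.2, (hF p hp.1.1).1⟩, hp.1.2⟩
      · have h1 : k / p ≤ k' / p := Nat.div_le_div_right hkk'
        have h2 : ((k / p : ℕ) : ℝ) ≤ ((k' / p : ℕ) : ℝ) := by exact_mod_cast h1
        exact mul_nonneg (by linarith) (hlognn p)
  have hθ : ∑ p ∈ z.primesLE, Real.log p ≤ Real.log 4 * (k / J) := by
    rw [← theta_eq_sum_primesLE_log]
    refine (theta_le_log4_mul_x (Nat.cast_nonneg z)).trans ?_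
    exact mul_le_mul_of_nonneg_left Nat.cast_div_le hlog4.le
  -- the difference of floors
  have hD : ∑ p ∈ k'.primesLE.filter (fun p => z < p),
      (((k' / p : ℕ) : ℝ) - ((k / p : ℕ) : ℝ)) * Real.log p ≤
      (k / R' + 1) * L₀ + Real.log 4 * (k / J) + Real.log ((4 * J + 1).factorial : ℝ) := by
    rcases Nat.lt_or_ge k (2 * J) with hksmall | hkbig
    · -- small k
      have hk'J : k' ≤ 4 * J + 1 := by
        have : k / R' ≤ k := Nat.div_le_self _ _
        omega
      have h1 : ∑ p ∈ k'.primesLE.filter (fun p => z < p),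
          (((k' / p : ℕ) : ℝ) - ((k / p : ℕ) : ℝ)) * Real.log p ≤
          ∑ p ∈ (4 * J + 1).primesLE, ((4 * J + 1).factorial.factorization p : ℝ) * Real.log p := by
        refine (Finset.sum_le_sum (g := fun p =>
          ((4 * J + 1).factorial.factorization p : ℝ) * Real.log p) fun p hp => ?_).trans ?_
        · rw [Finset.mem_filter, Nat.mem_primesLE] at hp
          refine mul_le_mul_of_nonneg_right ?_ (hlognn p)
          have hpp := hp.1.2
          have h2 : k' / p ≤ (4 * J + 1).factorial.factorization p := by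
            rw [← hpp.pow_dvd_iff_le_factorization (Nat.factorial_ne_zero _),
              Nat.Prime.pow_dvd_factorial_iff hpp (b := Nat.log p (4 * J + 1) + 2) (by omega)]
            calc k' / p ≤ (4 * J + 1) / p ^ 1 := by rw [pow_one]; exact Nat.div_le_div_right hk'J
              _ ≤ _ := Finset.single_le_sum (f := fun i => (4 * J + 1) / p ^ i)
                (fun _ _ => Nat.zero_le _) (Finset.mem_Ico.mpr ⟨le_rfl, by omega⟩)
          have h3 : ((k' / p : ℕ) : ℝ) ≤ ((4 * J + 1).factorial.factorization p : ℝ) := by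
            exact_mod_cast h2
          have h4 : (0 : ℝ) ≤ ((k / p : ℕ) : ℝ) := Nat.cast_nonneg _
          linarith
        · refine Finset.sum_le_sum_of_subset_of_nonneg ?_ fun p _ _ =>
            mul_nonneg (Nat.cast_nonneg _) (hlognn p)
          intro p hp
          rw [Finset.mem_filter, Nat.mem_primesLE] at hp
          rw [Nat.mem_primesLE]
          exact ⟨hp.1.1.trans hk'J, hp.1.2⟩
      rw [← log_factorial_eq (4 * J + 1) (4 * J + 1) le_rfl] at h1
      have h2 : 0 ≤ (k / R' + 1) * L₀ + Real.log 4 * ((k : ℝ) / J) := by positivity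
      linarith
    · -- large k
      have hz1 : 1 ≤ z := by
        rw [hz, Nat.le_div_iff_mul_le (by omega)]
        omega
      have hzk : z ≤ k' := (Nat.div_le_self _ _).trans hkk'
      have hkpos : (0 : ℝ) < k := by
        have : 0 < k := by omega
        exact_mod_cast this
      have h1 := floor_diff k k' hkk' k'.primesLE fun p hp => Nat.prime_of_mem_primesLE hp
      have h2 : ∑ p ∈ k'.primesLE, (((k' / p : ℕ) : ℝ) - ((k / p : ℕ) : ℝ)) * Real.log p =
          ∑ p ∈ k'.primesLE.filter (fun p => z < p),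
            (((k' / p : ℕ) : ℝ) - ((k / p : ℕ) : ℝ)) * Real.log p +
          ∑ p ∈ z.primesLE, (((k' / p : ℕ) : ℝ) - ((k / p : ℕ) : ℝ)) * Real.log p := by
        rw [← Finset.sum_filter_add_sum_filter_not k'.primesLE (fun p => z < p)]
        congr 1
        refine Finset.sum_congr ?_ fun _ _ => rfl
        ext p
        rw [Finset.mem_filter, Nat.mem_primesLE, Nat.mem_primesLE]
        constructor
        · rintro ⟨⟨_, h2⟩, h3⟩; exact ⟨by omega, h2⟩
        · rintro ⟨h1, h2⟩; exact ⟨⟨by omega, h2⟩, by omega⟩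
      have h3 : ((k' : ℝ) - k) * (∑ p ∈ z.primesLE, Real.log p / p) - ∑ p ∈ z.primesLE, Real.log p ≤
          ∑ p ∈ z.primesLE, (((k' / p : ℕ) : ℝ) - ((k / p : ℕ) : ℝ)) * Real.log p := by
        rw [Finset.mul_sum, ← Finset.sum_sub_distrib]
        refine Finset.sum_le_sum fun p hp => ?_
        have hpp := Nat.prime_of_mem_primesLE hp
        have hpr : (0 : ℝ) < p := by exact_mod_cast hpp.pos
        have e1 : (k' : ℝ) / p - 1 ≤ ((k' / p : ℕ) : ℝ) := by
          have h2 : k' < (k' / p + 1) * p := by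
            have := Nat.div_add_mod k' p
            have := Nat.mod_lt k' hpp.pos
            nlinarith
          have h3 : (k' : ℝ) < (((k' / p : ℕ) : ℝ) + 1) * p := by exact_mod_cast h2
          rw [sub_le_iff_le_add, div_le_iff₀ hpr]
          exact h3.le
        have e2 : ((k / p : ℕ) : ℝ) ≤ (k : ℝ) / p := Nat.cast_div_le
        calc ((k' : ℝ) - k) * (Real.log p / p) - Real.log p =
              ((k' : ℝ) / p - 1 - k / p) * Real.log p := by field_simp; ring
          _ ≤ _ := mul_le_mul_of_nonneg_right (by linarith) (hlognn p)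
      have h4 := hmert z hz1
      have hk'k0 : (0 : ℝ) ≤ k' - k := by
        have : (k : ℝ) ≤ k' := by exact_mod_cast hkk'
        linarith
      have h5 := mul_le_mul_of_nonneg_left h4 hk'k0
      have hlogz : Real.log k' - Real.log z ≤ Real.log (6 * J) := by
        have hzr : (0 : ℝ) < z := by exact_mod_cast hz1
        have hk'r : (0 : ℝ) < k' := by rw [hk']; positivity
        rw [← Real.log_div hk'r.ne' hzr.ne']
        refine Real.log_le_log (by positivity) ?_
        rw [div_le_iff₀ hzr]
        have e1 : k' ≤ 3 * k := by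
          have : k / R' ≤ k := Nat.div_le_self _ _
          omega
        have e2 : k ≤ 2 * J * z := by
          have h6 := Nat.div_add_mod k J
          have h7 := Nat.mod_lt k (show J > 0 by omega)
          rw [← hz] at h6
          nlinarith
        have e3 : k' ≤ 6 * J * z := by nlinarith
        exact_mod_cast e3
      have h6 : ((k' : ℝ) - k) * (Real.log k' - Real.log z + C₀) ≤ (k / R' + 1) * L₀ := by
        calc ((k' : ℝ) - k) * (Real.log k' - Real.log z + C₀) ≤ ((k' : ℝ) - k) * L₀ :=
              mul_le_mul_of_nonneg_left (by rw [hL₀]; linarith) hk'k0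
          _ ≤ _ := mul_le_mul_of_nonneg_right hk'le hL₀nn
      linarith
  -- final assembly
  have h1 : (k / R' + 1) * L₀ = k * (L₀ / R') + L₀ := by ring
  have h2 := mul_le_mul_of_nonneg_left hRε hkr
  have h3 : 2 * (Real.log 4 * ((k : ℝ) / J)) = k * (2 * Real.log 4 / J) := by ring
  have h4 := mul_le_mul_of_nonneg_left hJε hkr
  linarith

end Pool.Agent.Work.MP_b29d7f_nt
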